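import Pool.Agent.W_eea520_h99.Defs

/-!
# The edge of the `L`-functions of `GSp_{2n}`: definitions (MP_eea520_nt)
-/

set_option autoImplicit false

namespace Pool.Agent.EEA520

open Filter Topology

/-- The group ring of the group of weights. -/
abbrev R (n : ℕ) : Type := AddMonoidAlgebra ℤ (Wt n)

/-- The element `[w]` of the group ring. -/
noncomputable def mon {n : ℕ} (w : Wt n) : R n := AddMonoidAlgebra.single w 1

/-- The alternating sum of the images of the weight `(K, M)` under the Weyl group of `GSpin_{2N+1}`: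
`c ^ K * det (x_i ^ (M_j) - x_i ^ (K - M_j))`. (The Weyl group is generated by the permutations of
the `x_i` and the reflections `x_i ↦ x_i⁻¹`, `c ↦ c x_i`.) -/
noncomputable def alt {N : ℕ} (K : ℤ) (M : Fin N → ℤ) : R N :=
  mon (K, 0) * Matrix.det (Matrix.of fun i j : Fin N =>
    (mon (0, Pi.single i (M j)) - mon (0, Pi.single i (K - M j)) : R N))

/-- `m` is the character of the irreducible representation of `GSpin_{2N+1}` with the highest weight
`(k, μ)`, by Weyl's character formula. The weight is dominant if and only if `μ` is decreasing and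
`k ≤ 2 μ_i`; half of the sum of the positive roots is `(N - 1/2, …, 1/2)`, and both sides of the formula
have been multiplied with the invariant weight `(1, (1/2, …, 1/2))`. The representation is a
representation of `SO_{2N+1}` if and only if `k = 0`. -/
def IsIrr {N : ℕ} (k : ℤ) (μ : Fin N → ℤ) (m : Wt N →₀ ℤ) : Prop :=
  Antitone μ ∧ (∀ i, k ≤ 2 * μ i) ∧
    AddMonoidAlgebra.ofCoeff m * alt 1 (fun j : Fin N => (N : ℤ) - j) =
      alt (k + 1) (fun j : Fin N => μ j + ((N : ℤ) - j))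

end Pool.Agent.EEA520

namespace Pool.Agent.EEAN

open Filter Topology Pool.Agent.EEA520

/-- The weight `ρ = (1, (n, n - 1, …, 1))`, half of the sum of the positive roots plus the invariant
weight `(1, (1/2, …, 1/2))`. -/
def rho (n : ℕ) : Wt n := (1, fun j => (n : ℤ) - j)

/-- `e` is a character with values `± 1` of a subgroup, and it is zero outside this subgroup. -/
def IsSign {X : Type} [AddCommGroup X] (e : X → ℤ) : Prop :=
  e 0 = 1 ∧ ∀ x y, e y ≠ 0 → e (x + y) = e x * e y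

/-- Invariance under the Weyl group. -/
def IsInv {n : ℕ} (f : Wt n → ℤ) : Prop :=
  (∀ (σ : Equiv.Perm (Fin n)) (k : ℤ) (μ : Fin n → ℤ), f (k, μ ∘ σ) = f (k, μ)) ∧
  ∀ (i : Fin n) (k : ℤ) (μ : Fin n → ℤ), f (k, Function.update μ i (k - μ i)) = f (k, μ)

/-- The sum of `sgn w * e (w ((k, μ) + ρ) - ρ)` over the Weyl group. -/
noncomputable def ordE {n : ℕ} (e : Wt n → ℤ) (k : ℤ) (μ : Fin n → ℤ) : ℤ :=
  (alt (k + 1) fun j : Fin n => μ j + ((n : ℤ) - j)).coeff.sum fun u z => z * e (u - rho n)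

/-- The character of `ℤ ^ n` with the value `1` at `0` and `0` elsewhere. -/
def fST {n : ℕ} (x : Fin n → ℤ) : ℤ := if x = 0 then 1 else 0

/-- The mean value of `∏ t_i ^ (x_i)` over the `t` with `t_i ^ N = η`, `η = ± 1`, and for `η = 0`
over the `t` with `t_i ^ N = 1` for all `i` or `t_i ^ N = -1` for all `i`. -/
def fA {n : ℕ} (N : ℕ) (η : ℤ) (x : Fin n → ℤ) : ℤ :=
  if ∀ i, (N : ℤ) ∣ x i then (if (2 * N : ℤ) ∣ ∑ i, x i then 1 else η) else 0

/-- The mean value of `∏ t_i ^ (x_i)` over the `t` with `t_i ^ (2 N) = 1` and `∏ t_i ^ N = η`. -/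
def fR {n : ℕ} (N : ℕ) (η : ℤ) (x : Fin n → ℤ) : ℤ :=
  if (∀ i, (N : ℤ) ∣ x i) ∧ ∀ i j, (2 * N : ℤ) ∣ x i - x j then
    (if ∀ i, (2 * N : ℤ) ∣ x i then 1 else η) else 0

/-- The possible types: Sato-Tate, and finite types. -/
def SignType {n : ℕ} (e : (Fin n → ℤ) → ℤ) : Prop :=
  e = fST ∨ ∃ N : ℕ, 1 ≤ N ∧ ((∃ η : ℤ, (η = 1 ∨ η = -1 ∨ η = 0) ∧ e = fA N η) ∨
    ∃ η : ℤ, (η = 1 ∨ η = -1) ∧ e = fR N η)

/-- The trace of `π p` in the representation with the character `m`. -/
noncomputable def trc {n : ℕ} (π : GSys n) (m : Wt n →₀ ℤ) (p : Pr) : ℂ :=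
  m.sum fun w e => (e : ℂ) * ((π p).ev w : ℂ)

/-- `L` is the mean value of `f` over the primes, in the sense of Dirichlet density. -/
def DirMean (f : Pr → ℝ) (L : ℝ) : Prop :=
  Tendsto (fun s : ℝ => (∑' p : Pr, f p * ((p : ℕ) : ℝ) ^ (-s)) / ∑' p : Pr, ((p : ℕ) : ℝ) ^ (-s))
    (𝓝[>] 1) (𝓝 L)

/-- `L` is the mean value of `f` over the primes, in the sense of natural density. -/
def NatMean (f : Pr → ℝ) (L : ℝ) : Prop :=
  Tendsto (fun N : ℕ => (∑ k ∈ Finset.range (N + 1), if h : k.Prime then f ⟨k, h⟩ else 0) /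
    (Nat.primeCounting N : ℝ)) atTop (𝓝 L)

end Pool.Agent.EEAN
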