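import Pool.Agent.W_eea520_n.K0

set_option autoImplicit false

namespace Pool.Agent.EEAN

open Filter Topology Pool.Agent.EEA520 Pool.Agent.EEAG1
open scoped InnerProductSpace

/-- Limits of positive definite functions are positive definite: `c (-g) = c g` and the inequality
`0 ≤ ∑ a_i a_j c (i - j)` (a finite sum) pass to the limit (`ge_of_tendsto`, `tendsto_finset_sum`). -/
theorem posDefG_limit {G κ : Type} [AddCommGroup G] (V : Ultrafilter κ) {c : κ → G → ℝ} {d : G → ℝ}
    (hc : ∀ᶠ k in (V : Filter κ), PosDefG (c k)) (h : ∀ g, Tendsto (fun k => c k g) V (𝓝 (d g))) :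
    PosDefG d := by
  refine ⟨fun g => ?_, fun x => ?_⟩
  · refine tendsto_nhds_unique ((h (-g)).congr' ?_) (h g)
    filter_upwards [hc] with k hk
    exact hk.symm g
  · have h1 : Tendsto (fun k => x.sum fun i b => x.sum fun j e => b * e * c k (i - j)) V
        (𝓝 (x.sum fun i b => x.sum fun j e => b * e * d (i - j))) := by
      unfold Finsupp.sum
      exact tendsto_finsetSum _ fun i _ => tendsto_finsetSum _ fun j _ => (h (i - j)).const_mul _
    refine ge_of_tendsto h1 ?_
    filter_upwards [hc] with k hk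
    exact hk.nonneg x

/-- A bounded family of functions has a limit along an ultrafilter. If `|c k g| ≤ C` for almost all `k`
then there is a limit, as `[-C, C]` is compact (`IsCompact.ultrafilter_le_nhds`, see the proof of
`Pool.Agent.EEAG1.exists_ultra` in `W_eea520_G/C2.lean`). -/
theorem exists_limit {G κ : Type} (V : Ultrafilter κ) (c : κ → G → ℝ) (C : ℝ)
    (hc : ∀ g, ∀ᶠ k in (V : Filter κ), |c k g| ≤ C) :
    ∃ d : G → ℝ, ∀ g, Tendsto (fun k => c k g) V (𝓝 (d g)) := by
  have hlim : ∀ g, ∃ x : ℝ, Tendsto (fun k => c k g) V (𝓝 x) := by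
    intro g
    have h1 : ∀ᶠ k in (V : Filter κ), c k g ∈ Set.Icc (-C) C := by
      filter_upwards [hc g] with k hk
      exact abs_le.1 hk
    have h2 := (isCompact_Icc (a := -C) (b := C)).ultrafilter_le_nhds (V.map fun k => c k g)
      (by
        rw [Ultrafilter.coe_map, Filter.le_principal_iff]
        exact h1)
    obtain ⟨x, _, hx⟩ := h2
    exact ⟨x, hx⟩
  choose d hd using hlim
  exact ⟨d, hd⟩

/-- A limit of integers is an integer, and almost all members are equal to the limit
(`Int.isClosedEmbedding_coe_real` or: if `c k → d`, then almost all `|c k - d| < 1/4`, so almost all `c k` are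
within `1/2` of one of them, hence equal to it; then the limit is this integer by
`tendsto_nhds_unique`; see `int_of_tendsto` in `W_eea520_G/B.lean`). -/
theorem int_limit {κ : Type} (V : Ultrafilter κ) {c : κ → ℝ} {d : ℝ}
    (hc : ∀ᶠ k in (V : Filter κ), ∃ n : ℤ, c k = n) (h : Tendsto c V (𝓝 d)) :
    (∃ n : ℤ, d = n) ∧ ∀ᶠ k in (V : Filter κ), c k = d := by
  have hcl : IsClosed (Set.range ((↑) : ℤ → ℝ)) := Int.isClosedEmbedding_coe_real.isClosed_range
  obtain ⟨n, hn⟩ := hcl.mem_of_tendsto h (by
    filter_upwards [hc] with k hk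
    obtain ⟨m, hm⟩ := hk
    exact ⟨m, hm.symm⟩)
  refine ⟨⟨n, hn.symm⟩, ?_⟩
  have h1 := h.eventually (Metric.ball_mem_nhds d (show (0 : ℝ) < 1 by norm_num))
  filter_upwards [h1, hc] with k hk hck
  obtain ⟨m, hm⟩ := hck
  rw [← hn] at hk ⊢
  rw [hm, Real.dist_eq, ← Int.cast_sub, ← Int.cast_abs] at hk
  have h2 : |m - n| < 1 := by exact_mod_cast hk
  have h3 : m = n := by
    have := abs_lt.1 h2
    omega
  rw [hm, h3]

end Pool.Agent.EEAN
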