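import Pool.Agent.W_eea520_n.A2

set_option autoImplicit false

namespace Pool.Agent.EEAN

open Filter Topology Pool.Agent.EEA520 Pool.Agent.EEAG1

variable {n : ℕ}

/-- `alg_irr` (`AlgZ.lean`) for `U = {m | MeroAt π m.coeff (pt t)}`. -/
theorem mero_char {π : GSys n} (hπ : Tempered π) {t : ℝ}
    (h : ∀ (k : ℤ) (μ : Fin n → ℤ) (m : Wt n →₀ ℤ), IsIrr k μ m → MeroAt π m (pt t))
    {m : Wt n →₀ ℤ} (hm : IsCharacter m) : MeroAt π m (pt t) := by
  have h0 : MeroAt π (0 : Wt n →₀ ℤ) (pt t) := by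
    obtain ⟨m0, h1, -⟩ := exists_isIrr (N := n) 0 0 (fun i j _ => le_rfl) (fun i => by simp)
    have h2 := h 0 0 m0 h1
    have h3 := MeroAt.add hπ h2 (MeroAt.neg hπ h2)
    rwa [add_neg_cancel] at h3
  let U : AddSubgroup (R n) :=
    { carrier := {m | MeroAt π m.coeff (pt t)}
      add_mem' := fun {a b} ha hb => by
        show MeroAt π (a + b).coeff (pt t)
        rw [AddMonoidAlgebra.coeff_add]
        exact MeroAt.add hπ ha hb
      zero_mem' := by
        show MeroAt π (0 : R n).coeff (pt t)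
        exact h0
      neg_mem' := fun {a} ha => by
        show MeroAt π (-a).coeff (pt t)
        rw [AddMonoidAlgebra.coeff_neg]
        exact MeroAt.neg hπ ha }
  exact alg_irr n U (fun k μ m hm => h k μ m hm) (AddMonoidAlgebra.ofCoeff m) hm

theorem E1_inv {π : GSys n} (hπ : Tempered π) {E : AddSubgroup ℝ} {c : Wt n × E → ℤ}
    (hc : IsOrd π E c) (g : WG n) (w : Wt n) (t : E) : c (act g w, t) = c (w, t) := by
  have h1 := hc (act g w) t
  rw [orb_act] at h1
  have h2 := mean_of_poleOrder hπ h1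
  have h3 := mean_of_poleOrder hπ (hc w t)
  exact_mod_cast MeanP.unique h2 h3

theorem E1_perm (σ : Equiv.Perm (Fin n)) (k : ℤ) (μ : Fin n → ℤ) :
    act (σ, ∅) (k, μ) = ((k, μ ∘ σ) : Wt n) := by
  rw [act_apply]
  refine Prod.ext rfl ?_
  funext i
  simp

theorem E1_refl (i : Fin n) (k : ℤ) (μ : Fin n → ℤ) :
    act (1, {i}) (k, μ) = ((k, Function.update μ i (k - μ i)) : Wt n) := by
  rw [act_apply]
  refine Prod.ext rfl ?_
  funext j
  by_cases hj : j = i
  · subst hj
    simp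
  · simp [hj]

theorem E1_negx (x : Fin n → ℤ) :
    act (1, Finset.univ) (0, x) = ((0, -x) : Wt n) := by
  rw [act_apply]
  refine Prod.ext rfl ?_
  funext j
  simp

theorem E1_one (w : Wt n) : act (1, ∅) w = w := by
  rw [act_apply]
  refine Prod.ext rfl ?_
  funext i
  simp

/-- If the mean value of the sum of `card` functions with values in `[-1, 1]` is `± card`, then each of them has the mean
value `± 1`. -/
theorem E1_mean {π : GSys n} (hπ : Tempered π) {w : Wt n} {t : ℝ} {s : ℤ} (hs : s = 1 ∨ s = -1)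
    (h : MeanP (fun p => ∑ g : WG n, zre π (act g w) t p) (s * (Fintype.card (WG n) : ℝ))) :
    MeanP (zre π w t) s := by
  classical
  have hsq : (s : ℝ) * s = 1 := by
    rcases hs with rfl | rfl <;> norm_num
  have habs : |(s : ℝ)| = 1 := by
    rcases hs with rfl | rfl <;> norm_num
  have hle : ∀ (g : WG n) (p : Pr), 0 ≤ 1 + (-(s : ℝ)) * zre π (act g w) t p := by
    intro g p
    have h1 := zre_le hπ (act g w) t p
    have h2 : |(s : ℝ) * zre π (act g w) t p| ≤ 1 := by rw [abs_mul, habs, one_mul]; exact h1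
    have h3 := le_abs_self ((s : ℝ) * zre π (act g w) t p)
    linarith
  have hcard : (0 : ℝ) < Fintype.card (WG n) := by exact_mod_cast Fintype.card_pos
  -- the mean value of the sum of the `1 - s z` is `0`
  have h1 : MeanP (fun p => (Fintype.card (WG n) : ℝ) * 1 +
      (-(s : ℝ)) * ∑ g : WG n, zre π (act g w) t p)
      ((Fintype.card (WG n) : ℝ) * 1 + (-(s : ℝ)) * (s * (Fintype.card (WG n) : ℝ))) :=
    MeanP.add ⟨_, fun p => le_rfl⟩ ((bdP_orb hπ w t).const_mul _)
      (MeanP.one.const_mul _) (h.const_mul _)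
  have h2 : (Fintype.card (WG n) : ℝ) * 1 + (-(s : ℝ)) * (s * (Fintype.card (WG n) : ℝ)) = 0 := by
    have : (Fintype.card (WG n) : ℝ) * 1 + (-(s : ℝ)) * (s * (Fintype.card (WG n) : ℝ)) =
        (Fintype.card (WG n) : ℝ) * (1 - s * s) := by ring
    rw [this, hsq]
    ring
  rw [h2] at h1
  have h3 : (fun p => (Fintype.card (WG n) : ℝ) * 1 +
      (-(s : ℝ)) * ∑ g : WG n, zre π (act g w) t p) =
      fun p => ∑ g : WG n, (1 + (-(s : ℝ)) * zre π (act g w) t p) := by
    funext p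
    rw [Finset.sum_add_distrib, Finset.sum_const, Finset.card_univ, nsmul_eq_mul, Finset.mul_sum]
  rw [h3] at h1
  -- squeeze
  have h4 : MeanP (fun p => 1 + (-(s : ℝ)) * zre π w t p) 0 := by
    refine tendsto_of_tendsto_of_tendsto_of_le_of_le' tendsto_const_nhds h1 ?_ ?_
    · refine Eventually.of_forall fun r => ?_
      refine div_nonneg (tsum_nonneg fun p => mul_nonneg ?_ (Mean_pow_pos p r).le)
        (tsum_nonneg fun p => (Mean_pow_pos p r).le)
      have := hle (1, ∅) p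
      rwa [E1_one] at this
    · filter_upwards [self_mem_nhdsWithin] with r hr
      have hr' : (1 : ℝ) < r := hr
      refine div_le_div_of_nonneg_right ?_ (tsum_nonneg fun p => (Mean_pow_pos p r).le)
      have hb1 : BdP fun p => 1 + (-(s : ℝ)) * zre π w t p :=
        BdP.add ⟨1, fun p => by simp⟩ ((bdP_zre hπ w t).const_mul _)
      have hb2 : BdP fun p => ∑ g : WG n, (1 + (-(s : ℝ)) * zre π (act g w) t p) :=
        BdP.sum _ fun g _ => BdP.add ⟨1, fun p => by simp⟩ ((bdP_zre hπ _ t).const_mul _)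
      refine Summable.tsum_le_tsum (fun p => ?_) (summable_psm hb1 hr') (summable_psm hb2 hr')
      refine mul_le_mul_of_nonneg_right ?_ (Mean_pow_pos p r).le
      have h5 : (1 + (-(s : ℝ)) * zre π w t p) =
          (1 + (-(s : ℝ)) * zre π (act ((1, ∅) : WG n) w) t p) := by rw [E1_one]
      exact h5.le.trans (Finset.single_le_sum
        (f := fun g : WG n => 1 + (-(s : ℝ)) * zre π (act g w) t p)
        (fun g _ => hle g p) (Finset.mem_univ _))
  have h5 : MeanP (fun p => (s : ℝ) * 1 + (-(s : ℝ)) * (1 + (-(s : ℝ)) * zre π w t p))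
      ((s : ℝ) * 1 + (-(s : ℝ)) * 0) :=
    MeanP.add ⟨_, fun p => le_rfl⟩
      (BdP.const_mul (BdP.add ⟨1, fun p => by simp⟩ ((bdP_zre hπ w t).const_mul _)) _)
      (MeanP.one.const_mul _) (h4.const_mul _)
  have h6 : (fun p => (s : ℝ) * 1 + (-(s : ℝ)) * (1 + (-(s : ℝ)) * zre π w t p)) =
      zre π w t := by
    funext p
    have : (s : ℝ) * 1 + (-(s : ℝ)) * (1 + (-(s : ℝ)) * zre π w t p) =
        ((s : ℝ) * s) * zre π w t p := by ring
    rw [this, hsq, one_mul]
  rw [h6, mul_one, mul_zero, add_zero] at h5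
  exact h5

/-- The embedding of the weights of `SO(2n+1)` in `Wt n × E`. -/
def E1_iota (n : ℕ) (E : AddSubgroup ℝ) : (Fin n → ℤ) →+ Wt n × E where
  toFun x := ((0, x), 0)
  map_zero' := rfl
  map_add' x y := by
    refine Prod.ext (Prod.ext ?_ rfl) ?_
    · simp
    · simp

theorem E1_iota_apply (E : AddSubgroup ℝ) (x : Fin n → ℤ) : E1_iota n E x = ((0, x), 0) := rfl

/-- The function of the orders on `Wt n × E` (`exists_isOrd`, `IsOrd`, `posDefG_ord`, `order_formula`,
`ord_zero` in `W_eea520_G/D.lean`, `E.lean`) and the sign function. Let `c` be from `exists_isOrd`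
(`mero_char`). It is invariant: `c (act g w, t) = c (w, t)` (`orb_act`, uniqueness of the order:
`mean_of_poleOrder`, `MeanP.unique`). By `eq_dd` for `fun w => c (w, 0)` (`order_formula` at `t = 0`,
`pt 0 = 1`, `ord_zero`) `c ((0, x), 0) = dd x` for `|x i| ≤ R`. So `exists_R` for
`ι x = ((0, x), 0)` gives `e'` on `Wt n × E`, and all values of `c` are integers, so
`c g = ∑_x dd x * e' (g + ι x)` for all `g`. Let `e (w, t) = if h : t ∈ E then e' (w, ⟨t, h⟩) else 0`.

(1) `IsSign e`: clear (if `t_x ∉ E`, `t_y ∈ E` then `t_x + t_y ∉ E`). (2) invariance: as `e'` is determined by `c`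
(for the two kinds of generators use `act (σ, ∅)` and `act (1, {i})`).
(3) `SignType`: `signType_of` for `fun x => e ((0, x), 0)`. (4) `R`. (5) Let `e ((0, x), t) ≠ 0`. Then also
`e ((0, -x), t) ≠ 0` (invariance under `act (1, univ)`), so `e (0, 2 t) ≠ 0`, i.e. `c (0, 2 t) = ± card`, but
`c (0, t') = 0` for `t' ≠ 0` (`ord_zero`); so `t = 0`. (6) If `t ∉ E` then `e (w, t) = 0`.
(7) the orders: `order_formula` and `formula` for `f w = e (w, t)`. -/
theorem line_e (n : ℕ) : ∃ R₀ : ℕ, ∀ R : ℕ, R₀ ≤ R → ∀ π : GSys n, Tempered π →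
    (∀ (μ : Fin n → ℤ) (m : Wt n →₀ ℤ), IsIrr 0 μ m → μ ≠ 0 → (∀ i, μ i ≤ R) → PoleOrder π m 1 0) →
    ∀ E : AddSubgroup ℝ, (∀ (k : ℤ) (μ : Fin n → ℤ) (m : Wt n →₀ ℤ), IsIrr k μ m →
      ∀ t ∈ E, MeroAt π m (pt t)) →
    ∃ e : Wt n × ℝ → ℤ, IsSign e ∧ (∀ t, IsInv fun w => e (w, t)) ∧
      SignType (fun x => e ((0, x), 0)) ∧ (∀ x : Fin n → ℤ, x ≠ 0 → (∀ i, |x i| ≤ R) → e ((0, x), 0) = 0) ∧
      (∀ x t, e ((0, x), t) ≠ 0 → t = 0) ∧ (∀ w t, e (w, t) ≠ 0 → t ∈ E) ∧
      (∀ (k : ℤ) (μ : Fin n → ℤ) (m : Wt n →₀ ℤ), IsIrr k μ m → ∀ t ∈ E,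
        PoleOrder π m (pt t) (ordE (fun w => e (w, t)) k μ)) ∧
      ∀ w t, e (w, t) ≠ 0 →
        DirMean (fun p => (((π p).ev w : ℂ) * ((p : ℕ) : ℂ) ^ (-(t * Complex.I))).re) (e (w, t)) := by
  classical
  obtain ⟨R₀, hR₀⟩ := exists_R n
  refine ⟨R₀, fun R hR π hπ hord E hE => ?_⟩
  obtain ⟨c, hc⟩ := exists_isOrd (E := E) hπ
    (fun m hm t ht => mero_char hπ (fun k μ m h => hE k μ m h t ht) hm)
  have hcinv := E1_inv hπ hc
  have hc0 : c 0 = (Fintype.card (WG n) : ℤ) := by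
    have h1 := ord_zero hπ hc 0
    rw [if_pos rfl] at h1
    exact h1
  have hcard : (0 : ℤ) < Fintype.card (WG n) := by exact_mod_cast Fintype.card_pos
  have hbox : ∀ x : Fin n → ℤ, (∀ i, |x i| ≤ R) → ((c (E1_iota n E x) : ℤ) : ℝ) = dd (rtsN n) x := by
    intro x hx
    refine eq_dd (R := R) (fun w => ((c (w, 0) : ℤ) : ℝ)) (fun g w => ?_) ?_ ?_ x hx
    · show ((c (act g w, 0) : ℤ) : ℝ) = ((c (w, 0) : ℤ) : ℝ)
      rw [hcinv]
    · show ((c (0, 0) : ℤ) : ℝ) = Fintype.card (WG n)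
      have h1 : c ((0 : Wt n), (0 : E)) = (Fintype.card (WG n) : ℤ) := hc0
      rw [h1]
      norm_cast
    · intro μ m hm hμ hle
      have h1 : PoleOrder π m (pt ((0 : E) : ℝ)) 0 := by
        rw [AddSubgroup.coe_zero, pt_zero]
        exact hord μ m hm hμ hle
      have h2 := order_formula hπ hc hm.isCharacter (0 : E) h1
      rw [mul_zero] at h2
      have h3 : (m.sum fun w z => (z : ℝ) * ((c (w, 0) : ℤ) : ℝ)) =
          ((m.sum fun w z => z * c (w, 0) : ℤ) : ℝ) := by
        unfold Finsupp.sum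
        push_cast
        rfl
      rw [h3, ← h2, Int.cast_zero]
  obtain ⟨e', he', h1, hm1, hval, hzero, hsum⟩ := hR₀ R hR (Wt n × E) (E1_iota n E)
    (fun x => ((c x : ℤ) : ℝ)) (posDefG_ord hπ hc) hbox
  have h1' : ∀ x, e' x = 1 ↔ c x = Fintype.card (WG n) := by
    intro x
    rw [h1 x, hc0]
    exact_mod_cast Iff.rfl
  have hm1' : ∀ x, e' x = -1 ↔ c x = -(Fintype.card (WG n) : ℤ) := by
    intro x
    rw [hm1 x, hc0]
    exact_mod_cast Iff.rfl
  have hdet : ∀ x y, c x = c y → e' x = e' y := by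
    intro x y hxy
    rcases hval x with hx | hx | hx
    · rw [hx]
      exact ((h1' y).2 (hxy ▸ (h1' x).1 hx)).symm
    · rw [hx]
      exact ((hm1' y).2 (hxy ▸ (hm1' x).1 hx)).symm
    · rcases hval y with hy | hy | hy
      · have := (h1' x).2 (hxy.symm ▸ (h1' y).1 hy)
        rw [hx] at this
        exact absurd this (by norm_num)
      · have := (hm1' x).2 (hxy.symm ▸ (hm1' y).1 hy)
        rw [hx] at this
        exact absurd this (by norm_num)
      · rw [hx, hy]
  have hact : ∀ (g : WG n) (w : Wt n) (t : E), e' (act g w, t) = e' (w, t) :=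
    fun g w t => hdet _ _ (hcinv g w t)
  have hcs : ∀ g, c g = (dd (rtsN n)).sum fun x z => z * e' (g + E1_iota n E x) := by
    intro g
    have h2 := hsum g (fun x _ => ⟨c (E1_iota n E x + g), rfl⟩)
    have h3 : ((dd (rtsN n)).sum fun x z => (z : ℝ) * ((e' (g + E1_iota n E x) : ℤ) : ℝ)) =
        (((dd (rtsN n)).sum fun x z => z * e' (g + E1_iota n E x) : ℤ) : ℝ) := by
      unfold Finsupp.sum
      push_cast
      rfl
    rw [h3] at h2
    exact_mod_cast h2
  -- the function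
  let e : Wt n × ℝ → ℤ := fun x => if h : x.2 ∈ E then e' (x.1, ⟨x.2, h⟩) else 0
  have hein : ∀ (w : Wt n) (t : ℝ) (h : t ∈ E), e (w, t) = e' (w, ⟨t, h⟩) := fun w t h => dif_pos h
  have heout : ∀ (w : Wt n) (t : ℝ), t ∉ E → e (w, t) = 0 := fun w t h => dif_neg h
  have hemem : ∀ w t, e (w, t) ≠ 0 → t ∈ E := by
    intro w t h
    by_contra h2
    exact h (heout w t h2)
  have hsign : IsSign e := by
    constructor
    · have h2 : e ((0 : Wt n), (0 : ℝ)) = e' (0, ⟨0, E.zero_mem⟩) := hein 0 0 E.zero_mem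
      have h3 : ((0 : Wt n), (⟨0, E.zero_mem⟩ : E)) = 0 := rfl
      rw [h3] at h2
      exact h2.trans he'.1
    · rintro ⟨w, t⟩ ⟨v, s⟩ hy
      have hs : s ∈ E := hemem v s hy
      rw [hein v s hs] at hy ⊢
      by_cases ht : t ∈ E
      · rw [hein w t ht]
        have h2 : e ((w, t) + (v, s)) = e' (w + v, ⟨t + s, E.add_mem ht hs⟩) :=
          hein (w + v) (t + s) (E.add_mem ht hs)
        rw [h2]
        exact he'.2 (w, ⟨t, ht⟩) (v, ⟨s, hs⟩) hy
      · rw [heout w t ht, zero_mul]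
        refine heout (w + v) (t + s) fun h => ht ?_
        have := E.sub_mem h hs
        rwa [add_sub_cancel_right] at this
  have hinv : ∀ t, IsInv fun w => e (w, t) := by
    intro t
    by_cases ht : t ∈ E
    · constructor
      · intro σ k μ
        show e ((k, μ ∘ σ), t) = e ((k, μ), t)
        rw [hein _ t ht, hein _ t ht, ← E1_perm, hact]
      · intro i k μ
        show e ((k, Function.update μ i (k - μ i)), t) = e ((k, μ), t)
        rw [hein _ t ht, hein _ t ht, ← E1_refl, hact]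
    · constructor
      · intro σ k μ
        show e ((k, μ ∘ σ), t) = e ((k, μ), t)
        rw [heout _ t ht, heout _ t ht]
      · intro i k μ
        show e ((k, Function.update μ i (k - μ i)), t) = e ((k, μ), t)
        rw [heout _ t ht, heout _ t ht]
  have he0 : ∀ x : Fin n → ℤ, e ((0, x), 0) = e' (E1_iota n E x) := by
    intro x
    rw [hein _ 0 E.zero_mem]
    rfl
  refine ⟨e, hsign, hinv, ?_, ?_, ?_, hemem, ?_, ?_⟩
  · refine signType_of ⟨?_, ?_⟩ ?_ ?_
    · exact hsign.1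
    · intro x y hy
      have h2 := hsign.2 ((0, x), 0) ((0, y), 0) hy
      have h3 : (((0, x), 0) + ((0, y), 0) : Wt n × ℝ) = ((0, x + y), 0) := by
        refine Prod.ext (Prod.ext ?_ rfl) ?_
        · simp
        · simp
      rw [h3] at h2
      exact h2
    · intro σ x
      exact (hinv 0).1 σ 0 x
    · intro i x
      have h2 := (hinv 0).2 i 0 x
      rw [zero_sub] at h2
      exact h2
  · intro x hx hle
    rw [he0]
    exact hzero x hx hle
  · intro x t hne
    have ht : t ∈ E := hemem _ _ hne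
    have hne' : e' ((0, x), ⟨t, ht⟩) ≠ 0 := by
      rw [← hein _ t ht]
      exact hne
    have hneg : e' ((0, -x), ⟨t, ht⟩) = e' ((0, x), ⟨t, ht⟩) := by
      rw [← E1_negx, hact]
    have h2 := he'.2 ((0, -x), ⟨t, ht⟩) ((0, x), ⟨t, ht⟩) hne'
    rw [hneg] at h2
    have h3 : (((0, -x), ⟨t, ht⟩) + ((0, x), ⟨t, ht⟩) : Wt n × E) =
        ((0 : Wt n), ⟨t, ht⟩ + ⟨t, ht⟩) := by
      refine Prod.ext (Prod.ext ?_ ?_) rfl
      · simp
      · simp
    rw [h3] at h2
    have h4 : e' ((0 : Wt n), ⟨t, ht⟩ + ⟨t, ht⟩) ≠ 0 := by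
      rw [h2]
      exact mul_ne_zero hne' hne'
    have h5 : c ((0 : Wt n), ⟨t, ht⟩ + ⟨t, ht⟩) ≠ 0 := by
      rcases hval ((0 : Wt n), ⟨t, ht⟩ + ⟨t, ht⟩) with h6 | h6 | h6
      · rw [(h1' _).1 h6]
        exact hcard.ne'
      · rw [(hm1' _).1 h6]
        exact neg_ne_zero.2 hcard.ne'
      · exact absurd h6 h4
    rw [ord_zero hπ hc] at h5
    have h6 : (⟨t, ht⟩ + ⟨t, ht⟩ : E) = 0 := by
      by_contra h7
      rw [if_neg h7] at h5
      exact h5 rfl
    have h7 := congrArg Subtype.val h6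
    have h8 : t + t = 0 := h7
    linarith
  · intro k μ m hm t ht
    obtain ⟨k', hk'⟩ := exists_poleOrder hπ (hE k μ m hm t ht)
    have h2 := order_formula hπ hc hm.isCharacter (⟨t, ht⟩ : E) (k := k') hk'
    have h3 := formula hm (fun w => e (w, t)) (fun g w => by
      show e (act g w, t) = e (w, t)
      rw [hein _ t ht, hein _ t ht, hact])
    have h4 : (m.sum fun w z => z * c (w, (⟨t, ht⟩ : E))) =
        m.sum fun w z => z * (dd (rtsN n)).sum fun x y => y * e (w + (0, x), t) := by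
      refine Finsupp.sum_congr fun w _ => ?_
      rw [hcs (w, ⟨t, ht⟩)]
      refine congrArg _ (Finsupp.sum_congr fun x _ => ?_)
      rw [hein _ t ht]
      refine congrArg _ (congrArg e' ?_)
      refine Prod.ext rfl ?_
      show (⟨t, ht⟩ + 0 : E) = ⟨t, ht⟩
      exact add_zero _
    have h5 : k' = ordE (fun w => e (w, t)) k μ := by
      have h6 : (Fintype.card (WG n) : ℤ) * k' =
          (Fintype.card (WG n) : ℤ) * ordE (fun w => e (w, t)) k μ := by
        rw [← h3, ← h4]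
        exact h2
      exact mul_left_cancel₀ hcard.ne' h6
    rw [← h5]
    exact hk'
  · intro w t hne
    have ht : t ∈ E := hemem _ _ hne
    rw [hein _ t ht] at hne ⊢
    have h2 := hc.mean hπ (w, ⟨t, ht⟩)
    have h3 : (e' (w, ⟨t, ht⟩) = 1 ∨ e' (w, ⟨t, ht⟩) = -1) ∧
        c (w, ⟨t, ht⟩) = e' (w, ⟨t, ht⟩) * (Fintype.card (WG n) : ℤ) := by
      rcases hval (w, ⟨t, ht⟩) with h6 | h6 | h6
      · refine ⟨Or.inl h6, ?_⟩
        rw [(h1' _).1 h6, h6, one_mul]
      · refine ⟨Or.inr h6, ?_⟩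
        rw [(hm1' _).1 h6, h6]
        ring
      · exact absurd h6 hne
    have h4 : MeanP (fun p => ∑ g : WG n, zre π (act g w) t p)
        (((e' (w, ⟨t, ht⟩) : ℤ) : ℝ) * (Fintype.card (WG n) : ℝ)) := by
      rw [h3.2] at h2
      push_cast at h2
      exact h2
    exact E1_mean hπ h3.1 h4

end Pool.Agent.EEAN
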