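import Pool.Agent.W_eea520_G.S1

/-!
# The greedy realization of laws of classes in the compact torus (MP_eea520_nt)
-/

set_option autoImplicit false

namespace Pool.Agent.EEAN

open Filter Topology Pool.Agent.EEA520 Pool.Agent.EEAG1 LSeries

/-- The greedy algorithm for functions on an arbitrary set. -/
theorem greedyX {X : Type} {F : ℕ → X → ℝ} (hF : ∀ k x, |F k x| ≤ 4)
    (h : ∀ (b : ℕ → ℝ) (n : ℕ), ∃ x, ∑ k ∈ Finset.range n, b k * F k x ≤ 0) :
    ∃ θ : ℕ → X, ∀ k, ∃ C : ℝ, ∀ n : ℕ, |∑ i ∈ Finset.range n, F k (θ i)| ≤ C * Real.sqrt n := by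
  classical
  choose sel hsel using h
  let nxt : (ℕ → ℝ) → ℕ → X := fun S i => sel (fun k => (1 / 4) ^ k * S k) (i + 1)
  let st : ℕ → ℕ → ℝ := fun n => Nat.rec (fun _ => (0 : ℝ)) (fun i S k => S k + F k (nxt S i)) n
  have st0 : ∀ k, st 0 k = 0 := fun k => rfl
  have sts : ∀ n k, st (n + 1) k = st n k + F k (nxt (st n) n) := fun n k => rfl
  have steq : ∀ n k, st n k = ∑ i ∈ Finset.range n, F k (nxt (st i) i) := by
    intro n k
    induction n with
    | zero => rfl
    | succ n ih => rw [Finset.sum_range_succ, ← ih, sts]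
  have stle : ∀ n k, |st n k| ≤ 4 * n := by
    intro n k
    rw [steq]
    refine (Finset.abs_sum_le_sum_abs _ _).trans
      ((Finset.sum_le_card_nsmul _ _ 4 fun i _ => hF _ _).trans ?_)
    rw [Finset.card_range, nsmul_eq_mul, mul_comm]
  have pot : ∀ n, (∑ k ∈ Finset.range n, ((1 : ℝ) / 4) ^ k * st n k ^ 2) ≤ (48 : ℝ) * (n : ℝ) := by
    intro n
    induction n with
    | zero => simp
    | succ n ih =>
      set x := nxt (st n) n with hx
      have h1 : ∑ k ∈ Finset.range (n + 1), ((1 / 4) ^ k * st n k) * F k x ≤ 0 :=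
        hsel (fun k => (1 / 4) ^ k * st n k) (n + 1)
      have h3 : ∑ k ∈ Finset.range (n + 1), ((1 : ℝ) / 4) ^ k * st (n + 1) k ^ 2 =
          ∑ k ∈ Finset.range (n + 1), ((1 : ℝ) / 4) ^ k * st n k ^ 2 +
          2 * ∑ k ∈ Finset.range (n + 1), ((1 / 4) ^ k * st n k) * F k x +
          ∑ k ∈ Finset.range (n + 1), ((1 : ℝ) / 4) ^ k * F k x ^ 2 := by
        rw [Finset.mul_sum, ← Finset.sum_add_distrib, ← Finset.sum_add_distrib]
        refine Finset.sum_congr rfl fun k _ => ?_
        rw [sts]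
        ring
      have h4 : ∑ k ∈ Finset.range (n + 1), ((1 : ℝ) / 4) ^ k * F k x ^ 2 ≤ 32 := by
        have h5 : ∑ k ∈ Finset.range (n + 1), ((1 : ℝ) / 4) ^ k * F k x ^ 2 ≤
            ∑ k ∈ Finset.range (n + 1), ((1 : ℝ) / 4) ^ k * 16 := by
          refine Finset.sum_le_sum fun k _ => mul_le_mul_of_nonneg_left ?_ (by positivity)
          have := sq_le_sq.2 ((hF k x).trans (le_abs_self 4))
          linarith
        rw [← Finset.sum_mul] at h5
        have h6 := geom_le (n + 1)
        linarith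
      have h5 : ((1 : ℝ) / 4) ^ n * st n n ^ 2 ≤ 16 := by
        have h6 := stle n n
        have h7 : st n n ^ 2 ≤ (4 * (n : ℝ)) ^ 2 :=
          sq_le_sq.2 (h6.trans (le_abs_self _))
        have h8 := sq_le_four_pow n
        have h9 := mul_le_mul_of_nonneg_left h7 (by positivity : (0 : ℝ) ≤ (1 / 4) ^ n)
        have h10 : ((1 : ℝ) / 4) ^ n * (4 * (n : ℝ)) ^ 2 = 16 * ((1 / 4) ^ n * (n : ℝ) ^ 2) := by
          ring
        rw [h10] at h9
        linarith
      rw [h3, Finset.sum_range_succ (fun k => ((1 : ℝ) / 4) ^ k * st n k ^ 2)]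
      push_cast
      linarith
  refine ⟨fun i => nxt (st i) i, fun k => ?_⟩
  refine ⟨Real.sqrt (48 * 4 ^ k) + 4 * Real.sqrt k, fun n => ?_⟩
  rw [← steq n k, add_mul]
  have h0 : 0 ≤ 4 * Real.sqrt k * Real.sqrt n := by positivity
  have h0' : 0 ≤ Real.sqrt (48 * 4 ^ k) * Real.sqrt n := by positivity
  by_cases hk : k < n
  · have h1 := pot n
    have h2 : ((1 : ℝ) / 4) ^ k * st n k ^ 2 ≤ 48 * n :=
      (Finset.single_le_sum (f := fun k => ((1 : ℝ) / 4) ^ k * st n k ^ 2)
        (fun i _ => by positivity) (Finset.mem_range.2 hk)).trans h1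
    have h3 : st n k ^ 2 ≤ 48 * 4 ^ k * n := by
      have h4 : (4 : ℝ) ^ k * ((1 / 4) ^ k * st n k ^ 2) = st n k ^ 2 := by
        rw [← mul_assoc, ← mul_pow]
        norm_num
      have h5 := mul_le_mul_of_nonneg_left h2 (by positivity : (0 : ℝ) ≤ 4 ^ k)
      rw [h4] at h5
      linarith
    have h4 := Real.abs_le_sqrt h3
    rw [Real.sqrt_mul (by positivity)] at h4
    linarith
  · have h1 := stle n k
    have h2 : (n : ℝ) ≤ k := by exact_mod_cast not_lt.1 hk
    have h3 : (n : ℝ) = Real.sqrt n * Real.sqrt n := (Real.mul_self_sqrt (Nat.cast_nonneg n)).symm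
    have h4 : Real.sqrt n ≤ Real.sqrt k := Real.sqrt_le_sqrt h2
    have h5 : (n : ℝ) ≤ Real.sqrt k * Real.sqrt n := by
      nth_rewrite 1 [h3]
      exact mul_le_mul_of_nonneg_right h4 (Real.sqrt_nonneg _)
    linarith

variable {n : ℕ}

/-- The compact torus of the elements with `c ^ 2 * ∏ x_i = 1`. -/
def IsPt (q : Torus n) : Prop :=
  (‖(q.c : ℂ)‖ = 1 ∧ ∀ i, ‖(q.x i : ℂ)‖ = 1) ∧ q.c ^ 2 * ∏ i, q.x i = 1

theorem IsPt.norm_ev {q : Torus n} (hq : IsPt q) (w : Wt n) : ‖(q.ev w : ℂ)‖ = 1 := by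
  unfold Torus.ev
  rw [Units.val_mul, Units.val_zpow_eq_zpow_val, Units.coe_prod, norm_mul, _root_.norm_zpow,
    hq.1.1, one_zpow, one_mul, norm_prod]
  refine Finset.prod_eq_one fun i _ => ?_
  rw [Units.val_zpow_eq_zpow_val, _root_.norm_zpow, hq.1.2, one_zpow]

/-- The longest element of the Weyl group acts as the complex conjugation. -/
theorem IsPt.ev_act {q : Torus n} (hq : IsPt q) (w : Wt n) :
    q.ev (act (1, Finset.univ) w) = (q.ev w)⁻¹ := by
  rw [act_apply]
  unfold Torus.ev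
  simp only [Finset.mem_univ, if_true, Equiv.Perm.coe_one, id_eq]
  rw [eq_inv_iff_mul_eq_one]
  have h1 : ∏ i, q.x i ^ (w.1 - w.2 i) = (∏ i, q.x i) ^ w.1 * (∏ i, q.x i ^ w.2 i)⁻¹ := by
    rw [← Finset.prod_zpow, ← Finset.prod_inv_distrib, ← Finset.prod_mul_distrib]
    refine Finset.prod_congr rfl fun i _ => ?_
    rw [zpow_sub]
  rw [h1]
  have h2 : q.c ^ w.1 * ((∏ i, q.x i) ^ w.1 * (∏ i, q.x i ^ w.2 i)⁻¹) *
      (q.c ^ w.1 * ∏ i, q.x i ^ w.2 i) = (q.c ^ 2 * ∏ i, q.x i) ^ w.1 := by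
    rw [mul_mul_mul_comm, inv_mul_cancel_right, mul_zpow, sq, mul_zpow]
  rw [h2, hq.2, one_zpow]

/-- The system of the classes `θ j` at the prime numbers with the index `j`. -/
noncomputable def ptSys (θ : ℕ → {q : Torus n // IsPt q}) : GSys n := fun p =>
  (θ (Nat.count Nat.Prime p)).1

theorem ptSys_tempered (θ : ℕ → {q : Torus n // IsPt q}) : Tempered (ptSys θ) := fun p =>
  (θ (Nat.count Nat.Prime p)).2.1

/-- The real part of the value of a weight, summed over the Weyl group. -/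
noncomputable def wre (q : Torus n) (w : Wt n) : ℝ := ∑ g : WG n, ((q.ev (act g w) : ℂ)).re

theorem abs_wre_le {q : Torus n} (hq : IsPt q) (w : Wt n) : |wre q w| ≤ Fintype.card (WG n) := by
  unfold wre
  refine (Finset.abs_sum_le_sum_abs _ _).trans ((Finset.sum_le_card_nsmul _ _ 1 fun g _ => ?_).trans ?_)
  · exact (Complex.abs_re_le_norm _).trans (hq.norm_ev _).le
  · rw [nsmul_eq_mul, mul_one]
    rfl

theorem card_ne_zero' : ((Fintype.card (WG n) : ℕ) : ℝ) ≠ 0 := by
  have : Nonempty (WG n) := ⟨(1, ∅)⟩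
  exact_mod_cast Fintype.card_ne_zero

/-- The trace of a character at a point of the compact torus is real. -/
theorem trace_real {q : Torus n} (hq : IsPt q) {m : Wt n →₀ ℤ} (hm : IsCharacter m) :
    (m.sum fun w e => (e : ℂ) * (q.ev w : ℂ)) =
      ((m.sum fun w e => (e : ℝ) / (Fintype.card (WG n) : ℝ) * wre q w : ℝ) : ℂ) := by
  have hconj : ∀ w, ((q.ev (act (1, Finset.univ) w) : ℂˣ) : ℂ) =
      (starRingEnd ℂ) ((q.ev w : ℂˣ) : ℂ) := by
    intro w
    rw [hq.ev_act, Units.val_inv_eq_inv_val]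
    exact Complex.inv_eq_conj (hq.norm_ev w)
  apply Complex.ext
  · rw [Complex.ofReal_re]
    have h1 : ∀ g : WG n, (m.sum fun w e => (e : ℝ) * ((q.ev (act g w) : ℂ)).re) =
        m.sum fun w e => (e : ℝ) * ((q.ev w : ℂ)).re := fun g =>
      sum_act hm g fun w => ((q.ev w : ℂ)).re
    have h2 : (m.sum fun w e => (e : ℝ) / (Fintype.card (WG n) : ℝ) * wre q w) =
        (∑ g : WG n, m.sum fun w e => (e : ℝ) * ((q.ev (act g w) : ℂ)).re) /
          (Fintype.card (WG n) : ℝ) := by
      unfold Finsupp.sum wre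
      rw [Finset.sum_comm, Finset.sum_div]
      refine Finset.sum_congr rfl fun w _ => ?_
      rw [← Finset.mul_sum]
      ring
    rw [h2, Finset.sum_congr rfl fun g _ => h1 g, Finset.sum_const, Finset.card_univ, nsmul_eq_mul,
      mul_div_cancel_left₀ _ card_ne_zero']
    unfold Finsupp.sum
    rw [Complex.re_sum]
    refine Finset.sum_congr rfl fun w _ => ?_
    dsimp only
    rw [← Complex.ofReal_intCast, Complex.re_ofReal_mul]
  · rw [Complex.ofReal_im]
    have h1 := sum_act hm (1, Finset.univ) fun w => ((q.ev w : ℂ)).im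
    have h2 : (m.sum fun w e => (e : ℝ) * ((q.ev (act (1, Finset.univ) w) : ℂ)).im) =
        -(m.sum fun w e => (e : ℝ) * ((q.ev w : ℂ)).im) := by
      unfold Finsupp.sum
      rw [← Finset.sum_neg_distrib]
      refine Finset.sum_congr rfl fun w _ => ?_
      dsimp only
      rw [hconj, Complex.conj_im]
      ring
    have h3 : (m.sum fun w e => (e : ℝ) * ((q.ev w : ℂ)).im) = 0 := by
      rw [h2] at h1
      linarith
    unfold Finsupp.sum at h3 ⊢
    rw [Complex.im_sum, ← h3]
    refine Finset.sum_congr rfl fun w _ => ?_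
    dsimp only
    rw [← Complex.ofReal_intCast, Complex.im_ofReal_mul]

/-- The partial sums over the primes. -/
theorem partial_sumsX {X : Type} {θ : ℕ → X} {G : X → ℝ} {C : ℝ} (hC0 : 0 ≤ C)
    (hC : ∀ n : ℕ, |∑ i ∈ Finset.range n, G (θ i)| ≤ C * Real.sqrt n) (N : ℕ) :
    |∑ k ∈ Finset.Icc 1 N, (if k.Prime then G (θ (Nat.count Nat.Prime k)) else 0)| ≤
      C * Real.sqrt N := by
  have h1 : ∑ k ∈ Finset.Icc 1 N, (if k.Prime then G (θ (Nat.count Nat.Prime k)) else 0) =
      ∑ i ∈ Finset.range (Nat.count Nat.Prime (N + 1)), G (θ i) := by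
    rw [← sum_primes (fun i => G (θ i)) (N + 1), Finset.range_eq_Ico,
      Finset.sum_eq_sum_Ico_succ_bot (by omega), if_neg Nat.not_prime_zero, zero_add]
    refine Finset.sum_congr ?_ fun k _ => rfl
    ext k
    rw [Finset.mem_Icc, Finset.mem_Ico]
    omega
  rw [h1]
  refine (hC _).trans (mul_le_mul_of_nonneg_left (Real.sqrt_le_sqrt ?_) hC0)
  have h2 : ∀ N, Nat.count Nat.Prime (N + 1) ≤ N := by
    intro N
    induction N with
    | zero => simp [Nat.count_succ, Nat.not_prime_zero]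
    | succ N ih =>
      rw [Nat.count_succ]
      split_ifs <;> omega
  exact_mod_cast h2 N

/-- The sequence of points. -/
theorem exists_seq {C : Wt n → ℤ}
    (hC : ∀ (F : Finset (Wt n)) (b : Wt n → ℝ), ∃ q : Torus n, IsPt q ∧
      ∑ w ∈ F, b w * (wre q w - C w) ≤ 0) :
    ∃ θ : ℕ → {q : Torus n // IsPt q}, ∀ w, ∃ D : ℝ, ∀ N : ℕ,
      |∑ i ∈ Finset.range N, (wre (θ i).1 w - C w)| ≤ D * Real.sqrt N := by
  classical
  set c0 : ℝ := (Fintype.card (WG n) : ℝ) with hc0
  have hc0pos : 0 < c0 := lt_of_le_of_ne (Nat.cast_nonneg _) (Ne.symm card_ne_zero')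
  have hCw : ∀ w, |(C w : ℝ)| ≤ c0 := by
    intro w
    rw [abs_le]
    constructor
    · obtain ⟨q, hq, h⟩ := hC {w} fun _ => 1
      rw [Finset.sum_singleton, one_mul] at h
      have h1 := abs_le.1 (abs_wre_le hq w)
      linarith [h1.1]
    · obtain ⟨q, hq, h⟩ := hC {w} fun _ => -1
      rw [Finset.sum_singleton] at h
      have h1 := abs_le.1 (abs_wre_le hq w)
      linarith [h1.2]
  obtain ⟨ι⟩ : Nonempty (ℕ ≃ Wt n) := nonempty_equiv_of_countable
  obtain ⟨θ, hθ⟩ := greedyX (X := {q : Torus n // IsPt q})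
    (F := fun k q => (wre q.1 (ι k) - C (ι k)) / c0)
    (fun k q => by
      rw [abs_div, abs_of_pos hc0pos, div_le_iff₀ hc0pos]
      refine (abs_sub _ _).trans ?_
      have h1 := abs_wre_le q.2 (ι k)
      have h2 := hCw (ι k)
      linarith)
    (fun b N => by
      obtain ⟨q, hq, h⟩ := hC ((Finset.range N).map ι.toEmbedding) fun w => b (ι.symm w) / c0
      refine ⟨⟨q, hq⟩, le_trans (le_of_eq ?_) h⟩
      rw [Finset.sum_map]
      refine Finset.sum_congr rfl fun k _ => ?_
      rw [Equiv.coe_toEmbedding, Equiv.symm_apply_apply]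
      ring)
  refine ⟨θ, fun w => ?_⟩
  obtain ⟨D, hD⟩ := hθ (ι.symm w)
  refine ⟨c0 * D, fun N => ?_⟩
  have h1 := hD N
  simp only [Equiv.apply_symm_apply] at h1
  rw [← Finset.sum_div, abs_div, abs_of_pos hc0pos, div_le_iff₀ hc0pos] at h1
  linarith

/-- THE GENERAL REALIZATION. Let `C` be an integral function on the weights such that for every finite
linear combination there is a point of the compact torus where the linear combination of the orbit
sums is not larger than the linear combination of the values of `C`. (This holds for the moments of a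
probability measure on the torus.) If all characters have integral mean values, then there is a
tempered system with trivial central character, whose classes have these mean values, and all of whose
Euler products are of the form `ζ(s) ^ a * exp (H s)` with an integer `a` and a holomorphic function
`H` on `Re s > 1/2`. -/
theorem realize_gen {C : Wt n → ℤ}
    (hC : ∀ (F : Finset (Wt n)) (b : Wt n → ℝ), ∃ q : Torus n, IsPt q ∧
      ∑ w ∈ F, b w * (wre q w - C w) ≤ 0)
    (ha : ∀ m : Wt n →₀ ℤ, IsCharacter m →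
      ∃ a : ℤ, (Fintype.card (WG n) : ℤ) * a = m.sum fun w e => e * C w) :
    ∃ π : GSys n, Tempered π ∧ (∀ p, (π p).c ^ 2 * ∏ i, (π p).x i = 1) ∧
      ∀ m : Wt n →₀ ℤ, IsCharacter m → ∃ (a : ℤ) (H : ℂ → ℂ),
        (Fintype.card (WG n) : ℤ) * a = (m.sum fun w e => e * C w) ∧
        DifferentiableOn ℂ H {s | 1 / 2 < s.re} ∧ ∀ s : ℂ, 1 < s.re →
          HasProd (fun p : Pr => (π p).factor m (((p : ℕ) : ℂ) ^ (-s)))
            (riemannZeta s ^ a * Complex.exp (H s)) := by
  classical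
  obtain ⟨θ, hθ⟩ := exists_seq hC
  have hπ := ptSys_tempered θ
  refine ⟨ptSys θ, hπ, fun p => (θ (Nat.count Nat.Prime p)).2.2, fun m hm => ?_⟩
  set π := ptSys θ with hπdef
  obtain ⟨a, ha⟩ := ha m hm
  set c0 : ℝ := (Fintype.card (WG n) : ℝ) with hc0
  have hc0ne : c0 ≠ 0 := card_ne_zero'
  choose D hD using hθ
  set fm : ℕ → ℂ := fun k => chn π m k - a * chn π (Finsupp.single 0 1) k with hfm
  have hre : ∀ k, fm k = ((∑ w ∈ m.support, (m w : ℝ) / c0 *
      (if k.Prime then wre (θ (Nat.count Nat.Prime k)).1 w - C w else 0) : ℝ) : ℂ) := by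
    intro k
    rw [hfm]
    dsimp only
    rw [chn_one]
    by_cases hk : k.Prime
    · rw [if_pos hk, mul_one]
      have h0 : chn π m k =
          ((m.sum fun w e => (e : ℝ) / c0 * wre (θ (Nat.count Nat.Prime k)).1 w : ℝ) : ℂ) := by
        rw [chn, dif_pos hk]
        exact trace_real (θ (Nat.count Nat.Prime k)).2 hm
      have h1 : ((a : ℤ) : ℝ) = ∑ w ∈ m.support, (m w : ℝ) / c0 * C w := by
        have h2 : c0 * a = ∑ w ∈ m.support, (m w : ℝ) * C w := by
          unfold Finsupp.sum at ha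
          rw [hc0]
          exact_mod_cast ha
        have h3 : ∑ w ∈ m.support, (m w : ℝ) / c0 * C w =
            (∑ w ∈ m.support, (m w : ℝ) * C w) / c0 := by
          rw [Finset.sum_div]
          exact Finset.sum_congr rfl fun w _ => by ring
        rw [h3, ← h2, mul_div_cancel_left₀ _ hc0ne]
      rw [h0, ← Complex.ofReal_intCast a, ← Complex.ofReal_sub, h1]
      congr 1
      unfold Finsupp.sum
      rw [← Finset.sum_sub_distrib]
      refine Finset.sum_congr rfl fun w _ => ?_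
      rw [if_pos hk]
      ring
    · rw [chn, dif_neg hk, if_neg hk, mul_zero, sub_zero]
      simp [hk]
  set D' : ℝ := ∑ w ∈ m.support, |(m w : ℝ) / c0| * |D w| with hD'
  have hpart : ∀ N : ℕ, ‖∑ k ∈ Finset.Icc 1 N, fm k‖ ≤ D' * Real.sqrt N := by
    intro N
    simp only [hre]
    rw [← Complex.ofReal_sum, Complex.norm_real, Real.norm_eq_abs, Finset.sum_comm, hD',
      Finset.sum_mul]
    refine (Finset.abs_sum_le_sum_abs _ _).trans (Finset.sum_le_sum fun w _ => ?_)
    rw [← Finset.mul_sum, abs_mul, mul_assoc]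
    refine mul_le_mul_of_nonneg_left ?_ (abs_nonneg _)
    exact partial_sumsX (θ := θ) (G := fun q : {q : Torus n // IsPt q} => wre q.1 w - C w)
      (abs_nonneg _) (fun n => (hD w n).trans
        (mul_le_mul_of_nonneg_right (le_abs_self _) (Real.sqrt_nonneg _))) N
  have hB : ∀ k, ‖fm k‖ ≤ mnorm m + |(a : ℝ)| * mnorm (Finsupp.single (0 : Wt n) (1 : ℤ)) := by
    intro k
    refine (norm_sub_le _ _).trans (add_le_add (chn_le hπ m k) ?_)
    rw [norm_mul, Complex.norm_intCast]
    exact mul_le_mul_of_nonneg_left (chn_le hπ _ k) (abs_nonneg _)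
  obtain ⟨H, hH1, hH2⟩ := dir_ext hB hpart
  refine ⟨a, fun s => H s + hol π m s - a * hol π (Finsupp.single 0 1) s, ha, ?_, ?_⟩
  · exact (hH1.add (hol_diff hπ m)).sub ((hol_diff hπ _).const_mul _)
  · intro s hs
    have h1 := factor_hasProd hπ m hs
    have h2 : LSeries (chn π m) s = LSeries fm s + a * LSeries (chn π (Finsupp.single 0 1)) s := by
      have h3 : LSeriesSummable fm s :=
        LSeriesSummable_of_bounded_of_one_lt_re (fun k _ => hB k) hs
      have h4 := (chn_summable hπ (Finsupp.single 0 1) hs).smul (a : ℂ)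
      rw [← LSeries_smul, ← LSeries_add h3 h4]
      congr 1
      funext k
      simp only [hfm, Pi.add_apply, Pi.smul_apply, smul_eq_mul, sub_add_cancel]
    have h5 : riemannZeta s ^ a * Complex.exp (H s + hol π m s -
        a * hol π (Finsupp.single 0 1) s) =
        Complex.exp (LSeries (chn π m) s + hol π m s) := by
      rw [zeta_eq hπ hs, ← Complex.exp_int_mul, ← Complex.exp_add, h2, hH2 s hs]
      congr 1
      ring
    rw [h5]
    exact h1

end Pool.Agent.EEAN
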