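import Pool.Agent.W_eea520_G.D
import Pool.Agent.W_eea520_G.B
import Pool.Agent.W_eea520_G.E

/-!
# The function `dd` (MP_eea520_nt, edge theorem for `GSp(2n)`)
-/

set_option autoImplicit false

namespace Pool.Agent.EEAN

open Filter Topology Pool.Agent.EEA520 Pool.Agent.EEAG1
open scoped InnerProductSpace

/-- `∏ (1 - e_γ) (1 - e_{-γ})`, `γ ∈ l`. -/
noncomputable def ddA {X : Type} [AddCommGroup X] (l : List X) : AddMonoidAlgebra ℤ X :=
  (l.map fun γ => ((1 : AddMonoidAlgebra ℤ X) - AddMonoidAlgebra.single γ 1) *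
    (1 - AddMonoidAlgebra.single (-γ) 1)).prod

/-- The coefficients of `ddA l`. -/
noncomputable def dd {X : Type} [AddCommGroup X] (l : List X) : X →₀ ℤ := (ddA l).coeff

section

variable {G : Type} [AddCommGroup G] {H : Type} [NormedAddCommGroup H] [InnerProductSpace ℝ H]

/-- The partial sums `S_m = ∑_{j < m} U (j γ) v`. -/
noncomputable def Sm (U : G → H ≃ₗᵢ[ℝ] H) (γ : G) (v : H) (m : ℕ) : H :=
  ∑ j ∈ Finset.range m, U (j • γ) v

/-- The averages `A_N = (1 / N) ∑_{m = 1}^N S_m`. -/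
noncomputable def Am (U : G → H ≃ₗᵢ[ℝ] H) (γ : G) (v : H) (N : ℕ) : H :=
  (N : ℝ)⁻¹ • ∑ m ∈ Finset.range N, Sm U γ v (m + 1)

end

end Pool.Agent.EEAN
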