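import Pool.Agent.W_eea520_G.D
import Pool.Agent.W_eea520_n.Defs
import Pool.Agent.W_eea520_n.K0

set_option autoImplicit false

namespace Pool.Agent.EEAN

open Filter Topology Pool.Agent.EEA520 Pool.Agent.EEAG1

variable {n : ℕ}

/-- The product of elements of the Weyl group. -/
def A1_comp (h g : WG n) : WG n := (g.1 * h.1, symmDiff h.2 (g.2.map h.1.symm.toEmbedding))

theorem A1_act_comp (h g : WG n) (w : Wt n) : act h (act g w) = act (A1_comp h g) w := by
  obtain ⟨σ, I⟩ := h
  obtain ⟨τ, J⟩ := g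
  rw [act_apply, act_apply, act_apply, A1_comp]
  ext i
  · rfl
  · have hm : (i ∈ J.map σ.symm.toEmbedding) ↔ σ i ∈ J := by
      rw [Finset.mem_map]
      constructor
      · rintro ⟨j, hj, rfl⟩
        simpa using hj
      · intro h
        exact ⟨σ i, h, by simp⟩
    simp only [Finset.mem_symmDiff, hm, Equiv.Perm.mul_apply]
    by_cases h1 : i ∈ I <;> by_cases h2 : σ i ∈ J <;> simp [h1, h2]

theorem A1_comp_inj (g : WG n) : Function.Injective fun h : WG n => A1_comp h g := by
  rintro ⟨σ, I⟩ ⟨σ', I'⟩ h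
  simp only [A1_comp, Prod.mk.injEq] at h
  obtain ⟨h1, h2⟩ := h
  have h3 : σ = σ' := mul_left_cancel h1
  subst h3
  have h4 : I = I' := symmDiff_left_injective _ h2
  rw [h4]

/-- The composition of elements of the Weyl group. -/
theorem act_comp (g h : WG n) : ∃ k : WG n, ∀ w, act g (act h w) = act k w :=
  ⟨A1_comp g h, A1_act_comp g h⟩

/-- `orb (act g w) = orb w`: for every `g` the map `h ↦ (the k with act h ∘ act g = act k)` is a bijection of
`WG n`. Explicitly, for `h = (σ, I)` and `g = (τ, J)`: `act h (act g w)` at `i` is `w.2 (τ (σ i))`, reflected if exactly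
one of `i ∈ I`, `σ i ∈ J` holds: `k = (τ * σ, I ∆ J.map σ⁻¹)`. (Or: both sides count `card {h | act h w = u}`;
`orb_isCharacter`, `IsCharacter.act` and `∑_u`; or compare `orb_apply`: `u` is in the orbit of `w`…) -/
theorem orb_act (g : WG n) (w : Wt n) : orb (act g w) = orb w := by
  unfold orb
  simp only [A1_act_comp]
  exact Fintype.sum_bijective _ (A1_comp_inj g).bijective_of_finite _ _ fun h => rfl

theorem A1_psm_sum {ι : Type*} (t : Finset ι) (r : ι → ℝ) (F : ι → Pr → ℝ)
    (hF : ∀ i ∈ t, BdP (F i)) {s : ℝ} (hs : 1 < s) :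
    psm (fun p => ∑ i ∈ t, r i * F i p) s = ∑ i ∈ t, r i * psm (F i) s := by
  unfold psm
  simp only [Finset.sum_mul, mul_assoc]
  rw [Summable.tsum_finsetSum fun i hi => (summable_psm (hF i hi) hs).mul_left (r i)]
  exact Finset.sum_congr rfl fun i _ => tsum_mul_left

theorem A1_psm_const {s : ℝ} (r : ℝ) : psm (fun _ => r) s = r * pz s := by
  unfold psm pz
  rw [tsum_mul_left]

theorem A1_abs {f : Pr → ℝ} {C : ℝ} (hf : ∀ p, |f p| ≤ C) {s : ℝ} (hs : 1 < s) :
    |psm f s / pz s| ≤ C := by
  have hz := pz_pos hs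
  rw [abs_div, abs_of_pos hz, div_le_iff₀ hz]
  unfold psm pz
  rw [← tsum_mul_left]
  have h1 : Summable fun p : Pr => ‖f p * ((p : ℕ) : ℝ) ^ (-s)‖ :=
    (summable_psm ⟨C, hf⟩ hs).norm
  refine (norm_tsum_le_tsum_norm h1).trans ?_
  refine h1.tsum_le_tsum (fun p => ?_) ((summable_pz hs).mul_left C)
  rw [Real.norm_eq_abs, abs_mul, abs_of_pos (Mean_pow_pos p s)]
  exact mul_le_mul_of_nonneg_right (hf p) (Mean_pow_pos p s).le

theorem A1_orb_le {π : GSys n} (hπ : Tempered π) (w : Wt n) (p : Pr) :
    |tre π (orb w) 0 p| ≤ Fintype.card (WG n) := by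
  rw [tre_orb]
  refine (Finset.abs_sum_le_sum_abs _ _).trans ?_
  refine (Finset.sum_le_sum fun g _ => zre_le hπ (act g w) 0 p).trans ?_
  rw [Finset.sum_const, Finset.card_univ, nsmul_eq_mul, mul_one]

theorem A1_ev_zero (t : Torus n) : t.ev 0 = 1 := by
  unfold Torus.ev
  simp

theorem A1_zre_neg {π : GSys n} (hπ : Tempered π) (w : Wt n) (p : Pr) :
    zre π (-w) 0 p = zre π w 0 p := by
  rw [zre_eq, zre_eq]
  have h4 := zcx_sub hπ 0 w 0 0 p
  rw [zero_sub, sub_zero] at h4
  have h5 : zcx π (0 : Wt n) 0 p = 1 := by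
    unfold zcx
    rw [A1_ev_zero]
    simp
  rw [h5, one_mul] at h4
  rw [h4, Complex.conj_re]

/-- The mean values for a fixed `s > 1` are positive definite functions of the weight. See the proofs of
`posDefG_ord` (`W_eea520_G/D.lean`; there the mean values are limits) and `posDef_at`
(`W_eea520_G/C2.lean`). `psm (tre π (orb w) 0) s = ∑' p, (∑_g zre π (act g w) 0 p) p ^ (-s)` (`tre_orb`), and for
finitely supported `a`, `∑_{v, w} a_v a_w zre π (act g (v - w)) 0 p = |∑_v a_v zcx π (act g v) 0 p| ^ 2 ≥ 0`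
(`zcx_sub` with `s = t = 0`). -/
theorem posDefG_at {π : GSys n} (hπ : Tempered π) {s : ℝ} (hs : 1 < s) :
    PosDefG fun w : Wt n => psm (tre π (orb w) 0) s / pz s := by
  classical
  refine ⟨fun w => ?_, fun a => ?_⟩
  · have h1 : tre π (orb (-w)) 0 = tre π (orb w) 0 := by
      funext p
      rw [tre_orb, tre_orb]
      refine Finset.sum_congr rfl fun g _ => ?_
      rw [map_neg, A1_zre_neg hπ]
    rw [h1]
  · have h2 : a.sum (fun i b => a.sum fun j b' => b * b' *
        (psm (tre π (orb (i - j)) 0) s / pz s)) =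
        psm (fun p => ∑ y ∈ a.support ×ˢ a.support,
          (a y.1 * a y.2) * tre π (orb (y.1 - y.2)) 0 p) s / pz s := by
      rw [A1_psm_sum _ _ _ (fun y _ => bdP_tre hπ _ _) hs, Finset.sum_div, Finset.sum_product]
      unfold Finsupp.sum
      refine Finset.sum_congr rfl fun i _ => Finset.sum_congr rfl fun j _ => ?_
      rw [mul_div_assoc]
    rw [h2]
    refine div_nonneg (tsum_nonneg fun p => mul_nonneg ?_ (Mean_pow_pos p s).le) (pz_pos hs).le
    have h3 : ∀ g : WG n, ∑ y ∈ a.support ×ˢ a.support,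
        (a y.1 * a y.2) * zre π (act g (y.1 - y.2)) 0 p =
        Complex.normSq (∑ y ∈ a.support, (a y : ℂ) * zcx π (act g y) 0 p) := by
      intro g
      have h4 : ((Complex.normSq (∑ y ∈ a.support, (a y : ℂ) * zcx π (act g y) 0 p) : ℝ) : ℂ) =
          ∑ y ∈ a.support ×ˢ a.support,
            ((a y.1 * a y.2 : ℝ) : ℂ) * zcx π (act g (y.1 - y.2)) 0 p := by
        rw [← Complex.mul_conj, map_sum, Finset.sum_mul_sum, Finset.sum_product]
        refine Finset.sum_congr rfl fun i _ => Finset.sum_congr rfl fun j _ => ?_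
        have h6 := zcx_sub hπ (act g i) (act g j) 0 0 p
        rw [sub_zero] at h6
        rw [map_mul, Complex.conj_ofReal, map_sub, h6]
        push_cast
        ring
      rw [← Complex.ofReal_re (Complex.normSq _), h4, Complex.re_sum]
      refine Finset.sum_congr rfl fun y _ => ?_
      rw [Complex.re_ofReal_mul, zre_eq]
    simp only [tre_orb, Finset.mul_sum]
    rw [Finset.sum_comm]
    refine Finset.sum_nonneg fun g _ => ?_
    rw [h3]
    exact Complex.normSq_nonneg _

/-- For `m` a character, `card (WG n) * psm (tre π m 0) s = ∑_w m w * psm (tre π (orb w) 0) s`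
(`sum_tre_orb`, `summable_psm`, `bdP_tre`). -/
theorem psm_character {π : GSys n} (hπ : Tempered π) {s : ℝ} (hs : 1 < s) {m : Wt n →₀ ℤ}
    (hm : IsCharacter m) : (Fintype.card (WG n) : ℝ) * (psm (tre π m 0) s / pz s) =
      m.sum fun w e => (e : ℝ) * (psm (tre π (orb w) 0) s / pz s) := by
  have h1 : psm (fun p => ∑ w ∈ m.support, (m w : ℝ) * tre π (orb w) 0 p) s =
      ∑ w ∈ m.support, (m w : ℝ) * psm (tre π (orb w) 0) s :=
    A1_psm_sum _ _ _ (fun w _ => bdP_tre hπ _ _) hs
  have h2 : (fun p => ∑ w ∈ m.support, (m w : ℝ) * tre π (orb w) 0 p) =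
      fun p => (Fintype.card (WG n) : ℝ) * tre π m 0 p := by
    funext p
    exact sum_tre_orb hm π 0 p
  have h3 : psm (fun p => (Fintype.card (WG n) : ℝ) * tre π m 0 p) s =
      (Fintype.card (WG n) : ℝ) * psm (tre π m 0) s := by
    unfold psm
    simp only [mul_assoc]
    rw [tsum_mul_left]
  rw [h2, h3] at h1
  rw [← mul_div_assoc, h1, Finset.sum_div]
  unfold Finsupp.sum
  exact Finset.sum_congr rfl fun w _ => mul_div_assoc _ _ _

/-- Limits along an ultrafilter. All the functions are bounded by `card (WG n)` (`zre_le`, `abs_psm`-like bounds;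
compare `exists_ultra` in `W_eea520_G/C2.lean`), so the limits exist; the limit is positive definite
(as in `posDefG_limit`; for a fixed finitely supported `a` the inequality is closed), it is
invariant under the Weyl group by `orb_act`, its value at `0` is `card (WG n)`
(`tre_orb`, `zre π 0 0 p = 1`), and the last clause follows from `psm_character`. -/
theorem exists_cU {π : GSys n} (hπ : Tempered π) (U : Ultrafilter ℝ)
    (hU : (U : Filter ℝ) ≤ 𝓝[>] 1) : ∃ c : Wt n → ℝ, PosDefG c ∧ (∀ g w, c (act g w) = c w) ∧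
      c 0 = Fintype.card (WG n) ∧
      (∀ w, Tendsto (fun s => psm (tre π (orb w) 0) s / pz s) U (𝓝 (c w))) ∧
      ∀ (m : Wt n →₀ ℤ), IsCharacter m → ∀ k : ℤ, PoleOrder π m 1 k →
        (Fintype.card (WG n) : ℝ) * k = m.sum fun w e => (e : ℝ) * c w := by
  have hev : ∀ᶠ s in (U : Filter ℝ), 1 < s := hU Mean_ev
  have hlim : ∀ w : Wt n, ∃ x : ℝ,
      Tendsto (fun s => psm (tre π (orb w) 0) s / pz s) U (𝓝 x) := by
    intro w
    have h1 : ∀ᶠ s in (U : Filter ℝ), psm (tre π (orb w) 0) s / pz s ∈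
        Set.Icc (-(Fintype.card (WG n) : ℝ)) (Fintype.card (WG n) : ℝ) := by
      filter_upwards [hev] with s hs
      exact abs_le.1 (A1_abs (A1_orb_le hπ w) hs)
    have h2 := (isCompact_Icc (a := -(Fintype.card (WG n) : ℝ))
      (b := (Fintype.card (WG n) : ℝ))).ultrafilter_le_nhds
      (U.map fun s => psm (tre π (orb w) 0) s / pz s)
      (by
        rw [Ultrafilter.coe_map, Filter.le_principal_iff]
        exact h1)
    obtain ⟨x, _, hx⟩ := h2
    exact ⟨x, hx⟩
  choose c hc using hlim
  refine ⟨c, ⟨fun w => ?_, fun a => ?_⟩, fun g w => ?_, ?_, hc, fun m hm k hk => ?_⟩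
  · refine tendsto_nhds_unique ((hc (-w)).congr' ?_) (hc w)
    filter_upwards [hev] with s hs
    exact (posDefG_at hπ hs).symm w
  · have h1 : Tendsto (fun s => a.sum fun i b => a.sum fun j d =>
        b * d * (psm (tre π (orb (i - j)) 0) s / pz s)) U
        (𝓝 (a.sum fun i b => a.sum fun j d => b * d * c (i - j))) := by
      unfold Finsupp.sum
      exact tendsto_finsetSum _ fun i _ => tendsto_finsetSum _ fun j _ => (hc (i - j)).const_mul _
    refine ge_of_tendsto h1 ?_
    filter_upwards [hev] with s hs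
    exact (posDefG_at hπ hs).nonneg a
  · have h1 := hc (act g w)
    rw [orb_act] at h1
    exact tendsto_nhds_unique h1 (hc w)
  · have h1 : (fun s => psm (tre π (orb (0 : Wt n)) 0) s / pz s) =ᶠ[(U : Filter ℝ)]
        fun _ => (Fintype.card (WG n) : ℝ) := by
      filter_upwards [hev] with s hs
      have h2 : tre π (orb (0 : Wt n)) 0 = fun _ => (Fintype.card (WG n) : ℝ) := by
        funext p
        rw [tre_orb]
        have h3 : ∀ g : WG n, zre π (act g 0) 0 p = 1 := by
          intro g
          rw [map_zero, zre_eq]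
          unfold zcx
          rw [A1_ev_zero]
          simp
        simp only [h3]
        rw [Finset.sum_const, Finset.card_univ, nsmul_eq_mul, mul_one]
      rw [h2, A1_psm_const, mul_div_assoc, div_self (pz_pos hs).ne', mul_one]
    exact tendsto_nhds_unique (hc 0) (tendsto_const_nhds.congr' h1.symm)
  · have h0 : pt 0 = 1 := by
      unfold pt
      simp
    rw [← h0] at hk
    have h1 : Tendsto (fun s => psm (tre π m 0) s / pz s) U (𝓝 (k : ℝ)) :=
      (mean_of_poleOrder hπ hk).mono_left hU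
    have h2 := h1.const_mul (Fintype.card (WG n) : ℝ)
    have h3 : Tendsto (fun s => m.sum fun w e => (e : ℝ) * (psm (tre π (orb w) 0) s / pz s)) U
        (𝓝 (m.sum fun w e => (e : ℝ) * c w)) := by
      unfold Finsupp.sum
      exact tendsto_finsetSum _ fun w _ => (hc w).const_mul _
    refine tendsto_nhds_unique (h2.congr' ?_) h3
    filter_upwards [hev] with s hs
    exact psm_character hπ hs hm

end Pool.Agent.EEAN
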