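import Pool.Agent.W_eea520_n.B1a

set_option autoImplicit false

namespace Pool.Agent.EEAN

open Filter Topology Pool.Agent.EEA520 Pool.Agent.EEAG1

variable {n : ℕ}

/-- If two regular dominant weights are in the same orbit of the Weyl group, then they are equal. If the
coefficient is not zero, then `(K, M') = act g (K, M)` for some `g` (`alt_coeff`), and by `top_alt`
(`AlgY.lean`; `Top w f` says that the coefficient of `f` at `w` is one and all other weights have smaller
height `ht`) `M' = M` or `ht (K, M') < ht (K, M)`. In the same way, `(K, M)` is in the support of `alt K M'`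
(`alt_act` for `M'`: `(alt K M').coeff (act g (K, M)) = (alt K M').coeff (K, M') = 1 ≠ 0`), so `M = M'` or
`ht (K, M) < ht (K, M')`. -/
theorem alt_dom {K : ℤ} {M M' : Fin n → ℤ} (hM : StrictAnti M) (hK : ∀ i, K < 2 * M i)
    (hM' : StrictAnti M') (hK' : ∀ i, K < 2 * M' i) :
    (alt K M).coeff (K, M') = if M' = M then 1 else 0 := by
  have hT := top_alt K M hM hK
  by_cases h : M' = M
  · rw [if_pos h, h]
    exact hT.1
  · rw [if_neg h]
    by_contra hc
    have hT' := top_alt K M' hM' hK'
    have hne : ((K, M') : Wt n) ≠ (K, M) := fun e => h (congrArg Prod.snd e)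
    have hlt := hT.2 (K, M') hc hne
    have hc2 := hc
    rw [alt_coeff] at hc2
    obtain ⟨g, _, hg⟩ := Finset.exists_ne_zero_of_sum_ne_zero hc2
    have hg1 : act g (K, M) = (K, M') := by
      by_contra h1
      rw [if_neg h1, mul_zero] at hg
      exact hg rfl
    have h2 := alt_act g K M' (K, M)
    rw [hg1, hT'.1] at h2
    have h3 : (alt K M').coeff (K, M) ≠ 0 := by
      intro h4
      rw [h4, mul_zero] at h2
      exact one_ne_zero h2
    have hlt' := hT'.2 (K, M) h3 (Ne.symm hne)
    exact lt_asymm hlt hlt'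

/-- The orders in the Sato-Tate case: by definition `ordE` is the coefficient of
`alt (k + 1) (μ + n - j)` at `u` with `u - ρ = 0`, `u = ρ = (1, n - j)`; if `k ≠ 0` it is `0`
(all weights in the support of `alt K M` have first coordinate `K`), and if `k = 0` use `alt_dom`. -/
theorem ordE_zero {k : ℤ} {μ : Fin n → ℤ} (h1 : Antitone μ) (h2 : ∀ i, k ≤ 2 * μ i) :
    ordE (fun w : Wt n => if w = 0 then 1 else 0) k μ = if k = 0 ∧ μ = 0 then 1 else 0 := by
  classical
  have h3 : ordE (fun w : Wt n => if w = 0 then 1 else 0) k μ =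
      (alt (k + 1) fun j : Fin n => μ j + ((n : ℤ) - j)).coeff (rho n) := by
    unfold ordE
    rw [Finsupp.sum, Finset.sum_eq_single (rho n)]
    · beta_reduce
      rw [sub_self, if_pos rfl, mul_one]
    · intro u _ hu
      beta_reduce
      rw [if_neg (fun h => hu (sub_eq_zero.1 h)), mul_zero]
    · intro h
      rw [Finsupp.notMem_support_iff.1 h, zero_mul]
  rw [h3]
  have hM : StrictAnti fun j : Fin n => μ j + ((n : ℤ) - j) := by
    intro i j hij
    have h4 := h1 hij.le
    have h5 : (i : ℕ) < (j : ℕ) := hij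
    show μ j + ((n : ℤ) - j) < μ i + ((n : ℤ) - i)
    omega
  have hM' : StrictAnti fun j : Fin n => ((n : ℤ) - j) := by
    intro i j hij
    have h5 : (i : ℕ) < (j : ℕ) := hij
    show ((n : ℤ) - j) < ((n : ℤ) - i)
    omega
  by_cases hk : k = 0
  · subst hk
    have h6 := alt_dom (n := n) (K := 0 + 1) (M := fun j : Fin n => μ j + ((n : ℤ) - j))
      (M' := fun j : Fin n => ((n : ℤ) - j)) hM (fun i => by
        have h7 := h2 i
        have h8 := i.2
        show (0 : ℤ) + 1 < 2 * (μ i + ((n : ℤ) - i))
        omega) hM' (fun i => by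
        have h8 := i.2
        show (0 : ℤ) + 1 < 2 * ((n : ℤ) - i)
        omega)
    have h7 : ((0 + 1, fun j : Fin n => ((n : ℤ) - j)) : Wt n) = rho n := rfl
    rw [h7] at h6
    rw [h6]
    by_cases hμ : μ = 0
    · refine (if_pos ?_).trans (if_pos ⟨rfl, hμ⟩).symm
      funext j
      rw [hμ, Pi.zero_apply, zero_add]
    · refine (if_neg ?_).trans (if_neg fun h => hμ h.2).symm
      intro h
      apply hμ
      funext j
      have h8 : (n : ℤ) - j = μ j + ((n : ℤ) - j) := congrFun h j
      rw [Pi.zero_apply]
      omega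
  · rw [if_neg (fun h => hk h.1), alt_coeff]
    refine Finset.sum_eq_zero fun g _ => ?_
    rw [if_neg, mul_zero]
    intro h
    apply hk
    have h8 := congrArg Prod.fst h
    rw [act_apply] at h8
    have h9 : k + 1 = 1 := h8
    omega

end Pool.Agent.EEAN
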