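import Pool.Agent.W_eea520_n.B1a

set_option autoImplicit false

namespace Pool.Agent.EEAN

open Filter Topology Pool.Agent.EEA520 Pool.Agent.EEAG1

variable {n : ℕ}

theorem B3a_exists {f g : R n} {u : Wt n} (h : (f * g).coeff u ≠ 0) :
    ∃ a b, f.coeff a ≠ 0 ∧ g.coeff b ≠ 0 ∧ a + b = u := by
  classical
  rw [AddMonoidAlgebra.coeff_mul, Finsupp.sum] at h
  obtain ⟨a, ha, ha'⟩ := Finset.exists_ne_zero_of_sum_ne_zero h
  rw [Finsupp.sum] at ha'
  obtain ⟨b, hb, hb'⟩ := Finset.exists_ne_zero_of_sum_ne_zero ha'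
  refine ⟨a, b, Finsupp.mem_support_iff.1 ha, Finsupp.mem_support_iff.1 hb, ?_⟩
  by_contra hab
  exact hb' (if_neg hab)

/-- The part of `f` of degree `c`. -/
noncomputable def B3a_P (φ : Wt n →+ ℤ) (f : R n) (c : ℤ) : R n :=
  AddMonoidAlgebra.ofCoeff (f.coeff.filter fun w => φ w = c)

theorem B3a_P_coeff (φ : Wt n →+ ℤ) (f : R n) (c : ℤ) (w : Wt n) :
    (B3a_P φ f c).coeff w = if φ w = c then f.coeff w else 0 := by
  classical
  show (f.coeff.filter fun w => φ w = c) w = _
  rw [Finsupp.filter_apply]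

theorem B3a_top (φ : Wt n →+ ℤ) {f g : R n} {c : ℤ} (h : ∀ u, (f * g).coeff u ≠ 0 → φ u ≤ c)
    {w d : Wt n} (hw : f.coeff w ≠ 0) (hd : g.coeff d ≠ 0) : φ w + φ d ≤ c := by
  classical
  obtain ⟨w0, hw0, hwm⟩ := Finset.exists_max_image f.coeff.support φ
    ⟨w, Finsupp.mem_support_iff.2 hw⟩
  obtain ⟨d0, hd0, hdm⟩ := Finset.exists_max_image g.coeff.support φ
    ⟨d, Finsupp.mem_support_iff.2 hd⟩
  have hF0 : B3a_P φ f (φ w0) ≠ 0 := by
    intro h0
    have h1 := B3a_P_coeff φ f (φ w0) w0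
    rw [h0, if_pos rfl] at h1
    exact Finsupp.mem_support_iff.1 hw0 h1.symm
  have hG0 : B3a_P φ g (φ d0) ≠ 0 := by
    intro h0
    have h1 := B3a_P_coeff φ g (φ d0) d0
    rw [h0, if_pos rfl] at h1
    exact Finsupp.mem_support_iff.1 hd0 h1.symm
  have hFG : B3a_P φ f (φ w0) * B3a_P φ g (φ d0) ≠ 0 := mul_ne_zero hF0 hG0
  obtain ⟨u, hu⟩ : ∃ u, (B3a_P φ f (φ w0) * B3a_P φ g (φ d0)).coeff u ≠ 0 := by
    by_contra hcon
    push Not at hcon
    apply hFG
    apply AddMonoidAlgebra.coeff_injective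
    ext u
    exact hcon u
  have hFx : ∀ x, (B3a_P φ f (φ w0)).coeff x ≠ 0 → φ x = φ w0 := by
    intro x hx
    rw [B3a_P_coeff] at hx
    by_contra hne
    rw [if_neg hne] at hx
    exact hx rfl
  have hGx : ∀ x, (B3a_P φ g (φ d0)).coeff x ≠ 0 → φ x = φ d0 := by
    intro x hx
    rw [B3a_P_coeff] at hx
    by_contra hne
    rw [if_neg hne] at hx
    exact hx rfl
  obtain ⟨x, y, hx, hy, hxy⟩ := B3a_exists hu
  have hφu : φ u = φ w0 + φ d0 := by
    rw [← hxy, map_add, hFx x hx, hGx y hy]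
  have e1 : f * g = B3a_P φ f (φ w0) * B3a_P φ g (φ d0) +
      (B3a_P φ f (φ w0) * (g - B3a_P φ g (φ d0)) + (f - B3a_P φ f (φ w0)) * g) := by ring
  have e2 : (B3a_P φ f (φ w0) * (g - B3a_P φ g (φ d0))).coeff u = 0 := by
    by_contra hne
    obtain ⟨p, q, hp, hq, hpq⟩ := B3a_exists hne
    rw [AddMonoidAlgebra.coeff_sub, Finsupp.sub_apply, B3a_P_coeff] at hq
    by_cases hq1 : φ q = φ d0
    · rw [if_pos hq1, sub_self] at hq
      exact hq rfl
    · rw [if_neg hq1, sub_zero] at hq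
      have h1 := hdm q (Finsupp.mem_support_iff.2 hq)
      have h2 := hFx p hp
      rw [← hpq, map_add] at hφu
      omega
  have e3 : ((f - B3a_P φ f (φ w0)) * g).coeff u = 0 := by
    by_contra hne
    obtain ⟨p, q, hp, hq, hpq⟩ := B3a_exists hne
    rw [AddMonoidAlgebra.coeff_sub, Finsupp.sub_apply, B3a_P_coeff] at hp
    by_cases hp1 : φ p = φ w0
    · rw [if_pos hp1, sub_self] at hp
      exact hp rfl
    · rw [if_neg hp1, sub_zero] at hp
      have h1 := hwm p (Finsupp.mem_support_iff.2 hp)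
      have h2 := hdm q (Finsupp.mem_support_iff.2 hq)
      rw [← hpq, map_add] at hφu
      omega
  have h5 : (f * g).coeff u ≠ 0 := by
    rw [e1, AddMonoidAlgebra.coeff_add, Finsupp.add_apply, AddMonoidAlgebra.coeff_add,
      Finsupp.add_apply, e2, e3, add_zero, add_zero]
    exact hu
  have h6 := h u h5
  have h7 := hwm w (Finsupp.mem_support_iff.2 hw)
  have h8 := hdm d (Finsupp.mem_support_iff.2 hd)
  omega

theorem B3a_alt {K : ℤ} {M : Fin n → ℤ} {u : Wt n} (h : (alt K M).coeff u ≠ 0) :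
    ∃ g : WG n, act g (K, M) = u := by
  rw [alt_coeff] at h
  obtain ⟨g, _, hg⟩ := Finset.exists_ne_zero_of_sum_ne_zero h
  refine ⟨g, ?_⟩
  by_contra hne
  rw [if_neg hne, mul_zero] at hg
  exact hg rfl

/-- The weights of an irreducible representation of `SO(2n+1)` are not larger than the highest weight in
the maximum norm. Let `D = alt 1 (n - j)`, `B = alt 1 (μ_j + n - j)`, `m * D = B` in `R n`, which has no zero
divisors (as in the proof of `IsIrr.unique`). Let `i : Fin n`. Suppose that `a = max {w.2 i}` over the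
support of `m` is `> r`. The elements `m_a` (the part of `m` with `w.2 i = a`) and `D_n` (the part of `D` with
`w.2 i = n`, the maximum: it is not zero, as `ρ = (1, n - j)` has an image under the Weyl group, with the
coordinate `n` at `i`, and by `alt_act` the coefficient is `± 1`, `top_alt`) are not zero, so
`m_a * D_n ≠ 0`, and this is the part of `B` with `w.2 i = a + n`. But by `alt_coeff` all weights of `B` have
coordinates `≤ max (μ_j + n - j, 1 - (μ_j + n - j)) ≤ r + n < a + n`. Contradiction. So all weights `w`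
have `w.2 i ≤ r`; by invariance (`IsIrr.isCharacter` and `IsCharacter.2 i`: `m (0, update μ i (- μ i))`)
also `- w.2 i ≤ r`. That `w.1 = 0`: the same argument for the first coordinate, or
`IsIrr.top`-like lemmas in `AlgX.lean`: look for the lemma that all weights of an irreducible character
have first coordinate `k` (for instance from `m * D = B`: take the maximal and the minimal first
coordinates in the support of `m`). -/
theorem irr_supp {r : ℕ} {μ : Fin n → ℤ} {m : Wt n →₀ ℤ} (h : IsIrr 0 μ m) (hr : ∀ i, μ i ≤ r)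
    {w : Wt n} (hw : m w ≠ 0) : w.1 = 0 ∧ ∀ i, |w.2 i| ≤ r := by
  classical
  have hch := h.isCharacter
  obtain ⟨h1, h2, h3⟩ := h
  have hr0 : (0 : ℤ) ≤ (r : ℤ) := Int.natCast_nonneg r
  have hD : (alt 1 fun j : Fin n => (n : ℤ) - j).coeff ((1, fun j : Fin n => (n : ℤ) - j) : Wt n) = 1 := by
    refine (top_alt _ _ (fun i j hij => ?_) fun i => ?_).1
    · have h4 : (i : ℕ) < (j : ℕ) := hij
      show (n : ℤ) - (j : ℕ) < (n : ℤ) - (i : ℕ)
      omega
    · have := i.2
      omega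
  have hw' : (AddMonoidAlgebra.ofCoeff m : R n).coeff w ≠ 0 := hw
  have hw1 : w.1 = 0 := by
    have k1 := B3a_top (AddMonoidHom.fst ℤ (Fin n → ℤ)) (f := AddMonoidAlgebra.ofCoeff m)
      (g := alt 1 fun j : Fin n => (n : ℤ) - j) (c := 1) (by
        intro u hu
        rw [h3] at hu
        obtain ⟨g, hg⟩ := B3a_alt hu
        rw [← hg]
        show (0 : ℤ) + 1 ≤ 1
        norm_num) hw' (by rw [hD]; exact one_ne_zero)
    have k2 := B3a_top (-(AddMonoidHom.fst ℤ (Fin n → ℤ))) (f := AddMonoidAlgebra.ofCoeff m)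
      (g := alt 1 fun j : Fin n => (n : ℤ) - j) (c := -1) (by
        intro u hu
        rw [h3] at hu
        obtain ⟨g, hg⟩ := B3a_alt hu
        rw [← hg]
        show -((0 : ℤ) + 1) ≤ -1
        norm_num) hw' (by rw [hD]; exact one_ne_zero)
    have k3 : w.1 + 1 ≤ 1 := k1
    have k4 : -w.1 + -1 ≤ -1 := k2
    omega
  have key : ∀ (v : Wt n) (i : Fin n), m v ≠ 0 → v.2 i ≤ r := by
    intro v i hv
    have hv' : (AddMonoidAlgebra.ofCoeff m : R n).coeff v ≠ 0 := hv
    have hn : 0 < n := i.pos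
    have hg0 : ∃ d : Wt n, (alt 1 fun j : Fin n => (n : ℤ) - j).coeff d ≠ 0 ∧ d.2 i = n := by
      refine ⟨act (Equiv.swap ⟨0, hn⟩ i, ∅) (1, fun j : Fin n => (n : ℤ) - j), ?_, ?_⟩
      · rw [alt_act, hD, mul_one]
        unfold sgn
        refine mul_ne_zero ?_ (pow_ne_zero _ (by norm_num))
        exact_mod_cast Units.ne_zero _
      · have h5 : (act ((Equiv.swap ⟨0, hn⟩ i, ∅) : WG n) ((1, fun j : Fin n => (n : ℤ) - j) : Wt n)).2 i =
          (n : ℤ) - ((Equiv.swap ⟨0, hn⟩ i i : Fin n) : ℕ) := by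
          rw [act_apply]
          simp
        rw [h5, Equiv.swap_apply_right]
        simp
    obtain ⟨d, hd, hdi⟩ := hg0
    have k1 := B3a_top ((Pi.evalAddMonoidHom (fun _ : Fin n => ℤ) i).comp
      (AddMonoidHom.snd ℤ (Fin n → ℤ))) (f := AddMonoidAlgebra.ofCoeff m)
      (g := alt 1 fun j : Fin n => (n : ℤ) - j) (c := (r : ℤ) + n) (by
        intro u hu
        rw [h3] at hu
        obtain ⟨g, hg⟩ := B3a_alt hu
        rw [← hg]
        show (act g ((0 : ℤ) + 1, fun j : Fin n => μ j + ((n : ℤ) - j))).2 i ≤ r + n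
        rw [act_apply]
        have h6 := hr (g.1 i)
        have h7 := h2 (g.1 i)
        have h8 := (g.1 i).2
        show (if i ∈ g.2 then ((0 : ℤ) + 1) - (μ (g.1 i) + ((n : ℤ) - ((g.1 i : Fin n) : ℕ)))
          else μ (g.1 i) + ((n : ℤ) - ((g.1 i : Fin n) : ℕ))) ≤ r + n
        split_ifs <;> omega) hv' hd
    have k2 : v.2 i + d.2 i ≤ r + n := k1
    rw [hdi] at k2
    omega
  refine ⟨hw1, fun i => ?_⟩
  rw [abs_le]
  refine ⟨?_, key w i hw⟩
  have h9 : m (0, Function.update w.2 i (0 - w.2 i)) ≠ 0 := by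
    rw [hch.2 i 0 w.2]
    have h10 : ((0 : ℤ), w.2) = w := Prod.ext hw1.symm rfl
    rw [h10]
    exact hw
  have h11 := key _ i h9
  have h12 : (Function.update w.2 i (0 - w.2 i)) i ≤ r := h11
  rw [Function.update_self] at h12
  omega

end Pool.Agent.EEAN
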