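import Pool.Agent.W_eea520_n.B1b
import Pool.Agent.W_eea520_n.B2a
import Pool.Agent.W_eea520_n.B3a

set_option autoImplicit false

namespace Pool.Agent.EEAN

open Filter Topology Pool.Agent.EEA520 Pool.Agent.EEAG1

variable {n : ℕ}

theorem B2b_coeff {X : Type} [AddCommGroup X] (φ : X ≃+ X) (f : AddMonoidAlgebra ℤ X) (x : X) :
    (AddMonoidAlgebra.mapDomainRingEquiv ℤ φ f).coeff (φ x) = f.coeff x := by
  have h : (AddMonoidAlgebra.mapDomainRingEquiv ℤ φ f).coeff =
      Finsupp.equivMapDomain φ.toEquiv f.coeff :=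
    AddMonoidAlgebra.coeff_mapDomainRingEquiv φ f
  rw [h, Finsupp.equivMapDomain_apply]
  congr 1
  exact φ.symm_apply_apply x

theorem B2b_single {X : Type} [AddCommGroup X] (φ : X ≃+ X) (x : X) :
    AddMonoidAlgebra.mapDomainRingEquiv ℤ φ (AddMonoidAlgebra.single x 1) =
      AddMonoidAlgebra.single (φ x) 1 := by
  exact AddMonoidAlgebra.mapDomain_single

theorem B2b_ddA_neg (l : List (Fin n → ℤ)) :
    AddMonoidAlgebra.mapDomainRingEquiv ℤ (AddEquiv.neg (Fin n → ℤ)) (ddA l) = ddA l := by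
  induction l with
  | nil => simp [ddA]
  | cons γ l ih =>
    unfold ddA at ih ⊢
    rw [List.map_cons, List.prod_cons, map_mul, ih, map_mul, map_sub, map_sub, map_one, B2b_single,
      B2b_single]
    simp only [AddEquiv.neg_apply, neg_neg]
    rw [mul_comm (1 - AddMonoidAlgebra.single (-γ) 1) (1 - AddMonoidAlgebra.single γ 1)]

/-- `formula` for `f w = if w = 0 then 1 else 0` (`dd` is even: `hc` below or by `dd_eq`, or because `ddA l` is
invariant under `x ↦ -x`; here use the evenness `dd_neg`), `ordE_zero`. -/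
theorem dd_neg (l : List (Fin n → ℤ)) (x : Fin n → ℤ) : dd l (-x) = dd l x := by
  have h := B2b_coeff (AddEquiv.neg (Fin n → ℤ)) (ddA l) x
  rw [B2b_ddA_neg] at h
  exact h

/-- Orthogonality. By `formula` for `f w = if w = 0 then 1 else 0`: the inner sum is `dd (-w.2) = dd w.2` if
`w.1 = 0` and `0` otherwise. -/
theorem sum_dd {μ : Fin n → ℤ} {m : Wt n →₀ ℤ} (h : IsIrr 0 μ m) :
    (m.sum fun w z => z * dd (rtsN n) w.2) = if μ = 0 then (Fintype.card (WG n) : ℤ) else 0 := by
  have hform := formula h (fun w : Wt n => if w = 0 then 1 else 0) (by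
    intro g w
    refine if_congr ?_ rfl rfl
    constructor
    · intro h0
      exact act_injective g (h0.trans (map_zero (act g)).symm)
    · intro h0
      rw [h0, map_zero])
  rw [ordE_zero h.1 h.2.1] at hform
  have hs : ∀ w ∈ m.support, w.1 = 0 := by
    intro w hw
    refine (irr_supp (r := Finset.univ.sup fun i => (μ i).toNat) h (fun i => ?_)
      (Finsupp.mem_support_iff.mp hw)).1
    have h1 : (μ i).toNat ≤ Finset.univ.sup fun i => (μ i).toNat :=
      Finset.le_sup (f := fun i => (μ i).toNat) (Finset.mem_univ i)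
    have h2 := Int.self_le_toNat (μ i)
    exact h2.trans (by exact_mod_cast h1)
  have hin : ∀ w ∈ m.support, ((dd (rtsN n)).sum fun x y => y * (if w + ((0, x) : Wt n) = 0 then 1 else 0)) =
      dd (rtsN n) w.2 := by
    intro w hw
    have hw0 := hs w hw
    have h1 : ∀ x : Fin n → ℤ, (w + ((0, x) : Wt n) = 0) ↔ (x = -w.2) := by
      intro x
      rw [Prod.ext_iff]
      simp only [Prod.fst_add, Prod.snd_add, Prod.fst_zero, Prod.snd_zero, add_zero, hw0, true_and]
      constructor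
      · intro h2
        exact (neg_eq_of_add_eq_zero_right h2).symm
      · intro h2
        rw [h2, add_neg_cancel]
    have h2 : ((dd (rtsN n)).sum fun x y => y * (if w + ((0, x) : Wt n) = 0 then (1 : ℤ) else 0)) =
        (dd (rtsN n)).sum fun x y => if x = -w.2 then y else 0 := by
      refine Finsupp.sum_congr fun x _ => ?_
      by_cases hx : x = -w.2
      · rw [if_pos ((h1 x).mpr hx), if_pos hx, mul_one]
      · rw [if_neg (fun h3 => hx ((h1 x).mp h3)), if_neg hx, mul_zero]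
    rw [h2, ← dd_neg (rtsN n) w.2]
    rw [Finsupp.sum, Finset.sum_ite_eq']
    split_ifs with h4
    · rfl
    · exact (Finsupp.notMem_support_iff.mp h4).symm
  have h5 : (m.sum fun w z => z * dd (rtsN n) w.2) = m.sum fun w z => z *
      (dd (rtsN n)).sum fun x y => y * (if w + ((0, x) : Wt n) = 0 then 1 else 0) := by
    refine Finsupp.sum_congr fun w hw => ?_
    rw [hin w hw]
  rw [h5, hform]
  by_cases hμ : μ = 0
  · simp [hμ]
  · simp [hμ]

theorem B2b_triv : IsIrr (N := n) 0 0 (Finsupp.single 0 1) := by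
  refine ⟨fun _ _ _ => le_refl _, fun i => by simp, ?_⟩
  have h1 : (AddMonoidAlgebra.ofCoeff (Finsupp.single (0 : Wt n) (1 : ℤ)) : R n) = 1 := rfl
  rw [h1, one_mul]
  simp

/-- `sum_dd` for the trivial representation `m = Finsupp.single 0 1` (it is `IsIrr 0 0`: both sides of the
formula are `alt 1 (n - j)`). -/
theorem dd_zero : dd (rtsN n) 0 = Fintype.card (WG n) := by
  have h := sum_dd (B2b_triv (n := n))
  rw [Finsupp.sum_single_index (by simp), if_pos rfl, one_mul] at h
  exact h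

/-- The product of two elements of the Weyl group, as a permutation of the second factor. -/
def B2b_E (g : WG n) : WG n ≃ WG n :=
  (Equiv.mulRight g.1).prodCongr ((Equiv.finsetCongr g.1.symm).trans
    (show Function.Involutive fun I : Finset (Fin n) => symmDiff g.2 I from fun I => by simp).toPerm)

theorem B2b_mem (g h : WG n) (i : Fin n) :
    i ∈ (B2b_E g h).2 ↔ (i ∈ g.2 ∧ g.1 i ∉ h.2) ∨ (g.1 i ∈ h.2 ∧ i ∉ g.2) := by
  show i ∈ symmDiff g.2 (h.2.map g.1.symm.toEmbedding) ↔ _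
  rw [Finset.mem_symmDiff]
  have h1 : i ∈ h.2.map g.1.symm.toEmbedding ↔ g.1 i ∈ h.2 := by
    rw [Finset.mem_map]
    constructor
    · rintro ⟨j, hj, rfl⟩
      simpa using hj
    · intro h2
      exact ⟨g.1 i, h2, by simp⟩
  rw [h1]

theorem B2b_fst (g h : WG n) (i : Fin n) : (B2b_E g h).1 i = h.1 (g.1 i) := rfl

theorem B2b_act (g h : WG n) (w : Wt n) : act g (act h w) = act (B2b_E g h) w := by
  rw [act_apply, act_apply, act_apply]
  refine Prod.ext rfl ?_
  funext i
  simp only [B2b_mem, B2b_fst]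
  by_cases h1 : i ∈ g.2 <;> by_cases h2 : g.1 i ∈ h.2 <;> simp [h1, h2]

theorem B2b_pow (I : Finset (Fin n)) : (-1 : ℤ) ^ I.card = ∏ i : Fin n, if i ∈ I then -1 else 1 := by
  rw [Finset.prod_ite_mem, Finset.univ_inter, Finset.prod_const]

theorem B2b_sgn (g h : WG n) : sgn (B2b_E g h) = sgn g * sgn h := by
  unfold sgn
  have h1 : (B2b_E g h).1 = h.1 * g.1 := rfl
  rw [h1, Equiv.Perm.sign_mul, B2b_pow, B2b_pow, B2b_pow]
  have h2 : (∏ i : Fin n, if i ∈ h.2 then (-1 : ℤ) else 1) =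
      ∏ i : Fin n, if g.1 i ∈ h.2 then (-1 : ℤ) else 1 :=
    (Equiv.prod_comp g.1 fun i => if i ∈ h.2 then (-1 : ℤ) else 1).symm
  have h3 : (∏ i : Fin n, if i ∈ (B2b_E g h).2 then (-1 : ℤ) else 1) =
      (∏ i : Fin n, if i ∈ g.2 then (-1 : ℤ) else 1) *
        ∏ i : Fin n, if g.1 i ∈ h.2 then (-1 : ℤ) else 1 := by
    rw [← Finset.prod_mul_distrib]
    refine Finset.prod_congr rfl fun i _ => ?_
    simp only [B2b_mem]
    by_cases h1 : i ∈ g.2 <;> by_cases h2 : g.1 i ∈ h.2 <;> simp [h1, h2]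
  rw [h3, h2]
  push_cast
  ring

theorem B2b_sgn_sq (g : WG n) : sgn g * sgn g = 1 := by
  unfold sgn
  have h1 : ((Equiv.Perm.sign g.1 : ℤˣ) : ℤ) * ((Equiv.Perm.sign g.1 : ℤˣ) : ℤ) = 1 := by
    rw [← Units.val_mul, Int.units_mul_self, Units.val_one]
  have h2 : (-1 : ℤ) ^ g.2.card * (-1) ^ g.2.card = 1 := by
    rw [← mul_pow]
    simp
  calc _ = (((Equiv.Perm.sign g.1 : ℤˣ) : ℤ) * ((Equiv.Perm.sign g.1 : ℤˣ) : ℤ)) *
      ((-1 : ℤ) ^ g.2.card * (-1) ^ g.2.card) := by ring
    _ = 1 := by rw [h1, h2, one_mul]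

/-- `dd` is invariant under the Weyl group: by `dd_eq` and `alt_act`; the product formula
`act g ∘ act h = act (g h)` with `sgn (g h) = sgn g * sgn h`, see `alt_act`. For `w = (0, x)`,
`D.coeff (act g (0, x) + act h ρ) = D.coeff (act g ((0, x) + act h' ρ)) = sgn g * D.coeff ((0, x) + act h' ρ)` with
`h = g h'`. -/
theorem dd_act (g : WG n) (x : Fin n → ℤ) : dd (rtsN n) (act g (0, x)).2 = dd (rtsN n) x := by
  have h0 : ((0, (act g (0, x)).2) : Wt n) = act g (0, x) := rfl
  rw [dd_eq, dd_eq, h0, ← Equiv.sum_comp (B2b_E g)]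
  refine Finset.sum_congr rfl fun h _ => ?_
  rw [← B2b_act, ← map_add, alt_act, B2b_sgn]
  calc _ = (sgn g * sgn g) * (sgn h * (alt 1 (fun j : Fin n => (n : ℤ) - j)).coeff
        ((0, x) + act h (rho n))) := by ring
    _ = _ := by rw [B2b_sgn_sq, one_mul]

end Pool.Agent.EEAN
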