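import Pool.Agent.W_eea520_n.B3b
import Pool.Agent.W_eea520_n.B2b

set_option autoImplicit false

namespace Pool.Agent.EEAN

open Filter Topology Pool.Agent.EEA520 Pool.Agent.EEAG1

variable {n : ℕ}

/-- The elements of the group ring with the same sum for two functions. -/
noncomputable def B3c_U (c d : Wt n → ℝ) : AddSubgroup (R n) where
  carrier := {f | (f.coeff.sum fun w z => (z : ℝ) * c w) = f.coeff.sum fun w z => (z : ℝ) * d w}
  zero_mem' := by
    show ((0 : R n).coeff.sum fun w z => (z : ℝ) * c w) = (0 : R n).coeff.sum fun w z => (z : ℝ) * d w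
    rw [AddMonoidAlgebra.coeff_zero, Finsupp.sum_zero_index, Finsupp.sum_zero_index]
  add_mem' := by
    intro f g hf hg
    have hadd : ∀ e : Wt n → ℝ, ((f + g).coeff.sum fun w z => (z : ℝ) * e w) =
        (f.coeff.sum fun w z => (z : ℝ) * e w) + g.coeff.sum fun w z => (z : ℝ) * e w := by
      intro e
      rw [AddMonoidAlgebra.coeff_add]
      exact Finsupp.sum_add_index' (by simp) (by intro a b₁ b₂; push_cast; ring)
    show ((f + g).coeff.sum fun w z => (z : ℝ) * c w) = (f + g).coeff.sum fun w z => (z : ℝ) * d w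
    rw [hadd, hadd]
    exact congrArg₂ (· + ·) hf hg
  neg_mem' := by
    intro f hf
    have hneg : ∀ e : Wt n → ℝ, ((-f).coeff.sum fun w z => (z : ℝ) * e w) =
        -(f.coeff.sum fun w z => (z : ℝ) * e w) := by
      intro e
      rw [AddMonoidAlgebra.coeff_neg, Finsupp.sum_neg_index (by simp)]
      simp only [Int.cast_neg, neg_mul]
      rw [Finsupp.sum_neg]
    show ((-f).coeff.sum fun w z => (z : ℝ) * c w) = (-f).coeff.sum fun w z => (z : ℝ) * d w
    rw [hneg, hneg]
    exact congrArg Neg.neg hf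

theorem B3c_orb (c : Wt n → ℝ) (w : Wt n) (h : ∀ g, c (act g w) = c w) :
    ((orb w).sum fun v z => (z : ℝ) * c v) = Fintype.card (WG n) * c w := by
  classical
  unfold orb
  rw [← Finsupp.sum_finsetSum_index (by intro a; simp) (by intro a b₁ b₂; push_cast; ring)]
  have h1 : ∀ g : WG n, ((Finsupp.single (act g w) (1 : ℤ)).sum fun v z => (z : ℝ) * c v) = c w := by
    intro g
    rw [Finsupp.sum_single_index (by simp)]
    simp [h g]
  rw [Finset.sum_congr rfl fun g _ => h1 g, Finset.sum_const, Finset.card_univ, nsmul_eq_mul]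

/-- `(∑_w z_w c w) = (∑_w z_w dd w.2)` for every irreducible character `m` of level `≤ R` (`sum_dd`; for
`μ = 0` we have `m = Finsupp.single 0 1` by `IsIrr.unique`, so both are `card (WG n)`), so by `span_level`
(`U = {f | (f.coeff.sum fun w z => z * c w) = f.coeff.sum fun w z => z * dd w.2}`) for all characters supported in the
box; take `orb (0, x)` (`orb_supp`, `orb_isCharacter`): the sums are `∑_g c (act g (0, x)) = card * c (0, x)` and
`card * dd x` (`dd_act`). -/
theorem eq_dd {R : ℕ} (c : Wt n → ℝ) (hW : ∀ g w, c (act g w) = c w)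
    (h0 : c 0 = Fintype.card (WG n))
    (h : ∀ (μ : Fin n → ℤ) (m : Wt n →₀ ℤ), IsIrr 0 μ m → μ ≠ 0 → (∀ i, μ i ≤ R) →
      (m.sum fun w z => (z : ℝ) * c w) = 0) (x : Fin n → ℤ) (hx : ∀ i, |x i| ≤ R) :
    c (0, x) = dd (rtsN n) x := by
  have hmem : (AddMonoidAlgebra.ofCoeff (orb ((0, x) : Wt n)) : EEA520.R n) ∈
      B3c_U c (fun w => (dd (rtsN n) w.2 : ℝ)) := by
    refine span_level (r := R) _ ?_ _ (orb_isCharacter _) fun w hw => orb_supp hx hw
    intro μ m hm hμ
    show (m.sum fun w z => (z : ℝ) * c w) = m.sum fun w z => (z : ℝ) * (dd (rtsN n) w.2 : ℝ)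
    have h1 : (m.sum fun w z => (z : ℝ) * (dd (rtsN n) w.2 : ℝ)) =
        ((m.sum fun w z => z * dd (rtsN n) w.2 : ℤ) : ℝ) := by
      unfold Finsupp.sum
      push_cast
      rfl
    rw [h1, sum_dd hm]
    by_cases hμ0 : μ = 0
    · subst hμ0
      rw [hm.unique B2b_triv, Finsupp.sum_single_index (by simp), h0]
      simp
    · rw [if_neg hμ0, h μ m hm hμ0 hμ]
      simp
  have h2 : ((orb ((0, x) : Wt n)).sum fun v z => (z : ℝ) * c v) =
      (orb ((0, x) : Wt n)).sum fun v z => (z : ℝ) * (dd (rtsN n) v.2 : ℝ) := hmem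
  rw [B3c_orb c _ (fun g => hW g _), B3c_orb (fun w => (dd (rtsN n) w.2 : ℝ)) _ (fun g => by
    rw [dd_act])] at h2
  have h3 : (Fintype.card (WG n) : ℝ) ≠ 0 := by
    exact_mod_cast Fintype.card_ne_zero
  exact mul_left_cancel₀ h3 h2

end Pool.Agent.EEAN
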