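import Pool.Agent.W_eea520_n.Defs

set_option autoImplicit false

namespace Pool.Agent.EEAN

open Filter Topology Pool.Agent.EEA520

variable {n : ℕ}

/-- For a sign function: `e y ≠ 0` implies `e y = 1` or `e y = -1`, `e (-y) = e y`, and `e (x - y) = e x * e y`, `e (2 y) = 1`.
(`1 = e 0 = e (-y + y) = e (-y) * e y` in `ℤ`.) -/
theorem sign_facts {X : Type} [AddCommGroup X] {e : X → ℤ} (he : IsSign e) {y : X} (hy : e y ≠ 0) :
    (e y = 1 ∨ e y = -1) ∧ e (-y) = e y ∧ (∀ x, e (x - y) = e x * e y) ∧ e (y + y) = 1 := by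
  have h1 := he.2 (-y) y hy
  rw [neg_add_cancel, he.1] at h1
  have h2 : e y = 1 ∨ e y = -1 := by
    have h3 : IsUnit (e y) := IsUnit.of_mul_eq_one_right _ h1.symm
    exact Int.isUnit_iff.1 h3
  have h4 : e (-y) = e y := by
    rcases h2 with h | h
    · rw [h, mul_one] at h1
      rw [← h1, h]
    · rw [h] at h1
      rw [h]
      linarith
  refine ⟨h2, h4, fun x => ?_, ?_⟩
  · rw [sub_eq_add_neg, he.2 x (-y) (by rw [h4]; exact hy), h4]
  · rw [he.2 y y hy]
    rcases h2 with h | h <;> rw [h] <;> norm_num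

theorem C1_nat {X : Type} [AddCommGroup X] {e : X → ℤ} (he : IsSign e) {y : X} (hy : e y ≠ 0)
    (j : ℕ) : e (j • y) = e y ^ j := by
  induction j with
  | zero => rw [zero_smul, he.1, pow_zero]
  | succ j ih => rw [succ_nsmul, he.2 _ _ hy, ih, pow_succ]

/-- `e (j y) = e y ^ |j|` for `e y ≠ 0`. -/
theorem sign_zsmul {X : Type} [AddCommGroup X] {e : X → ℤ} (he : IsSign e) {y : X} (hy : e y ≠ 0)
    (j : ℤ) : e (j • y) = e y ^ j.natAbs := by
  have h1 : e (j.natAbs • y) = e y ^ j.natAbs := C1_nat he hy _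
  rcases Int.natAbs_eq j with h | h
  · conv_lhs => rw [h]
    rw [natCast_zsmul, h1]
  · conv_lhs => rw [h]
    rw [neg_zsmul, natCast_zsmul, (sign_facts he (y := j.natAbs • y) ?_).2.1, h1]
    rw [h1]
    exact pow_ne_zero _ hy

/-- The support. -/
def C1_supp {X : Type} [AddCommGroup X] {e : X → ℤ} (he : IsSign e) : AddSubgroup X where
  carrier := {x | e x ≠ 0}
  add_mem' {a b} ha hb := by
    show e (a + b) ≠ 0
    rw [he.2 a b hb]
    exact mul_ne_zero ha hb
  zero_mem' := by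
    show e 0 ≠ 0
    rw [he.1]
    exact one_ne_zero
  neg_mem' {a} ha := by
    show e (-a) ≠ 0
    rw [(sign_facts he ha).2.1]
    exact ha

/-- The kernel. -/
def C1_ker {X : Type} [AddCommGroup X] {e : X → ℤ} (he : IsSign e) : AddSubgroup X where
  carrier := {x | e x = 1}
  add_mem' {a b} ha hb := by
    have ha' : e a = 1 := ha
    have hb' : e b = 1 := hb
    show e (a + b) = 1
    rw [he.2 a b (by rw [hb']; exact one_ne_zero), ha', hb', mul_one]
  zero_mem' := he.1
  neg_mem' {a} ha := by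
    have ha' : e a = 1 := ha
    show e (-a) = 1
    rw [(sign_facts he (by rw [ha']; exact one_ne_zero)).2.1, ha']

theorem C1_exists {e : (Fin n → ℤ) → ℤ} (he : IsSign e) (h : e ≠ fST) :
    ∃ x, e x ≠ 0 ∧ ∃ i, x i ≠ 0 := by
  by_contra h1
  push Not at h1
  apply h
  funext x
  unfold fST
  split_ifs with hx
  · rw [hx, he.1]
  · by_contra h2
    exact hx (funext (h1 x h2))

/-- The first step of the classification. Suppose that `e` is not `fST`: there is `x ≠ 0` with `e x ≠ 0`.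
Let `L i = {x i | e x ≠ 0}`; it is a subgroup of `ℤ`, the same for all `i` (by `hperm` for the transposition
of `i` and `j`), not zero, so `L i = N ℤ` with `N ≥ 1` for all `i` (`Int.subgroup_cyclic` or
`AddSubgroup.exists_eq_zmultiples`-like facts). If `e x ≠ 0`, then `x - s_i x = 2 x_i • single i 1` and
`e (x - s_i x) = e x * e (s_i x) = (e x) ^ 2 = 1` (`hsgn`, where `s_i x = update x i (- x i)`). With `x i = N`,
`e (single i (2 N)) = 1`. -/
theorem class_one {e : (Fin n → ℤ) → ℤ} (he : IsSign e)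
    (hperm : ∀ (σ : Equiv.Perm (Fin n)) (x : Fin n → ℤ), e (x ∘ σ) = e x)
    (hsgn : ∀ (i : Fin n) (x : Fin n → ℤ), e (Function.update x i (-x i)) = e x) (h : e ≠ fST) :
    ∃ N : ℕ, 1 ≤ N ∧ (∀ x, e x ≠ 0 → ∀ i, (N : ℤ) ∣ x i) ∧
      (∀ i : Fin n, e (Pi.single i (2 * N : ℤ)) = 1) ∧ ∀ i : Fin n, ∃ x, e x ≠ 0 ∧ x i = N := by
  obtain ⟨x0, hx0, i0, hi0⟩ := C1_exists he h
  let L : AddSubgroup ℤ := (C1_supp he).map (Pi.evalAddMonoidHom (fun _ : Fin n => ℤ) i0)
  have hL : ∀ z, z ∈ L ↔ ∃ x, e x ≠ 0 ∧ x i0 = z := fun z => Iff.rfl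
  have hL' : ∀ (z : ℤ) (i : Fin n), (∃ x, e x ≠ 0 ∧ x i = z) ↔ z ∈ L := by
    intro z i
    rw [hL]
    constructor
    · rintro ⟨x, hx, hz⟩
      refine ⟨x ∘ Equiv.swap i0 i, by rw [hperm]; exact hx, ?_⟩
      rw [Function.comp_apply, Equiv.swap_apply_left, hz]
    · rintro ⟨x, hx, hz⟩
      refine ⟨x ∘ Equiv.swap i0 i, by rw [hperm]; exact hx, ?_⟩
      rw [Function.comp_apply, Equiv.swap_apply_right, hz]
  obtain ⟨a, ha⟩ := Int.subgroup_cyclic L
  have hmem : ∀ z, z ∈ L ↔ (a.natAbs : ℤ) ∣ z := by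
    intro z
    rw [ha, ← AddSubgroup.zmultiples_eq_closure, Int.mem_zmultiples_iff, Int.natAbs_dvd]
  have ha0 : a.natAbs ≠ 0 := by
    intro h1
    have h2 := (hmem (x0 i0)).1 ((hL _).2 ⟨x0, hx0, rfl⟩)
    rw [h1, Nat.cast_zero, zero_dvd_iff] at h2
    exact hi0 h2
  have h4 : ∀ i : Fin n, ∃ x, e x ≠ 0 ∧ x i = (a.natAbs : ℤ) := fun i =>
    (hL' _ i).2 ((hmem _).2 (dvd_refl _))
  refine ⟨a.natAbs, Nat.one_le_iff_ne_zero.2 ha0, fun x hx i => ?_, fun i => ?_, h4⟩
  · exact (hmem _).1 ((hL' _ i).1 ⟨x, hx, rfl⟩)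
  · obtain ⟨x, hx, hxi⟩ := h4 i
    have h5 : (Pi.single i (2 * (a.natAbs : ℤ)) : Fin n → ℤ) =
        x - Function.update x i (-x i) := by
      funext j
      rw [Pi.sub_apply]
      by_cases hj : j = i
      · subst hj
        rw [Pi.single_eq_same, Function.update_self, hxi]
        ring
      · rw [Pi.single_eq_of_ne hj, Function.update_of_ne hj, sub_self]
    have h6 : e (Function.update x i (-x i)) ≠ 0 := by
      rw [hsgn]
      exact hx
    rw [h5, (sign_facts he h6).2.2.1, hsgn]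
    rcases (sign_facts he hx).1 with h7 | h7 <;> rw [h7] <;> norm_num

theorem C1_dvd {e : (Fin n → ℤ) → ℤ} (he : IsSign e) {N : ℕ}
    (h2 : ∀ i : Fin n, e (Pi.single i (2 * N : ℤ)) = 1) {x : Fin n → ℤ}
    (h : ∀ i, (2 * N : ℤ) ∣ x i) : e x = 1 := by
  choose b hb using h
  have h1 : x = ∑ i, b i • (Pi.single i (2 * N : ℤ) : Fin n → ℤ) := by
    funext j
    rw [Finset.sum_apply, Finset.sum_eq_single j]
    · rw [Pi.smul_apply, Pi.single_eq_same, hb j, smul_eq_mul, mul_comm]
    · intro i _ hij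
      rw [Pi.smul_apply, Pi.single_eq_of_ne hij.symm, smul_zero]
    · intro hj
      exact absurd (Finset.mem_univ j) hj
  rw [h1]
  exact (C1_ker he).sum_mem fun i _ => (C1_ker he).zsmul_mem (h2 i) (b i)

/-- The value of `e` depends only on `x` modulo `2 N` (`he.2` and `x = x' + ∑ single i (2 N a_i)`). -/
theorem class_mod {e : (Fin n → ℤ) → ℤ} (he : IsSign e) {N : ℕ}
    (h2 : ∀ i : Fin n, e (Pi.single i (2 * N : ℤ)) = 1) {x y : Fin n → ℤ}
    (h : ∀ i, (2 * N : ℤ) ∣ x i - y i) : e x = e y := by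
  have h1 : e (x - y) = 1 := C1_dvd he h2 h
  have h3 : x = y + (x - y) := by abel
  rw [h3, he.2 y (x - y) (by rw [h1]; exact one_ne_zero), h1, mul_one]

theorem C1_par {N a : ℤ} (h : N ∣ a) (h' : ¬ 2 * N ∣ a) : 2 * N ∣ a - N := by
  obtain ⟨b, rfl⟩ := h
  rcases Int.even_or_odd' b with ⟨c, rfl | rfl⟩
  · exact absurd ⟨c, by ring⟩ h'
  · exact ⟨c, by ring⟩

theorem C1_par' {N a b : ℤ} (h : N ∣ a) (h' : ¬ 2 * N ∣ a) (k : N ∣ b) (k' : ¬ 2 * N ∣ b) :
    2 * N ∣ a - b := by
  have h1 := dvd_sub (C1_par h h') (C1_par k k')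
  have h2 : a - N - (b - N) = a - b := by ring
  rwa [h2] at h1

theorem C1_ndvd {N : ℕ} (hN : 1 ≤ N) : ¬ (2 * N : ℤ) ∣ (N : ℤ) := by
  intro h
  have h1 := Int.le_of_dvd (by exact_mod_cast hN) h
  have h2 : (1 : ℤ) ≤ N := by exact_mod_cast hN
  linarith

theorem C1_perm {i j i' j' : Fin n} (h : i ≠ j) (h' : i' ≠ j') :
    ∃ σ : Equiv.Perm (Fin n), σ i' = i ∧ σ j' = j := by
  refine ⟨Equiv.swap (Equiv.swap i' i j') j * Equiv.swap i' i, ?_, ?_⟩
  · rw [Equiv.Perm.mul_apply, Equiv.swap_apply_left]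
    refine Equiv.swap_apply_of_ne_of_ne ?_ h
    intro h1
    have h2 : Equiv.swap i' i i' = Equiv.swap i' i j' := by rw [Equiv.swap_apply_left]; exact h1
    exact h' ((Equiv.swap i' i).injective h2)
  · rw [Equiv.Perm.mul_apply, Equiv.swap_apply_left]

theorem C1_single_comp (σ : Equiv.Perm (Fin n)) (i : Fin n) (a : ℤ) :
    (Pi.single (σ i) a : Fin n → ℤ) ∘ σ = Pi.single i a := by
  funext j
  rw [Function.comp_apply]
  by_cases hj : j = i
  · subst hj
    rw [Pi.single_eq_same, Pi.single_eq_same]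
  · rw [Pi.single_eq_of_ne hj, Pi.single_eq_of_ne]
    intro h
    exact hj (σ.injective h)

theorem C1_caseA {e : (Fin n → ℤ) → ℤ} (he : IsSign e)
    (hperm : ∀ (σ : Equiv.Perm (Fin n)) (x : Fin n → ℤ), e (x ∘ σ) = e x) {N : ℕ}
    (h1 : ∀ x, e x ≠ 0 → ∀ i, (N : ℤ) ∣ x i) (h2 : ∀ i : Fin n, e (Pi.single i (2 * N : ℤ)) = 1)
    (i0 : Fin n) {x : Fin n → ℤ} (hx : e x ≠ 0) {i j : Fin n} (hi : (2 * N : ℤ) ∣ x i)
    (hj : ¬ (2 * N : ℤ) ∣ x j) : e = fA N (e (Pi.single i0 (N : ℤ))) := by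
  have hij : i ≠ j := by
    rintro rfl
    exact hj hi
  have hxj := h1 x hx j
  -- the pair `i, j`
  have h3 : e (Pi.single i (N : ℤ) + Pi.single j (N : ℤ)) = 1 := by
    have h4 : e (x ∘ Equiv.swap i j) ≠ 0 := by rw [hperm]; exact hx
    have h5 : e (x - x ∘ Equiv.swap i j) = 1 := by
      rw [(sign_facts he h4).2.2.1, hperm]
      rcases (sign_facts he hx).1 with h7 | h7 <;> rw [h7] <;> norm_num
    rw [← h5]
    refine class_mod he h2 fun l => ?_
    rw [Pi.add_apply, Pi.sub_apply, Function.comp_apply]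
    by_cases hl : l = i
    · subst hl
      rw [Pi.single_eq_same, Pi.single_eq_of_ne hij, Equiv.swap_apply_left]
      have h6 := dvd_sub (C1_par hxj hj) hi
      have h8 : (N + 0 - (x l - x j) : ℤ) = (x j - N - x l) + 2 * N := by ring
      rw [h8]
      exact dvd_add h6 (dvd_refl _)
    · by_cases hl' : l = j
      · subst hl'
        rw [Pi.single_eq_same, Pi.single_eq_of_ne hl, Equiv.swap_apply_right]
        have h6 := dvd_sub hi (C1_par hxj hj)
        have h8 : (0 + N - (x l - x i) : ℤ) = x i - (x l - N) := by ring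
        rw [h8]
        exact h6
      · rw [Pi.single_eq_of_ne hl, Pi.single_eq_of_ne hl', Equiv.swap_apply_of_ne_of_ne hl hl']
        simp
  -- all pairs
  have h4 : ∀ i' j' : Fin n, e (Pi.single i' (N : ℤ) + Pi.single j' (N : ℤ)) = 1 := by
    intro i' j'
    by_cases hij' : i' = j'
    · subst hij'
      rw [← Pi.single_add, ← two_mul]
      exact h2 i'
    · obtain ⟨σ, hσ1, hσ2⟩ := C1_perm hij hij'
      have h5 := hperm σ (Pi.single i (N : ℤ) + Pi.single j (N : ℤ))
      rw [h3, ← hσ1, ← hσ2, Pi.add_comp, C1_single_comp, C1_single_comp] at h5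
      exact h5
  -- the kernel
  have h5 : ∀ y : Fin n → ℤ, (∀ i, (N : ℤ) ∣ y i) → (2 * N : ℤ) ∣ ∑ i, y i → e y = 1 := by
    intro y hy hs
    choose b hb using hy
    obtain ⟨c, hc⟩ := hs
    have h6 : y = ∑ i, b i • ((Pi.single i (N : ℤ) + Pi.single i0 (N : ℤ)) -
        (Pi.single i0 (N : ℤ) + Pi.single i0 (N : ℤ)) : Fin n → ℤ) +
        c • (Pi.single i0 (N : ℤ) + Pi.single i0 (N : ℤ)) := by
      have h7 : ∀ i, b i • ((Pi.single i (N : ℤ) + Pi.single i0 (N : ℤ)) -
          (Pi.single i0 (N : ℤ) + Pi.single i0 (N : ℤ)) : Fin n → ℤ) =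
          b i • (Pi.single i (N : ℤ) : Fin n → ℤ) - b i • (Pi.single i0 (N : ℤ) : Fin n → ℤ) := by
        intro i
        rw [← smul_sub]
        congr 1
        abel
      simp only [h7]
      rw [Finset.sum_sub_distrib, ← Finset.sum_smul]
      funext l
      rw [Pi.add_apply, Pi.sub_apply, Finset.sum_apply, Finset.sum_eq_single l]
      · simp only [Pi.smul_apply, Pi.add_apply, smul_eq_mul, Pi.single_eq_same]
        have h8 : (∑ i, b i) * (N : ℤ) = 2 * N * c := by
          rw [← hc, Finset.sum_mul]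
          exact Finset.sum_congr rfl fun i _ => by rw [hb i]; ring
        by_cases hl : l = i0
        · subst hl
          rw [Pi.single_eq_same, h8, hb l]
          ring
        · rw [Pi.single_eq_of_ne hl, hb l]
          ring
      · intro i _ hil
        rw [Pi.smul_apply, Pi.single_eq_of_ne hil.symm, smul_zero]
      · intro hj
        exact absurd (Finset.mem_univ l) hj
    rw [h6]
    exact (C1_ker he).add_mem ((C1_ker he).sum_mem fun i _ => (C1_ker he).zsmul_mem
      ((C1_ker he).sub_mem (h4 i i0) (h4 i0 i0)) (b i)) ((C1_ker he).zsmul_mem (h4 i0 i0) c)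
  funext y
  unfold fA
  split_ifs with h6 h7
  · exact h5 y h6 h7
  · have h8 : (2 * N : ℤ) ∣ ∑ i, (y - Pi.single i0 (N : ℤ) : Fin n → ℤ) i := by
      have h9 : ∑ i, (y - Pi.single i0 (N : ℤ) : Fin n → ℤ) i = ∑ i, y i - N := by
        simp only [Pi.sub_apply]
        rw [Finset.sum_sub_distrib, Finset.sum_pi_single']
        simp
      rw [h9]
      exact C1_par (Finset.dvd_sum fun i _ => h6 i) h7
    have h9 : e (y - Pi.single i0 (N : ℤ)) = 1 := by
      refine h5 _ (fun i => ?_) h8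
      rw [Pi.sub_apply]
      refine dvd_sub (h6 i) ?_
      by_cases hi : i = i0
      · subst hi
        rw [Pi.single_eq_same]
      · rw [Pi.single_eq_of_ne hi]
        exact dvd_zero _
    have h10 : y = Pi.single i0 (N : ℤ) + (y - Pi.single i0 (N : ℤ)) := by abel
    conv_lhs => rw [h10]
    rw [he.2 _ _ (by rw [h9]; exact one_ne_zero), h9, mul_one]
  · by_contra h8
    exact h6 (h1 y h8)

/-- The classification. Let `N` be as in `class_one`.

Case (a): there are `x` with `e x ≠ 0` and `i ≠ j` with `x i / N` even and `x j / N` odd. Let `y = x ∘ swap i j`;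
`e (x - y) = e x * e y = 1`, and `x - y` is zero outside `i`, `j`, and there it is
`± (x i - x j)`, an odd multiple of `N`. So by `class_mod`, `e (single i N - single j N) = 1` (also
`e (single i N + single j N) = 1`). By `hperm` this holds for all `i ≠ j`. So `e x = 1` if all the `x i` are divisible
by `N` and `∑ x i` is divisible by `2 N` (modulo `2 N` such an `x` is a sum of an even number of
`single i N`, so of pairs; induction on the number of `i` with `x i / N` odd). If
`e (single i N) = 0` for one (so for all, `hperm`) `i`, then `e = fA N 0`: if all `x i` are divisible by `N`, but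
`∑ x i` is not divisible by `2 N`, then `x - single i N` has the first property, so
`e x = e (single i N) * e (x - single i N) = 0`. If `e (single i N) = η ≠ 0`, then `η = ± 1` and `e = fA N η`.

Case (b): for all `x` with `e x ≠ 0` all the `x i / N` have the same parity. By `class_one` there is one
for which they are odd, so modulo `2 N` it is `(N, …, N)`; let `η = e (N, …, N) = ± 1`. Then
`e = fR N η`. (For `n = 0` both sides of everything are trivial: `e = fST`.) -/
theorem signType_of {e : (Fin n → ℤ) → ℤ} (he : IsSign e)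
    (hperm : ∀ (σ : Equiv.Perm (Fin n)) (x : Fin n → ℤ), e (x ∘ σ) = e x)
    (hsgn : ∀ (i : Fin n) (x : Fin n → ℤ), e (Function.update x i (-x i)) = e x) : SignType e := by
  by_cases h : e = fST
  · exact Or.inl h
  right
  obtain ⟨N, hN, h1, h2, h3⟩ := class_one he hperm hsgn h
  obtain ⟨x0, hx0, i0, hi0⟩ := C1_exists he h
  refine ⟨N, hN, ?_⟩
  by_cases hA : ∃ x, e x ≠ 0 ∧ ∃ i j, (2 * N : ℤ) ∣ x i ∧ ¬ (2 * N : ℤ) ∣ x j
  · left
    obtain ⟨x, hx, i, j, hi, hj⟩ := hA
    refine ⟨e (Pi.single i0 (N : ℤ)), ?_, C1_caseA he hperm h1 h2 i0 hx hi hj⟩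
    by_cases h4 : e (Pi.single i0 (N : ℤ)) = 0
    · exact Or.inr (Or.inr h4)
    · rcases (sign_facts he h4).1 with h5 | h5
      · exact Or.inl h5
      · exact Or.inr (Or.inl h5)
  · right
    push Not at hA
    obtain ⟨x1, hx1, hx1'⟩ := h3 i0
    have h4 : ∀ j, ¬ (2 * N : ℤ) ∣ x1 j := by
      intro j hj
      have h5 := hA x1 hx1 j i0 hj
      rw [hx1'] at h5
      exact C1_ndvd hN h5
    have h5 : e (fun _ => (N : ℤ)) = e x1 := by
      refine (class_mod he h2 fun j => ?_).symm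
      exact C1_par (h1 x1 hx1 j) (h4 j)
    have h6 : e (fun _ => (N : ℤ)) ≠ 0 := by
      rw [h5]
      exact hx1
    refine ⟨e fun _ => (N : ℤ), (sign_facts he h6).1, ?_⟩
    funext x
    unfold fR
    split_ifs with h7 h8
    · exact C1_dvd he h2 h8
    · push Not at h8
      obtain ⟨i, hi⟩ := h8
      refine class_mod he h2 fun j => ?_
      have h9 : ¬ (2 * N : ℤ) ∣ x j := by
        intro h9
        apply hi
        have h10 := dvd_add (h7.2 i j) h9
        have h11 : x i - x j + x j = x i := by ring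
        rwa [h11] at h10
      exact C1_par (h7.1 j) h9
    · by_contra h8
      apply h7
      refine ⟨h1 x h8, fun i j => ?_⟩
      by_cases hi : (2 * N : ℤ) ∣ x i
      · exact dvd_sub hi (hA x h8 i j hi)
      · have hj : ¬ (2 * N : ℤ) ∣ x j := fun hj => hi (hA x h8 j i hj)
        exact C1_par' (h1 x h8 i) hi (h1 x h8 j) hj

end Pool.Agent.EEAN
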