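import Pool.Agent.W_eea520_n.K1b
import Pool.Agent.W_eea520_n.Defs

set_option autoImplicit false

namespace Pool.Agent.EEAN

open Filter Topology Pool.Agent.EEA520 Pool.Agent.EEAG1
open scoped InnerProductSpace

/-- The signs. Let `e x = 1` if `c x = c 0`, `e x = -1` if `c x = - c 0`, and `e x = 0` otherwise (`c 0 > 0`). By
`posDefG_shift`, if `e y = ε ≠ 0`, then `c (x + y) = ε c x` for all `x`, so `e (x + y) = ε e x`. -/
theorem exists_sign {G : Type} [AddCommGroup G] {c : G → ℝ} (hc : PosDefG c) (h0 : 0 < c 0) :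
    ∃ e : G → ℤ, IsSign e ∧ (∀ x, e x = 1 ↔ c x = c 0) ∧ (∀ x, e x = -1 ↔ c x = -c 0) ∧
      (∀ x, e x = 1 ∨ e x = -1 ∨ e x = 0) ∧ ∀ x y, e y ≠ 0 → c (x + y) = e y * c x := by
  classical
  obtain ⟨e, he⟩ : ∃ e : G → ℤ, ∀ x, e x = if c x = c 0 then 1 else if c x = -c 0 then -1 else 0 :=
    ⟨_, fun x => rfl⟩
  have hne : ∀ x, c x = -c 0 → ¬ c x = c 0 := by
    intro x h1 h2
    linarith
  have h1 : ∀ x, e x = 1 ↔ c x = c 0 := by
    intro x
    rw [he]
    constructor
    · intro h
      by_contra h2
      rw [if_neg h2] at h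
      split_ifs at h
      all_goals norm_num at h
    · intro h
      rw [if_pos h]
  have h2 : ∀ x, e x = -1 ↔ c x = -c 0 := by
    intro x
    rw [he]
    constructor
    · intro h
      by_contra h2
      rw [if_neg h2] at h
      split_ifs at h
      all_goals norm_num at h
    · intro h
      rw [if_neg (hne x h), if_pos h]
  have h3 : ∀ x, e x = 1 ∨ e x = -1 ∨ e x = 0 := by
    intro x
    rw [he]
    split_ifs
    · exact Or.inl rfl
    · exact Or.inr (Or.inl rfl)
    · exact Or.inr (Or.inr rfl)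
  have h4 : ∀ x y, e y ≠ 0 → c (x + y) = e y * c x := by
    intro x y hy
    rcases h3 y with h | h | h
    · have h5 := (h1 y).1 h
      rw [h]
      push_cast
      exact posDefG_shift hc (by norm_num) (by rw [h5, one_mul]) x
    · have h5 := (h2 y).1 h
      rw [h]
      push_cast
      exact posDefG_shift hc (by norm_num) (by rw [h5, neg_one_mul]) x
    · exact absurd h hy
  refine ⟨e, ⟨(h1 0).2 rfl, ?_⟩, h1, h2, h3, h4⟩
  intro x y hy
  have h5 := h4 x y hy
  rcases h3 y with h | h | h
  · rw [h, mul_one, he, he]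
    rw [h] at h5
    push_cast at h5
    rw [one_mul] at h5
    rw [h5]
  · rw [h]
    rw [h] at h5
    push_cast at h5
    rw [neg_one_mul] at h5
    rcases h3 x with hx | hx | hx
    · rw [hx, (h2 (x + y)).2 (by rw [h5, (h1 x).1 hx])]
      norm_num
    · rw [hx, (h1 (x + y)).2 (by rw [h5, (h2 x).1 hx, neg_neg])]
      norm_num
    · rw [hx, zero_mul]
      rcases h3 (x + y) with hz | hz | hz
      · exfalso
        have h6 := (h1 _).1 hz
        have h7 : e x = -1 := (h2 x).2 (by linarith)
        rw [hx] at h7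
        norm_num at h7
      · exfalso
        have h6 := (h2 _).1 hz
        have h7 : e x = 1 := (h1 x).2 (by linarith)
        rw [hx] at h7
        norm_num at h7
      · exact hz
  · exact absurd h hy

end Pool.Agent.EEAN
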