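import Pool.Agent.W_eea520_n.K4a
import Pool.Agent.W_eea520_n.K4b

set_option autoImplicit false

namespace Pool.Agent.EEAN

open Filter Topology Pool.Agent.EEA520 Pool.Agent.EEAG1
open scoped InnerProductSpace

/-- Let `R₁` be the number `R` of `localK` and let `nrm x ≤ B` for all `x` in the support of `dd l`; take
`R₀ = max (R₁) (2 B) + R₁ + B + 1`, and `R ≥ R₀`. `e` is from `exists_sign` (`c 0 = dd l 0 > 0`).

(a) `e (ι x) = 0` for `x ≠ 0`, `nrm x ≤ R`: otherwise `c (ι x) = ± c 0 ≠ 0`, so `x` is in the support of `dd l`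
and `nrm x ≤ B`; all multiples have `c (ι (j x)) = ± c 0` (from `exists_sign`), those with
`nrm (j x) ≤ R` are in the support of `dd l`, so they satisfy `nrm (j x) ≤ B`; by induction on `j`
(`nrm ((j + 1) x) ≤ nrm (j x) + nrm x ≤ 2 B ≤ R`) all `j x`, `j ∈ ℕ`, are in the support of `dd l`, which is
finite, but the `j x` are different by `htf`. Contradiction.

(b) Let `g` be as in the last clause. By `localK` (with `R₁ ≤ R`) `c g = 0` and there is no `x`, `nrm x ≤ R₁`, with
`e (ι x + g) ≠ 0`, or there is such an `x`. In the first case all the terms of the sum are `0`: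
if `dd l x ≠ 0` then `nrm x ≤ B`; if `e (g + ι x) ≠ 0`, then `c (g) = e * c (-x)…`; more precisely with
`y = g + ι x` we have `c (-ι x + y) = e y * c (-ι x) = e y * c (ι x) = e y * dd l x ≠ 0`, but the left
side is `c g = 0`, contradiction. In the second case let `y = ι x₁ + g`, `nrm x₁ ≤ R₁`, `e y ≠ 0`:
`c g = c (-ι x₁ + y) = e y * c (-ι x₁) = e y * c (ι x₁) = e y * dd l x₁` (`hc.symm`). And in the sum all the
terms with `x ≠ x₁` are `0`: if `dd l x ≠ 0` and `e (g + ι x) ≠ 0`, then `e (ι (x - x₁)) ≠ 0` (`IsSign`),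
with `nrm (x - x₁) ≤ B + R₁ ≤ R`, so `x = x₁` by (a). -/
theorem structS {X : Type} [AddCommGroup X] (nrm : X → ℕ) (h0 : nrm 0 = 0)
    (hadd : ∀ x y, nrm (x + y) ≤ nrm x + nrm y) (hneg : ∀ x, nrm (-x) = nrm x)
    (htf : ∀ x : X, x ≠ 0 → ∀ j : ℤ, j • x = 0 → j = 0) (l : List X) (hl : ∀ γ ∈ l, γ ≠ 0)
    (hpos : 0 < dd l 0) :
    ∃ R₀ : ℕ, ∀ R : ℕ, R₀ ≤ R → ∀ (G : Type) [AddCommGroup G] (ι : X →+ G) (c : G → ℝ), PosDefG c →
      (∀ x, nrm x ≤ R → c (ι x) = dd l x) →
      ∃ e : G → ℤ, IsSign e ∧ (∀ x, e x = 1 ↔ c x = c 0) ∧ (∀ x, e x = -1 ↔ c x = -c 0) ∧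
        (∀ x, e x = 1 ∨ e x = -1 ∨ e x = 0) ∧ (∀ x, x ≠ 0 → nrm x ≤ R → e (ι x) = 0) ∧
        ∀ g, (∀ x, nrm x ≤ R → ∃ n : ℤ, c (ι x + g) = n) →
          c g = (dd l).sum fun x z => (z : ℝ) * e (g + ι x) := by
  classical
  obtain ⟨R₁, hloc⟩ := localK nrm l (fun γ hγ => htf γ (hl γ hγ))
  set B : ℕ := (dd l).support.sup nrm with hBdef
  have hB : ∀ x, dd l x ≠ 0 → nrm x ≤ B := fun x hx =>
    Finset.le_sup (f := nrm) (Finsupp.mem_support_iff.2 hx)
  refine ⟨2 * R₁ + 3 * B + 1, fun R hR G _ ι c hc hcX => ?_⟩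
  have hc0 : c 0 = dd l 0 := by
    have h := hcX 0 (by rw [h0]; exact Nat.zero_le R)
    rwa [map_zero] at h
  have hc0pos : 0 < c 0 := by
    rw [hc0]
    exact_mod_cast hpos
  obtain ⟨e, hS, h1, h2, h3, h4⟩ := exists_sign hc hc0pos
  have hne : ∀ y, e y ≠ 0 → c y ≠ 0 := by
    intro y hy
    rcases h3 y with h | h | h
    · rw [(h1 y).1 h]
      exact hc0pos.ne'
    · rw [(h2 y).1 h]
      exact neg_ne_zero.2 hc0pos.ne'
    · exact absurd h hy
  have hsupp : ∀ x, nrm x ≤ R → e (ι x) ≠ 0 → nrm x ≤ B := by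
    intro x hx hex
    apply hB
    intro h
    apply hne _ hex
    rw [hcX x hx, h, Int.cast_zero]
  have ha : ∀ x, x ≠ 0 → nrm x ≤ R → e (ι x) = 0 := by
    intro x hx hxR
    by_contra hex
    have hxB := hsupp x hxR hex
    have hind : ∀ j : ℕ, e (ι (j • x)) ≠ 0 ∧ nrm (j • x) ≤ B := by
      intro j
      induction j with
      | zero =>
        rw [zero_smul, map_zero, hS.1, h0]
        exact ⟨one_ne_zero, Nat.zero_le _⟩
      | succ j ih =>
        have he : e (ι ((j + 1) • x)) ≠ 0 := by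
          rw [succ_nsmul, map_add, hS.2 _ _ hex]
          exact mul_ne_zero ih.1 hex
        refine ⟨he, hsupp _ ?_ he⟩
        rw [succ_nsmul]
        have h5 := hadd (j • x) x
        have h6 := ih.2
        omega
    have hinj : Function.Injective fun j : ℕ => j • x := by
      intro i j hij
      have h5 : ((i : ℤ) - (j : ℤ)) • x = 0 := by
        rw [sub_smul, natCast_zsmul, natCast_zsmul]
        exact sub_eq_zero.2 hij
      have h6 := htf x hx _ h5
      omega
    have hmem : ∀ j : ℕ, j • x ∈ ((dd l).support : Set X) := by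
      intro j
      rw [Finset.mem_coe, Finsupp.mem_support_iff]
      intro h
      have h7 := (hind j).2
      apply hne _ (hind j).1
      rw [hcX _ (by omega), h, Int.cast_zero]
    exact (Set.infinite_of_injective_forall_mem hinj hmem) (Finset.finite_toSet _)
  refine ⟨e, hS, h1, h2, h3, ha, fun g hg => ?_⟩
  have hddc : ∀ x, dd l x ≠ 0 → c (-ι x) = dd l x := by
    intro x hx
    have h5 := hB x hx
    rw [hc.symm, hcX x (by omega)]
  by_cases hex : ∃ x₁, nrm x₁ ≤ R₁ ∧ e (ι x₁ + g) ≠ 0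
  · obtain ⟨x₁, hx₁, hey⟩ := hex
    have h5 : c g = e (ι x₁ + g) * dd l x₁ := by
      have h6 := h4 (-ι x₁) (ι x₁ + g) hey
      rw [neg_add_cancel_left, hc.symm, hcX x₁ (by omega)] at h6
      exact h6
    rw [h5, Finsupp.sum, Finset.sum_eq_single x₁]
    · rw [add_comm g, mul_comm]
    · intro x hx hxx
      have h6 : e (g + ι x) = 0 := by
        by_contra h7
        have h8 : g + ι x = ι (x - x₁) + (ι x₁ + g) := by
          rw [map_sub]
          abel
        rw [h8, hS.2 _ _ hey] at h7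
        have h9 : e (ι (x - x₁)) ≠ 0 := left_ne_zero_of_mul h7
        apply h9
        apply ha
        · exact sub_ne_zero.2 hxx
        · have h10 := hB x (Finsupp.mem_support_iff.1 hx)
          have h11 := hadd x (-x₁)
          rw [hneg, ← sub_eq_add_neg] at h11
          omega
      rw [h6, Int.cast_zero, mul_zero]
    · intro hx
      rw [Finsupp.notMem_support_iff.1 hx, Int.cast_zero, zero_mul]
  · have h5 : c g = 0 := by
      rcases hloc G ι c hc (fun x hx => hcX x (by omega)) g (fun x hx => hg x (by omega)) with h | h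
      · exact h
      · obtain ⟨x, hx, h6⟩ := h
        exfalso
        apply hex
        refine ⟨x, hx, ?_⟩
        rcases h6 with h6 | h6
        · rw [(h1 _).2 h6]
          exact one_ne_zero
        · rw [(h2 _).2 h6]
          exact neg_ne_zero.2 one_ne_zero
    rw [h5, Finsupp.sum]
    symm
    apply Finset.sum_eq_zero
    intro x hx
    have hdx := Finsupp.mem_support_iff.1 hx
    have h6 : e (g + ι x) = 0 := by
      by_contra h7
      have h8 := h4 (-ι x) (g + ι x) h7
      have h9 : -ι x + (g + ι x) = g := by abel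
      rw [h9, h5, hddc x hdx] at h8
      have h10 : ((e (g + ι x) : ℤ) : ℝ) * (dd l x : ℝ) ≠ 0 := by
        apply mul_ne_zero
        · exact_mod_cast h7
        · exact_mod_cast hdx
      exact h10 h8.symm
    rw [h6, Int.cast_zero, mul_zero]

end Pool.Agent.EEAN
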