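import Pool.Agent.W_eea520_n.A1
import Pool.Agent.W_eea520_n.B3c
import Pool.Agent.W_eea520_n.C1
import Pool.Agent.W_eea520_n.K4c
import Pool.Agent.W_eea520_G.N3

set_option autoImplicit false

namespace Pool.Agent.EEAN

open Filter Topology Pool.Agent.EEA520 Pool.Agent.EEAG1

variable {n : ℕ}

theorem A2_nrm_le {R : ℕ} {x : Fin n → ℤ} : nrm x ≤ R ↔ ∀ i, |x i| ≤ R := by
  unfold nrm
  rw [Finset.sup_le_iff]
  constructor
  · intro h i
    rw [Int.abs_eq_natAbs]
    exact_mod_cast h i (Finset.mem_univ i)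
  · intro h i _
    have h1 := h i
    rw [Int.abs_eq_natAbs] at h1
    exact_mod_cast h1

theorem A2_rts_ne {γ : Fin n → ℤ} (h : γ ∈ rtsN n) : γ ≠ 0 := by
  unfold rtsN at h
  rw [List.mem_append, List.mem_append, List.mem_map, List.mem_map, List.mem_map] at h
  rcases h with (⟨i, -, rfl⟩ | ⟨q, hq, rfl⟩) | ⟨q, hq, rfl⟩
  · intro h
    have h1 := congrFun h i
    rw [Pi.single_eq_same, Pi.zero_apply] at h1
    exact one_ne_zero h1
  · rw [Finset.mem_toList, Finset.mem_filter] at hq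
    intro h
    have h1 := congrFun h q.1
    rw [Pi.sub_apply, Pi.single_eq_same, Pi.single_eq_of_ne hq.2.ne, Pi.zero_apply] at h1
    norm_num at h1
  · rw [Finset.mem_toList, Finset.mem_filter] at hq
    intro h
    have h1 := congrFun h q.1
    rw [Pi.add_apply, Pi.single_eq_same, Pi.single_eq_of_ne hq.2.ne, Pi.zero_apply] at h1
    norm_num at h1

/-- The number `R₀` of `structS` for `rtsN n` and the maximum norm (`nrm`; `dd_zero` gives `hpos`). -/
theorem exists_R (n : ℕ) : ∃ R₀ : ℕ, ∀ R : ℕ, R₀ ≤ R → ∀ (G : Type) [AddCommGroup G]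
    (ι : (Fin n → ℤ) →+ G) (c : G → ℝ), PosDefG c →
      (∀ x : Fin n → ℤ, (∀ i, |x i| ≤ R) → c (ι x) = dd (rtsN n) x) →
      ∃ e : G → ℤ, IsSign e ∧ (∀ x, e x = 1 ↔ c x = c 0) ∧ (∀ x, e x = -1 ↔ c x = -c 0) ∧
        (∀ x, e x = 1 ∨ e x = -1 ∨ e x = 0) ∧
        (∀ x : Fin n → ℤ, x ≠ 0 → (∀ i, |x i| ≤ R) → e (ι x) = 0) ∧
        ∀ g, (∀ x : Fin n → ℤ, (∀ i, |x i| ≤ R) → ∃ k : ℤ, c (ι x + g) = k) →
          c g = (dd (rtsN n)).sum fun x z => (z : ℝ) * e (g + ι x) := by
  obtain ⟨R₀, h⟩ := structS (X := Fin n → ℤ) nrm (by simp [nrm])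
    (fun x y => Finset.sup_le fun i hi => (Int.natAbs_add_le _ _).trans
      (add_le_add (Finset.le_sup (f := fun i => (x i).natAbs) hi)
        (Finset.le_sup (f := fun i => (y i).natAbs) hi)))
    (fun x => by simp [nrm])
    (fun x hx j hj => by
      obtain ⟨i, hi⟩ := Function.ne_iff.1 hx
      have h1 := congrFun hj i
      rw [Pi.smul_apply, Pi.zero_apply, smul_eq_mul] at h1
      exact (mul_eq_zero.1 h1).resolve_right hi)
    (rtsN n) (fun γ hγ => A2_rts_ne hγ) (by
      rw [dd_zero]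
      exact_mod_cast Fintype.card_pos)
  refine ⟨R₀, fun R hR G _ ι c hc hdd => ?_⟩
  obtain ⟨e, h1, h2, h3, h4, h5, h6⟩ := h R hR G ι c hc fun x hx => hdd x (A2_nrm_le.1 hx)
  exact ⟨e, h1, h2, h3, h4, fun x hx0 hx => h5 x hx0 (A2_nrm_le.2 hx),
    fun g hg => h6 g fun x hx => hg x (A2_nrm_le.1 hx)⟩

/-- If all irreducible characters of `SO(2n+1)` of level `≤ r` are meromorphic at `1 + i t`, then so are the orbit
sums of level `≤ r`. `span_level` for `U = {m | MeroAt π m.coeff (pt t)}` (a subgroup: `MeroAt.add`,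
`MeroAt.neg` in `W_eea520_G/N3.lean`; `0 = m + (-m)` for the trivial representation `μ = 0`, which is of
level `≤ r`, `exists_isIrr`), `orb_supp`, `orb_isCharacter`. -/
theorem mero_orb {π : GSys n} (hπ : Tempered π) {r : ℕ} {t : ℝ}
    (h : ∀ (μ : Fin n → ℤ) (m : Wt n →₀ ℤ), IsIrr 0 μ m → (∀ i, μ i ≤ r) → MeroAt π m (pt t))
    {x : Fin n → ℤ} (hx : ∀ i, |x i| ≤ r) : MeroAt π (orb (0, x)) (pt t) := by
  have h0 : MeroAt π 0 (pt t) := by
    obtain ⟨m, hm, -⟩ := exists_isIrr (N := n) 0 0 (fun _ _ _ => le_refl _) (fun i => by simp)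
    have h1 := h 0 m hm (fun i => by simp)
    have h2 := MeroAt.add hπ h1 (MeroAt.neg hπ h1)
    rwa [add_neg_cancel] at h2
  let U : AddSubgroup (Pool.Agent.EEA520.R n) :=
    { carrier := {m | MeroAt π m.coeff (pt t)}
      add_mem' := fun ha hb => MeroAt.add hπ ha hb
      zero_mem' := h0
      neg_mem' := fun ha => MeroAt.neg hπ ha }
  exact span_level (r := r) U (fun μ m hm hμ => h μ m hm hμ)
    (AddMonoidAlgebra.ofCoeff (orb (0, x))) (orb_isCharacter _) (fun w hw => orb_supp hx hw)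

/-- FINITE LEVEL. Let `R` be as in `exists_R`. Choose an ultrafilter `U ≤ 𝓝[>] 1` (`Ultrafilter.of`), and let `c` be the
function from `exists_cU`, `c' x = c (0, x)` on `ℤ ^ n` (`posDefG_comp` with `emb n`). By `eq_dd` (the orders
of the nontrivial irreducible characters of level `≤ R` are zero) `c' = dd` on the box of size `R`. Let
`e` be as in `exists_R` for `G = ℤ ^ n`, `ι = id`. It is invariant under the Weyl group, as `c'` is
(`e x` is determined by `c' x`), so `SignType e` by `signType_of` (the permutations `act (σ, ∅)` and reflections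
`act (1, {i})`). For `|x i| ≤ M + R` the number `c' x` is an integer (`mero_orb` with `pt 0 = 1`,
`exists_poleOrder`, and the last clause of `exists_cU` for `m = orb (0, x)`, where
`∑_w (orb (0, x)) w * c w = card * c (0, x)`; or the fourth clause and `mean_of_poleOrder`).
So for `|w i| ≤ M`, `c' w = ∑_x dd x * e (w + x)`. For an irreducible `m` of level `≤ M` all the weights are in the
box of size `M` (`irr_supp`), and if `PoleOrder π m 1 k` (`exists_poleOrder`), then
`card * k = ∑_w m w * c w = ∑_w m w * ∑_x dd x * e (w.2 + x) = card * ordE (fun w => e w.2) 0 μ` (`formula` for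
`f w = e w.2`, which is invariant only on weights with first coordinate `0`: take
`f w = if w.1 = 0 then e w.2 else 0`, and `ordE f 0 μ = ordE (fun w => e w.2) 0 μ`, as all weights in the
support of `alt 1 M` have first coordinate `1`). -/
theorem finiteN (n : ℕ) : ∃ R₀ : ℕ, ∀ R : ℕ, R₀ ≤ R → ∀ π : GSys n, Tempered π →
    (∀ (μ : Fin n → ℤ) (m : Wt n →₀ ℤ), IsIrr 0 μ m → μ ≠ 0 → (∀ i, μ i ≤ R) → PoleOrder π m 1 0) →
    ∀ M : ℕ, (∀ (μ : Fin n → ℤ) (m : Wt n →₀ ℤ), IsIrr 0 μ m → (∀ i, μ i ≤ M + R) →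
      MeroAt π m 1) →
    ∃ e : (Fin n → ℤ) → ℤ, SignType e ∧ (∀ x : Fin n → ℤ, x ≠ 0 → (∀ i, |x i| ≤ R) → e x = 0) ∧
      ∀ (μ : Fin n → ℤ) (m : Wt n →₀ ℤ), IsIrr 0 μ m → (∀ i, μ i ≤ M) →
        PoleOrder π m 1 (ordE (fun w => e w.2) 0 μ) := by
  classical
  obtain ⟨R₀, hR₀⟩ := exists_R n
  refine ⟨R₀, fun R hR π hπ hzero M hmero => ?_⟩
  have hpt : pt 0 = 1 := by
    unfold pt
    simp
  have hUl : ((Ultrafilter.of (𝓝[>] (1 : ℝ)) : Ultrafilter ℝ) : Filter ℝ) ≤ 𝓝[>] 1 :=
    Ultrafilter.of_le _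
  obtain ⟨U, hU⟩ : ∃ U : Ultrafilter ℝ, (U : Filter ℝ) ≤ 𝓝[>] 1 := ⟨_, hUl⟩
  obtain ⟨c, hc1, hc2, hc3, hc4, hc5⟩ := exists_cU hπ U hU
  obtain ⟨c', hc'⟩ : ∃ c' : (Fin n → ℤ) → ℝ, c' = fun x => c (emb n x) := ⟨_, rfl⟩
  have hc'x : ∀ x, c' x = c (0, x) := fun x => by
    rw [hc']
    rfl
  have hpos : PosDefG c' := by
    rw [hc']
    exact posDefG_comp hc1 (emb n)
  have hdd : ∀ x : Fin n → ℤ, (∀ i, |x i| ≤ R) → c (0, x) = dd (rtsN n) x := by
    refine eq_dd c hc2 hc3 fun μ m hm hμ0 hμR => ?_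
    have h1 := hc5 m hm.isCharacter 0 (hzero μ m hm hμ0 hμR)
    rw [Int.cast_zero, mul_zero] at h1
    exact h1.symm
  obtain ⟨e, he1, he2, he3, he4, he5, he6⟩ := hR₀ R hR (Fin n → ℤ) (AddMonoidHom.id _) c' hpos
    (fun x hx => by
      rw [AddMonoidHom.id_apply, hc'x]
      exact hdd x hx)
  -- `e` depends only on `c'`
  have hdep : ∀ x y, c' x = c' y → e x = e y := by
    intro x y hxy
    rcases he4 x with h | h | h
    · rw [h, (he2 y).2 (by rw [← hxy]; exact (he2 x).1 h)]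
    · rw [h, (he3 y).2 (by rw [← hxy]; exact (he3 x).1 h)]
    · rcases he4 y with h' | h' | h'
      · rw [(he2 x).2 (by rw [hxy]; exact (he2 y).1 h'), h']
      · rw [(he3 x).2 (by rw [hxy]; exact (he3 y).1 h'), h']
      · rw [h, h']
  have hact : ∀ (g : WG n) (x : Fin n → ℤ), e (act g (0, x)).2 = e x := by
    intro g x
    apply hdep
    have h1 : act g ((0, x) : Wt n) = (0, (act g ((0, x) : Wt n)).2) := rfl
    rw [hc'x, hc'x, ← h1, hc2]
  have hST : SignType e := by
    refine signType_of he1 (fun σ x => ?_) (fun i x => ?_)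
    · have h1 := hact (σ, ∅) x
      rw [act_apply] at h1
      rw [← h1]
      congr 1
    · have h1 := hact (1, {i}) x
      rw [act_apply] at h1
      rw [← h1]
      congr 1
      funext j
      by_cases hj : j = i
      · subst hj
        simp
      · simp [hj]
  -- the values are integers in the big box
  have hint : ∀ x : Fin n → ℤ, (∀ i, |x i| ≤ (M : ℤ) + R) → ∃ k : ℤ, c' x = k := by
    intro x hx
    have h1 : MeroAt π (orb (0, x)) (pt 0) := by
      refine mero_orb hπ (r := M + R) (fun μ m hm hμ => ?_) (fun i => by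
        push_cast
        exact hx i)
      rw [hpt]
      refine hmero μ m hm fun i => ?_
      have h2 := hμ i
      push_cast at h2
      exact h2
    obtain ⟨k, hk⟩ := exists_poleOrder hπ h1
    refine ⟨k, ?_⟩
    have h2 : Tendsto (fun s : ℝ => psm (tre π (orb (0, x)) 0) s / pz s) (𝓝[>] 1) (𝓝 (k : ℝ)) :=
      mean_of_poleOrder hπ hk
    rw [hc'x]
    exact tendsto_nhds_unique (hc4 (0, x)) (h2.mono_left hU)
  have hform : ∀ w : Fin n → ℤ, (∀ i, |w i| ≤ M) →
      c' w = (dd (rtsN n)).sum fun x z => (z : ℝ) * e (w + x) := by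
    intro w hw
    refine he6 w fun x hx => hint _ fun i => ?_
    rw [AddMonoidHom.id_apply, Pi.add_apply]
    exact (abs_add_le _ _).trans (by linarith [hw i, hx i])
  refine ⟨e, hST, fun x hx0 hx => by
    have := he5 x hx0 hx
    rwa [AddMonoidHom.id_apply] at this, fun μ m hm hμ => ?_⟩
  have hm1 : MeroAt π m (pt 0) := by
    rw [hpt]
    exact hmero μ m hm fun i => (hμ i).trans (by
      have : (0 : ℤ) ≤ R := Nat.cast_nonneg R
      linarith)
  obtain ⟨k, hk⟩ := exists_poleOrder hπ hm1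
  rw [hpt] at hk
  have h1 := hc5 m hm.isCharacter k hk
  obtain ⟨f, hf⟩ : ∃ f : Wt n → ℤ, ∀ w, f w = if w.1 = 0 then e w.2 else 0 := ⟨_, fun _ => rfl⟩
  have hfact : ∀ (g : WG n) (w : Wt n), f (act g w) = f w := by
    intro g w
    rw [hf, hf]
    have h2 : (act g w).1 = w.1 := rfl
    rw [h2]
    by_cases h3 : w.1 = 0
    · rw [if_pos h3, if_pos h3]
      have h4 : w = (0, w.2) := Prod.ext h3 rfl
      rw [h4]
      exact hact g w.2
    · rw [if_neg h3, if_neg h3]
  have h2 := formula hm f hfact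
  have h3 : ordE f 0 μ = ordE (fun w => e w.2) 0 μ := by
    unfold ordE
    refine Finsupp.sum_congr fun u hu => ?_
    have h4 : u.1 = 1 := by
      rw [Finsupp.mem_support_iff, alt_coeff] at hu
      obtain ⟨g, -, hg⟩ := Finset.exists_ne_zero_of_sum_ne_zero hu
      by_contra h5
      apply hg
      rw [if_neg, mul_zero]
      intro h6
      apply h5
      rw [← h6]
      show (0 : ℤ) + 1 = 1
      norm_num
    have h5 : (u - rho n).1 = 0 := by
      show u.1 - 1 = 0
      rw [h4, sub_self]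
    rw [hf, if_pos h5]
  have h4 : (m.sum fun w z => (z : ℝ) * c w) =
      (((m.sum fun w z => z * (dd (rtsN n)).sum fun x y => y * f (w + (0, x))) : ℤ) : ℝ) := by
    unfold Finsupp.sum
    push_cast
    refine Finset.sum_congr rfl fun w hw => ?_
    obtain ⟨hw1, hw2⟩ := irr_supp hm hμ (Finsupp.mem_support_iff.1 hw)
    have h5 : w = (0, w.2) := Prod.ext hw1 rfl
    have h6 : c w = c' w.2 := by
      rw [hc'x, ← h5]
    rw [h6, hform w.2 hw2]
    unfold Finsupp.sum
    congr 1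
    refine Finset.sum_congr rfl fun x _ => ?_
    have h7 : (w + (0, x)).1 = 0 := by
      show w.1 + 0 = 0
      rw [hw1, add_zero]
    rw [hf, if_pos h7]
    rfl
  have h5 : k = ordE (fun w => e w.2) 0 μ := by
    rw [h4, h2, h3] at h1
    have h6 : ((Fintype.card (WG n) : ℤ)) * k =
        (Fintype.card (WG n) : ℤ) * ordE (fun w => e w.2) 0 μ := by
      exact_mod_cast h1
    have h7 : ((Fintype.card (WG n) : ℤ)) ≠ 0 := by
      exact_mod_cast Fintype.card_ne_zero
    exact mul_left_cancel₀ h7 h6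
  rw [← h5]
  exact hk

end Pool.Agent.EEAN
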