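import Pool.Agent.W_eea520_n.A2

set_option autoImplicit false

namespace Pool.Agent.EEAN

open Filter Topology Pool.Agent.EEA520 Pool.Agent.EEAG1

variable {n : ℕ}

theorem A3_ne_fST {e : (Fin n → ℤ) → ℤ} {x : Fin n → ℤ} (hx : x ≠ 0) (hex : e x ≠ 0) : e ≠ fST := by
  intro h
  apply hex
  rw [h]
  unfold fST
  rw [if_neg hx]

theorem A3_red {N : ℕ} (hN : 1 ≤ N) (a : ℤ) : ∃ b : ℤ, (2 * N : ℤ) ∣ a - b ∧ |b| ≤ N := by
  have hpos : (0 : ℤ) < 2 * N := by omega
  have h1 := Int.emod_nonneg a hpos.ne'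
  have h2 := Int.emod_lt_of_pos a hpos
  have h3 : (2 * N : ℤ) ∣ a - a % (2 * N) := Int.dvd_self_sub_emod
  by_cases h : a % (2 * N) ≤ N
  · exact ⟨a % (2 * N), h3, by rw [abs_of_nonneg h1]; exact h⟩
  · refine ⟨a % (2 * N) - 2 * N, ?_, ?_⟩
    · have h4 : a - (a % (2 * N) - 2 * N) = (a - a % (2 * N)) + 2 * N := by ring
      rw [h4]
      exact dvd_add h3 (dvd_refl _)
    · rw [abs_le]
      constructor
      · omega
      · omega

/-- The period. -/
theorem A3_aux {e : (Fin n → ℤ) → ℤ} (he : IsSign e)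
    (hperm : ∀ (σ : Equiv.Perm (Fin n)) (x : Fin n → ℤ), e (x ∘ σ) = e x)
    (hsgn : ∀ (i : Fin n) (x : Fin n → ℤ), e (Function.update x i (-x i)) = e x) {M : ℕ}
    {x : Fin n → ℤ} (hx : x ≠ 0) (hxM : ∀ i, |x i| ≤ M) (hex : e x ≠ 0) :
    ∃ N : ℕ, 1 ≤ N ∧ N ≤ M ∧ (∀ x, e x ≠ 0 → ∀ i, (N : ℤ) ∣ x i) ∧
      (∀ y z : Fin n → ℤ, (∀ i, (2 * N : ℤ) ∣ y i - z i) → e y = e z) ∧
      (∀ y : Fin n → ℤ, ∃ z : Fin n → ℤ, (∀ i, (2 * N : ℤ) ∣ y i - z i) ∧ ∀ i, |z i| ≤ N) ∧
      ∀ i : Fin n, ∃ y, e y ≠ 0 ∧ (y i = N ∨ y i = -N) ∧ ∀ j, |y j| ≤ N := by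
  obtain ⟨N, hN, hdiv, h2, h3⟩ := class_one he hperm hsgn (A3_ne_fST hx hex)
  have hmod : ∀ y z : Fin n → ℤ, (∀ i, (2 * N : ℤ) ∣ y i - z i) → e y = e z :=
    fun y z h => class_mod he h2 h
  have hred : ∀ y : Fin n → ℤ, ∃ z : Fin n → ℤ, (∀ i, (2 * N : ℤ) ∣ y i - z i) ∧
      ∀ i, |z i| ≤ N := by
    intro y
    choose z hz1 hz2 using fun i => A3_red hN (y i)
    exact ⟨z, hz1, hz2⟩
  refine ⟨N, hN, ?_, hdiv, hmod, hred, fun i => ?_⟩
  · obtain ⟨i, hi⟩ := Function.ne_iff.1 hx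
    rw [Pi.zero_apply] at hi
    have h4 := Int.le_of_dvd (abs_pos.2 hi) ((dvd_abs _ _).2 (hdiv x hex i))
    have h5 := hxM i
    exact_mod_cast h4.trans h5
  · obtain ⟨y, hy1, hy2⟩ := h3 i
    obtain ⟨z, hz1, hz2⟩ := hred y
    refine ⟨z, ?_, ?_, hz2⟩
    · rw [← hmod y z hz1]
      exact hy1
    · have h4 := hz1 i
      have h5 := abs_le.1 (hz2 i)
      rw [hy2] at h4
      obtain ⟨q, hq⟩ := h4
      have hNpos : (1 : ℤ) ≤ N := by exact_mod_cast hN
      have h6 : z i = N - 2 * N * q := by linarith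
      have hq1 : q = 0 ∨ q = 1 := by
        have h7 : 0 ≤ q := by
          by_contra h8
          push Not at h8
          nlinarith [h5.2]
        have h8 : q ≤ 1 := by
          by_contra h9
          push Not at h9
          nlinarith [h5.1]
        omega
      rcases hq1 with hq1 | hq1
      · left
        rw [h6, hq1]
        ring
      · right
        rw [h6, hq1]
        ring

/-- Two invariant sign functions which agree on the box of size `M` and which are not trivial there are equal.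
Let `N` be from `class_one` for `e` (`e ≠ fST`), and `N'` for `e'`. For every `i` there is `y` with `e y ≠ 0` and
`y i = N`; modulo `2 N ℤ ^ n` (`class_mod`) we may assume `|y j| ≤ N` for all `j` and still `|y i| = N`. As `N` divides the
coordinates of `x` and `x ≠ 0`, `N ≤ M`. So `y` is in the box, `e' y = e y ≠ 0`, and `N' ∣ N`. By symmetry `N = N'`
(`e' x ≠ 0`, so `e' ≠ fST`). By `class_mod` both are determined by their values on the box of size `N ≤ M`
(every integer is congruent modulo `2 N` to one of absolute value `≤ N`). -/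
theorem sign_ext {e e' : (Fin n → ℤ) → ℤ} (he : IsSign e) (he' : IsSign e')
    (hperm : ∀ (σ : Equiv.Perm (Fin n)) (x : Fin n → ℤ), e (x ∘ σ) = e x)
    (hsgn : ∀ (i : Fin n) (x : Fin n → ℤ), e (Function.update x i (-x i)) = e x)
    (hperm' : ∀ (σ : Equiv.Perm (Fin n)) (x : Fin n → ℤ), e' (x ∘ σ) = e' x)
    (hsgn' : ∀ (i : Fin n) (x : Fin n → ℤ), e' (Function.update x i (-x i)) = e' x) {M : ℕ}
    (h : ∀ x : Fin n → ℤ, (∀ i, |x i| ≤ M) → e' x = e x) {x : Fin n → ℤ} (hx : x ≠ 0)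
    (hxM : ∀ i, |x i| ≤ M) (hex : e x ≠ 0) : e' = e := by
  obtain ⟨N, hN, hNM, hdiv, hmod, hred, hy⟩ := A3_aux he hperm hsgn hx hxM hex
  have hex' : e' x ≠ 0 := by
    rw [h x hxM]
    exact hex
  obtain ⟨N', hN', hNM', hdiv', hmod', hred', hy'⟩ := A3_aux he' hperm' hsgn' hx hxM hex'
  obtain ⟨i, hi⟩ := Function.ne_iff.1 hx
  have hle : (N : ℤ) ≤ M := by exact_mod_cast hNM
  have hle' : (N' : ℤ) ≤ M := by exact_mod_cast hNM'
  have h1 : (N' : ℤ) ∣ N := by
    obtain ⟨y, hy1, hy2, hy3⟩ := hy i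
    have h2 : e' y ≠ 0 := by
      rw [h y fun j => (hy3 j).trans hle]
      exact hy1
    have h3 := hdiv' y h2 i
    rcases hy2 with h4 | h4
    · rwa [h4] at h3
    · rwa [h4, dvd_neg] at h3
  have h2 : (N : ℤ) ∣ N' := by
    obtain ⟨y, hy1, hy2, hy3⟩ := hy' i
    have h2 : e y ≠ 0 := by
      rw [← h y fun j => (hy3 j).trans hle']
      exact hy1
    have h3 := hdiv y h2 i
    rcases hy2 with h4 | h4
    · rwa [h4] at h3
    · rwa [h4, dvd_neg] at h3
  have h3 : N' = N := Nat.dvd_antisymm (by exact_mod_cast h1) (by exact_mod_cast h2)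
  funext y
  obtain ⟨z, hz1, hz2⟩ := hred y
  rw [hmod y z hz1, hmod' y z (by rw [h3]; exact hz1)]
  exact h z fun j => (hz2 j).trans hle

/-- A nontrivial invariant sign function has the period `2 N`, `N ≤ M`: every `x` is `x' + l` with
`|x' i| ≤ M` and `e l = 1`. (From `class_one`, `class_mod`.) -/
theorem sign_reduce {e : (Fin n → ℤ) → ℤ} (he : IsSign e)
    (hperm : ∀ (σ : Equiv.Perm (Fin n)) (x : Fin n → ℤ), e (x ∘ σ) = e x)
    (hsgn : ∀ (i : Fin n) (x : Fin n → ℤ), e (Function.update x i (-x i)) = e x) {M : ℕ}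
    {x : Fin n → ℤ} (hx : x ≠ 0) (hxM : ∀ i, |x i| ≤ M) (hex : e x ≠ 0) (y : Fin n → ℤ) :
    ∃ y' l : Fin n → ℤ, y = y' + l ∧ (∀ i, |y' i| ≤ M) ∧ e l = 1 := by
  obtain ⟨N, hN, hNM, hdiv, hmod, hred, hy⟩ := A3_aux he hperm hsgn hx hxM hex
  obtain ⟨z, hz1, hz2⟩ := hred y
  refine ⟨z, y - z, (add_sub_cancel z y).symm, fun i => (hz2 i).trans (by exact_mod_cast hNM), ?_⟩
  rw [hmod (y - z) 0 fun i => by
    rw [Pi.sub_apply, Pi.zero_apply, sub_zero]
    exact hz1 i]
  exact he.1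

theorem A3_shift {c : (Fin n → ℤ) → ℝ} (hc : PosDefG c) {e : (Fin n → ℤ) → ℤ}
    (h1 : ∀ x, e x = 1 ↔ c x = c 0) (h2 : ∀ x, e x = -1 ↔ c x = -c 0)
    (h3 : ∀ x, e x = 1 ∨ e x = -1 ∨ e x = 0) (x y : Fin n → ℤ) (hy : e y ≠ 0) :
    c (x + y) = e y * c x := by
  rcases h3 y with h | h | h
  · have h5 := (h1 y).1 h
    rw [h]
    push_cast
    exact posDefG_shift hc (by norm_num) (by rw [h5, one_mul]) x
  · have h5 := (h2 y).1 h
    rw [h]
    push_cast
    exact posDefG_shift hc (by norm_num) (by rw [h5, neg_one_mul]) x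
  · exact absurd h hy

/-- Invariance under the Weyl group. -/
theorem A3_act {e : (Fin n → ℤ) → ℤ}
    (hperm : ∀ (σ : Equiv.Perm (Fin n)) (x : Fin n → ℤ), e (x ∘ σ) = e x)
    (hsgn : ∀ (i : Fin n) (x : Fin n → ℤ), e (Function.update x i (-x i)) = e x)
    (g : WG n) (x : Fin n → ℤ) : e (act g (0, x)).2 = e x := by
  classical
  obtain ⟨σ, I⟩ := g
  rw [act_apply]
  show e (fun i => if i ∈ I then (0 : ℤ) - x (σ i) else x (σ i)) = e x
  rw [← hperm σ x]
  induction I using Finset.induction_on with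
  | empty =>
    congr 1
  | insert a s ha ih =>
    rw [← ih, ← hsgn a (fun i => if i ∈ s then (0 : ℤ) - x (σ i) else x (σ i))]
    congr 1
    funext i
    by_cases hi : i = a
    · subst hi
      rw [Function.update_self, if_pos (Finset.mem_insert_self _ _), if_neg ha]
      ring
    · rw [Function.update_of_ne hi]
      have h1 : i ∈ insert a s ↔ i ∈ s := by
        rw [Finset.mem_insert]
        exact or_iff_right hi
      by_cases h2 : i ∈ s
      · rw [if_pos h2, if_pos (h1.2 h2)]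
      · rw [if_neg h2, if_neg (fun h => h2 (h1.1 h))]

/-- The mean value of an irreducible character. -/
theorem A3_lim {π : GSys n} (hπ : Tempered π) {e : (Fin n → ℤ) → ℤ}
    (hperm : ∀ (σ : Equiv.Perm (Fin n)) (x : Fin n → ℤ), e (x ∘ σ) = e x)
    (hsgn : ∀ (i : Fin n) (x : Fin n → ℤ), e (Function.update x i (-x i)) = e x)
    {F : Filter ℝ} (hF : F ≤ 𝓝[>] 1) {μ : Fin n → ℤ} {m : Wt n →₀ ℤ} (hm : IsIrr 0 μ m)
    (h : ∀ w, m w ≠ 0 → w.1 = 0 ∧ Tendsto (fun s => psm (tre π (orb (0, w.2)) 0) s / pz s) F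
      (𝓝 ((dd (rtsN n)).sum fun x z => (z : ℝ) * e (w.2 + x)))) :
    Tendsto (fun s => psm (tre π m 0) s / pz s) F (𝓝 (ordE (fun w => e w.2) 0 μ : ℤ)) := by
  classical
  obtain ⟨f, hf⟩ : ∃ f : Wt n → ℤ, ∀ w, f w = if w.1 = 0 then e w.2 else 0 := ⟨_, fun _ => rfl⟩
  have hfact : ∀ (g : WG n) (w : Wt n), f (act g w) = f w := by
    intro g w
    rw [hf, hf]
    have h2 : (act g w).1 = w.1 := rfl
    rw [h2]
    by_cases h3 : w.1 = 0
    · rw [if_pos h3, if_pos h3]
      have h4 : w = (0, w.2) := Prod.ext h3 rfl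
      rw [h4]
      exact A3_act hperm hsgn g w.2
    · rw [if_neg h3, if_neg h3]
  have h2 := formula hm f hfact
  have h3 : ordE f 0 μ = ordE (fun w => e w.2) 0 μ := by
    unfold ordE
    refine Finsupp.sum_congr fun u hu => ?_
    have h4 : u.1 = 1 := by
      rw [Finsupp.mem_support_iff, alt_coeff] at hu
      obtain ⟨g, -, hg⟩ := Finset.exists_ne_zero_of_sum_ne_zero hu
      by_contra h5
      apply hg
      rw [if_neg, mul_zero]
      intro h6
      apply h5
      rw [← h6]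
      show (0 : ℤ) + 1 = 1
      norm_num
    have h5 : (u - rho n).1 = 0 := by
      show u.1 - 1 = 0
      rw [h4, sub_self]
    rw [hf, if_pos h5]
  have h4 : Tendsto (fun s => m.sum fun w e => (e : ℝ) * (psm (tre π (orb w) 0) s / pz s)) F
      (𝓝 (m.sum fun w z => (z : ℝ) * (dd (rtsN n)).sum fun x z => (z : ℝ) * e (w.2 + x))) := by
    unfold Finsupp.sum
    refine tendsto_finsetSum _ fun w hw => ?_
    obtain ⟨h5, h6⟩ := h w (Finsupp.mem_support_iff.1 hw)
    have h7 : w = (0, w.2) := Prod.ext h5 rfl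
    rw [← h7] at h6
    exact h6.const_mul _
  have h5 : (m.sum fun w z => (z : ℝ) * (dd (rtsN n)).sum fun x z => (z : ℝ) * e (w.2 + x)) =
      (((m.sum fun w z => z * (dd (rtsN n)).sum fun x y => y * f (w + (0, x))) : ℤ) : ℝ) := by
    unfold Finsupp.sum
    push_cast
    refine Finset.sum_congr rfl fun w hw => ?_
    obtain ⟨hw1, -⟩ := h w (Finsupp.mem_support_iff.1 hw)
    congr 1
    refine Finset.sum_congr rfl fun x _ => ?_
    have h7 : (w + (0, x)).1 = 0 := by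
      show w.1 + 0 = 0
      rw [hw1, add_zero]
    rw [hf, if_pos h7]
    rfl
  rw [h5, h2, h3] at h4
  have hcard : (Fintype.card (WG n) : ℝ) ≠ 0 := by
    exact_mod_cast Fintype.card_ne_zero
  have h6 := h4.const_mul ((Fintype.card (WG n) : ℝ)⁻¹)
  have h7 : (Fintype.card (WG n) : ℝ)⁻¹ *
      (((Fintype.card (WG n) : ℤ) * ordE (fun w => e w.2) 0 μ : ℤ) : ℝ) =
      ((ordE (fun w => e w.2) 0 μ : ℤ) : ℝ) := by
    push_cast
    rw [← mul_assoc, inv_mul_cancel₀ hcard, one_mul]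
  rw [h7] at h6
  refine h6.congr' ?_
  filter_upwards [hF Mean_ev] with s hs
  rw [← psm_character hπ hs hm.isCharacter, ← mul_assoc, inv_mul_cancel₀ hcard, one_mul]

/-- The part of the proof of `finiteN` which holds for every ultrafilter (see there). -/
theorem ultra_e (n : ℕ) : ∃ R₀ : ℕ, ∀ R : ℕ, R₀ ≤ R → ∀ π : GSys n, Tempered π →
    (∀ (μ : Fin n → ℤ) (m : Wt n →₀ ℤ), IsIrr 0 μ m → μ ≠ 0 → (∀ i, μ i ≤ R) → PoleOrder π m 1 0) →
    ∀ U : Ultrafilter ℝ, (U : Filter ℝ) ≤ 𝓝[>] 1 →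
    ∃ (c : (Fin n → ℤ) → ℝ) (e : (Fin n → ℤ) → ℤ),
      (∀ x, Tendsto (fun s => psm (tre π (orb (0, x)) 0) s / pz s) U (𝓝 (c x))) ∧ IsSign e ∧
      (∀ (σ : Equiv.Perm (Fin n)) (x : Fin n → ℤ), e (x ∘ σ) = e x) ∧
      (∀ (i : Fin n) (x : Fin n → ℤ), e (Function.update x i (-x i)) = e x) ∧
      (∀ x, e x = 1 ↔ c x = c 0) ∧ (∀ x, e x = -1 ↔ c x = -c 0) ∧
      c 0 = Fintype.card (WG n) ∧
      (∀ x y, e y ≠ 0 → c (x + y) = e y * c x) ∧
      (∀ x : Fin n → ℤ, x ≠ 0 → (∀ i, |x i| ≤ R) → e x = 0) ∧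
      ∀ g : Fin n → ℤ, (∀ x : Fin n → ℤ, (∀ i, |x i| ≤ R) → ∃ k : ℤ, c (x + g) = k) →
        c g = (dd (rtsN n)).sum fun x z => (z : ℝ) * e (g + x) := by
  classical
  obtain ⟨R₀, hR₀⟩ := exists_R n
  refine ⟨R₀, fun R hR π hπ hzero U hU => ?_⟩
  obtain ⟨c, hc1, hc2, hc3, hc4, hc5⟩ := exists_cU hπ U hU
  obtain ⟨c', hc'⟩ : ∃ c' : (Fin n → ℤ) → ℝ, c' = fun x => c (emb n x) := ⟨_, rfl⟩
  have hc'x : ∀ x, c' x = c (0, x) := fun x => by
    rw [hc']
    rfl
  have hpos : PosDefG c' := by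
    rw [hc']
    exact posDefG_comp hc1 (emb n)
  have hdd : ∀ x : Fin n → ℤ, (∀ i, |x i| ≤ R) → c (0, x) = dd (rtsN n) x := by
    refine eq_dd c hc2 hc3 fun μ m hm hμ0 hμR => ?_
    have h1 := hc5 m hm.isCharacter 0 (hzero μ m hm hμ0 hμR)
    rw [Int.cast_zero, mul_zero] at h1
    exact h1.symm
  obtain ⟨e, he1, he2, he3, he4, he5, he6⟩ := hR₀ R hR (Fin n → ℤ) (AddMonoidHom.id _) c' hpos
    (fun x hx => by
      rw [AddMonoidHom.id_apply, hc'x]
      exact hdd x hx)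
  -- `e` depends only on `c'`
  have hdep : ∀ x y, c' x = c' y → e x = e y := by
    intro x y hxy
    rcases he4 x with h | h | h
    · rw [h, (he2 y).2 (by rw [← hxy]; exact (he2 x).1 h)]
    · rw [h, (he3 y).2 (by rw [← hxy]; exact (he3 x).1 h)]
    · rcases he4 y with h' | h' | h'
      · rw [(he2 x).2 (by rw [hxy]; exact (he2 y).1 h'), h']
      · rw [(he3 x).2 (by rw [hxy]; exact (he3 y).1 h'), h']
      · rw [h, h']
  have hact : ∀ (g : WG n) (x : Fin n → ℤ), e (act g (0, x)).2 = e x := by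
    intro g x
    apply hdep
    have h1 : act g ((0, x) : Wt n) = (0, (act g ((0, x) : Wt n)).2) := rfl
    rw [hc'x, hc'x, ← h1, hc2]
  refine ⟨c', e, fun x => ?_, he1, fun σ x => ?_, fun i x => ?_, he2, he3, ?_, ?_, fun x hx0 hx => ?_,
    fun g hg => ?_⟩
  · rw [hc'x]
    exact hc4 _
  · have h1 := hact (σ, ∅) x
    rw [act_apply] at h1
    rw [← h1]
    congr 1
  · have h1 := hact (1, {i}) x
    rw [act_apply] at h1
    rw [← h1]
    congr 1
    funext j
    by_cases hj : j = i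
    · subst hj
      simp
    · simp [hj]
  · rw [hc'x]
    exact hc3
  · intro x y hy
    exact A3_shift hpos he2 he3 he4 x y hy
  · have := he5 x hx0 hx
    rwa [AddMonoidHom.id_apply] at this
  · have h1 := he6 g fun x hx => by
      obtain ⟨k, hk⟩ := hg x hx
      exact ⟨k, hk⟩
    exact h1

/-- FINITE LEVEL, with the last clause: if the finite type is visible at the level `M`, then it determines all
mean values. Choose one ultrafilter `U₀ ≤ 𝓝[>] 1`, and `c₀`, `e` from `ultra_e`; the first clauses are as in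
`finiteN`. For the last clause let `x ≠ 0`, `|x i| ≤ M`, `e x ≠ 0`, and let `U ≤ 𝓝[>] 1` be any ultrafilter, with `c`, `e'`
from `ultra_e`. For `|y i| ≤ M + R` the numbers `c y` and `c₀ y` are equal and are integers: `mero_orb` gives
`PoleOrder π (orb (0, y)) 1 k`, so the mean value exists (`mean_of_poleOrder`) and is `k`, and both limits along
ultrafilters are `k`. So `e' = e` on this box, and everywhere by `sign_ext`. For `|y i| ≤ M` we get
`c y = ∑_z dd z * e (y + z)`; for all other `y` write `y = y' + l` (`sign_reduce`): `c y = e l * c y'` and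
`∑_z dd z * e (y + z) = e l * ∑_z dd z * e (y' + z)` (`IsSign`). So the limit of
`psm (tre π (orb (0, y)) 0) s / pz s` along every ultrafilter is `C y = ∑_z dd z * e (y + z)`, so the limit along
`𝓝[>] 1` is `C y` (`tendsto_iff_ultrafilter`), `MeanP (tre π (orb (0, y)) 0) (C y)`. For an irreducible `m`
(`IsIrr 0 μ m`) `card * tre π m 0 p = ∑_w m w * tre π (orb w) 0 p` (`sum_tre_orb`), all its weights have first
coordinate `0` (`irr_supp`), so the mean value of `tre π m 0` is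
`card⁻¹ * ∑_w m w * C w.2 = ordE (fun w => e w.2) 0 μ` (`formula` and `ordE`, as in `finiteN`).
`DirMean` is `MeanP` by definition, and `tre π m 0 p = (trc π m p).re`. -/
theorem finiteN2 (n : ℕ) : ∃ R₀ : ℕ, ∀ R : ℕ, R₀ ≤ R → ∀ π : GSys n, Tempered π →
    (∀ (μ : Fin n → ℤ) (m : Wt n →₀ ℤ), IsIrr 0 μ m → μ ≠ 0 → (∀ i, μ i ≤ R) → PoleOrder π m 1 0) →
    ∀ M : ℕ, (∀ (μ : Fin n → ℤ) (m : Wt n →₀ ℤ), IsIrr 0 μ m → (∀ i, μ i ≤ M + R) →
      MeroAt π m 1) →
    ∃ e : (Fin n → ℤ) → ℤ, SignType e ∧ (∀ x : Fin n → ℤ, x ≠ 0 → (∀ i, |x i| ≤ R) → e x = 0) ∧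
      (∀ (μ : Fin n → ℤ) (m : Wt n →₀ ℤ), IsIrr 0 μ m → (∀ i, μ i ≤ M) →
        PoleOrder π m 1 (ordE (fun w => e w.2) 0 μ)) ∧
      ((∃ x : Fin n → ℤ, x ≠ 0 ∧ (∀ i, |x i| ≤ M) ∧ e x ≠ 0) →
        ∀ (μ : Fin n → ℤ) (m : Wt n →₀ ℤ), IsIrr 0 μ m →
          DirMean (fun p => (trc π m p).re) (ordE (fun w => e w.2) 0 μ)) := by
  classical
  obtain ⟨R₀, hR₀⟩ := ultra_e n
  refine ⟨R₀, fun R hR π hπ hzero M hmero => ?_⟩
  have hpt : pt 0 = 1 := by
    unfold pt
    simp
  have hUl : ((Ultrafilter.of (𝓝[>] (1 : ℝ)) : Ultrafilter ℝ) : Filter ℝ) ≤ 𝓝[>] 1 :=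
    Ultrafilter.of_le _
  obtain ⟨U, hU⟩ : ∃ U : Ultrafilter ℝ, (U : Filter ℝ) ≤ 𝓝[>] 1 := ⟨_, hUl⟩
  obtain ⟨c, e, hc, he, hperm, hsgn, h1, h2, h3, h4, h5, h6⟩ := hR₀ R hR π hπ hzero U hU
  -- the values are integers in the big box
  have hint : ∀ x : Fin n → ℤ, (∀ i, |x i| ≤ (M : ℤ) + R) →
      ∃ k : ℤ, MeanP (tre π (orb (0, x)) 0) k := by
    intro x hx
    have h1 : MeroAt π (orb (0, x)) (pt 0) := by
      refine mero_orb hπ (r := M + R) (fun μ m hm hμ => ?_) (fun i => by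
        push_cast
        exact hx i)
      rw [hpt]
      refine hmero μ m hm fun i => ?_
      have h2 := hμ i
      push_cast at h2
      exact h2
    obtain ⟨k, hk⟩ := exists_poleOrder hπ h1
    exact ⟨k, mean_of_poleOrder hπ hk⟩
  -- the general step for an ultrafilter
  have hgen : ∀ (V : Ultrafilter ℝ), (V : Filter ℝ) ≤ 𝓝[>] 1 → ∀ (d : (Fin n → ℤ) → ℝ)
      (f : (Fin n → ℤ) → ℤ),
      (∀ x, Tendsto (fun s => psm (tre π (orb (0, x)) 0) s / pz s) V (𝓝 (d x))) →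
      (∀ g : Fin n → ℤ, (∀ x : Fin n → ℤ, (∀ i, |x i| ≤ R) → ∃ k : ℤ, d (x + g) = k) →
        d g = (dd (rtsN n)).sum fun x z => (z : ℝ) * f (g + x)) →
      ∀ w : Fin n → ℤ, (∀ i, |w i| ≤ M) →
        d w = (dd (rtsN n)).sum fun x z => (z : ℝ) * f (w + x) := by
    intro V hV d f hd hf w hw
    refine hf w fun x hx => ?_
    obtain ⟨k, hk⟩ := hint (x + w) fun i => by
      rw [Pi.add_apply]
      exact (abs_add_le _ _).trans (by linarith [hw i, hx i])
    exact ⟨k, tendsto_nhds_unique (hd (x + w)) (Tendsto.mono_left hk hV)⟩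
  have hform := hgen U hU c e hc h6
  refine ⟨e, signType_of he hperm hsgn, h5, fun μ m hm hμ => ?_, ?_⟩
  · have hm1 : MeroAt π m (pt 0) := by
      rw [hpt]
      exact hmero μ m hm fun i => (hμ i).trans (by
        have : (0 : ℤ) ≤ R := Nat.cast_nonneg R
        linarith)
    obtain ⟨k, hk⟩ := exists_poleOrder hπ hm1
    have h7 : Tendsto (fun s => psm (tre π m 0) s / pz s) U
        (𝓝 (ordE (fun w => e w.2) 0 μ : ℤ)) := by
      refine A3_lim hπ hperm hsgn hU hm fun w hw => ?_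
      obtain ⟨hw1, hw2⟩ := irr_supp hm hμ hw
      refine ⟨hw1, ?_⟩
      rw [← hform w.2 hw2]
      exact hc w.2
    have h8 : Tendsto (fun s => psm (tre π m 0) s / pz s) U (𝓝 (k : ℝ)) :=
      Tendsto.mono_left (mean_of_poleOrder hπ hk) hU
    have h9 := tendsto_nhds_unique h8 h7
    have h10 : k = ordE (fun w => e w.2) 0 μ := by exact_mod_cast h9
    rw [← h10, ← hpt]
    exact hk
  · rintro ⟨x, hx, hxM, hex⟩ μ m hm
    have hcard : (0 : ℝ) < Fintype.card (WG n) := by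
      exact_mod_cast Fintype.card_pos
    have hmean : ∀ y : Fin n → ℤ, Tendsto (fun s => psm (tre π (orb (0, y)) 0) s / pz s) (𝓝[>] 1)
        (𝓝 ((dd (rtsN n)).sum fun x z => (z : ℝ) * e (y + x))) := by
      intro y
      rw [tendsto_iff_ultrafilter]
      intro V hV
      obtain ⟨d, e', hd, he', hperm', hsgn', h1', h2', h3', h4', h5', h6'⟩ :=
        hR₀ R hR π hπ hzero V hV
      have heq : ∀ y : Fin n → ℤ, (∀ i, |y i| ≤ M) → e' y = e y := by
        intro y hy
        obtain ⟨k, hk⟩ := hint y fun i => (hy i).trans (by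
          have : (0 : ℤ) ≤ R := Nat.cast_nonneg R
          linarith)
        have h7 : c y = k := tendsto_nhds_unique (hc y) (Tendsto.mono_left hk hU)
        have h8 : d y = k := tendsto_nhds_unique (hd y) (Tendsto.mono_left hk hV)
        have h9 : c y = d y := h7.trans h8.symm
        have h10 : c 0 = d 0 := h3.trans h3'.symm
        by_cases h11 : e y = 0
        · rw [h11]
          by_contra h12
          rcases (sign_facts he' h12).1 with h13 | h13
          · have h14 := (h1 y).2 (by rw [h9, h10]; exact (h1' y).1 h13)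
            rw [h11] at h14
            exact zero_ne_one h14
          · have h14 := (h2 y).2 (by rw [h9, h10]; exact (h2' y).1 h13)
            rw [h11] at h14
            norm_num at h14
        · rcases (sign_facts he h11).1 with h13 | h13
          · rw [h13]
            exact (h1' y).2 (by rw [← h9, ← h10]; exact (h1 y).1 h13)
          · rw [h13]
            exact (h2' y).2 (by rw [← h9, ← h10]; exact (h2 y).1 h13)
      have hee : e' = e := sign_ext he he' hperm hsgn hperm' hsgn' heq hx hxM hex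
      subst hee
      obtain ⟨y', l, hyl, hy', hl⟩ := sign_reduce he' hperm' hsgn' hx hxM hex y
      have hl0 : e' l ≠ 0 := by
        rw [hl]
        exact one_ne_zero
      have h7 := hgen V hV d e' hd h6' y' hy'
      have h8 : d y = d y' := by
        rw [hyl, h4' y' l hl0, hl]
        push_cast
        rw [one_mul]
      have h9 : ((dd (rtsN n)).sum fun x z => (z : ℝ) * e' (y + x)) =
          (dd (rtsN n)).sum fun x z => (z : ℝ) * e' (y' + x) := by
        refine Finsupp.sum_congr fun x _ => ?_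
        have h10 : y + x = (y' + x) + l := by
          rw [hyl]
          abel
        rw [h10, he'.2 (y' + x) l hl0, hl, mul_one]
      rw [h9, ← h7, ← h8]
      exact hd y
    have h7 := A3_lim hπ hperm hsgn (le_refl (𝓝[>] (1 : ℝ))) hm fun w hw => by
      obtain ⟨r, hr⟩ : ∃ r : ℕ, ∀ i, μ i ≤ r := by
        refine ⟨(∑ i, |μ i|).toNat, fun i => ?_⟩
        have h8 : |μ i| ≤ ∑ i, |μ i| :=
          Finset.single_le_sum (f := fun i => |μ i|) (fun j _ => abs_nonneg _) (Finset.mem_univ i)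
        have h9 := le_abs_self (μ i)
        have h10 := Int.self_le_toNat (∑ i, |μ i|)
        omega
      exact ⟨(irr_supp hm hr hw).1, hmean w.2⟩
    have h8 : (fun p => (trc π m p).re) = tre π m 0 := by
      funext p
      rw [tre_eq]
      have h9 : (((p : ℕ) : ℂ) ^ (-(((0 : ℝ) : ℂ) * Complex.I))) = 1 := by
        simp
      rw [h9, mul_one]
      rfl
    rw [h8]
    exact h7

end Pool.Agent.EEAN
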