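import Pool.Agent.W_eea520_n.Defs

set_option autoImplicit false

section
namespace Pool.Agent.EEA520

open Filter Polynomial

/-- The weight `c² ∏ x_i`. -/
def nuW (n : ℕ) : Wt n := (2, fun _ => 1)

/-- The weights of the standard representation. -/
def stdW (n : ℕ) : Multiset (Wt n) :=
  0 ::ₘ (Finset.univ.val.map (fun i => ((0 : ℤ), Pi.single i (1 : ℤ))) +
    Finset.univ.val.map fun i => ((0 : ℤ), -Pi.single i (1 : ℤ)))

/-- The `a`-th exterior power of the standard representation. -/
noncomputable def extV (n a : ℕ) : R n :=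
  ((stdW n).map fun w => (1 + C (mon w) * X : (R n)[X])).prod.coeff a

/-- The spin representation. -/
noncomputable def spR (n : ℕ) : R n := mon (1, 0) * ∏ i : Fin n, (1 + mon (0, Pi.single i 1))

end Pool.Agent.EEA520
end

section

/-! Heights and highest weights. -/


namespace Pool.Agent.EEA520

open Polynomial

/-- The height `∑_i (n - i) (2 μ_i - k)` of the weight `(k, μ)`, `i = 0, …, n - 1`. -/
def ht {n : ℕ} (w : Wt n) : ℤ := ∑ i : Fin n, ((n : ℤ) - (i : ℕ)) * (2 * w.2 i - w.1)

/-- `w` is the unique highest weight of `f`, with coefficient one. -/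
def Top {n : ℕ} (w : Wt n) (f : R n) : Prop :=
  f.coeff w = 1 ∧ ∀ v, f.coeff v ≠ 0 → v ≠ w → ht v < ht w

/-- Dominant weights. -/
def Dominant {n : ℕ} (w : Wt n) : Prop :=
  (∀ i, w.1 ≤ 2 * w.2 i) ∧ ∀ i j, i ≤ j → w.2 j ≤ w.2 i

theorem ht_zero {n : ℕ} : ht (0 : Wt n) = 0 := by
  simp [ht]

theorem ht_add {n : ℕ} (v w : Wt n) : ht (v + w) = ht v + ht w := by
  simp only [ht, ← Finset.sum_add_distrib]
  refine Finset.sum_congr rfl fun i _ => ?_
  simp only [Prod.fst_add, Prod.snd_add, Pi.add_apply]
  ring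

theorem ht_neg {n : ℕ} (v : Wt n) : ht (-v) = -ht v := by
  have := ht_add v (-v)
  rw [add_neg_cancel, ht_zero] at this
  linarith

theorem Dominant.ht_nonneg {n : ℕ} {w : Wt n} (h : Dominant w) : 0 ≤ ht w := by
  refine Finset.sum_nonneg fun i _ => mul_nonneg ?_ ?_
  · have := i.2
    omega
  · have := h.1 i
    omega

private theorem AlgA_mon_coeff {n : ℕ} (w v : Wt n) :
    (mon w).coeff v = if w = v then 1 else 0 := by
  classical
  rw [mon, AddMonoidAlgebra.coeff_single, Finsupp.single_apply]

theorem top_mon {n : ℕ} (w : Wt n) : Top w (mon w) := by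
  refine ⟨by rw [AlgA_mon_coeff, if_pos rfl], fun v hv hvw => ?_⟩
  rw [AlgA_mon_coeff, if_neg (fun h => hvw h.symm)] at hv
  exact absurd rfl hv

theorem top_one {n : ℕ} : Top 0 (1 : R n) := by
  have h : (1 : R n) = mon 0 := by rw [AddMonoidAlgebra.one_def, mon]
  rw [h]
  exact top_mon 0

private theorem AlgA_le {n : ℕ} {v a : Wt n} {f : R n} (hf : Top v f) (ha : f.coeff a ≠ 0) :
    a = v ∨ ht a < ht v := by
  by_cases h : a = v
  · exact Or.inl h
  · exact Or.inr (hf.2 a ha h)

private theorem AlgA_exists {n : ℕ} {f g : R n} {u : Wt n} (h : (f * g).coeff u ≠ 0) :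
    ∃ a b, f.coeff a ≠ 0 ∧ g.coeff b ≠ 0 ∧ a + b = u := by
  classical
  rw [AddMonoidAlgebra.coeff_mul, Finsupp.sum] at h
  obtain ⟨a, ha, ha'⟩ := Finset.exists_ne_zero_of_sum_ne_zero h
  rw [Finsupp.sum] at ha'
  obtain ⟨b, hb, hb'⟩ := Finset.exists_ne_zero_of_sum_ne_zero ha'
  refine ⟨a, b, Finsupp.mem_support_iff.1 ha, Finsupp.mem_support_iff.1 hb, ?_⟩
  by_contra hab
  exact hb' (if_neg hab)

/-- The support of a product is contained in the sum of the supports. -/
theorem top_mul {n : ℕ} {v w : Wt n} {f g : R n} (hf : Top v f) (hg : Top w g) :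
    Top (v + w) (f * g) := by
  classical
  have key : ∀ a b, f.coeff a ≠ 0 → g.coeff b ≠ 0 → (a = v ∧ b = w) ∨ ht (a + b) < ht (v + w) := by
    intro a b ha hb
    rw [ht_add, ht_add]
    rcases AlgA_le hf ha with h1 | h1 <;> rcases AlgA_le hg hb with h2 | h2
    · exact Or.inl ⟨h1, h2⟩
    · right; rw [h1]; linarith
    · right; rw [h2]; linarith
    · right; linarith
  refine ⟨?_, ?_⟩
  · rw [AddMonoidAlgebra.coeff_mul, Finsupp.sum, Finset.sum_eq_single v]
    · rw [Finsupp.sum, Finset.sum_eq_single w]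
      · rw [if_pos rfl, hf.1, hg.1, one_mul]
      · intro b hb hbw
        rw [if_neg]
        intro h
        exact hbw (add_left_cancel h)
      · intro hw
        rw [if_pos rfl, Finsupp.notMem_support_iff.1 hw, mul_zero]
    · intro a ha hav
      rw [Finsupp.sum]
      refine Finset.sum_eq_zero fun b hb => ?_
      rw [if_neg]
      intro h
      rcases key a b (Finsupp.mem_support_iff.1 ha) (Finsupp.mem_support_iff.1 hb) with h1 | h1
      · exact hav h1.1
      · rw [h] at h1
        exact lt_irrefl _ h1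
    · intro hv
      exact absurd (Finsupp.notMem_support_iff.1 hv) (by rw [hf.1]; exact one_ne_zero)
  · intro u hu huv
    obtain ⟨a, b, ha, hb, rfl⟩ := AlgA_exists hu
    rcases key a b ha hb with h1 | h1
    · exact absurd (by rw [h1.1, h1.2]) huv
    · exact h1

private theorem AlgA_prod {n : ℕ} {ι : Type*} (s : Finset ι) (w : ι → Wt n) (f : ι → R n)
    (h : ∀ i, Top (w i) (f i)) : Top (∑ i ∈ s, w i) (∏ i ∈ s, f i) := by
  classical
  induction s using Finset.induction_on with
  | empty => simpa using top_one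
  | insert a s ha ih =>
    rw [Finset.sum_insert ha, Finset.prod_insert ha]
    exact top_mul (h a) ih

private theorem AlgA_ht_single {n : ℕ} (i : Fin n) :
    0 < ht ((0, Pi.single i 1) : Wt n) := by
  classical
  rw [ht, Finset.sum_eq_single i]
  · have := i.2
    simp only [Pi.single_eq_same]
    omega
  · intro j _ hj
    simp only [Pi.single_eq_of_ne hj]
    ring
  · intro h
    exact absurd (Finset.mem_univ i) h

/-- `spR n = ∑_I [(1, 1_I)]`. Or by multiplicativity: each factor `1 + [(0, e_i)]` has the highest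
weight `(0, e_i)`. -/
theorem top_spR (n : ℕ) : Top (1, fun _ => 1) (spR n) := by
  classical
  have h1 : ∀ i : Fin n, Top ((0, Pi.single i 1) : Wt n)
      (1 + mon ((0, Pi.single i 1) : Wt n)) := by
    intro i
    have hpos := AlgA_ht_single i
    have hne : (0 : Wt n) ≠ (0, Pi.single i 1) := by
      intro h
      rw [← h, ht_zero] at hpos
      exact lt_irrefl _ hpos
    have hone : (1 : R n) = mon 0 := by rw [AddMonoidAlgebra.one_def, mon]
    refine ⟨?_, ?_⟩
    · rw [hone, AddMonoidAlgebra.coeff_add, Finsupp.add_apply, AlgA_mon_coeff, AlgA_mon_coeff,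
        if_neg hne, if_pos rfl, zero_add]
    · intro v hv hvw
      rw [hone, AddMonoidAlgebra.coeff_add, Finsupp.add_apply, AlgA_mon_coeff, AlgA_mon_coeff,
        if_neg (show ¬ ((0, Pi.single i 1) : Wt n) = v from fun h => hvw h.symm), add_zero] at hv
      have hv0 : (0 : Wt n) = v := by
        by_contra h
        exact hv (if_neg h)
      rw [← hv0, ht_zero]
      exact hpos
  have h2 := top_mul (top_mon ((1, 0) : Wt n))
    (AlgA_prod Finset.univ (fun i : Fin n => ((0, Pi.single i 1) : Wt n))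
      (fun i => 1 + mon ((0, Pi.single i 1) : Wt n)) h1)
  have h3 : ((1, 0) : Wt n) + ∑ i : Fin n, ((0, Pi.single i 1) : Wt n) = (1, fun _ => 1) := by
    refine Prod.ext ?_ ?_
    · rw [Prod.fst_add, Prod.fst_sum]
      simp
    · rw [Prod.snd_add, Prod.snd_sum]
      funext j
      rw [Pi.add_apply, Finset.sum_apply]
      simp [Pi.single_apply]
  rw [h3] at h2
  exact h2

end Pool.Agent.EEA520

end

section

/-! The highest weight of the exterior powers of the standard representation. -/


namespace Pool.Agent.EEA520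

open Polynomial

/-- The weights of the standard representation, indexed. -/
private def AlgB_w {n : ℕ} : Option (Fin n ⊕ Fin n) → Wt n
  | none => 0
  | some (Sum.inl i) => (0, Pi.single i 1)
  | some (Sum.inr i) => (0, -Pi.single i 1)

private theorem AlgB_std (n : ℕ) :
    stdW n = (Finset.univ : Finset (Option (Fin n ⊕ Fin n))).val.map AlgB_w := by
  classical
  rw [stdW, univ_option]
  have h1 : (Finset.insertNone (Finset.univ : Finset (Fin n ⊕ Fin n))).val =
      none ::ₘ (Finset.univ : Finset (Fin n ⊕ Fin n)).val.map some := rfl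
  have h2 : (Finset.univ : Finset (Fin n ⊕ Fin n)).val =
      (Finset.univ : Finset (Fin n)).val.map Sum.inl +
        (Finset.univ : Finset (Fin n)).val.map Sum.inr := rfl
  rw [h1, Multiset.map_cons, h2, Multiset.map_add, Multiset.map_add]
  simp only [Multiset.map_map]
  rfl

private theorem AlgB_mon_sum {n : ℕ} {ι : Type} (T : Finset ι) (w : ι → Wt n) :
    ∏ t ∈ T, mon (w t) = mon (∑ t ∈ T, w t) := by
  classical
  induction T using Finset.induction_on with
  | empty => rw [Finset.prod_empty, Finset.sum_empty]; rfl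
  | insert x T hx ih =>
    rw [Finset.prod_insert hx, Finset.sum_insert hx, ih, mon, mon, mon,
      AddMonoidAlgebra.single_mul_single, one_mul]

private theorem AlgB_ext (n a : ℕ) :
    extV n a = ∑ T : Finset (Option (Fin n ⊕ Fin n)),
      if T.card = a then mon (∑ t ∈ T, AlgB_w t) else 0 := by
  classical
  rw [extV, AlgB_std, Multiset.map_map]
  have h1 : (Multiset.map ((fun w => (1 + C (mon w) * X : (R n)[X])) ∘ AlgB_w)
      (Finset.univ : Finset (Option (Fin n ⊕ Fin n))).val).prod =
      ∏ t : Option (Fin n ⊕ Fin n), (1 + C (mon (AlgB_w t)) * X : (R n)[X]) := rfl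
  rw [h1, Finset.prod_one_add, finsetSum_coeff, Finset.powerset_univ]
  refine Finset.sum_congr rfl fun T _ => ?_
  rw [Finset.prod_mul_distrib, Finset.prod_const, ← map_prod, AlgB_mon_sum, coeff_C_mul_X_pow]
  by_cases h : T.card = a
  · rw [if_pos h, if_pos h.symm]
  · rw [if_neg h, if_neg (Ne.symm h)]

private theorem AlgB_ht_sum {n : ℕ} {ι : Type} (T : Finset ι) (w : ι → Wt n) :
    ht (∑ t ∈ T, w t) = ∑ t ∈ T, ht (w t) := by
  classical
  induction T using Finset.induction_on with
  | empty => rw [Finset.sum_empty, Finset.sum_empty, ht_zero]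
  | insert x T hx ih => rw [Finset.sum_insert hx, Finset.sum_insert hx, ht_add, ih]

private theorem AlgB_ht_single {n : ℕ} (i : Fin n) :
    ht ((0, Pi.single i 1) : Wt n) = 2 * ((n : ℤ) - (i : ℕ)) := by
  rw [ht, Finset.sum_eq_single i]
  · simp
    ring
  · intro j _ hj
    simp [Pi.single_eq_of_ne hj]
  · intro h
    exact absurd (Finset.mem_univ i) h

private theorem AlgB_ht_neg {n : ℕ} (i : Fin n) :
    ht ((0, -Pi.single i 1) : Wt n) = -(2 * ((n : ℤ) - (i : ℕ))) := by
  rw [← AlgB_ht_single, ← ht_neg]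
  congr 1

/-- The set `T₀ = {e_0, …, e_{a-1}}`. -/
private def AlgB_T (n a : ℕ) : Finset (Option (Fin n ⊕ Fin n)) :=
  ((Finset.univ : Finset (Fin n)).filter fun i : Fin n => (i : ℕ) < a).image fun i => some (Sum.inl i)

private theorem AlgB_T_card (n a : ℕ) (ha : a ≤ n) : (AlgB_T n a).card = a := by
  rw [AlgB_T, Finset.card_image_of_injective]
  · rw [Fin.card_filter_val_lt, min_eq_right ha]
  · intro i j h
    simpa using h

private theorem AlgB_T_sum (n a : ℕ) :
    ∑ t ∈ AlgB_T n a, AlgB_w t = ((0 : ℤ), fun i : Fin n => if (i : ℕ) < a then 1 else 0) := by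
  rw [AlgB_T, Finset.sum_image]
  · have h1 : ∀ i : Fin n, AlgB_w (some (Sum.inl i)) = ((0 : ℤ), Pi.single i 1) := fun i => rfl
    simp only [h1]
    ext j
    · rw [Prod.fst_sum]
      simp
    · rw [Prod.snd_sum, Finset.sum_apply]
      simp only [Pi.single_apply]
      rw [Finset.sum_ite_eq]
      simp
  · intro i _ j _ h
    simpa using h

private theorem AlgB_ht_mem {n a : ℕ} {t : Option (Fin n ⊕ Fin n)} (ht' : t ∈ AlgB_T n a) :
    2 * ((n : ℤ) - a) + 2 ≤ ht (AlgB_w t) := by
  rw [AlgB_T, Finset.mem_image] at ht'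
  obtain ⟨i, hi, rfl⟩ := ht'
  rw [Finset.mem_filter] at hi
  have h1 : ht (AlgB_w (some (Sum.inl i))) = 2 * ((n : ℤ) - (i : ℕ)) := AlgB_ht_single i
  rw [h1]
  omega

private theorem AlgB_ht_notMem {n a : ℕ} (ha : a ≤ n) {t : Option (Fin n ⊕ Fin n)}
    (ht' : t ∉ AlgB_T n a) : ht (AlgB_w t) ≤ 2 * ((n : ℤ) - a) := by
  match t, ht' with
  | none, _ =>
    have h1 : ht (AlgB_w (none : Option (Fin n ⊕ Fin n))) = 0 := ht_zero
    rw [h1]
    omega
  | some (Sum.inl i), h =>
    have h1 : ht (AlgB_w (some (Sum.inl i))) = 2 * ((n : ℤ) - (i : ℕ)) := AlgB_ht_single i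
    rw [h1]
    have h2 : ¬ (i : ℕ) < a := by
      intro h3
      apply h
      rw [AlgB_T, Finset.mem_image]
      exact ⟨i, Finset.mem_filter.2 ⟨Finset.mem_univ _, h3⟩, rfl⟩
    omega
  | some (Sum.inr i), _ =>
    have h1 : ht (AlgB_w (some (Sum.inr i))) = -(2 * ((n : ℤ) - (i : ℕ))) := AlgB_ht_neg i
    rw [h1]
    have := i.2
    omega

private theorem AlgB_lt {n a : ℕ} (ha : a ≤ n) (T : Finset (Option (Fin n ⊕ Fin n)))
    (hT : T.card = a) (hne : T ≠ AlgB_T n a) :
    ht (∑ t ∈ T, AlgB_w t) < ht (∑ t ∈ AlgB_T n a, AlgB_w t) := by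
  classical
  rw [AlgB_ht_sum, AlgB_ht_sum]
  set T₀ := AlgB_T n a with hT₀
  have hc0 : T₀.card = a := AlgB_T_card n a ha
  have hs1 : ∑ t ∈ T, ht (AlgB_w t) = ∑ t ∈ T \ T₀, ht (AlgB_w t) + ∑ t ∈ T ∩ T₀, ht (AlgB_w t) := by
    rw [← Finset.sum_sdiff (Finset.inter_subset_left : T ∩ T₀ ⊆ T), Finset.sdiff_inter_self_left]
  have hs2 : ∑ t ∈ T₀, ht (AlgB_w t) =
      ∑ t ∈ T₀ \ T, ht (AlgB_w t) + ∑ t ∈ T ∩ T₀, ht (AlgB_w t) := by
    rw [← Finset.sum_sdiff (Finset.inter_subset_right : T ∩ T₀ ⊆ T₀), Finset.sdiff_inter_self_right]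
  have hcard : (T \ T₀).card = (T₀ \ T).card :=
    Finset.card_sdiff_comm (by rw [hT, hc0])
  have hpos : 0 < (T₀ \ T).card := by
    rw [Finset.card_pos]
    by_contra hemp
    rw [Finset.not_nonempty_iff_eq_empty, Finset.sdiff_eq_empty_iff_subset] at hemp
    exact hne (Finset.eq_of_subset_of_card_le hemp (by rw [hT, hc0])).symm
  have hb1 : ∑ t ∈ T \ T₀, ht (AlgB_w t) ≤ (T \ T₀).card • (2 * ((n : ℤ) - a)) :=
    Finset.sum_le_card_nsmul _ _ _ fun t ht' =>
      AlgB_ht_notMem ha (Finset.mem_sdiff.1 ht').2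
  have hb2 : (T₀ \ T).card • (2 * ((n : ℤ) - a) + 2) ≤ ∑ t ∈ T₀ \ T, ht (AlgB_w t) :=
    Finset.card_nsmul_le_sum _ _ _ fun t ht' =>
      AlgB_ht_mem (Finset.mem_sdiff.1 ht').1
  rw [hcard] at hb1
  rw [nsmul_eq_mul] at hb1 hb2
  have hpos' : (0 : ℤ) < ((T₀ \ T).card : ℤ) := by exact_mod_cast hpos
  rw [hs1, hs2]
  nlinarith

/-- Proof. Expand `∏ (1 + C [w] X)` over the `2 n + 1` weights `w = 0, ± e_i`: the coefficient of
`X ^ a` is the sum over the `a`-element subsets `T` of the index set (for example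
`Option (Fin n ⊕ Fin n)`) of `[∑_{t ∈ T} w_t]`. The heights of the weights are `0` and `± 2 (n - i)`.
Let `T₀ = {e_0, …, e_{a-1}}`. If `T ≠ T₀` then all elements of `T₀ \ T` have height
`≥ 2 (n - a + 1)` and those of `T \ T₀` have height `≤ 2 (n - a)`, and these two sets have the
same nonzero number of elements; so the height of `T` is smaller. -/
theorem top_ext (n a : ℕ) (ha : a ≤ n) :
    Top ((0 : ℤ), fun i : Fin n => if (i : ℕ) < a then 1 else 0) (extV n a) := by
  classical
  rw [← AlgB_T_sum n a]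
  have hcoef : ∀ v, (extV n a).coeff v = ∑ T : Finset (Option (Fin n ⊕ Fin n)),
      if T.card = a ∧ ∑ t ∈ T, AlgB_w t = v then 1 else 0 := by
    intro v
    rw [AlgB_ext, AddMonoidAlgebra.coeff_sum, Finsupp.finsetSum_apply]
    refine Finset.sum_congr rfl fun T _ => ?_
    by_cases h : T.card = a
    · rw [if_pos h, mon, AddMonoidAlgebra.coeff_single, Finsupp.single_apply]
      by_cases h2 : ∑ t ∈ T, AlgB_w t = v
      · rw [if_pos h2, if_pos ⟨h, h2⟩]
      · rw [if_neg h2, if_neg fun h3 => h2 h3.2]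
    · rw [if_neg h, if_neg fun h3 => h h3.1]
      rfl
  constructor
  · rw [hcoef, Finset.sum_eq_single (AlgB_T n a)]
    · rw [if_pos ⟨AlgB_T_card n a ha, rfl⟩]
    · intro T _ hne
      rw [if_neg]
      rintro ⟨h1, h2⟩
      have := AlgB_lt ha T h1 hne
      rw [h2] at this
      exact lt_irrefl _ this
    · intro h
      exact absurd (Finset.mem_univ _) h
  · intro v hv hne
    rw [hcoef] at hv
    obtain ⟨T, -, hT⟩ := Finset.exists_ne_zero_of_sum_ne_zero hv
    have hT' : T.card = a ∧ ∑ t ∈ T, AlgB_w t = v := by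
      by_contra hcon
      rw [if_neg hcon] at hT
      exact hT rfl
    obtain ⟨h1, rfl⟩ := hT'
    apply AlgB_lt ha T h1
    rintro rfl
    exact hne rfl

end Pool.Agent.EEA520

end

section

/-! Products with a given dominant highest weight. -/


namespace Pool.Agent.EEA520

open Polynomial

private theorem AlgC_card {n : ℕ} (lam : Fin n → ℤ) (hanti : ∀ i j, i ≤ j → lam j ≤ lam i)
    (i : Fin n) :
    (i : ℕ) < ((Finset.univ : Finset (Fin n)).filter fun j => 1 ≤ lam j).card ↔ 1 ≤ lam i := by
  constructor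
  · intro h
    by_contra hc
    have hsub : ((Finset.univ : Finset (Fin n)).filter fun j => 1 ≤ lam j) ⊆ Finset.Iio i := by
      intro j hj
      rw [Finset.mem_filter] at hj
      rw [Finset.mem_Iio]
      by_contra hji
      push Not at hji
      have := hanti i j hji
      omega
    have h1 := Finset.card_le_card hsub
    rw [Fin.card_Iio] at h1
    omega
  · intro h
    have hsub : Finset.Iic i ⊆ ((Finset.univ : Finset (Fin n)).filter fun j => 1 ≤ lam j) := by
      intro j hj
      rw [Finset.mem_Iic] at hj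
      rw [Finset.mem_filter]
      exact ⟨Finset.mem_univ _, h.trans (hanti j i hj)⟩
    have h1 := Finset.card_le_card hsub
    rw [Fin.card_Iic] at h1
    omega

private theorem AlgC_aux {n : ℕ} (N : ℕ) : ∀ lam : Fin n → ℤ, (∀ i, 0 ≤ lam i) →
    (∀ i, lam i ≤ N) → (∀ i j, i ≤ j → lam j ≤ lam i) →
    ∃ l : List ℕ, Top (0, lam) (l.map (extV n)).prod := by
  induction N with
  | zero =>
    intro lam h0 hN _
    refine ⟨[], ?_⟩
    have h1 : lam = 0 := by
      funext i
      have := h0 i
      have := hN i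
      simp only [Pi.zero_apply]
      push_cast at this
      omega
    subst h1
    rw [List.map_nil, List.prod_nil]
    exact top_one
  | succ N ih =>
    intro lam h0 hN hanti
    set a : ℕ := ((Finset.univ : Finset (Fin n)).filter fun j => 1 ≤ lam j).card with ha
    have hcard : ∀ i : Fin n, (i : ℕ) < a ↔ 1 ≤ lam i := AlgC_card lam hanti
    have han : a ≤ n := by
      have h1 := Finset.card_le_univ ((Finset.univ : Finset (Fin n)).filter fun j => 1 ≤ lam j)
      rwa [Fintype.card_fin] at h1
    obtain ⟨l, hl⟩ := ih (fun i => lam i - if (i : ℕ) < a then 1 else 0) (by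
      intro i
      have h1 := h0 i
      show 0 ≤ lam i - if (i : ℕ) < a then 1 else 0
      split_ifs with h
      · have := (hcard i).1 h
        omega
      · omega) (by
      intro i
      have h1 := hN i
      have h2 := h0 i
      push_cast at h1
      show lam i - (if (i : ℕ) < a then 1 else 0) ≤ N
      split_ifs with h
      · omega
      · have h3 : ¬ 1 ≤ lam i := fun h4 => h ((hcard i).2 h4)
        omega) (by
      intro i j hij
      have h1 := hanti i j hij
      have h2 := h0 j
      have h3 : (i : ℕ) ≤ j := hij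
      show lam j - (if (j : ℕ) < a then 1 else 0) ≤ lam i - (if (i : ℕ) < a then 1 else 0)
      split_ifs with h4 h5 h5
      · omega
      · omega
      · have h6 : ¬ 1 ≤ lam j := fun h7 => h4 ((hcard j).2 h7)
        have h8 := (hcard i).1 h5
        omega
      · omega)
    refine ⟨a :: l, ?_⟩
    rw [List.map_cons, List.prod_cons]
    have h1 := top_mul (top_ext n a han) hl
    have h2 : (((0 : ℤ), fun i : Fin n => if (i : ℕ) < a then (1 : ℤ) else 0) : Wt n) +
        (0, fun i => lam i - if (i : ℕ) < a then 1 else 0) = (0, lam) := by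
      ext i
      · simp
      · simp
    rw [h2] at h1
    exact h1

/-- Proof. Induction on `∑ lam i`. If `lam = 0` take the empty list. Otherwise let `a` be the number
of `i` with `1 ≤ lam i`; these are the `i < a`. Apply the induction hypothesis to
`lam - 1_{i < a}` and add `a` to the list (`top_ext`, `top_mul`). -/
theorem exists_list {n : ℕ} (lam : Fin n → ℤ) (h0 : ∀ i, 0 ≤ lam i)
    (hanti : ∀ i j, i ≤ j → lam j ≤ lam i) :
    ∃ l : List ℕ, Top (0, lam) (l.map (extV n)).prod := by
  refine AlgC_aux (∑ i, (lam i).toNat) lam h0 (fun i => ?_) hanti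
  have h1 : (lam i).toNat ≤ ∑ i, (lam i).toNat :=
    Finset.single_le_sum (f := fun i => (lam i).toNat) (fun _ _ => Nat.zero_le _)
      (Finset.mem_univ i)
  have h2 := Int.self_le_toNat (lam i)
  omega

/-- Proof. `w = (2 k' + e, μ)` with `e = 0, 1`; apply `exists_list` to `μ - k' - e`. -/
theorem exists_top {n : ℕ} (w : Wt n) (hw : Dominant w) : ∃ (k : ℤ) (l : List ℕ) (e : ℕ), e ≤ 1 ∧
    Top w (mon (k • nuW n) * (l.map (extV n)).prod * spR n ^ e) := by
  obtain ⟨k, μ⟩ := w
  obtain ⟨hd, hanti⟩ := hw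
  have hd' : ∀ i, k ≤ 2 * μ i := hd
  have hanti' : ∀ i j, i ≤ j → μ j ≤ μ i := hanti
  obtain ⟨l, hl⟩ := exists_list (fun i => μ i - k / 2 - k % 2) (by
    intro i
    have := hd' i
    show 0 ≤ μ i - k / 2 - k % 2
    omega) (by
    intro i j hij
    have := hanti' i j hij
    show μ j - k / 2 - k % 2 ≤ μ i - k / 2 - k % 2
    omega)
  have h1 := top_mul (top_mon ((k / 2) • nuW n)) hl
  rcases Int.emod_two_eq_zero_or_one k with h | h
  · refine ⟨k / 2, l, 0, by omega, ?_⟩
    rw [pow_zero]
    have h2 := top_mul h1 (top_one (n := n))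
    have h3 : (k / 2) • nuW n + ((0 : ℤ), fun i => μ i - k / 2 - k % 2) + 0 = (k, μ) := by
      ext i
      · simp only [nuW, Prod.smul_mk, Prod.fst_add, smul_eq_mul, Prod.fst_zero]
        omega
      · simp only [nuW, Prod.smul_mk, Prod.snd_add, Pi.add_apply, Pi.smul_apply, smul_eq_mul,
          Prod.snd_zero, Pi.zero_apply]
        omega
    rw [h3] at h2
    exact h2
  · refine ⟨k / 2, l, 1, le_refl 1, ?_⟩
    rw [pow_one]
    have h2 := top_mul h1 (top_spR n)
    have h3 : (k / 2) • nuW n + ((0 : ℤ), fun i => μ i - k / 2 - k % 2) + (1, fun _ => 1) =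
        (k, μ) := by
      ext i
      · simp only [nuW, Prod.smul_mk, Prod.fst_add, smul_eq_mul]
        omega
      · simp only [nuW, Prod.smul_mk, Prod.snd_add, Pi.add_apply, Pi.smul_apply, smul_eq_mul]
        omega
    rw [h3] at h2
    exact h2

end Pool.Agent.EEA520

end

section

/-! Weyl invariants. -/


namespace Pool.Agent.EEA520

open Polynomial

/-- The permutation `σ` on weights. -/
def permW {n : ℕ} (σ : Equiv.Perm (Fin n)) : Wt n ≃+ Wt n where
  toFun w := (w.1, w.2 ∘ σ)
  invFun w := (w.1, w.2 ∘ σ.symm)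
  left_inv w := by ext <;> simp
  right_inv w := by ext <;> simp
  map_add' v w := rfl

/-- The reflection `x_i ↦ x_i⁻¹`, `c ↦ c x_i` on weights. -/
def refW {n : ℕ} (i : Fin n) : Wt n ≃+ Wt n where
  toFun w := (w.1, Function.update w.2 i (w.1 - w.2 i))
  invFun w := (w.1, Function.update w.2 i (w.1 - w.2 i))
  left_inv w := by ext <;> simp
  right_inv w := by ext <;> simp
  map_add' v w := by
    ext j
    · rfl
    · by_cases hj : j = i
      · subst hj
        simp
        ring
      · simp [hj]

theorem isCharacter_iff {n : ℕ} (m : Wt n →₀ ℤ) : IsCharacter m ↔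
    (∀ σ w, m (permW σ w) = m w) ∧ ∀ i w, m (refW i w) = m w :=
  ⟨fun h => ⟨fun σ w => h.1 σ w.1 w.2, fun i w => h.2 i w.1 w.2⟩,
    fun h => ⟨fun σ k μ => h.1 σ (k, μ), fun i k μ => h.2 i (k, μ)⟩⟩

private noncomputable def algD_M {n : ℕ} (φ : Wt n ≃+ Wt n) : R n →+* R n :=
  (AddMonoidAlgebra.mapDomainRingEquiv ℤ φ : R n ≃+* R n).toRingHom

private theorem algD_M_coeff {n : ℕ} (φ : Wt n ≃+ Wt n) (f : R n) (w : Wt n) :
    (algD_M φ f).coeff (φ w) = f.coeff w := by
  have h : (algD_M φ f).coeff = Finsupp.equivMapDomain φ.toEquiv f.coeff :=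
    AddMonoidAlgebra.coeff_mapDomainRingEquiv φ f
  rw [h, Finsupp.equivMapDomain_apply]
  congr 1
  exact φ.symm_apply_apply w

private theorem algD_M_mon {n : ℕ} (φ : Wt n ≃+ Wt n) (w : Wt n) :
    algD_M φ (mon w) = mon (φ w) :=
  AddMonoidAlgebra.mapDomainRingEquiv_single φ 1 w

private theorem algD_inv_iff {n : ℕ} (φ : Wt n ≃+ Wt n) (f : R n) :
    (∀ w, f.coeff (φ w) = f.coeff w) ↔ algD_M φ f = f := by
  constructor
  · intro h
    apply AddMonoidAlgebra.ext
    apply Finsupp.ext
    intro v
    obtain ⟨w, rfl⟩ := φ.surjective v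
    rw [algD_M_coeff, h]
  · intro h w
    conv_lhs => rw [← h]
    rw [algD_M_coeff]

private theorem algD_isCharacter {n : ℕ} (f : R n) :
    IsCharacter f.coeff ↔ (∀ σ, algD_M (permW σ) f = f) ∧ ∀ i, algD_M (refW i) f = f := by
  rw [isCharacter_iff]
  constructor
  · intro h
    exact ⟨fun σ => (algD_inv_iff _ f).1 (h.1 σ), fun i => (algD_inv_iff _ f).1 (h.2 i)⟩
  · intro h
    exact ⟨fun σ => (algD_inv_iff _ f).2 (h.1 σ), fun i => (algD_inv_iff _ f).2 (h.2 i)⟩

private theorem algD_mon_add {n : ℕ} (v w : Wt n) : (mon (v + w) : R n) = mon v * mon w := by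
  unfold mon
  rw [AddMonoidAlgebra.single_mul_single, one_mul]

private theorem algD_perm_single {n : ℕ} (σ : Equiv.Perm (Fin n)) (i : Fin n) (e : ℤ) :
    permW σ ((0 : ℤ), Pi.single i e) = ((0 : ℤ), Pi.single (σ.symm i) e) := by
  have h : permW σ ((0 : ℤ), Pi.single i e) = ((0 : ℤ), (Pi.single i e : Fin n → ℤ) ∘ σ) := rfl
  rw [h]
  congr 1
  funext j
  rw [Function.comp_apply]
  by_cases hj : σ j = i
  · have : j = σ.symm i := by rw [← hj, Equiv.symm_apply_apply]
    rw [this, Equiv.apply_symm_apply, Pi.single_eq_same, Pi.single_eq_same]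
  · have : j ≠ σ.symm i := fun h => hj (by rw [h, Equiv.apply_symm_apply])
    rw [Pi.single_eq_of_ne hj, Pi.single_eq_of_ne this]

private theorem algD_ref_single {n : ℕ} (i : Fin n) (e : ℤ) :
    refW i ((0 : ℤ), Pi.single i e) = ((0 : ℤ), Pi.single i (-e)) := by
  have h : refW i ((0 : ℤ), Pi.single i e) =
    ((0 : ℤ), Function.update (Pi.single i e : Fin n → ℤ) i (0 - (Pi.single i e : Fin n → ℤ) i)) :=
      rfl
  rw [h]
  congr 1
  funext j
  by_cases hj : j = i
  · subst hj
    simp
  · simp [hj]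

private theorem algD_ref_single_ne {n : ℕ} (i j : Fin n) (hij : j ≠ i) (e : ℤ) :
    refW i ((0 : ℤ), Pi.single j e) = ((0 : ℤ), Pi.single j e) := by
  have h : refW i ((0 : ℤ), Pi.single j e) =
    ((0 : ℤ), Function.update (Pi.single j e : Fin n → ℤ) i (0 - (Pi.single j e : Fin n → ℤ) i)) :=
      rfl
  rw [h]
  congr 1
  funext k
  by_cases hk : k = i
  · subst hk
    simp [Pi.single_eq_of_ne hij.symm]
  · simp [hk]

private theorem algD_ref_one {n : ℕ} (i : Fin n) :
    refW i ((1 : ℤ), (0 : Fin n → ℤ)) = ((1 : ℤ), Pi.single i 1) := by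
  have h : refW i ((1 : ℤ), (0 : Fin n → ℤ)) =
    ((1 : ℤ), Function.update (0 : Fin n → ℤ) i (1 - (0 : Fin n → ℤ) i)) := rfl
  rw [h]
  congr 1

/-- The factor `1 + C [w] X`. -/
private noncomputable def algD_F {n : ℕ} (w : Wt n) : (R n)[X] := 1 + C (mon w) * X

private theorem algD_extV (n a : ℕ) : extV n a =
    (algD_F (0 : Wt n) * ((∏ i : Fin n, algD_F ((0 : ℤ), Pi.single i 1)) *
      ∏ i : Fin n, algD_F ((0 : ℤ), -Pi.single i (1 : ℤ)))).coeff a := by
  unfold extV stdW
  rw [Multiset.map_cons, Multiset.map_add, Multiset.prod_cons, Multiset.prod_add,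
    Multiset.map_map, Multiset.map_map]
  rfl

private theorem algD_map_F {n : ℕ} (φ : Wt n ≃+ Wt n) (w : Wt n) :
    Polynomial.map (algD_M φ) (algD_F w) = algD_F (φ w) := by
  unfold algD_F
  rw [Polynomial.map_add, Polynomial.map_one, Polynomial.map_mul, Polynomial.map_C,
    Polynomial.map_X, algD_M_mon]

private theorem algD_map_extV {n : ℕ} (φ : Wt n ≃+ Wt n) (a : ℕ) : algD_M φ (extV n a) =
    (algD_F (0 : Wt n) * ((∏ i : Fin n, algD_F (φ ((0 : ℤ), Pi.single i 1))) *
      ∏ i : Fin n, algD_F (φ ((0 : ℤ), -Pi.single i (1 : ℤ))))).coeff a := by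
  rw [algD_extV, ← Polynomial.coeff_map, Polynomial.map_mul, Polynomial.map_mul,
    Polynomial.map_prod, Polynomial.map_prod, algD_map_F, map_zero]
  simp only [algD_map_F]

/-- Invariance of a product under an automorphism of the group of weights (compare with the ring
homomorphism `AddMonoidAlgebra.mapDomainRingHom`). -/
theorem mul_invariant {n : ℕ} (φ : Wt n ≃+ Wt n) (f g : R n)
    (hf : ∀ w, f.coeff (φ w) = f.coeff w) (hg : ∀ w, g.coeff (φ w) = g.coeff w) (w : Wt n) :
    (f * g).coeff (φ w) = (f * g).coeff w := by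
  refine (algD_inv_iff φ (f * g)).2 ?_ w
  rw [map_mul, (algD_inv_iff φ f).1 hf, (algD_inv_iff φ g).1 hg]

theorem isCharacter_mul {n : ℕ} {f g : R n} (hf : IsCharacter f.coeff) (hg : IsCharacter g.coeff) :
    IsCharacter (f * g).coeff := by
  rw [algD_isCharacter] at hf hg ⊢
  exact ⟨fun σ => by rw [map_mul, hf.1, hg.1], fun i => by rw [map_mul, hf.2, hg.2]⟩

theorem isCharacter_one {n : ℕ} : IsCharacter (1 : R n).coeff := by
  rw [algD_isCharacter]
  exact ⟨fun σ => by rw [map_one], fun i => by rw [map_one]⟩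

theorem isCharacter_add {n : ℕ} {f g : R n} (hf : IsCharacter f.coeff) (hg : IsCharacter g.coeff) :
    IsCharacter (f + g).coeff := by
  rw [algD_isCharacter] at hf hg ⊢
  exact ⟨fun σ => by rw [map_add, hf.1, hg.1], fun i => by rw [map_add, hf.2, hg.2]⟩

theorem isCharacter_zsmul {n : ℕ} {f : R n} (hf : IsCharacter f.coeff) (e : ℤ) :
    IsCharacter (e • f).coeff := by
  rw [algD_isCharacter] at hf ⊢
  exact ⟨fun σ => by rw [map_zsmul, hf.1], fun i => by rw [map_zsmul, hf.2]⟩

theorem isCharacter_nu {n : ℕ} (k : ℤ) : IsCharacter (mon (k • nuW n) : R n).coeff := by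
  rw [algD_isCharacter]
  constructor
  · intro σ
    rw [algD_M_mon, map_zsmul]
    rfl
  · intro i
    rw [algD_M_mon, map_zsmul]
    have h : refW i (nuW n) = nuW n := by
      have h1 : refW i (nuW n) = ((2 : ℤ), Function.update (fun _ : Fin n => (1 : ℤ)) i (2 - 1)) :=
        rfl
      rw [h1]
      unfold nuW
      congr 1
      funext j
      by_cases hj : j = i
      · subst hj
        simp
      · simp [hj]
    rw [h]

/-- `(spR n).coeff (k, μ)` is `1` if `k = 1` and all `μ i` are `0` or `1`, else `0`. -/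
theorem isCharacter_spR (n : ℕ) : IsCharacter (spR n).coeff := by
  rw [algD_isCharacter]
  constructor
  · intro σ
    unfold spR
    rw [map_mul, map_prod, algD_M_mon]
    have h1 : permW σ ((1 : ℤ), (0 : Fin n → ℤ)) = (1, 0) := rfl
    rw [h1]
    congr 1
    rw [← Equiv.prod_comp σ.symm (fun i : Fin n => (1 + mon ((0 : ℤ), Pi.single i 1) : R n))]
    refine Finset.prod_congr rfl fun i _ => ?_
    rw [map_add, map_one, algD_M_mon, algD_perm_single]
  · intro i
    unfold spR
    rw [map_mul, map_prod, algD_M_mon, algD_ref_one,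
      ← Finset.mul_prod_erase Finset.univ _ (Finset.mem_univ i),
      ← Finset.mul_prod_erase Finset.univ (fun i : Fin n => (1 + mon ((0 : ℤ), Pi.single i 1) : R n))
        (Finset.mem_univ i), ← mul_assoc, ← mul_assoc]
    congr 1
    · rw [map_add, map_one, algD_M_mon, algD_ref_single, mul_add, mul_add, mul_one, mul_one,
        ← algD_mon_add, ← algD_mon_add, add_comm]
      congr 2
      · ext j
        · simp
        · by_cases hj : j = i
          · subst hj
            simp
          · simp [hj]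
      · ext j
        · simp
        · simp
    · refine Finset.prod_congr rfl fun j hj => ?_
      rw [map_add, map_one, algD_M_mon, algD_ref_single_ne i j (Finset.ne_of_mem_erase hj)]

/-- The automorphism maps the multiset `stdW n` to itself, hence it preserves the product
`∏ (1 + C [w] X)`. -/
theorem isCharacter_ext (n a : ℕ) : IsCharacter (extV n a).coeff := by
  rw [algD_isCharacter]
  constructor
  · intro σ
    rw [algD_map_extV, algD_extV]
    have h1 : (∏ i : Fin n, algD_F (permW σ ((0 : ℤ), Pi.single i 1))) =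
        ∏ i : Fin n, algD_F ((0 : ℤ), Pi.single i 1) := by
      rw [← Equiv.prod_comp σ.symm (fun i : Fin n => algD_F ((0 : ℤ), Pi.single i 1))]
      refine Finset.prod_congr rfl fun i _ => ?_
      rw [algD_perm_single]
    have h2 : (∏ i : Fin n, algD_F (permW σ ((0 : ℤ), -Pi.single i (1 : ℤ)))) =
        ∏ i : Fin n, algD_F ((0 : ℤ), -Pi.single i (1 : ℤ)) := by
      rw [← Equiv.prod_comp σ.symm (fun i : Fin n => algD_F ((0 : ℤ), -Pi.single i (1 : ℤ)))]
      refine Finset.prod_congr rfl fun i _ => ?_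
      rw [← Pi.single_neg, ← Pi.single_neg, algD_perm_single]
    rw [h1, h2]
  · intro i
    rw [algD_map_extV, algD_extV, ← Finset.prod_mul_distrib, ← Finset.prod_mul_distrib]
    have h1 : (∏ j : Fin n, algD_F (refW i ((0 : ℤ), Pi.single j 1)) *
        algD_F (refW i ((0 : ℤ), -Pi.single j (1 : ℤ)))) =
        ∏ j : Fin n, algD_F ((0 : ℤ), Pi.single j 1) * algD_F ((0 : ℤ), -Pi.single j (1 : ℤ)) := by
      refine Finset.prod_congr rfl fun j _ => ?_
      rw [← Pi.single_neg]
      by_cases hj : j = i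
      · subst hj
        rw [algD_ref_single, algD_ref_single, neg_neg, mul_comm]
      · rw [algD_ref_single_ne i j hj, algD_ref_single_ne i j hj]
    rw [h1]

end Pool.Agent.EEA520

end

section

/-! The invariants are spanned by the products. -/


namespace Pool.Agent.EEA520

open Polynomial

private theorem AlgE_ht_sub {n : ℕ} (k : ℤ) (μ ν : Fin n → ℤ) :
    ht ((k, ν) : Wt n) - ht ((k, μ) : Wt n) =
      ∑ i : Fin n, ((n : ℤ) - (i : ℕ)) * (2 * (ν i - μ i)) := by
  simp only [ht, ← Finset.sum_sub_distrib]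
  refine Finset.sum_congr rfl fun i _ => ?_
  ring

/-- A weight of maximal height in an invariant function is dominant. If `i < j` and `μ i < μ j`, the
transposition of `i` and `j` increases the height by `2 (j - i) (μ j - μ i) > 0`; if `2 μ i < k`, the
reflection `refW i` increases it by `2 (n - i) (k - 2 μ i) > 0`. -/
theorem dominant_of_max {n : ℕ} {m : Wt n →₀ ℤ} (hm : IsCharacter m) {w : Wt n} (hw : m w ≠ 0)
    (hmax : ∀ v, m v ≠ 0 → ht v ≤ ht w) : Dominant w := by
  obtain ⟨k, μ⟩ := w
  constructor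
  · intro i
    show k ≤ 2 * μ i
    by_contra hcon
    push Not at hcon
    have h1 : m (k, Function.update μ i (k - μ i)) ≠ 0 := by
      rw [hm.2 i k μ]
      exact hw
    have h2 := hmax _ h1
    have h3 := AlgE_ht_sub k μ (Function.update μ i (k - μ i))
    rw [Finset.sum_eq_single i] at h3
    · rw [Function.update_self] at h3
      have h4 : 0 < (n : ℤ) - (i : ℕ) := by
        have := i.2
        omega
      have h5 : 0 < 2 * (k - μ i - μ i) := by omega
      have h6 := mul_pos h4 h5
      omega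
    · intro j _ hj
      rw [Function.update_of_ne hj, sub_self, mul_zero, mul_zero]
    · intro h
      exact absurd (Finset.mem_univ i) h
  · intro i j hij
    show μ j ≤ μ i
    by_contra hcon
    push Not at hcon
    have hne : i ≠ j := by
      rintro rfl
      exact lt_irrefl _ hcon
    have hlt : (i : ℕ) < (j : ℕ) := lt_of_le_of_ne hij fun h => hne (Fin.ext h)
    have h1 : m (k, μ ∘ Equiv.swap i j) ≠ 0 := by
      rw [hm.1 (Equiv.swap i j) k μ]
      exact hw
    have h2 := hmax _ h1
    have h3 := AlgE_ht_sub k μ (μ ∘ Equiv.swap i j)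
    rw [← Finset.add_sum_erase _ _ (Finset.mem_univ i),
      ← Finset.add_sum_erase _ _ (Finset.mem_erase.mpr ⟨hne.symm, Finset.mem_univ j⟩),
      Finset.sum_eq_zero] at h3
    · rw [Function.comp_apply, Function.comp_apply, Equiv.swap_apply_left,
        Equiv.swap_apply_right, add_zero] at h3
      have h4 : 0 < ((j : ℕ) : ℤ) - ((i : ℕ) : ℤ) := by omega
      have h5 : 0 < μ j - μ i := by omega
      have h6 := mul_pos h4 h5
      have h7 : ((n : ℤ) - ((i : ℕ) : ℤ)) * (2 * (μ j - μ i)) +
          ((n : ℤ) - ((j : ℕ) : ℤ)) * (2 * (μ i - μ j)) =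
          2 * ((((j : ℕ) : ℤ) - ((i : ℕ) : ℤ)) * (μ j - μ i)) := by ring
      rw [h7] at h3
      omega
    · intro l hl
      rw [Finset.mem_erase, Finset.mem_erase] at hl
      rw [Function.comp_apply, Equiv.swap_apply_of_ne_of_ne hl.2.1 hl.1, sub_self, mul_zero,
        mul_zero]

private theorem AlgE_list {n : ℕ} (l : List ℕ) :
    IsCharacter ((l.map (extV n)).prod : R n).coeff := by
  induction l with
  | nil =>
    rw [List.map_nil, List.prod_nil]
    exact isCharacter_one
  | cons a l ih =>
    rw [List.map_cons, List.prod_cons]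
    exact isCharacter_mul (isCharacter_ext n a) ih

private theorem AlgE_pow {n : ℕ} (e : ℕ) : IsCharacter ((spR n) ^ e : R n).coeff := by
  induction e with
  | zero =>
    rw [pow_zero]
    exact isCharacter_one
  | succ e ih =>
    rw [pow_succ]
    exact isCharacter_mul ih (isCharacter_spR n)

private theorem AlgE_sum {n : ℕ} {ι : Type} (s : Finset ι) (f : ι → R n)
    (h : ∀ i ∈ s, IsCharacter (f i).coeff) : IsCharacter (∑ i ∈ s, f i).coeff := by
  classical
  induction s using Finset.induction_on with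
  | empty =>
    rw [Finset.sum_empty]
    exact ⟨fun _ _ _ => rfl, fun _ _ _ => rfl⟩
  | insert a s ha ih =>
    rw [Finset.sum_insert ha]
    exact isCharacter_add (h a (Finset.mem_insert_self _ _))
      (ih fun i hi => h i (Finset.mem_insert_of_mem hi))

private theorem AlgE_ind (n : ℕ) (U : AddSubgroup (R n))
    (hU : ∀ (k : ℤ) (l : List ℕ) (e : ℕ), e ≤ 1 →
      mon (k • nuW n) * (l.map (extV n)).prod * spR n ^ e ∈ U) (N : ℕ) :
    ∀ m : R n, IsCharacter m.coeff → (∀ w, m.coeff w ≠ 0 → ht w < N) → m ∈ U := by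
  classical
  induction N with
  | zero =>
    intro m hm hlt
    have h0 : m = 0 := by
      by_contra hne
      have h1 : m.coeff.support.Nonempty := by
        rw [Finsupp.support_nonempty_iff]
        intro h2
        apply hne
        apply AddMonoidAlgebra.ext
        rw [h2]
        rfl
      obtain ⟨w, hw, hmax⟩ := Finset.exists_max_image m.coeff.support ht h1
      have h2 : Dominant w := dominant_of_max hm (Finsupp.mem_support_iff.mp hw)
        fun v hv => hmax v (Finsupp.mem_support_iff.mpr hv)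
      have h3 := h2.ht_nonneg
      have h4 := hlt w (Finsupp.mem_support_iff.mp hw)
      rw [Nat.cast_zero] at h4
      omega
    rw [h0]
    exact U.zero_mem
  | succ N ih =>
    intro m hm hlt
    have hex : ∀ w : Wt n, m.coeff w ≠ 0 → ht w = N →
        ∃ P : R n, Top w P ∧ P ∈ U ∧ IsCharacter P.coeff := by
      intro w hw hN
      have h2 : Dominant w := dominant_of_max hm hw fun v hv => by
        have := hlt v hv
        push_cast at this
        omega
      obtain ⟨k, l, e, he, htop⟩ := exists_top w h2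
      exact ⟨_, htop, hU k l e he,
        isCharacter_mul (isCharacter_mul (isCharacter_nu k) (AlgE_list l)) (AlgE_pow e)⟩
    choose! P hP using hex
    let S : Finset (Wt n) := m.coeff.support.filter fun w => ht w = N
    have hS : ∀ w, w ∈ S ↔ m.coeff w ≠ 0 ∧ ht w = N := fun w => by
      rw [Finset.mem_filter, Finsupp.mem_support_iff]
    let T : R n := ∑ w ∈ S, m.coeff w • P w
    have hT : IsCharacter T.coeff := AlgE_sum _ _ fun w hw =>
      isCharacter_zsmul (hP w ((hS w).1 hw).1 ((hS w).1 hw).2).2.2 _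
    have hTU : T ∈ U := U.sum_mem fun w hw =>
      U.zsmul_mem (hP w ((hS w).1 hw).1 ((hS w).1 hw).2).2.1 _
    have hTc : ∀ v, T.coeff v = ∑ w ∈ S, m.coeff w * (P w).coeff v := by
      intro v
      have h1 : T.coeff = ∑ w ∈ S, (m.coeff w • P w).coeff :=
        AddMonoidAlgebra.coeff_sum _ _
      rw [h1, Finsupp.finsetSum_apply]
      refine Finset.sum_congr rfl fun w _ => ?_
      rw [AddMonoidAlgebra.coeff_smul_apply, smul_eq_mul]
    have hm' : m + (-1 : ℤ) • T ∈ U := by
      apply ih _ (isCharacter_add hm (isCharacter_zsmul hT _))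
      intro v hv
      by_contra hcon
      push Not at hcon
      apply hv
      have h1 : (m + (-1 : ℤ) • T).coeff v = m.coeff v - T.coeff v := by
        rw [AddMonoidAlgebra.coeff_add, Finsupp.add_apply, AddMonoidAlgebra.coeff_smul_apply,
          smul_eq_mul]
        ring
      rw [h1, hTc]
      have h0 : ∀ w ∈ S, v ≠ w → (P w).coeff v = 0 := by
        intro w hw hvw
        by_contra h2
        have h3 := (hP w ((hS w).1 hw).1 ((hS w).1 hw).2).1.2 v h2 hvw
        rw [((hS w).1 hw).2] at h3
        omega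
      by_cases hvS : v ∈ S
      · rw [Finset.sum_eq_single v]
        · rw [(hP v ((hS v).1 hvS).1 ((hS v).1 hvS).2).1.1, mul_one, sub_self]
        · intro w hw hwv
          rw [h0 w hw hwv.symm, mul_zero]
        · intro h
          exact absurd hvS h
      · have h2 : m.coeff v = 0 := by
          by_contra h3
          apply hvS
          rw [hS]
          refine ⟨h3, ?_⟩
          have := hlt v h3
          push_cast at this
          omega
        rw [h2, zero_sub, neg_eq_zero]
        refine Finset.sum_eq_zero fun w hw => ?_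
        rw [h0 w hw (fun h => hvS (by rw [h]; exact hw)), mul_zero]
    have h2 : m = (m + (-1 : ℤ) • T) + T := by
      rw [neg_smul, one_smul, neg_add_cancel_right]
    rw [h2]
    exact U.add_mem hm' hTU

/-- Proof. Induction on the natural number `N` such that all `w` with `m.coeff w ≠ 0` have height
`< N`. If `N = 0`, then `m = 0`: a weight of maximal height is dominant, so its height is `≥ 0`.
Step from `N` to `N + 1`: for every `w` in the support of height `N` choose a product `P w` by
`exists_top` (`w` is dominant by `dominant_of_max`); `m - ∑ m.coeff w • P w` is a character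
(`isCharacter_mul`, …) all of whose weights have height `< N`. -/
theorem alg (n : ℕ) (U : AddSubgroup (R n))
    (hU : ∀ (k : ℤ) (l : List ℕ) (e : ℕ), e ≤ 1 →
      mon (k • nuW n) * (l.map (extV n)).prod * spR n ^ e ∈ U)
    (m : R n) (hm : IsCharacter m.coeff) : m ∈ U := by
  classical
  obtain ⟨N, hN⟩ : ∃ N : ℕ, ∀ w, m.coeff w ≠ 0 → ht w < N := by
    refine ⟨(∑ w ∈ m.coeff.support, |ht w|).toNat + 1, fun w hw => ?_⟩
    have h1 : |ht w| ≤ ∑ w ∈ m.coeff.support, |ht w| :=
      Finset.single_le_sum (f := fun w => |ht w|) (fun v _ => abs_nonneg _)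
        (Finsupp.mem_support_iff.mpr hw)
    have h2 := le_abs_self (ht w)
    have h3 := Int.self_le_toNat (∑ w ∈ m.coeff.support, |ht w|)
    push_cast
    omega
  exact AlgE_ind n U hU N m hm hN

end Pool.Agent.EEA520

end
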