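import Pool.Agent.W_eea520_n.AlgX

set_option autoImplicit false

section

/-! Highest weights of the numerators of Weyl's character formula. -/


namespace Pool.Agent.EEA520

open Polynomial

variable {N : ℕ}

theorem coeff_mon (w v : Wt N) : (mon w : R N).coeff v = if w = v then 1 else 0 := by
  classical
  rw [mon, AddMonoidAlgebra.coeff_single, Finsupp.single_apply]

/-- All weights of `f` have height `< b`. -/
def Low66 (b : ℤ) (f : R N) : Prop := ∀ v, f.coeff v ≠ 0 → ht v < b

theorem Low66.add {b : ℤ} {f g : R N} (hf : Low66 b f) (hg : Low66 b g) : Low66 b (f + g) := by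
  intro v hv
  have h1 : (f + g).coeff v = f.coeff v + g.coeff v := rfl
  by_cases h : f.coeff v = 0
  · exact hg v fun h2 => hv (by rw [h1, h, h2, add_zero])
  · exact hf v h

theorem Low66.zero (b : ℤ) : Low66 b (0 : R N) := fun _ hv => absurd rfl hv

theorem Low66.sum {b : ℤ} {ι : Type*} (s : Finset ι) (f : ι → R N) (h : ∀ i ∈ s, Low66 b (f i)) :
    Low66 b (∑ i ∈ s, f i) := by
  classical
  induction s using Finset.induction_on with
  | empty => exact Low66.zero b
  | insert a s ha ih =>
    rw [Finset.sum_insert ha]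
    exact (h a (Finset.mem_insert_self a s)).add (ih fun i hi => h i (Finset.mem_insert_of_mem hi))

theorem Low66.intCast_mul {b : ℤ} {f : R N} (hf : Low66 b f) (z : ℤ) : Low66 b ((z : R N) * f) := by
  intro v hv
  refine hf v fun h => hv ?_
  have h1 : (z : R N) * f = z • f := (zsmul_eq_mul f z).symm
  rw [h1, AddMonoidAlgebra.coeff_smul_apply, h, smul_zero]

theorem Top.low {w : Wt N} {f : R N} (hf : Top w f) {b : ℤ} (h : ht w < b) : Low66 b f := by
  intro v hv
  by_cases h1 : v = w
  · rw [h1]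
    exact h
  · exact (hf.2 v hv h1).trans h

theorem Top.add_low {w : Wt N} {f g : R N} (hf : Top w f) (hg : Low66 (ht w) g) : Top w (f + g) := by
  have h0 : ∀ v, (f + g).coeff v = f.coeff v + g.coeff v := fun _ => rfl
  refine ⟨?_, fun v hv hvw => ?_⟩
  · rw [h0, hf.1]
    have h1 : g.coeff w = 0 := by
      by_contra h
      exact lt_irrefl _ (hg w h)
    rw [h1, add_zero]
  · by_cases h : f.coeff v = 0
    · exact hg v fun h2 => hv (by rw [h0, h, h2, add_zero])
    · exact hf.2 v h hvw

theorem top_prod {ι : Type*} (s : Finset ι) (w : ι → Wt N) (f : ι → R N)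
    (h : ∀ i ∈ s, Top (w i) (f i)) : Top (∑ i ∈ s, w i) (∏ i ∈ s, f i) := by
  classical
  induction s using Finset.induction_on with
  | empty => simpa using top_one
  | insert a s ha ih =>
    rw [Finset.sum_insert ha, Finset.prod_insert ha]
    exact top_mul (h a (Finset.mem_insert_self a s))
      (ih fun i hi => h i (Finset.mem_insert_of_mem hi))

theorem ht_single (i : Fin N) (a : ℤ) : ht ((0, Pi.single i a) : Wt N) = ((N : ℤ) - i) * (2 * a) := by
  classical
  rw [ht, Finset.sum_eq_single i]
  · simp only [Pi.single_eq_same, sub_zero]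
  · intro j _ hj
    simp only [Pi.single_eq_of_ne hj]
    ring
  · intro h
    exact absurd (Finset.mem_univ i) h

theorem top_diff (i : Fin N) {a b : ℤ} (h : b < a) :
    Top ((0, Pi.single i a) : Wt N) (mon (0, Pi.single i a) - mon (0, Pi.single i b)) := by
  have h1 : (mon (0, Pi.single i a) - mon (0, Pi.single i b) : R N) =
      mon (0, Pi.single i a) + ((-1 : ℤ) : R N) * mon (0, Pi.single i b) := by
    rw [Int.cast_neg, Int.cast_one, neg_one_mul, sub_eq_add_neg]
  rw [h1]
  refine (top_mon _).add_low (Low66.intCast_mul ((top_mon _).low ?_) _)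
  rw [ht_single, ht_single]
  have h2 : 0 < (N : ℤ) - i := by
    have := i.2
    omega
  nlinarith

theorem perm_inversion {σ : Equiv.Perm (Fin N)} (hσ : σ ≠ 1) : ∃ i j, i < j ∧ σ j < σ i := by
  by_contra hc
  push Not at hc
  apply hσ
  have hmono : StrictMono σ := fun i j hij =>
    lt_of_le_of_ne (hc i j hij) fun h => hij.ne (σ.injective h)
  have h1 : (hmono.orderIsoOfSurjective σ σ.surjective) = OrderIso.refl (Fin N) :=
    Subsingleton.elim _ _
  ext i
  have h2 := congrArg (fun f : Fin N ≃o Fin N => f i) h1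
  simp only [StrictMono.coe_orderIsoOfSurjective, OrderIso.refl_apply] at h2
  rw [h2]
  rfl

theorem ht_perm_lt {M : Fin N → ℤ} (hM : StrictAnti M) {σ : Equiv.Perm (Fin N)} (hσ : σ ≠ 1) :
    ∑ i : Fin N, ((N : ℤ) - (σ i : ℕ)) * (2 * M i) < ∑ i : Fin N, ((N : ℤ) - (i : ℕ)) * (2 * M i) := by
  have hmv : Monovary (fun i : Fin N => 2 * M i) (fun j : Fin N => (N : ℤ) - (j : ℕ)) := by
    intro i j hij
    have hij' : (N : ℤ) - (i : ℕ) < (N : ℤ) - (j : ℕ) := hij
    have h2 : (j : ℕ) < (i : ℕ) := by omega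
    have h3 := hM (show j < i from h2)
    show 2 * M i ≤ 2 * M j
    linarith
  have h1 := (Monovary.sum_mul_comp_perm_lt_sum_mul_iff (σ := σ) hmv)
  simp only [mul_comm (_ - _ : ℤ)]
  refine h1.2 fun hmv => ?_
  obtain ⟨i, j, hij, hji⟩ := perm_inversion hσ
  have h2 : 2 * M i ≤ 2 * M j := @hmv i j (by
    show (N : ℤ) - (σ i : ℕ) < (N : ℤ) - (σ j : ℕ)
    have : ((σ j : Fin N) : ℕ) < (σ i : ℕ) := hji
    omega)
  have h3 := hM hij
  linarith

theorem sum_single_perm (M : Fin N → ℤ) (σ : Equiv.Perm (Fin N)) :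
    ∑ i : Fin N, ((0, Pi.single (σ i) (M i)) : Wt N) = (0, M ∘ σ.symm) := by
  classical
  refine Prod.ext ?_ ?_
  · rw [Prod.fst_sum]
    simp
  · rw [Prod.snd_sum]
    funext j
    rw [Finset.sum_apply, Finset.sum_eq_single (σ.symm j)]
    · simp
    · intro i _ hi
      have : j ≠ σ i := fun h => hi (by rw [h]; simp)
      simp [this]
    · intro h
      exact absurd (Finset.mem_univ _) h

/-- The alternating sum has the expected highest weight. -/
theorem top_alt (K : ℤ) (M : Fin N → ℤ) (hM : StrictAnti M) (hK : ∀ i, K < 2 * M i) :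
    Top ((K, M) : Wt N) (alt K M) := by
  have hT : ∀ σ : Equiv.Perm (Fin N), Top ((0, M ∘ σ.symm) : Wt N)
      (∏ i, (mon (0, Pi.single (σ i) (M i)) - mon (0, Pi.single (σ i) (K - M i)) : R N)) := by
    intro σ
    rw [← sum_single_perm M σ]
    exact top_prod _ _ _ fun i _ => top_diff (σ i) (by have := hK i; omega)
  have hht : ∀ σ : Equiv.Perm (Fin N), ht ((0, M ∘ σ.symm) : Wt N) =
      ∑ i : Fin N, ((N : ℤ) - (σ i : ℕ)) * (2 * M i) := by
    intro σ
    unfold ht
    rw [← Equiv.sum_comp σ]
    refine Finset.sum_congr rfl fun i _ => ?_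
    simp
  have hdet : Top ((0, M) : Wt N) (Matrix.det (Matrix.of fun i j : Fin N =>
      (mon (0, Pi.single i (M j)) - mon (0, Pi.single i (K - M j)) : R N))) := by
    rw [Matrix.det_apply', ← Finset.add_sum_erase _ _ (Finset.mem_univ (1 : Equiv.Perm (Fin N)))]
    have h1 := hT 1
    refine Top.add_low (w := (0, M)) ?_ ?_
    · rw [Equiv.Perm.sign_one, Units.val_one, Int.cast_one, one_mul]
      exact h1
    · refine Low66.sum _ _ fun σ hσ => Low66.intCast_mul ((hT σ).low ?_) _
      have h2 := ht_perm_lt hM (Finset.ne_of_mem_erase hσ)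
      have h3 : ht ((0, M) : Wt N) = ∑ i : Fin N, ((N : ℤ) - (i : ℕ)) * (2 * M i) := by
        unfold ht
        simp
      rw [hht, h3]
      exact h2
  have h3 := top_mul (top_mon ((K, 0) : Wt N)) hdet
  have h4 : ((K, 0) : Wt N) + (0, M) = (K, M) := by
    rw [Prod.mk_add_mk, add_zero, zero_add]
  rw [h4] at h3
  exact h3

/-- Division by an element with a highest weight. -/
theorem top_of_mul {v w : Wt N} {f g : R N} (hg : Top v g) (hfg : Top (w + v) (f * g)) :
    Top w f := by
  classical
  have hne : f.coeff.support.Nonempty := by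
    rw [Finsupp.support_nonempty_iff]
    intro h
    have h0 : f = 0 := by
      apply AddMonoidAlgebra.coeff_injective
      rw [h]
      rfl
    have := hfg.1
    rw [h0, zero_mul] at this
    exact zero_ne_one this
  obtain ⟨a, ha, hmax⟩ := Finset.exists_max_image f.coeff.support ht hne
  have ha0 : f.coeff a ≠ 0 := Finsupp.mem_support_iff.1 ha
  have hcoef : ∀ b, ht b = ht a → (f * g).coeff (b + v) = f.coeff b := by
    intro b hb
    rw [AddMonoidAlgebra.coeff_mul, Finsupp.sum]
    have h1 : ∀ c ∈ f.coeff.support, c ≠ b → (g.coeff.sum fun d r => if c + d = b + v then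
        f.coeff c * r else 0) = 0 := by
      intro c hc hcb
      rw [Finsupp.sum]
      refine Finset.sum_eq_zero fun d hd => if_neg fun h => ?_
      have hdv : d ≠ v := fun h2 => hcb (by rw [h2] at h; exact add_right_cancel h)
      have h3 := hg.2 d (Finsupp.mem_support_iff.1 hd) hdv
      have h4 := hmax c hc
      have h5 := congrArg ht h
      rw [ht_add, ht_add] at h5
      linarith
    by_cases hbs : b ∈ f.coeff.support
    · rw [Finset.sum_eq_single b (fun c hc hcb => h1 c hc hcb) (fun h => absurd hbs h), Finsupp.sum,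
        Finset.sum_eq_single v]
      · rw [if_pos rfl, hg.1, mul_one]
      · intro d _ hdv
        exact if_neg fun h => hdv (add_left_cancel h)
      · intro h
        exact absurd (Finsupp.notMem_support_iff.1 h) (by rw [hg.1]; exact one_ne_zero)
    · rw [Finsupp.notMem_support_iff.1 hbs]
      exact Finset.sum_eq_zero fun c hc => h1 c hc fun h => hbs (h ▸ hc)
  have hall : ∀ b, f.coeff b ≠ 0 → ht b = ht a → b = w := by
    intro b hb hba
    by_contra hbw
    have h1 := hcoef b hba
    have h2 : (f * g).coeff (b + v) ≠ 0 := by rw [h1]; exact hb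
    have h3 := hfg.2 _ h2 fun h => hbw (add_right_cancel h)
    -- the weight w + v must come from somewhere
    have h4 : (f * g).coeff (w + v) ≠ 0 := by rw [hfg.1]; exact one_ne_zero
    rw [AddMonoidAlgebra.coeff_mul, Finsupp.sum] at h4
    obtain ⟨c, hc, hc'⟩ := Finset.exists_ne_zero_of_sum_ne_zero h4
    rw [Finsupp.sum] at hc'
    obtain ⟨d, hd, hd'⟩ := Finset.exists_ne_zero_of_sum_ne_zero hc'
    have h5 : c + d = w + v := by
      by_contra h
      exact hd' (if_neg h)
    have h6 := hmax c hc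
    have h7 : ht d ≤ ht v := by
      by_cases h8 : d = v
      · rw [h8]
      · exact (hg.2 d (Finsupp.mem_support_iff.1 hd) h8).le
    have h9 := congrArg ht h5
    rw [ht_add, ht_add] at h9
    rw [ht_add, ht_add] at h3
    linarith
  have haw : a = w := hall a ha0 rfl
  subst haw
  refine ⟨?_, fun b hb hba => ?_⟩
  · rw [← hcoef a rfl, hfg.1]
  · have h1 := hmax b (Finsupp.mem_support_iff.2 hb)
    exact lt_of_le_of_ne h1 fun h => hba (hall b hb h)

/-- Irreducible characters have the expected highest weight. -/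
theorem IsIrr.top {k : ℤ} {μ : Fin N → ℤ} {m : Wt N →₀ ℤ} (h : IsIrr k μ m) :
    Top ((k, μ) : Wt N) (AddMonoidAlgebra.ofCoeff m : R N) := by
  obtain ⟨h1, h2, h3⟩ := h
  have h4 : Top ((1, fun j : Fin N => (N : ℤ) - j) : Wt N) (alt 1 fun j : Fin N => (N : ℤ) - j) := by
    refine top_alt _ _ (fun i j hij => ?_) fun i => ?_
    · have : (i : ℕ) < (j : ℕ) := hij
      show (N : ℤ) - (j : ℕ) < (N : ℤ) - (i : ℕ)
      omega
    · have := i.2
      omega
  have h5 : Top ((k + 1, fun j : Fin N => μ j + ((N : ℤ) - j)) : Wt N)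
      (alt (k + 1) fun j : Fin N => μ j + ((N : ℤ) - j)) := by
    refine top_alt _ _ (fun i j hij => ?_) fun i => ?_
    · have h6 : (i : ℕ) < (j : ℕ) := hij
      have h7 := h1 hij.le
      show μ j + ((N : ℤ) - (j : ℕ)) < μ i + ((N : ℤ) - (i : ℕ))
      omega
    · have := i.2
      have := h2 i
      omega
  rw [← h3] at h5
  refine top_of_mul h4 ?_
  have h6 : ((k, μ) : Wt N) + (1, fun j : Fin N => (N : ℤ) - j) =
      (k + 1, fun j : Fin N => μ j + ((N : ℤ) - j)) := rfl
  rw [h6]
  exact h5

end Pool.Agent.EEA520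

end

section

/-! Orthonormal polynomials with integer coefficients. -/


namespace Pool.Agent.EEA520

open Polynomial

/-- The orthonormal polynomials: `p_0 = 1`, `p_1 = t + u`, `p_{k+2} = t p_{k+1} - p_k`.
(`u = 0`: Chebyshev polynomials of the second kind, `u = 1`: of the third kind.) -/
noncomputable def pp (u : ℤ) : ℕ → ℤ[X]
  | 0 => 1
  | 1 => X + C u
  | k + 2 => X * pp u (k + 1) - pp u k

/-- The moments `L (t ^ n p_k)`. -/
def mom (u : ℤ) : ℕ → ℕ → ℤ
  | 0, 0 => 1
  | 0, _ + 1 => 0
  | n + 1, 0 => -u * mom u n 0 + mom u n 1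
  | n + 1, k + 1 => mom u n k + mom u n (k + 2)

theorem mom_lt (u : ℤ) : ∀ n k : ℕ, n < k → mom u n k = 0 := by
  intro n
  induction n with
  | zero =>
    intro k hk
    obtain ⟨k, rfl⟩ := Nat.exists_eq_succ_of_ne_zero (Nat.pos_iff_ne_zero.1 hk)
    rfl
  | succ n ih =>
    intro k hk
    obtain ⟨k, rfl⟩ := Nat.exists_eq_succ_of_ne_zero (Nat.pos_iff_ne_zero.1 (by omega : 0 < k))
    show mom u n k + mom u n (k + 2) = 0
    rw [ih k (by omega), ih (k + 2) (by omega), add_zero]

theorem mom_self (u : ℤ) : ∀ n : ℕ, mom u n n = 1 := by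
  intro n
  induction n with
  | zero => rfl
  | succ n ih =>
    show mom u n n + mom u n (n + 2) = 1
    rw [ih, mom_lt u n (n + 2) (by omega), add_zero]

theorem pp_natDegree (u : ℤ) (k : ℕ) : (pp u k).natDegree = k ∧ (pp u k).Monic := by
  induction k using Nat.strong_induction_on with
  | _ k ih =>
    match k, ih with
    | 0, _ => exact ⟨natDegree_one, monic_one⟩
    | 1, _ => exact ⟨natDegree_X_add_C u, monic_X_add_C u⟩
    | k + 2, ih =>
      obtain ⟨h1, m1⟩ := ih (k + 1) (by omega)
      obtain ⟨h0, m0⟩ := ih k (by omega)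
      have hd : (X * pp u (k + 1)).natDegree = k + 2 := by
        rw [natDegree_X_mul m1.ne_zero, h1]
      have hlt : (pp u k).natDegree < (X * pp u (k + 1)).natDegree := by
        rw [hd, h0]; omega
      have hm : (X * pp u (k + 1)).Monic := monic_X.mul m1
      refine ⟨?_, ?_⟩
      · show (X * pp u (k + 1) - pp u k).natDegree = k + 2
        rw [natDegree_sub_eq_left_of_natDegree_lt hlt, hd]
      · show (X * pp u (k + 1) - pp u k).Monic
        exact hm.sub_of_left (degree_lt_degree hlt)

section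

variable (u : ℤ) (A : Type) [CommRing A]

/-- The polynomials over `A`. -/
noncomputable def pA (k : ℕ) : A[X] := (pp u k).map (Int.castRingHom A)

/-- The functional `f ↦ L (f p_k)`. -/
noncomputable def MK (k : ℕ) : A[X] →ₗ[A] A :=
  (Polynomial.basisMonomials A).constr A fun n => ((mom u n k : ℤ) : A)

/-- The functional `L`. -/
noncomputable def LF : A[X] →ₗ[A] A := MK u A 0

variable {A}

theorem MK_monomial (k n : ℕ) (a : A) : MK u A k (monomial n a) = a * ((mom u n k : ℤ) : A) := by
  have h : (monomial n a : A[X]) = a • (Polynomial.basisMonomials A n) := by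
    rw [Polynomial.coe_basisMonomials, smul_monomial, smul_eq_mul, mul_one]
  rw [h, map_smul, MK, Module.Basis.constr_basis, smul_eq_mul]

theorem MK_X_mul_zero (f : A[X]) : MK u A 0 (X * f) = -(u : A) * MK u A 0 f + MK u A 1 f := by
  induction f using Polynomial.induction_on' with
  | add f g hf hg => rw [mul_add, map_add, hf, hg, map_add, map_add]; ring
  | monomial n a =>
    rw [X_mul_monomial, MK_monomial, MK_monomial, MK_monomial]
    show a * ((-u * mom u n 0 + mom u n 1 : ℤ) : A) = _
    push_cast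
    ring

theorem MK_X_mul_succ (k : ℕ) (f : A[X]) :
    MK u A (k + 1) (X * f) = MK u A k f + MK u A (k + 2) f := by
  induction f using Polynomial.induction_on' with
  | add f g hf hg => rw [mul_add, map_add, hf, hg, map_add, map_add]; ring
  | monomial n a =>
    rw [X_mul_monomial, MK_monomial, MK_monomial, MK_monomial]
    show a * ((mom u n k + mom u n (k + 2) : ℤ) : A) = _
    push_cast
    ring

theorem pA_zero : pA u A 0 = 1 := by simp [pA, pp]

theorem pA_one : pA u A 1 = X + C (u : A) := by simp [pA, pp]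

theorem pA_succ (k : ℕ) : pA u A (k + 2) = X * pA u A (k + 1) - pA u A k := by
  simp [pA, pp]

theorem pA_monic (k : ℕ) : (pA u A k).Monic := (pp_natDegree u k).2.map _

theorem pA_natDegree_le (k : ℕ) : (pA u A k).natDegree ≤ k :=
  natDegree_map_le.trans (pp_natDegree u k).1.le

theorem pA_coeff_self (k : ℕ) : (pA u A k).coeff k = 1 := by
  rw [pA, coeff_map]
  have h : (pp u k).coeff k = 1 := by
    have := (pp_natDegree u k).2
    rw [Monic, leadingCoeff, (pp_natDegree u k).1] at this
    exact this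
  rw [h, map_one]

theorem MK_eq (k : ℕ) : ∀ f : A[X], MK u A k f = LF u A (f * pA u A k) := by
  induction k using Nat.strong_induction_on with
  | _ k ih =>
    match k, ih with
    | 0, _ =>
      intro f
      rw [pA_zero, mul_one, LF]
    | 1, _ =>
      intro f
      rw [pA_one, mul_add, mul_comm f X, map_add, LF, MK_X_mul_zero, mul_comm f (C _),
        ← smul_eq_C_mul, map_smul, smul_eq_mul]
      ring
    | k + 2, ih =>
      intro f
      have h1 := ih (k + 1) (by omega) (X * f)
      have h0 := ih k (by omega) f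
      rw [MK_X_mul_succ] at h1
      rw [pA_succ, mul_sub, map_sub, ← mul_assoc, mul_comm f X, ← h1, ← h0]
      ring

theorem MK_of_natDegree_le {k : ℕ} {g : A[X]} (hg : g.natDegree ≤ k) :
    MK u A k g = g.coeff k := by
  rw [g.as_sum_range' (k + 1) (Nat.lt_succ_of_le hg), map_sum, finsetSum_coeff]
  refine Finset.sum_congr rfl fun n hn => ?_
  rw [MK_monomial, coeff_monomial]
  rcases Nat.lt_or_ge n k with h | h
  · rw [mom_lt u n k h, Int.cast_zero, mul_zero, if_neg (by omega)]
  · have : n = k := by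
      have := Finset.mem_range.1 hn
      omega
    subst this
    rw [mom_self, Int.cast_one, mul_one, if_pos rfl]

/-- Orthogonality: `L (g p_k)` is the coefficient of `t ^ k` in `g`, if `deg g ≤ k`. -/
theorem LF_mul_pA {k : ℕ} {g : A[X]} (hg : g.natDegree ≤ k) :
    LF u A (g * pA u A k) = g.coeff k := by
  rw [← MK_eq, MK_of_natDegree_le u hg]

/-- `L (f p_j p_k)` is the coefficient of `t ^ (k - j)` in `f`, if `deg f ≤ k - j`, `j ≤ k`. -/
theorem LF_mul_pA_mul_pA {j k n : ℕ} (h : j + n = k) {f : A[X]} (hf : f.natDegree ≤ n) :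
    LF u A (f * (pA u A j * pA u A k)) = f.coeff n := by
  have hd : (f * pA u A j).natDegree ≤ k :=
    natDegree_mul_le.trans (by have := pA_natDegree_le u (A := A) j; omega)
  rw [← mul_assoc, LF_mul_pA u hd, ← h, add_comm j n]
  rw [coeff_mul_add_eq_of_natDegree_le hf (pA_natDegree_le u j), pA_coeff_self, mul_one]

theorem LF_pA_mul_pA (j k : ℕ) : LF u A (pA u A j * pA u A k) = if j = k then 1 else 0 := by
  wlog h : j ≤ k with H
  · rw [mul_comm, H u k j (by omega)]
    simp only [eq_comm]
  · obtain ⟨n, rfl⟩ := Nat.exists_eq_add_of_le h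
    have := LF_mul_pA_mul_pA u (A := A) (j := j) (n := n) rfl (f := 1) (by simp)
    rw [one_mul] at this
    rw [this, coeff_one]
    simp

/-- `L` commutes with ring homomorphisms. -/
theorem LF_map {B : Type} [CommRing B] (φ : A →+* B) (f : A[X]) :
    φ (LF u A f) = LF u B (f.map φ) := by
  induction f using Polynomial.induction_on' with
  | add f g hf hg => rw [map_add, map_add, Polynomial.map_add, map_add, hf, hg]
  | monomial n a =>
    rw [map_monomial, LF, LF, MK_monomial, MK_monomial, map_mul, map_intCast]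

theorem pA_map {B : Type} [CommRing B] (φ : A →+* B) (k : ℕ) : (pA u A k).map φ = pA u B k := by
  rw [pA, pA, Polynomial.map_map]
  congr 1
  exact Subsingleton.elim _ _

end

end Pool.Agent.EEA520

end

section

/-! The functional `L ⊗ ⋯ ⊗ L` on polynomials in several variables. -/


namespace Pool.Agent.EEA520

open Polynomial

section

variable (u : ℤ) {A : Type} [CommRing A] {ι κ : Type} [Fintype ι] [Fintype κ]
  [DecidableEq ι] [DecidableEq κ]

/-- `t ^ a ↦ ∏ L (t ^ (a i))`. -/
noncomputable def LT : MvPolynomial ι A →ₗ[A] A :=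
  (MvPolynomial.basisMonomials ι A).constr A fun a => ∏ i, ((mom u (a i) 0 : ℤ) : A)

omit [DecidableEq ι] in
theorem LT_monomial (a : ι →₀ ℕ) (r : A) :
    LT u (MvPolynomial.monomial a r) = r * ∏ i, ((mom u (a i) 0 : ℤ) : A) := by
  have h : (MvPolynomial.monomial a r : MvPolynomial ι A) =
      r • (MvPolynomial.basisMonomials ι A a) := by
    rw [MvPolynomial.coe_basisMonomials, MvPolynomial.smul_monomial, smul_eq_mul, mul_one]
  rw [h, map_smul, LT, Module.Basis.constr_basis, smul_eq_mul]

theorem LF_eq_sum (f : A[X]) {n : ℕ} (hn : f.natDegree < n) :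
    LF u A f = ∑ k ∈ Finset.range n, f.coeff k * ((mom u k 0 : ℤ) : A) := by
  conv_lhs => rw [f.as_sum_range' n hn]
  rw [map_sum]
  refine Finset.sum_congr rfl fun k _ => ?_
  rw [LF, MK_monomial]

/-- The product formula. -/
theorem LT_prod (f : ι → A[X]) :
    LT u (∏ i, (f i).aeval (MvPolynomial.X i : MvPolynomial ι A)) = ∏ i, LF u A (f i) := by
  obtain ⟨n, hn⟩ : ∃ n : ℕ, ∀ i, (f i).natDegree < n :=
    ⟨(Finset.univ.sup fun i => (f i).natDegree) + 1, fun i =>
      Nat.lt_succ_of_le (Finset.le_sup (f := fun i => (f i).natDegree) (Finset.mem_univ i))⟩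
  have h1 : ∀ i, (f i).aeval (MvPolynomial.X i : MvPolynomial ι A) =
      ∑ k ∈ Finset.range n, MvPolynomial.monomial (Finsupp.single i k) ((f i).coeff k) := by
    intro i
    rw [aeval_eq_sum_range' (hn i)]
    refine Finset.sum_congr rfl fun k _ => ?_
    rw [MvPolynomial.X_pow_eq_monomial, MvPolynomial.smul_monomial, smul_eq_mul, mul_one]
  simp only [h1]
  rw [Finset.prod_univ_sum, map_sum]
  have h2 : ∀ i, LF u A (f i) = ∑ k ∈ Finset.range n, (f i).coeff k * ((mom u k 0 : ℤ) : A) :=
    fun i => LF_eq_sum u (f i) (hn i)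
  simp only [h2]
  rw [Finset.prod_univ_sum]
  refine Finset.sum_congr rfl fun a _ => ?_
  have h3 : ∏ i, (MvPolynomial.monomial (Finsupp.single i (a i)) ((f i).coeff (a i)) :
      MvPolynomial ι A) = MvPolynomial.monomial (∑ i, Finsupp.single i (a i))
        (∏ i, (f i).coeff (a i)) := by
    have h4 : ∀ s : Finset ι, ∏ i ∈ s, (MvPolynomial.monomial (Finsupp.single i (a i))
        ((f i).coeff (a i)) : MvPolynomial ι A) =
        MvPolynomial.monomial (∑ i ∈ s, Finsupp.single i (a i)) (∏ i ∈ s, (f i).coeff (a i)) := by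
      intro s
      induction s using Finset.induction_on with
      | empty => simp
      | insert i s hi ih =>
        rw [Finset.prod_insert hi, Finset.sum_insert hi, Finset.prod_insert hi, ih,
          MvPolynomial.monomial_mul]
    exact h4 Finset.univ
  rw [h3, LT_monomial, Finset.prod_mul_distrib]
  congr 1
  refine Finset.prod_congr rfl fun i _ => ?_
  congr 3
  rw [Finsupp.finsetSum_apply, Finset.sum_eq_single i]
  · simp
  · intro j _ hj
    simp [hj]
  · simp

omit [DecidableEq ι] in
/-- `L` commutes with ring homomorphisms. -/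
theorem LT_map {B : Type} [CommRing B] (φ : A →+* B) (F : MvPolynomial ι A) :
    φ (LT u F) = LT u (MvPolynomial.map φ F) := by
  induction F using MvPolynomial.induction_on' with
  | monomial a r => 
    rw [MvPolynomial.map_monomial, LT_monomial, LT_monomial, map_mul, map_prod]
    simp
  | add f g hf hg => rw [map_add, map_add, map_add, map_add, hf, hg]

omit [DecidableEq ι] in
private theorem LT_sign (e : ℤˣ) (F : MvPolynomial ι A) :
    LT u (((e : ℤ) : MvPolynomial ι A) * F) = ((e : ℤ) : A) * LT u F := by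
  rw [← zsmul_eq_mul, map_zsmul, zsmul_eq_mul]

/-- `L` of a determinant, where the row `i` is a row of polynomials in the variable `t_i`. -/
theorem LT_det (f : ι → ι → A[X]) :
    LT u (Matrix.det (Matrix.of fun i j => (f i j).aeval (MvPolynomial.X i : MvPolynomial ι A))) =
      Matrix.det (Matrix.of fun i j => LF u A (f i j)) := by
  rw [← Matrix.det_transpose, Matrix.det_apply', map_sum, ← Matrix.det_transpose (Matrix.of _),
    Matrix.det_apply']
  refine Finset.sum_congr rfl fun σ _ => ?_
  rw [LT_sign]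
  congr 1
  exact LT_prod u fun i => f i (σ i)

/-- `L` of a determinant, where the rows are rows of polynomials in one variable `t_i`, or constant. -/
theorem LT_det_sum (f : ι → ι ⊕ κ → A[X]) (g : κ → ι ⊕ κ → A) :
    LT u (Matrix.det (Matrix.of fun (i j : ι ⊕ κ) => Sum.elim
      (fun i => (f i j).aeval (MvPolynomial.X i : MvPolynomial ι A))
      (fun k => MvPolynomial.C (g k j)) i)) =
      Matrix.det (Matrix.of fun (i j : ι ⊕ κ) => Sum.elim (fun i => LF u A (f i j))
        (fun k => g k j) i) := by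
  rw [← Matrix.det_transpose, Matrix.det_apply', map_sum, ← Matrix.det_transpose (Matrix.of _),
    Matrix.det_apply']
  refine Finset.sum_congr rfl fun σ _ => ?_
  rw [LT_sign]
  congr 1
  simp only [Matrix.transpose_apply, Matrix.of_apply, Fintype.prod_sum_type, Sum.elim_inl,
    Sum.elim_inr]
  rw [← map_prod, mul_comm, ← MvPolynomial.smul_eq_C_mul, map_smul, smul_eq_mul, mul_comm]
  congr 1
  exact LT_prod u fun i => f i (σ (Sum.inl i))

end

end Pool.Agent.EEA520

end

section

/-! The key lemma. -/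


namespace Pool.Agent.EEA520

open Polynomial

/-- The Vandermonde determinant. -/
def VV {A : Type} [CommRing A] {n : ℕ} (v : Fin n → A) : A :=
  ∏ i, ∏ j ∈ Finset.Ioi i, (v j - v i)

theorem VV_map {A B : Type} [CommRing A] [CommRing B] (φ : A →+* B) {n : ℕ} (v : Fin n → A) :
    φ (VV v) = VV fun i => φ (v i) := by
  simp [VV, map_prod]

theorem VV_eq {A : Type} [CommRing A] {n : ℕ} (v : Fin n → A) :
    VV v = ∏ i, ∏ j, if i < j then v j - v i else 1 := by
  unfold VV
  refine Finset.prod_congr rfl fun i _ => ?_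
  rw [← Finset.prod_filter]
  refine Finset.prod_congr ?_ fun _ _ => rfl
  ext j
  simp

theorem VV_append {A : Type} [CommRing A] {q m : ℕ} (z : Fin q → A) (a : Fin m → A) :
    VV (Fin.append z a) = VV z * VV a * ∏ j, ∏ k, (a k - z j) := by
  simp only [VV_eq]
  rw [Fin.prod_univ_add]
  have h1 : ∀ i : Fin q, (∏ j : Fin (q + m), if Fin.castAdd m i < j then
      Fin.append z a j - Fin.append z a (Fin.castAdd m i) else 1) =
      (∏ j : Fin q, if i < j then z j - z i else 1) * ∏ k, (a k - z i) := by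
    intro i
    rw [Fin.prod_univ_add]
    congr 1
    · refine Finset.prod_congr rfl fun j _ => ?_
      rw [Fin.append_left, Fin.append_left]
      simp only [Fin.lt_def, Fin.val_castAdd]
    · refine Finset.prod_congr rfl fun j _ => ?_
      rw [Fin.append_left, Fin.append_right, if_pos]
      rw [Fin.lt_def, Fin.val_castAdd, Fin.val_natAdd]
      omega
  have h2 : ∀ i : Fin m, (∏ j : Fin (q + m), if Fin.natAdd q i < j then
      Fin.append z a j - Fin.append z a (Fin.natAdd q i) else 1) =
      (∏ j : Fin m, if i < j then a j - a i else 1) := by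
    intro i
    rw [Fin.prod_univ_add]
    have : (∏ j : Fin q, if Fin.natAdd q i < Fin.castAdd m j then
      Fin.append z a (Fin.castAdd m j) - Fin.append z a (Fin.natAdd q i) else 1) = 1 := by
      refine Finset.prod_eq_one fun j _ => if_neg ?_
      rw [Fin.lt_def, Fin.val_castAdd, Fin.val_natAdd]
      omega
    rw [this, one_mul]
    refine Finset.prod_congr rfl fun j _ => ?_
    rw [Fin.append_right, Fin.append_right]
    simp only [Fin.lt_def, Fin.val_natAdd, add_lt_add_iff_left]
  simp only [h1, h2, Finset.prod_mul_distrib]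
  ring

theorem VV_eq_det (u : ℤ) {A : Type} [CommRing A] {n : ℕ} (v : Fin n → A) :
    VV v = Matrix.det (Matrix.of fun i j : Fin n => (pA u A j).eval (v i)) := by
  nontriviality A
  rw [VV, ← Matrix.det_vandermonde]
  exact Matrix.det_eval_matrixOfPolynomials_eq_det_vandermonde v (fun j => pA u A j)
    (fun i => by rw [pA, (pp_natDegree u i).2.natDegree_map, (pp_natDegree u i).1])
    fun i => pA_monic u i

/-- `P_d(a) = L_z (∏ (z_j - a_k) * V(z) * ∏ p_{d_j}(z_j))`. -/
noncomputable def KL (u : ℤ) {A : Type} [CommRing A] {q m : ℕ} (a : Fin m → A) (d : Fin q → ℕ) : A :=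
  LT u ((∏ j : Fin q, ∏ k, (MvPolynomial.X j - MvPolynomial.C (a k))) *
    VV (fun j : Fin q => (MvPolynomial.X j : MvPolynomial (Fin q) A)) *
    ∏ j, (pA u A (d j)).aeval (MvPolynomial.X j : MvPolynomial (Fin q) A))

theorem map_aeval_X {A B : Type} [CommRing A] [CommRing B] (φ : A →+* B) {ι : Type} (j : ι)
    (f : A[X]) : MvPolynomial.map φ (f.aeval (MvPolynomial.X j : MvPolynomial ι A)) =
      (f.map φ).aeval (MvPolynomial.X j : MvPolynomial ι B) := by
  rw [aeval_def, hom_eval₂, aeval_def, eval₂_map, MvPolynomial.map_X]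
  congr 1
  ext a
  simp [MvPolynomial.algebraMap_eq]

theorem KL_map (u : ℤ) {A B : Type} [CommRing A] [CommRing B] (φ : A →+* B) {q m : ℕ}
    (a : Fin m → A) (d : Fin q → ℕ) : φ (KL u a d) = KL u (fun k => φ (a k)) d := by
  unfold KL
  rw [LT_map]
  congr 1
  simp only [map_mul, map_prod, map_sub, MvPolynomial.map_X, MvPolynomial.map_C, VV_map,
    map_aeval_X, pA_map]

private theorem key_neg {A : Type} [CommRing A] {q m : ℕ} (z : Fin q → A) (a : Fin m → A) :
    ∏ j, ∏ k, (z j - a k) = (-1) ^ (q * m) * ∏ j, ∏ k, (a k - z j) := by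
  have h : ∀ j : Fin q, ∏ k, (z j - a k) = (-1) ^ m * ∏ k, (a k - z j) := by
    intro j
    have h1 : ∀ k : Fin m, z j - a k = (-1) * (a k - z j) := fun k => by ring
    simp only [h1]
    rw [Finset.prod_mul_distrib, Finset.prod_const, Finset.card_univ, Fintype.card_fin]
  simp only [h]
  rw [Finset.prod_mul_distrib, Finset.prod_const, Finset.card_univ, Fintype.card_fin, ← pow_mul,
    mul_comm m q]

theorem pA_eval_X (u : ℤ) {A : Type} [CommRing A] {ι : Type} (n : ℕ) (j : ι) :
    (pA u (MvPolynomial ι A) n).eval (MvPolynomial.X j) =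
      (pA u A n).aeval (MvPolynomial.X j : MvPolynomial ι A) := by
  rw [← pA_map u (A := A) (MvPolynomial.C : A →+* MvPolynomial ι A), eval_map, aeval_def,
    MvPolynomial.algebraMap_eq]

theorem pA_eval_C (u : ℤ) {A : Type} [CommRing A] {ι : Type} (n : ℕ) (a : A) :
    (pA u (MvPolynomial ι A) n).eval (MvPolynomial.C a) =
      (MvPolynomial.C ((pA u A n).eval a) : MvPolynomial ι A) := by
  rw [← pA_map u (A := A) (MvPolynomial.C : A →+* MvPolynomial ι A), eval_map,
    eval₂_at_apply]

theorem LT_mul_C (u : ℤ) {A : Type} [CommRing A] {ι : Type} [Fintype ι] (F : MvPolynomial ι A)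
    (r : A) : LT u (F * MvPolynomial.C r) = LT u F * r := by
  rw [mul_comm, ← MvPolynomial.smul_eq_C_mul, map_smul, smul_eq_mul, mul_comm]

theorem LT_intCast_mul (u : ℤ) {A : Type} [CommRing A] {ι : Type} [Fintype ι] (e : ℤ)
    (F : MvPolynomial ι A) : LT u ((e : MvPolynomial ι A) * F) = (e : A) * LT u F := by
  rw [← zsmul_eq_mul, map_zsmul, zsmul_eq_mul]

/-- The determinant with permuted columns. -/
theorem VV_append_det (u : ℤ) {A : Type} [CommRing A] {q m : ℕ}
    (D : Fin q ⊕ Fin m ≃ Fin (q + m)) (z : Fin q → A) (a : Fin m → A) :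
    VV (Fin.append z a) = ((Equiv.Perm.sign (finSumFinEquiv.symm.trans D) : ℤ) : A) *
      Matrix.det (Matrix.of fun r s : Fin q ⊕ Fin m => (pA u A (D s)).eval (Sum.elim z a r)) := by
  rw [VV_eq_det u]
  have h1 : (Matrix.of fun r s : Fin q ⊕ Fin m => (pA u A (D s)).eval (Sum.elim z a r)) =
      (((Matrix.of fun i j : Fin (q + m) => (pA u A j).eval (Fin.append z a i)).submatrix id
        (finSumFinEquiv.symm.trans D)).submatrix finSumFinEquiv finSumFinEquiv) := by
    ext r s
    simp only [Matrix.of_apply, Matrix.submatrix_apply, id, Equiv.trans_apply,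
      Equiv.symm_apply_apply]
    congr 1
    cases r with
    | inl i => rw [finSumFinEquiv_apply_left, Fin.append_left, Sum.elim_inl]
    | inr i => rw [finSumFinEquiv_apply_right, Fin.append_right, Sum.elim_inr]
  rw [h1, Matrix.det_submatrix_equiv_self, Matrix.det_permute', ← mul_assoc, ← Int.cast_mul,
    ← Units.val_mul, Int.units_mul_self, Units.val_one, Int.cast_one, one_mul]

/-- The key lemma: for a bijection `(d, e)` of `[q] ⊔ [m]` with `{0, …, q + m - 1}`,
`P_d(a) * V(a) = ± det (p_{e_j}(a_k))`. -/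
theorem key (u : ℤ) {q m : ℕ} (D : Fin q ⊕ Fin m ≃ Fin (q + m)) : ∃ s : ℤˣ,
    ∀ (A : Type) [CommRing A] (a : Fin m → A),
      KL u a (fun j => (D (Sum.inl j) : ℕ)) * VV a = ((s : ℤ) : A) *
        Matrix.det (Matrix.of fun k j : Fin m => (pA u A (D (Sum.inr j) : ℕ)).eval (a k)) := by
  refine ⟨(-1) ^ (q * m) * Equiv.Perm.sign (finSumFinEquiv.symm.trans D), fun A _ a => ?_⟩
  have hV := VV_append_det u D (fun j : Fin q => (MvPolynomial.X j : MvPolynomial (Fin q) A))
    (fun k => MvPolynomial.C (a k))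
  rw [VV_append] at hV
  have hdet : (∏ j, (pA u A (D (Sum.inl j) : ℕ)).aeval (MvPolynomial.X j :
        MvPolynomial (Fin q) A)) *
      Matrix.det (Matrix.of fun r s : Fin q ⊕ Fin m => (pA u (MvPolynomial (Fin q) A) (D s)).eval
        (Sum.elim (fun j : Fin q => MvPolynomial.X j) (fun k => MvPolynomial.C (a k)) r)) =
      Matrix.det (Matrix.of fun (r s : Fin q ⊕ Fin m) => Sum.elim
        (fun i => (pA u A (D (Sum.inl i)) * pA u A (D s)).aeval
          (MvPolynomial.X i : MvPolynomial (Fin q) A))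
        (fun k => MvPolynomial.C ((pA u A (D s)).eval (a k))) r) := by
    have h2 : (∏ j, (pA u A (D (Sum.inl j) : ℕ)).aeval (MvPolynomial.X j :
        MvPolynomial (Fin q) A)) = ∏ r : Fin q ⊕ Fin m, Sum.elim
          (fun j => (pA u A (D (Sum.inl j) : ℕ)).aeval (MvPolynomial.X j :
            MvPolynomial (Fin q) A)) (fun _ => 1) r := by
      simp [Fintype.prod_sum_type]
    rw [h2, ← Matrix.det_mul_column]
    congr 1
    ext r s
    cases r with
    | inl i =>
      simp only [Matrix.of_apply, Sum.elim_inl]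
      rw [pA_eval_X, map_mul]
    | inr k =>
      simp only [Matrix.of_apply, Sum.elim_inr]
      rw [pA_eval_C, one_mul]
  have hF : ((∏ j : Fin q, ∏ k, (MvPolynomial.X j - MvPolynomial.C (a k))) *
      VV (fun j : Fin q => (MvPolynomial.X j : MvPolynomial (Fin q) A)) *
      ∏ j, (pA u A (D (Sum.inl j) : ℕ)).aeval (MvPolynomial.X j : MvPolynomial (Fin q) A)) *
      MvPolynomial.C (VV a) =
      ((((-1) ^ (q * m) * Equiv.Perm.sign (finSumFinEquiv.symm.trans D) : ℤˣ) : ℤ) :
        MvPolynomial (Fin q) A) * Matrix.det (Matrix.of fun (r s : Fin q ⊕ Fin m) => Sum.elim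
        (fun i => (pA u A (D (Sum.inl i)) * pA u A (D s)).aeval
          (MvPolynomial.X i : MvPolynomial (Fin q) A))
        (fun k => MvPolynomial.C ((pA u A (D s)).eval (a k))) r) := by
    rw [← hdet, key_neg, VV_map]
    push_cast
    linear_combination ((-1) ^ (q * m) * ∏ j, (pA u A (D (Sum.inl j) : ℕ)).aeval
      (MvPolynomial.X j : MvPolynomial (Fin q) A)) * hV
  unfold KL
  rw [← LT_mul_C, hF, LT_intCast_mul, LT_det_sum]
  congr 1
  have h3 : (Matrix.of fun (r s : Fin q ⊕ Fin m) => Sum.elim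
      (fun i => LF u A (pA u A (D (Sum.inl i)) * pA u A (D s)))
      (fun k => (pA u A (D s)).eval (a k)) r) =
      Matrix.fromBlocks (1 : Matrix (Fin q) (Fin q) A) 0
        (Matrix.of fun k s => (pA u A (D (Sum.inl s))).eval (a k))
        (Matrix.of fun k s => (pA u A (D (Sum.inr s))).eval (a k)) := by
    ext r s
    rcases r with i | k <;> rcases s with j | l
    · simp only [Matrix.of_apply, Sum.elim_inl, Matrix.fromBlocks_apply₁₁, LF_pA_mul_pA,
        Matrix.one_apply]
      refine if_congr ?_ rfl rfl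
      rw [Fin.val_inj, D.injective.eq_iff, Sum.inl.injEq]
    · simp only [Matrix.of_apply, Sum.elim_inl, Matrix.fromBlocks_apply₁₂, LF_pA_mul_pA,
        Matrix.zero_apply]
      rw [if_neg]
      rw [Fin.val_inj, D.injective.eq_iff]
      exact Sum.inl_ne_inr
    · simp
    · simp
  rw [h3, Matrix.det_fromBlocks_zero₁₂, Matrix.det_one, one_mul]

end Pool.Agent.EEA520

end

section

/-! The irreducible characters. -/


namespace Pool.Agent.EEA520

open Polynomial

section

variable {A : Type} [CommRing A]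

/-- Chebyshev polynomials of the third and of the second kind at `x + 1 / x`. -/
theorem pA_eval_add (x x' : A) (h : x * x' = 1) (l : ℕ) :
    x ^ (l + 1) - x' ^ l = (x - 1) * (pA 1 A l).eval (x + x') ∧
      x ^ (l + 2) - x' ^ l = (x - 1) * (x + 1) * (pA 0 A l).eval (x + x') := by
  induction l using Nat.strong_induction_on with
  | _ l ih =>
    match l, ih with
    | 0, _ => 
      rw [pA_zero, pA_zero, eval_one]
      constructor <;> ring
    | 1, _ =>
      rw [pA_one, pA_one, eval_add, eval_X, eval_C, eval_add, eval_X, eval_C]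
      push_cast
      constructor
      · linear_combination (-1 : A) * h
      · linear_combination (-x : A) * h
    | l + 2, ih =>
      obtain ⟨a1, b1⟩ := ih (l + 1) (by omega)
      obtain ⟨a0, b0⟩ := ih l (by omega)
      rw [pA_succ, pA_succ, eval_sub, eval_mul, eval_X, eval_sub, eval_mul, eval_X]
      constructor
      · linear_combination (x + x') * a1 - a0 - (x ^ (l + 1) - x' ^ l) * h
      · linear_combination (x + x') * b1 - b0 - (x ^ (l + 2) - x' ^ l) * h

end

section

variable {N : ℕ}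

theorem mon_mul (v w : Wt N) : (mon v * mon w : R N) = mon (v + w) := by
  simp [mon, AddMonoidAlgebra.single_mul_single]

theorem mon_zero : (mon 0 : R N) = 1 := rfl

theorem mon_nsmul (n : ℕ) (w : Wt N) : (mon (n • w) : R N) = mon w ^ n := by
  induction n with
  | zero => rw [zero_smul, pow_zero, mon_zero]
  | succ n ih => rw [succ_nsmul, ← mon_mul, ih, pow_succ]

/-- The power `x_i ^ a`. -/
noncomputable def xx (i : Fin N) (a : ℤ) : R N := mon (0, Pi.single i a)

theorem xx_add (i : Fin N) (a b : ℤ) : xx i (a + b) = xx i a * xx i b := by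
  rw [xx, xx, xx, mon_mul, Prod.mk_add_mk, add_zero, Pi.single_add]

theorem xx_zero (i : Fin N) : xx i 0 = (1 : R N) := by
  rw [xx, Pi.single_zero]
  rfl

theorem xx_natCast (i : Fin N) (a : ℕ) : xx i (a : ℤ) = xx i 1 ^ a := by
  induction a with
  | zero => rw [Nat.cast_zero, xx_zero, pow_zero]
  | succ a ih => rw [Nat.cast_succ, xx_add, ih, pow_succ]

theorem xx_neg_natCast (i : Fin N) (a : ℕ) : xx i (-(a : ℤ)) = xx i (-1) ^ a := by
  induction a with
  | zero => rw [Nat.cast_zero, neg_zero, xx_zero, pow_zero]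
  | succ a ih => rw [Nat.cast_succ, neg_add, xx_add, ih, pow_succ]

theorem xx_mul_xx_neg (i : Fin N) : xx i 1 * xx i (-1) = (1 : R N) := by
  rw [← xx_add, add_neg_cancel, xx_zero]

/-- `y_i = x_i + 1 / x_i`. -/
noncomputable def yR (N : ℕ) (i : Fin N) : R N := xx i 1 + xx i (-1)

/-- The alternating sums. -/
theorem alt_eq (e : ℕ) (he : e ≤ 1) (k' : ℤ) (l : Fin N → ℕ) :
    alt (2 * k' + e + 1) (fun j => (l j : ℤ) + k' + 1 + e) =
      mon (2 * k' + e + 1, 0) * (∏ i, (xx i k' * ((xx i 1 - 1) * (xx i 1 + 1) ^ e))) *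
        Matrix.det (Matrix.of fun i j => (pA (1 - e) (R N) (l j)).eval (yR N i)) := by
  unfold alt
  rw [mul_assoc, ← Matrix.det_mul_column]
  congr 3
  ext1 i
  ext1 j
  simp only [Matrix.of_apply]
  have h1 : (mon (0, Pi.single i ((l j : ℤ) + k' + 1 + e)) : R N) =
      xx i k' * xx i 1 ^ (l j + 1 + e) := by
    rw [← xx_natCast, ← xx_add, xx]
    congr 3
    push_cast
    ring
  have h2 : (mon (0, Pi.single i (2 * k' + e + 1 - ((l j : ℤ) + k' + 1 + e))) : R N) =
      xx i k' * xx i (-1) ^ (l j) := by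
    rw [← xx_neg_natCast, ← xx_add, xx]
    congr 3
    ring
  rw [h1, h2, ← mul_sub, mul_assoc]
  congr 1
  have h3 := pA_eval_add (xx i 1 : R N) (xx i (-1)) (xx_mul_xx_neg i) (l j)
  rcases Nat.le_one_iff_eq_zero_or_eq_one.1 he with rfl | rfl
  · rw [pow_zero, mul_one, add_zero, h3.1]
    rfl
  · rw [pow_one]
    exact h3.2

/-- The Weyl denominator. -/
theorem alt_one : ∃ s : ℤˣ, (alt 1 (fun j : Fin N => (N : ℤ) - j) : R N) =
    ((s : ℤ) : R N) * (mon (1, 0) * (∏ i, (xx i 1 - 1)) * VV (yR N)) := by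
  refine ⟨Equiv.Perm.sign (Fin.revPerm : Equiv.Perm (Fin N)), ?_⟩
  have h := alt_eq (N := N) 0 (Nat.zero_le 1) 0 (fun j => ((Fin.rev j : Fin N) : ℕ))
  have h1 : (fun j : Fin N => (((Fin.rev j : Fin N) : ℕ) : ℤ) + 0 + 1 + ((0 : ℕ) : ℤ)) =
      fun j : Fin N => (N : ℤ) - j := by
    funext j
    rw [Fin.val_rev]
    have := j.2
    push_cast [Nat.cast_sub (show (j : ℕ) + 1 ≤ N by omega)]
    ring
  rw [h1] at h
  have h2 : (2 * 0 + ((0 : ℕ) : ℤ) + 1) = 1 := by norm_num
  rw [h2] at h
  rw [h]
  have h3 : (Matrix.of fun i j : Fin N => (pA (1 - ((0 : ℕ) : ℤ)) (R N)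
      ((Fin.rev j : Fin N) : ℕ)).eval (yR N i)) =
      (Matrix.of fun i j : Fin N => (pA (1 - ((0 : ℕ) : ℤ)) (R N) j).eval (yR N i)).submatrix id
        Fin.revPerm := by
    ext i j
    rfl
  rw [h3, Matrix.det_permute', ← VV_eq_det]
  simp only [xx_zero, one_mul, pow_zero, mul_one]
  ring

private theorem mon_ne_zero (w : Wt N) : (mon w : R N) ≠ 0 := by
  rw [mon, Ne, AddMonoidAlgebra.single_eq_zero]
  exact one_ne_zero

theorem yR_injective : Function.Injective (yR N) := by
  intro i j h
  by_contra hij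
  have h1 : (yR N i).coeff (0, Pi.single i 1) = (yR N j).coeff (0, Pi.single i 1) := by rw [h]
  have h2 : ∀ (k : Fin N) (a : ℤ) (w : Wt N), (xx k a : R N).coeff w =
      if w = (0, Pi.single k a) then 1 else 0 := by
    intro k a w
    rw [xx, mon, AddMonoidAlgebra.coeff_single, Finsupp.single_apply]
    simp only [eq_comm]
  rw [yR, yR, AddMonoidAlgebra.coeff_add, AddMonoidAlgebra.coeff_add, Finsupp.add_apply,
    Finsupp.add_apply, h2, h2, h2, h2] at h1
  have h3 : ∀ (k : Fin N) (a : ℤ), (((0 : ℤ), (Pi.single i 1 : Fin N → ℤ)) = (0, Pi.single k a)) ↔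
      k = i ∧ a = 1 := by
    intro k a
    constructor
    · intro h4
      have h5 := congrFun (congrArg Prod.snd h4) i
      simp only [Pi.single_eq_same] at h5
      by_cases hk : k = i
      · subst hk
        simp only [Pi.single_eq_same] at h5
        exact ⟨rfl, h5.symm⟩
      · rw [Pi.single_eq_of_ne (Ne.symm hk)] at h5
        exact absurd h5 one_ne_zero
    · rintro ⟨rfl, rfl⟩
      rfl
  have hji : j ≠ i := fun h => hij h.symm
  simp only [h3, hji, and_true, false_and, if_false] at h1
  norm_num at h1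

theorem alt_one_ne_zero : (alt 1 (fun j : Fin N => (N : ℤ) - j) : R N) ≠ 0 := by
  obtain ⟨s, hs⟩ := alt_one (N := N)
  rw [hs]
  refine mul_ne_zero ?_ (mul_ne_zero (mul_ne_zero (mon_ne_zero _) ?_) ?_)
  · rcases Int.units_eq_one_or s with rfl | rfl <;> simp
  · refine Finset.prod_ne_zero_iff.2 fun i _ h => ?_
    have h1 : (xx i 1 : R N) = mon 0 := sub_eq_zero.1 h
    have h2 := (AddMonoidAlgebra.single_left_inj (one_ne_zero (α := ℤ))).1 h1
    have h3 := congrFun (congrArg Prod.snd h2) i
    simp at h3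
  · rw [VV, ← Matrix.det_vandermonde, Matrix.det_vandermonde_ne_zero_iff]
    exact yR_injective

/-- The irreducible characters are `± ν ^ k' * spin ^ e * P_b(y)`. -/
theorem alt_char (e : ℕ) (he : e ≤ 1) (k' : ℤ) {c : ℕ} (D : Fin c ⊕ Fin N ≃ Fin (c + N)) :
    ∃ s : ℤˣ, alt (2 * k' + e + 1) (fun j : Fin N => ((D (Sum.inr j) : ℕ) : ℤ) + k' + 1 + e) =
      ((s : ℤ) : R N) * (mon (k' • nuW N) * spR N ^ e *
        KL (1 - e) (yR N) (fun j => (D (Sum.inl j) : ℕ))) *
        alt 1 (fun j : Fin N => (N : ℤ) - j) := by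
  obtain ⟨s, hs⟩ := alt_one (N := N)
  obtain ⟨t, ht⟩ := key (1 - (e : ℤ)) D
  refine ⟨s * t, ?_⟩
  rw [alt_eq e he k' fun j => (D (Sum.inr j) : ℕ), hs]
  have h1 := ht (R N) (yR N)
  have h2 : (mon (2 * k' + e + 1, 0) : R N) * (∏ i, (xx i k' * ((xx i 1 - 1) *
      (xx i 1 + 1) ^ e))) = mon (k' • nuW N) * spR N ^ e *
      (mon (1, 0) * ∏ i, (xx i 1 - 1)) := by
    have h3 : (mon (k' • nuW N) : R N) = mon (2 * k', 0) * ∏ i, xx i k' := by
      have h4 : ∀ s : Finset (Fin N), (∏ i ∈ s, xx i k' : R N) =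
          mon (0, ∑ i ∈ s, Pi.single i k') := by
        intro s
        induction s using Finset.induction_on with
        | empty => rfl
        | insert i s hi ih =>
          rw [Finset.prod_insert hi, Finset.sum_insert hi, ih, xx, mon_mul, Prod.mk_add_mk,
            add_zero]
      rw [h4, mon_mul, Prod.mk_add_mk, add_zero, zero_add]
      congr 1
      refine Prod.ext ?_ ?_
      · simp [nuW, mul_comm]
      · rw [Finset.univ_sum_single]
        funext i
        simp [nuW]
    have h5 : (spR N : R N) = mon (1, 0) * ∏ i, (xx i 1 + 1) := by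
      rw [spR]
      congr 1
      refine Finset.prod_congr rfl fun i _ => ?_
      rw [add_comm]
      rfl
    have h6 : (mon (2 * k' + e + 1, 0) : R N) = mon (2 * k', 0) * mon (1, 0) ^ e * mon (1, 0) := by
      rw [← mon_nsmul, mon_mul, mon_mul]
      congr 1
      refine Prod.ext ?_ ?_ <;> simp
    rw [h3, h5, h6, Finset.prod_mul_distrib, Finset.prod_mul_distrib, Finset.prod_pow, mul_pow]
    ring
  rw [h2]
  have hs2 : ((s : ℤ) : R N) * ((s : ℤ) : R N) = 1 := by
    rw [← Int.cast_mul, ← Units.val_mul, Int.units_mul_self, Units.val_one, Int.cast_one]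
  have ht2 : ((t : ℤ) : R N) * ((t : ℤ) : R N) = 1 := by
    rw [← Int.cast_mul, ← Units.val_mul, Int.units_mul_self, Units.val_one, Int.cast_one]
  have h7 : Matrix.det (Matrix.of fun k j : Fin N => (pA (1 - (e : ℤ)) (R N)
      (D (Sum.inr j) : ℕ)).eval (yR N k)) = ((t : ℤ) : R N) *
      (KL (1 - (e : ℤ)) (yR N) (fun j => (D (Sum.inl j) : ℕ)) * VV (yR N)) := by
    rw [h1, ← mul_assoc, ht2, one_mul]
  rw [h7, Units.val_mul, Int.cast_mul]
  linear_combination (-((t : ℤ) : R N) * (mon (k' • nuW N) * spR N ^ e *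
    KL (1 - (e : ℤ)) (yR N) (fun j => (D (Sum.inl j) : ℕ))) * (mon (1, 0) *
    (∏ i, (xx i 1 - 1)) * VV (yR N))) * hs2

end

end Pool.Agent.EEA520

end
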