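import Pool.Agent.W_eea520_n.AlgY

set_option autoImplicit false

section

/-! The functional `Θ(y; E) = L_t (∏ (t_k - y_i) * E)`. -/


namespace Pool.Agent.EEA520

open Polynomial

section

variable (u : ℤ) {A : Type} [CommRing A] {n c : ℕ}

/-- `Θ(y; E) = L_t (∏ (t_k - y_i) * E)`. -/
noncomputable def Th (y : Fin n → A) (E : MvPolynomial (Fin c) ℤ) : A :=
  LT u ((∏ k : Fin c, ∏ i, (MvPolynomial.X k - MvPolynomial.C (y i))) *
    MvPolynomial.map (Int.castRingHom A) E)

theorem Th_add (y : Fin n → A) (E E' : MvPolynomial (Fin c) ℤ) :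
    Th u y (E + E') = Th u y E + Th u y E' := by
  rw [Th, map_add, mul_add, map_add]
  rfl

theorem Th_zero (y : Fin n → A) : Th u y (0 : MvPolynomial (Fin c) ℤ) = 0 := by
  rw [Th, map_zero, mul_zero, map_zero]

theorem Th_intCast_mul (y : Fin n → A) (e : ℤ) (E : MvPolynomial (Fin c) ℤ) :
    Th u y ((e : MvPolynomial (Fin c) ℤ) * E) = (e : A) * Th u y E := by
  have h : MvPolynomial.map (Int.castRingHom A) ((e : MvPolynomial (Fin c) ℤ) * E) =
      (e : MvPolynomial (Fin c) A) * MvPolynomial.map (Int.castRingHom A) E := by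
    rw [map_mul, map_intCast]
  rw [Th, h, mul_left_comm, LT_intCast_mul]
  rfl

theorem Th_sum {ι : Type} (s : Finset ι) (y : Fin n → A) (E : ι → MvPolynomial (Fin c) ℤ) :
    Th u y (∑ i ∈ s, E i) = ∑ i ∈ s, Th u y (E i) := by
  classical
  induction s using Finset.induction_on with
  | empty => rw [Finset.sum_empty, Finset.sum_empty, Th_zero]
  | insert i s hi ih => rw [Finset.sum_insert hi, Finset.sum_insert hi, Th_add, ih]

/-- `Θ` commutes with ring homomorphisms. -/
theorem Th_map {B : Type} [CommRing B] (φ : A →+* B) (y : Fin n → A)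
    (E : MvPolynomial (Fin c) ℤ) : φ (Th u y E) = Th u (fun i => φ (y i)) E := by
  unfold Th
  rw [LT_map]
  congr 1
  have h : φ.comp (Int.castRingHom A) = Int.castRingHom B := Subsingleton.elim _ _
  simp only [map_mul, map_prod, map_sub, MvPolynomial.map_X, MvPolynomial.map_C,
    MvPolynomial.map_map, h]

theorem Th_mem (B : Subring A) (y : Fin n → A) (hy : ∀ i, y i ∈ B)
    (E : MvPolynomial (Fin c) ℤ) : Th u y E ∈ B := by
  have h := Th_map u B.subtype (fun i => (⟨y i, hy i⟩ : B)) E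
  have h1 : (fun i => B.subtype (⟨y i, hy i⟩ : B)) = y := rfl
  rw [h1] at h
  rw [← h]
  exact SetLike.coe_mem _

/-- `P_b(y) = Θ(y; V(t) ∏ p_{b_k}(t_k))`. -/
theorem KL_eq_Th (y : Fin n → A) (b : Fin c → ℕ) : KL u y b =
    Th u y (VV (fun k : Fin c => (MvPolynomial.X k : MvPolynomial (Fin c) ℤ)) *
      ∏ k, (pA u ℤ (b k)).aeval (MvPolynomial.X k : MvPolynomial (Fin c) ℤ)) := by
  have h : MvPolynomial.map (Int.castRingHom A)
      (VV (fun k : Fin c => (MvPolynomial.X k : MvPolynomial (Fin c) ℤ)) *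
      ∏ k, (pA u ℤ (b k)).aeval (MvPolynomial.X k : MvPolynomial (Fin c) ℤ)) =
      VV (fun k : Fin c => (MvPolynomial.X k : MvPolynomial (Fin c) A)) *
      ∏ k, (pA u A (b k)).aeval (MvPolynomial.X k : MvPolynomial (Fin c) A) := by
    rw [map_mul, VV_map, map_prod]
    simp only [MvPolynomial.map_X, map_aeval_X, pA_map]
  rw [KL, Th, h, mul_assoc]

end

private theorem Th_comm {B : Type} [CommRing B] (p s q e : B) : p * (s * q) * e = p * (s * e) * q := by
  ring

private theorem Th_comm' {B : Type} [CommRing B] (g w v p : B) : g * w * v * p = w * (v * p) * g := by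
  ring

/-- `∏ (T + v_k) = ∑ e_a(v) T ^ (c - a)`. -/
theorem prod_add_esymm {B : Type} [CommRing B] {c : ℕ} (v : Fin c → B) (T : B) :
    ∏ k, (T + v k) = ∑ a ∈ Finset.range (c + 1),
      MvPolynomial.eval₂Hom (Int.castRingHom B) v (MvPolynomial.esymm (Fin c) ℤ a) *
        T ^ (c - a) := by
  have h := congrArg (Polynomial.eval₂ (MvPolynomial.eval₂Hom (Int.castRingHom B) v) T)
    (MvPolynomial.prod_C_add_X_eq_sum_esymm (R := ℤ) (σ := Fin c))
  rw [Fintype.card_fin, eval₂_finsetProd, eval₂_finsetSum] at h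
  simp only [eval₂_add, eval₂_X, eval₂_C, eval₂_mul, eval₂_pow, MvPolynomial.eval₂Hom_X'] at h
  exact h

section

variable (u : ℤ) {A : Type} [CommRing A] {n c : ℕ}

/-- One more variable `Y`. -/
theorem Th_append (y : Fin n → A) (Y : A) (E : MvPolynomial (Fin c) ℤ) :
    Th u (Fin.append y fun _ : Fin 1 => Y) E =
      ∑ i ∈ Finset.range (c + 1), (-Y) ^ i *
        Th u y (MvPolynomial.esymm (Fin c) ℤ (c - i) * E) := by
  have h1 : ∏ k : Fin c, ∏ i, (MvPolynomial.X k -
      MvPolynomial.C (Fin.append y (fun _ : Fin 1 => Y) i)) =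
      (∏ k : Fin c, ∏ i, (MvPolynomial.X k - MvPolynomial.C (y i))) *
        ∏ k : Fin c, (MvPolynomial.C (-Y) + MvPolynomial.X k) := by
    rw [← Finset.prod_mul_distrib]
    refine Finset.prod_congr rfl fun k _ => ?_
    rw [Fin.prod_univ_add, Fin.prod_univ_one]
    simp only [Fin.append_left, Fin.append_right]
    rw [map_neg]
    ring
  have h2 : ∀ a, MvPolynomial.eval₂Hom (Int.castRingHom (MvPolynomial (Fin c) A))
      (fun k : Fin c => (MvPolynomial.X k : MvPolynomial (Fin c) A))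
      (MvPolynomial.esymm (Fin c) ℤ a) =
      MvPolynomial.map (Int.castRingHom A) (MvPolynomial.esymm (Fin c) ℤ a) := by
    intro a
    rw [MvPolynomial.map_esymm, MvPolynomial.esymm, map_sum, MvPolynomial.esymm]
    simp only [map_prod, MvPolynomial.eval₂Hom_X']
  rw [Th, h1, prod_add_esymm, ← Finset.sum_range_reflect, Finset.mul_sum, Finset.sum_mul, map_sum]
  refine Finset.sum_congr rfl fun i hi => ?_
  have hi' : i ≤ c := by
    have := Finset.mem_range.1 hi
    omega
  have h3 : c + 1 - 1 - i = c - i := by omega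
  have h4 : c - (c - i) = i := by omega
  have h5 : MvPolynomial.map (Int.castRingHom A) (MvPolynomial.esymm (Fin c) ℤ (c - i) * E) =
      MvPolynomial.map (Int.castRingHom A) (MvPolynomial.esymm (Fin c) ℤ (c - i)) *
        MvPolynomial.map (Int.castRingHom A) E := by
    rw [map_mul]
  rw [h3, h4, h2, Th, mul_comm ((-Y) ^ i), ← LT_mul_C, map_pow, h5, Th_comm]

end

/-- The polynomial `G` is a `ℤ`-combination of products of `q` elementary symmetric polynomials. -/
theorem KL_X_eq (u : ℤ) {q c : ℕ} (d : Fin q → ℕ) : ∃ z : (Fin q → ℕ) → ℤ,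
    KL u (fun k : Fin c => (MvPolynomial.X k : MvPolynomial (Fin c) ℤ)) d =
      ∑ a ∈ Fintype.piFinset fun _ : Fin q => Finset.range (c + 1),
        (z a : MvPolynomial (Fin c) ℤ) * ∏ j, MvPolynomial.esymm (Fin c) ℤ (a j) := by
  refine ⟨fun a => LT u ((∏ j : Fin q, (-1) ^ c * (-MvPolynomial.X j) ^ (c - a j)) *
    (VV (fun j : Fin q => (MvPolynomial.X j : MvPolynomial (Fin q) ℤ)) *
      ∏ j, (pA u ℤ (d j)).aeval (MvPolynomial.X j : MvPolynomial (Fin q) ℤ))), ?_⟩
  have h0 : ∀ a, MvPolynomial.eval₂Hom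
      (Int.castRingHom (MvPolynomial (Fin q) (MvPolynomial (Fin c) ℤ)))
      (fun k : Fin c => (MvPolynomial.C (MvPolynomial.X k) :
      MvPolynomial (Fin q) (MvPolynomial (Fin c) ℤ))) (MvPolynomial.esymm (Fin c) ℤ a) =
      MvPolynomial.C (MvPolynomial.esymm (Fin c) ℤ a) := by
    intro a
    rw [MvPolynomial.esymm, map_sum, map_sum]
    simp only [map_prod, MvPolynomial.eval₂Hom_X']
  have h1 : ∀ j : Fin q, ∏ k : Fin c, ((MvPolynomial.X j - MvPolynomial.C (MvPolynomial.X k) :
      MvPolynomial (Fin q) (MvPolynomial (Fin c) ℤ))) = ∑ a ∈ Finset.range (c + 1),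
        (MvPolynomial.C (MvPolynomial.esymm (Fin c) ℤ a) *
          ((-1) ^ c * (-MvPolynomial.X j) ^ (c - a))) := by
    intro j
    have h2 : ∀ k : Fin c, (MvPolynomial.X j - MvPolynomial.C (MvPolynomial.X k) :
        MvPolynomial (Fin q) (MvPolynomial (Fin c) ℤ)) =
        (-1) * (-MvPolynomial.X j + MvPolynomial.C (MvPolynomial.X k) :
          MvPolynomial (Fin q) (MvPolynomial (Fin c) ℤ)) := fun k => by ring
    simp only [h2]
    rw [Finset.prod_mul_distrib, Finset.prod_const, Finset.card_univ, Fintype.card_fin,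
      prod_add_esymm, Finset.mul_sum]
    refine Finset.sum_congr rfl fun a _ => ?_
    rw [h0]
    ring
  unfold KL
  simp only [h1]
  rw [Finset.prod_univ_sum, Finset.sum_mul, Finset.sum_mul, map_sum]
  refine Finset.sum_congr rfl fun a _ => ?_
  have h3 : MvPolynomial.map (Int.castRingHom (MvPolynomial (Fin c) ℤ))
      ((∏ j : Fin q, (-1) ^ c * (-MvPolynomial.X j) ^ (c - a j)) *
      (VV (fun j : Fin q => (MvPolynomial.X j : MvPolynomial (Fin q) ℤ)) *
        ∏ j, (pA u ℤ (d j)).aeval (MvPolynomial.X j : MvPolynomial (Fin q) ℤ))) =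
      (∏ j : Fin q, (-1) ^ c * (-MvPolynomial.X j) ^ (c - a j)) *
      (VV (fun j : Fin q => (MvPolynomial.X j :
        MvPolynomial (Fin q) (MvPolynomial (Fin c) ℤ))) *
        ∏ j, (pA u (MvPolynomial (Fin c) ℤ) (d j)).aeval (MvPolynomial.X j :
          MvPolynomial (Fin q) (MvPolynomial (Fin c) ℤ))) := by
    rw [map_mul, map_mul, VV_map, map_prod, map_prod]
    simp only [map_mul, map_pow, map_neg, map_one, MvPolynomial.map_X, map_aeval_X, pA_map]
  have h4 := LT_map u (Int.castRingHom (MvPolynomial (Fin c) ℤ))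
    ((∏ j : Fin q, (-1) ^ c * (-MvPolynomial.X j) ^ (c - a j)) *
      (VV (fun j : Fin q => (MvPolynomial.X j : MvPolynomial (Fin q) ℤ)) *
        ∏ j, (pA u ℤ (d j)).aeval (MvPolynomial.X j : MvPolynomial (Fin q) ℤ)))
  rw [h3, eq_intCast] at h4
  rw [h4, ← LT_mul_C, Finset.prod_mul_distrib, map_prod, Th_comm']

end Pool.Agent.EEA520

end

section

/-! Evaluation of `Θ(y; V(t) ∏ p_{b_k}(t_k) G)`. -/


namespace Pool.Agent.EEA520

open Polynomial

/-- If `M k i ≠ 0` implies `f k ≤ f i`, `f` injective, then the determinant is the product of the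
diagonal entries. -/
theorem det_tri {A : Type} [CommRing A] {ι : Type} [Fintype ι] [DecidableEq ι] (M : Matrix ι ι A)
    (f : ι → ℤ) (hf : Function.Injective f) (h : ∀ k i, M k i ≠ 0 → f k ≤ f i) :
    M.det = ∏ i, M i i := by
  rw [Matrix.det_apply', Finset.sum_eq_single 1]
  · simp
  · intro σ _ hσ
    have h1 : ∃ i, M (σ i) i = 0 := by
      by_contra hc
      push Not at hc
      apply hσ
      have h2 : ∀ i ∈ Finset.univ, f (σ i) ≤ f i := fun i _ => h _ _ (hc i)
      have h3 : ∑ i, f (σ i) = ∑ i, f i := Equiv.sum_comp σ f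
      have h4 := (Finset.sum_eq_sum_iff_of_le h2).1 h3
      ext i
      rw [Equiv.Perm.one_apply]
      exact hf (h4 i (Finset.mem_univ i))
    obtain ⟨i, hi⟩ := h1
    have h5 : ∏ i, M (σ i) i = 0 :=
      Finset.prod_eq_zero (f := fun i => M (σ i) i) (Finset.mem_univ i) hi
    rw [h5, mul_zero]
  · intro h
    exact absurd (Finset.mem_univ _) h

section

variable (u : ℤ) {A : Type} [CommRing A] {n c : ℕ}

/-- The polynomial `∏ (t - y_i)`. -/
noncomputable def FF (y : Fin n → A) : A[X] := ∏ i, (X - C (y i))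

theorem FF_monic (y : Fin n → A) : (FF y).Monic := monic_prod_X_sub_C _ _

theorem FF_natDegree_le (y : Fin n → A) : (FF y).natDegree ≤ n := by
  have h := natDegree_prod_le (Finset.univ : Finset (Fin n)) fun i => (X - C (y i) : A[X])
  refine h.trans ?_
  refine (Finset.sum_le_card_nsmul _ _ 1 fun i _ => natDegree_X_sub_C_le _).trans ?_
  simp

theorem FF_coeff (y : Fin n → A) : (FF y).coeff n = 1 := by
  nontriviality A
  have h : (FF y).natDegree = n := by
    rw [FF, natDegree_prod_of_monic _ _ fun i _ => monic_X_sub_C _]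
    simp
  have h1 := FF_monic y
  rw [Monic, leadingCoeff, h] at h1
  exact h1

/-- `Θ(y; V(t) ∏ p_{b_k}(t_k) G) = ± det (L (F p_{e_j} p_{b_k}))`. -/
theorem Th_eq_det {q : ℕ} (D : Fin q ⊕ Fin c ≃ Fin (q + c)) (b : Fin c → ℕ) : ∃ s : ℤˣ,
    ∀ (A : Type) [CommRing A] (y : Fin n → A),
      Th u y (KL u (fun k : Fin c => (MvPolynomial.X k : MvPolynomial (Fin c) ℤ))
        (fun j => (D (Sum.inl j) : ℕ)) *
        (VV (fun k : Fin c => (MvPolynomial.X k : MvPolynomial (Fin c) ℤ)) *
          ∏ k, (pA u ℤ (b k)).aeval (MvPolynomial.X k : MvPolynomial (Fin c) ℤ))) =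
      ((s : ℤ) : A) * Matrix.det (Matrix.of fun k j : Fin c =>
        LF u A (FF y * (pA u A (D (Sum.inr j) : ℕ) * pA u A (b k)))) := by
  obtain ⟨s, hs⟩ := key u D
  refine ⟨s, fun A _ y => ?_⟩
  have h1 := hs (MvPolynomial (Fin c) ℤ) fun k : Fin c => (MvPolynomial.X k)
  rw [← mul_assoc, h1, mul_assoc, Th_intCast_mul]
  congr 1
  unfold Th
  have h2 : (∏ k : Fin c, ∏ i, (MvPolynomial.X k - MvPolynomial.C (y i) :
      MvPolynomial (Fin c) A)) = ∏ k : Fin c, (FF y).aeval (MvPolynomial.X k :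
        MvPolynomial (Fin c) A) := by
    refine Finset.prod_congr rfl fun k _ => ?_
    rw [FF, map_prod]
    simp [MvPolynomial.algebraMap_eq]
  have h3 : MvPolynomial.map (Int.castRingHom A) (Matrix.det (Matrix.of fun k j : Fin c =>
      (pA u (MvPolynomial (Fin c) ℤ) (D (Sum.inr j) : ℕ)).eval (MvPolynomial.X k)) *
      ∏ k, (pA u ℤ (b k)).aeval (MvPolynomial.X k : MvPolynomial (Fin c) ℤ)) =
      Matrix.det (Matrix.of fun k j : Fin c =>
      (pA u A (D (Sum.inr j) : ℕ)).aeval (MvPolynomial.X k : MvPolynomial (Fin c) A)) *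
      ∏ k, (pA u A (b k)).aeval (MvPolynomial.X k : MvPolynomial (Fin c) A) := by
    rw [map_mul, RingHom.map_det, map_prod]
    simp only [map_aeval_X, pA_map]
    congr 2
    ext1 k j
    simp only [RingHom.mapMatrix_apply, Matrix.map_apply, Matrix.of_apply]
    rw [pA_eval_X, map_aeval_X, pA_map]
  rw [h2, h3]
  have h4 : (∏ k : Fin c, (FF y).aeval (MvPolynomial.X k : MvPolynomial (Fin c) A)) *
      (Matrix.det (Matrix.of fun k j : Fin c =>
      (pA u A (D (Sum.inr j) : ℕ)).aeval (MvPolynomial.X k : MvPolynomial (Fin c) A)) *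
      ∏ k, (pA u A (b k)).aeval (MvPolynomial.X k : MvPolynomial (Fin c) A)) =
      Matrix.det (Matrix.of fun k j : Fin c =>
        (FF y * (pA u A (D (Sum.inr j) : ℕ) * pA u A (b k))).aeval
          (MvPolynomial.X k : MvPolynomial (Fin c) A)) := by
    have h5 : (Matrix.of fun k j : Fin c =>
        (FF y * (pA u A (D (Sum.inr j) : ℕ) * pA u A (b k))).aeval
          (MvPolynomial.X k : MvPolynomial (Fin c) A)) =
        Matrix.of fun k j : Fin c => ((FF y).aeval (MvPolynomial.X k : MvPolynomial (Fin c) A) *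
          (pA u A (b k)).aeval (MvPolynomial.X k : MvPolynomial (Fin c) A)) *
          (Matrix.of fun k j : Fin c => (pA u A (D (Sum.inr j) : ℕ)).aeval
            (MvPolynomial.X k : MvPolynomial (Fin c) A)) k j := by
      ext1 k j
      simp only [Matrix.of_apply, map_mul]
      rw [mul_assoc, mul_comm ((pA u A (b k)).aeval _)]
    rw [h5, Matrix.det_mul_column, Finset.prod_mul_distrib, mul_comm (Matrix.det _), ← mul_assoc]
  rw [h4, LT_det]

end

end Pool.Agent.EEA520

end

section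

/-! Evaluation of `Θ(y; V(t) ∏ p_{b_k}(t_k) G)`, second part. -/


namespace Pool.Agent.EEA520

open Polynomial

/-- An injective map extends to a bijection. -/
theorem exists_equiv {c m : ℕ} (l : Fin m → ℕ) (hl : Function.Injective l)
    (h : ∀ j, l j < c + m) : ∃ D : Fin c ⊕ Fin m ≃ Fin (c + m), ∀ j, (D (Sum.inr j) : ℕ) = l j := by
  classical
  let f : Fin m → Fin (c + m) := fun j => ⟨l j, h j⟩
  have hf : Function.Injective f := fun i j hij => hl (congrArg Fin.val hij)
  have e1 : Fin m ≃ Set.range f := Equiv.ofInjective f hf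
  have hcard : Fintype.card ((Set.range f)ᶜ : Set (Fin (c + m))) = Fintype.card (Fin c) := by
    rw [Fintype.card_compl_set, Fintype.card_fin, Fintype.card_fin, Set.card_range_of_injective hf,
      Fintype.card_fin]
    omega
  have e2 : Fin c ≃ ((Set.range f)ᶜ : Set (Fin (c + m))) := Fintype.equivOfCardEq hcard.symm
  refine ⟨(Equiv.sumCongr e2 (Equiv.ofInjective f hf)).trans
    ((Equiv.sumComm _ _).trans (Equiv.Set.sumCompl (Set.range f))), fun j => ?_⟩
  simp [f]

section

variable (u : ℤ) {A : Type} [CommRing A] {n c : ℕ}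

theorem LF_zero {f : A[X]} {j k : ℕ} (hf : f.natDegree ≤ n) (h : j + n < k ∨ k + n < j) :
    LF u A (f * (pA u A j * pA u A k)) = 0 := by
  wlog hjk : j ≤ k with H
  · rw [mul_comm (pA u A j)]
    exact H u hf h.symm (by omega)
  · obtain ⟨m, rfl⟩ := Nat.exists_eq_add_of_le hjk
    have hm : n < m := by omega
    rw [LF_mul_pA_mul_pA u rfl (hf.trans hm.le)]
    exact coeff_eq_zero_of_natDegree_lt (lt_of_le_of_lt hf hm)

/-- The shifted exponents. -/
def ee (n s0 : ℕ) (b δ : Fin c → ℕ) (k : Fin c) : ℕ :=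
  if b k < s0 then b k + n - δ k else b k - n

theorem ee_injective {s0 : ℕ} {b δ : Fin c → ℕ} (hb : Function.Injective b)
    (hs : ∀ k, b k < s0 ∨ s0 + 2 * n ≤ b k) (hδ : ∀ k, δ k ≤ n)
    (hδ' : ∀ k, δ k ≠ 0 → ∀ i, b k ≤ b i) : Function.Injective (ee n s0 b δ) := by
  intro k i h
  apply hb
  unfold ee at h
  have h1 := hs k
  have h2 := hs i
  have h3 := hδ k
  have h4 := hδ i
  by_cases h5 : δ k = 0 <;> by_cases h6 : δ i = 0
  · split_ifs at h <;> omega
  · have h7 := hδ' i h6 k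
    split_ifs at h <;> omega
  · have h7 := hδ' k h5 i
    split_ifs at h <;> omega
  · have h7 := hδ' k h5 i
    have h8 := hδ' i h6 k
    omega

theorem ee_lt {s0 q : ℕ} {b δ : Fin c → ℕ} (hs : ∀ k, b k < s0 ∨ s0 + 2 * n ≤ b k)
    (hs0 : s0 + 2 * n ≤ c + (n + q)) (hb : ∀ k, b k < c + (n + q)) (k : Fin c) :
    ee n s0 b δ k < q + c := by
  unfold ee
  have h1 := hs k
  have h2 := hb k
  split_ifs <;> omega

/-- Only the identity contributes to the determinant. -/
theorem det_eval {s0 : ℕ} {b δ : Fin c → ℕ} (hb : Function.Injective b)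
    (hs : ∀ k, b k < s0 ∨ s0 + 2 * n ≤ b k) (hδ : ∀ k, δ k ≤ n)
    (hδ' : ∀ k, δ k ≠ 0 → ∀ i, b k ≤ b i) (y : Fin n → A) :
    Matrix.det (Matrix.of fun k j : Fin c =>
        LF u A (FF y * (pA u A (ee n s0 b δ j) * pA u A (b k)))) =
      ∏ k, LF u A (FF y * (pA u A (ee n s0 b δ k) * pA u A (b k))) := by
  rw [det_tri _ (fun k => if b k < s0 then -(b k : ℤ) else b k)]
  · rfl
  · intro k i h
    apply hb
    have h1 := hs k
    have h2 := hs i
    simp only at h
    split_ifs at h <;> omega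
  · intro k i h
    have h0 : ¬ (ee n s0 b δ i + n < b k ∨ b k + n < ee n s0 b δ i) := by
      intro h0
      exact h (LF_zero u (FF_natDegree_le y) h0)
    unfold ee at h0
    have h1 := hs k
    have h2 := hs i
    have h3 := hδ i
    by_cases h6 : δ i = 0
    · split_ifs at h0 ⊢ <;> omega
    · have h7 := hδ' i h6 k
      split_ifs at h0 ⊢ <;> omega

theorem diag_one {s0 : ℕ} {b δ : Fin c → ℕ} (hs : ∀ k, b k < s0 ∨ s0 + 2 * n ≤ b k)
    (y : Fin n → A) {k : Fin c} (hk : δ k = 0) :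
    LF u A (FF y * (pA u A (ee n s0 b δ k) * pA u A (b k))) = 1 := by
  have h1 := hs k
  by_cases h : b k < s0
  · have h2 : b k + n = ee n s0 b δ k := by
      unfold ee
      rw [if_pos h]
      omega
    rw [mul_comm (pA u A (ee n s0 b δ k)), LF_mul_pA_mul_pA u h2 (FF_natDegree_le y), FF_coeff]
  · have h2 : ee n s0 b δ k + n = b k := by
      unfold ee
      rw [if_neg h]
      omega
    rw [LF_mul_pA_mul_pA u h2 (FF_natDegree_le y), FF_coeff]

/-- The entry for the smallest `b`. -/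
theorem diag_shift (n b j : ℕ) (hj : j ≤ n) : ∃ z : ℕ → ℤ, z (n - j) = 1 ∧
    (∀ i < n - j, z i = 0) ∧ ∀ (A : Type) [CommRing A] (y : Fin n → A),
      LF u A (FF y * (pA u A (b + n - j) * pA u A b)) =
        ∑ i ∈ Finset.range (n + 1), (z i : A) * (FF y).coeff i := by
  refine ⟨fun i => LF u ℤ (X ^ i * (pA u ℤ b * pA u ℤ (b + n - j))), ?_, ?_, fun A _ y => ?_⟩
  · show LF u ℤ (X ^ (n - j) * (pA u ℤ b * pA u ℤ (b + n - j))) = 1
    rw [LF_mul_pA_mul_pA u (j := b) (n := n - j) (by omega) (natDegree_X_pow_le _)]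
    simp
  · intro i hi
    show LF u ℤ (X ^ i * (pA u ℤ b * pA u ℤ (b + n - j))) = 0
    rw [LF_mul_pA_mul_pA u (j := b) (n := n - j) (by omega) ((natDegree_X_pow_le _).trans hi.le)]
    rw [coeff_X_pow, if_neg (by omega)]
  · have h1 : ∀ i, ((LF u ℤ (X ^ i * (pA u ℤ b * pA u ℤ (b + n - j))) : ℤ) : A) =
        LF u A (X ^ i * (pA u A b * pA u A (b + n - j))) := by
      intro i
      have := LF_map u (Int.castRingHom A) (X ^ i * (pA u ℤ b * pA u ℤ (b + n - j)))
      rw [Polynomial.map_mul, Polynomial.map_pow, map_X, Polynomial.map_mul, pA_map, pA_map] at this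
      exact this
    simp only [h1]
    conv_lhs => rw [(FF y).as_sum_range_C_mul_X_pow' (Nat.lt_succ_of_le (FF_natDegree_le y))]
    rw [Finset.sum_mul, map_sum]
    refine Finset.sum_congr rfl fun i _ => ?_
    rw [mul_assoc, ← smul_eq_C_mul, map_smul, smul_eq_mul, mul_comm, mul_comm (pA u A (b + n - j))]

/-- Extraction. -/
theorem extract {q s0 : ℕ} (D : Fin c ⊕ Fin (n + q) ≃ Fin (c + (n + q)))
    (hs0 : s0 + 2 * n ≤ c + (n + q))
    (hs : ∀ i : Fin c, (D (Sum.inl i) : ℕ) < s0 ∨ s0 + 2 * n ≤ (D (Sum.inl i) : ℕ))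
    (δ : Fin c → ℕ) (hδ : ∀ k, δ k ≤ n)
    (hδ' : ∀ k, δ k ≠ 0 → ∀ i, (D (Sum.inl k) : ℕ) ≤ (D (Sum.inl i) : ℕ)) :
    ∃ (d : Fin q → ℕ) (s : ℤˣ), ∀ (A : Type) [CommRing A] (y : Fin n → A),
      Th u y (KL u (fun k : Fin c => (MvPolynomial.X k : MvPolynomial (Fin c) ℤ)) d *
        (VV (fun k : Fin c => (MvPolynomial.X k : MvPolynomial (Fin c) ℤ)) *
          ∏ k, (pA u ℤ (D (Sum.inl k) : ℕ)).aeval
            (MvPolynomial.X k : MvPolynomial (Fin c) ℤ))) =
      ((s : ℤ) : A) * ∏ k, LF u A (FF y *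
        (pA u A (ee n s0 (fun k => (D (Sum.inl k) : ℕ)) δ k) * pA u A (D (Sum.inl k) : ℕ))) := by
  have hb : Function.Injective fun k : Fin c => (D (Sum.inl k) : ℕ) := fun k i h =>
    Sum.inl_injective (D.injective (Fin.ext h))
  obtain ⟨E, hE⟩ := exists_equiv (c := q) (ee n s0 (fun k => (D (Sum.inl k) : ℕ)) δ)
    (ee_injective hb hs hδ hδ') (ee_lt hs hs0 fun k => (D (Sum.inl k)).2)
  obtain ⟨s, h⟩ := Th_eq_det (n := n) u E fun k => (D (Sum.inl k) : ℕ)
  refine ⟨fun j => (E (Sum.inl j) : ℕ), s, fun A _ y => ?_⟩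
  rw [h A y]
  simp only [hE]
  rw [det_eval u hb hs hδ hδ' y]

end

end Pool.Agent.EEA520

end

section

/-! Existence of the irreducible characters. -/


namespace Pool.Agent.EEA520

open Polynomial

section

variable {N : ℕ}

/-- The action of an automorphism of the group of weights. -/
noncomputable def actR (φ : Wt N ≃+ Wt N) : R N →+* R N :=
  (AddMonoidAlgebra.mapDomainRingEquiv ℤ φ : R N ≃+* R N).toRingHom

theorem actR_coeff (φ : Wt N ≃+ Wt N) (f : R N) (w : Wt N) :
    (actR φ f).coeff (φ w) = f.coeff w := by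
  have h : (actR φ f).coeff = Finsupp.equivMapDomain φ.toEquiv f.coeff :=
    AddMonoidAlgebra.coeff_mapDomainRingEquiv φ f
  rw [h, Finsupp.equivMapDomain_apply]
  congr 1
  exact φ.symm_apply_apply w

theorem actR_mon (φ : Wt N ≃+ Wt N) (w : Wt N) : actR φ (mon w) = mon (φ w) :=
  AddMonoidAlgebra.mapDomainRingEquiv_single φ 1 w

theorem actR_inv (φ : Wt N ≃+ Wt N) (f : R N) (h : actR φ f = f) (w : Wt N) :
    f.coeff (φ w) = f.coeff w := by
  conv_lhs => rw [← h]
  rw [actR_coeff]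

theorem isCharacter_of_act (f : R N) (h1 : ∀ σ, actR (permW σ) f = f)
    (h2 : ∀ i, actR (refW i) f = f) : IsCharacter f.coeff := by
  rw [isCharacter_iff]
  exact ⟨fun σ => actR_inv _ _ (h1 σ), fun i => actR_inv _ _ (h2 i)⟩

theorem permW_single (σ : Equiv.Perm (Fin N)) (i : Fin N) (e : ℤ) :
    permW σ ((0 : ℤ), Pi.single i e) = ((0 : ℤ), Pi.single (σ.symm i) e) := by
  have h : permW σ ((0 : ℤ), Pi.single i e) = ((0 : ℤ), (Pi.single i e : Fin N → ℤ) ∘ σ) := rfl
  rw [h]
  congr 1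
  funext j
  rw [Function.comp_apply]
  by_cases hj : σ j = i
  · have : j = σ.symm i := by rw [← hj, Equiv.symm_apply_apply]
    rw [this, Equiv.apply_symm_apply, Pi.single_eq_same, Pi.single_eq_same]
  · have : j ≠ σ.symm i := fun h => hj (by rw [h, Equiv.apply_symm_apply])
    rw [Pi.single_eq_of_ne hj, Pi.single_eq_of_ne this]

theorem refW_single (i : Fin N) (e : ℤ) :
    refW i ((0 : ℤ), Pi.single i e) = ((0 : ℤ), Pi.single i (-e)) := by
  have h : refW i ((0 : ℤ), Pi.single i e) =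
    ((0 : ℤ), Function.update (Pi.single i e : Fin N → ℤ) i (0 - (Pi.single i e : Fin N → ℤ) i)) :=
      rfl
  rw [h]
  congr 1
  funext j
  by_cases hj : j = i
  · subst hj
    simp
  · simp [hj]

theorem refW_single_ne (i j : Fin N) (hij : j ≠ i) (e : ℤ) :
    refW i ((0 : ℤ), Pi.single j e) = ((0 : ℤ), Pi.single j e) := by
  have h : refW i ((0 : ℤ), Pi.single j e) =
    ((0 : ℤ), Function.update (Pi.single j e : Fin N → ℤ) i (0 - (Pi.single j e : Fin N → ℤ) i)) :=
      rfl
  rw [h]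
  congr 1
  funext k
  by_cases hk : k = i
  · subst hk
    simp [Pi.single_eq_of_ne hij.symm]
  · simp [hk]

theorem act_perm_yR (σ : Equiv.Perm (Fin N)) (i : Fin N) :
    actR (permW σ) (yR N i) = yR N (σ.symm i) := by
  rw [yR, map_add, xx, xx, actR_mon, actR_mon, permW_single, permW_single]
  rfl

theorem act_ref_yR (i j : Fin N) : actR (refW i) (yR N j) = yR N j := by
  rw [yR, map_add, xx, xx, actR_mon, actR_mon]
  by_cases h : j = i
  · subst h
    rw [refW_single, refW_single, neg_neg, add_comm]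
  · rw [refW_single_ne i j h, refW_single_ne i j h]

/-- `P_d` is a symmetric function. -/
theorem KL_perm (u : ℤ) {A : Type} [CommRing A] {q m : ℕ} (a : Fin m → A) (d : Fin q → ℕ)
    (σ : Equiv.Perm (Fin m)) : KL u (fun k => a (σ k)) d = KL u a d := by
  unfold KL
  congr 3
  refine Finset.prod_congr rfl fun j _ => ?_
  exact Equiv.prod_comp σ fun k => (MvPolynomial.X j - MvPolynomial.C (a k))

theorem isCharacter_KL (u : ℤ) {q : ℕ} (d : Fin q → ℕ) : IsCharacter (KL u (yR N) d).coeff := by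
  refine isCharacter_of_act _ (fun σ => ?_) fun i => ?_
  · rw [KL_map]
    simp only [act_perm_yR]
    exact KL_perm u (yR N) d σ.symm
  · rw [KL_map]
    simp only [act_ref_yR]

theorem isCharacter_intCast_mul (z : ℤ) {f : R N} (hf : IsCharacter f.coeff) :
    IsCharacter ((z : R N) * f).coeff := by
  rw [← zsmul_eq_mul]
  exact isCharacter_zsmul hf z

theorem isCharacter_pow {f : R N} (hf : IsCharacter f.coeff) (e : ℕ) :
    IsCharacter (f ^ e).coeff := by
  induction e with
  | zero =>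
    rw [pow_zero]
    exact isCharacter_one
  | succ e ih =>
    rw [pow_succ]
    exact isCharacter_mul ih hf

/-- The irreducible characters exist. -/
theorem exists_irr_char (e : ℕ) (he : e ≤ 1) (k' : ℤ) (μ : Fin N → ℤ) (hμ : Antitone μ)
    (hd : ∀ i, 2 * k' + e ≤ 2 * μ i) {c : ℕ} (D : Fin c ⊕ Fin N ≃ Fin (c + N))
    (hD : ∀ j : Fin N, ((D (Sum.inr j) : ℕ) : ℤ) + k' + 1 + e = μ j + ((N : ℤ) - j)) :
    ∃ s : ℤˣ, IsIrr (2 * k' + e) μ (((s : ℤ) : R N) * (mon (k' • nuW N) * spR N ^ e *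
        KL (1 - e) (yR N) (fun j => (D (Sum.inl j) : ℕ)))).coeff ∧
      IsCharacter (((s : ℤ) : R N) * (mon (k' • nuW N) * spR N ^ e *
        KL (1 - e) (yR N) (fun j => (D (Sum.inl j) : ℕ)))).coeff := by
  obtain ⟨s, hs⟩ := alt_char e he k' D
  simp only [hD] at hs
  refine ⟨s, ⟨hμ, hd, hs.symm⟩, ?_⟩
  exact isCharacter_intCast_mul _ (isCharacter_mul (isCharacter_mul (isCharacter_nu k')
    (isCharacter_pow (isCharacter_spR N) e)) (isCharacter_KL _ _))

/-- The beta numbers of a dominant weight. -/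
theorem exists_beta (k' : ℤ) (e : ℕ) (μ : Fin N → ℤ) (hμ : Antitone μ)
    (hd : ∀ i, 2 * k' + e ≤ 2 * μ i) (he : e ≤ 1) (c : ℕ) (hc : ∀ i, μ i ≤ c + k' + e) :
    ∃ D : Fin c ⊕ Fin N ≃ Fin (c + N),
      ∀ j : Fin N, ((D (Sum.inr j) : ℕ) : ℤ) + k' + 1 + e = μ j + ((N : ℤ) - j) := by
  obtain ⟨l, hl⟩ : ∃ l : Fin N → ℕ, ∀ j, ((l j : ℕ) : ℤ) + k' + 1 + e = μ j + ((N : ℤ) - j) := by
    refine ⟨fun j => (μ j + ((N : ℤ) - j) - k' - 1 - e).toNat, fun j => ?_⟩
    have h1 := hd j
    have h2 := j.2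
    have h3 : 0 ≤ μ j + ((N : ℤ) - j) - k' - 1 - e := by omega
    rw [Int.toNat_of_nonneg h3]
    ring
  have hanti : ∀ i j : Fin N, i < j → l j < l i := by
    intro i j hij
    have h1 := hl i
    have h2 := hl j
    have h3 := hμ hij.le
    have h4 : (i : ℕ) < j := hij
    omega
  have hinj : Function.Injective l := by
    intro i j h
    rcases lt_trichotomy i j with h1 | h1 | h1
    · exact absurd h (hanti i j h1).ne'
    · exact h1
    · exact absurd h (hanti j i h1).ne
  have hle : ∀ j, l j < c + N := by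
    intro j
    have h1 := hl j
    have h2 := hc j
    have h3 := j.2
    omega
  obtain ⟨D, hD⟩ := exists_equiv (c := c) l hinj hle
  exact ⟨D, fun j => by rw [hD]; exact hl j⟩

/-- The irreducible characters exist and are characters. -/
theorem exists_isIrr (k : ℤ) (μ : Fin N → ℤ) (hμ : Antitone μ) (hd : ∀ i, k ≤ 2 * μ i) :
    ∃ m : Wt N →₀ ℤ, IsIrr k μ m ∧ IsCharacter m := by
  obtain ⟨k', e, he, rfl⟩ : ∃ (k' : ℤ) (e : ℕ), e ≤ 1 ∧ k = 2 * k' + e := by
    rcases Int.even_or_odd' k with ⟨k', h | h⟩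
    · exact ⟨k', 0, Nat.zero_le 1, by rw [h]; simp⟩
    · exact ⟨k', 1, le_rfl, by rw [h]; simp⟩
  obtain ⟨c, hc⟩ : ∃ c : ℕ, ∀ i, μ i ≤ c + k' + e := by
    obtain ⟨B, hB⟩ : ∃ B : ℤ, ∀ i, μ i ≤ B := by
      rcases Nat.eq_zero_or_pos N with rfl | h
      · exact ⟨0, fun i => i.elim0⟩
      · exact ⟨μ ⟨0, h⟩, fun i => hμ (show (⟨0, h⟩ : Fin N) ≤ i from Nat.zero_le _)⟩
    refine ⟨(B - k' - e).toNat, fun i => ?_⟩
    have h1 := hB i
    have h2 := Int.self_le_toNat (B - k' - e)
    omega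
  obtain ⟨D, hD⟩ := exists_beta k' e μ hμ hd he c hc
  obtain ⟨s, h1, h2⟩ := exists_irr_char e he k' μ hμ hd D hD
  exact ⟨_, h1, h2⟩

end

end Pool.Agent.EEA520

end

section

/-! The characters are the `ℤ`-combinations of the irreducible characters. -/


namespace Pool.Agent.EEA520

open Polynomial

private theorem Gen_ind (n : ℕ) (U : AddSubgroup (R n))
    (hU : ∀ w : Wt n, Dominant w → ∃ P ∈ U, Top w P ∧ IsCharacter P.coeff) (N : ℕ) :
    ∀ m : R n, IsCharacter m.coeff → (∀ w, m.coeff w ≠ 0 → ht w < N) → m ∈ U := by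
  classical
  induction N with
  | zero =>
    intro m hm hlt
    have h0 : m = 0 := by
      by_contra hne
      have h1 : m.coeff.support.Nonempty := by
        rw [Finsupp.support_nonempty_iff]
        intro h2
        apply hne
        apply AddMonoidAlgebra.ext
        rw [h2]
        rfl
      obtain ⟨w, hw, hmax⟩ := Finset.exists_max_image m.coeff.support ht h1
      have h2 : Dominant w := dominant_of_max hm (Finsupp.mem_support_iff.mp hw)
        fun v hv => hmax v (Finsupp.mem_support_iff.mpr hv)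
      have h3 := h2.ht_nonneg
      have h4 := hlt w (Finsupp.mem_support_iff.mp hw)
      rw [Nat.cast_zero] at h4
      omega
    rw [h0]
    exact U.zero_mem
  | succ N ih =>
    intro m hm hlt
    have hex : ∀ w : Wt n, m.coeff w ≠ 0 → ht w = N →
        ∃ P : R n, Top w P ∧ P ∈ U ∧ IsCharacter P.coeff := by
      intro w hw hN
      have h2 : Dominant w := dominant_of_max hm hw fun v hv => by
        have := hlt v hv
        push_cast at this
        omega
      obtain ⟨P, h3, h4, h5⟩ := hU w h2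
      exact ⟨P, h4, h3, h5⟩
    choose! P hP using hex
    let S : Finset (Wt n) := m.coeff.support.filter fun w => ht w = N
    have hS : ∀ w, w ∈ S ↔ m.coeff w ≠ 0 ∧ ht w = N := fun w => by
      rw [Finset.mem_filter, Finsupp.mem_support_iff]
    let T : R n := ∑ w ∈ S, m.coeff w • P w
    have hsum : ∀ (s : Finset (Wt n)) (f : Wt n → R n), (∀ i ∈ s, IsCharacter (f i).coeff) →
        IsCharacter (∑ i ∈ s, f i).coeff := by
      intro s f h
      induction s using Finset.induction_on with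
      | empty =>
        rw [Finset.sum_empty]
        exact ⟨fun _ _ _ => rfl, fun _ _ _ => rfl⟩
      | insert a s ha ih =>
        rw [Finset.sum_insert ha]
        exact isCharacter_add (h a (Finset.mem_insert_self _ _))
          (ih fun i hi => h i (Finset.mem_insert_of_mem hi))
    have hT : IsCharacter T.coeff := hsum _ _ fun w hw =>
      isCharacter_zsmul (hP w ((hS w).1 hw).1 ((hS w).1 hw).2).2.2 _
    have hTU : T ∈ U := U.sum_mem fun w hw =>
      U.zsmul_mem (hP w ((hS w).1 hw).1 ((hS w).1 hw).2).2.1 _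
    have hTc : ∀ v, T.coeff v = ∑ w ∈ S, m.coeff w * (P w).coeff v := by
      intro v
      have h1 : T.coeff = ∑ w ∈ S, (m.coeff w • P w).coeff :=
        AddMonoidAlgebra.coeff_sum _ _
      rw [h1, Finsupp.finsetSum_apply]
      refine Finset.sum_congr rfl fun w _ => ?_
      rw [AddMonoidAlgebra.coeff_smul_apply, smul_eq_mul]
    have hm' : m + (-1 : ℤ) • T ∈ U := by
      apply ih _ (isCharacter_add hm (isCharacter_zsmul hT _))
      intro v hv
      by_contra hcon
      push Not at hcon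
      apply hv
      have h1 : (m + (-1 : ℤ) • T).coeff v = m.coeff v - T.coeff v := by
        rw [AddMonoidAlgebra.coeff_add, Finsupp.add_apply, AddMonoidAlgebra.coeff_smul_apply,
          smul_eq_mul]
        ring
      rw [h1, hTc]
      have h0 : ∀ w ∈ S, v ≠ w → (P w).coeff v = 0 := by
        intro w hw hvw
        by_contra h2
        have h3 := (hP w ((hS w).1 hw).1 ((hS w).1 hw).2).1.2 v h2 hvw
        rw [((hS w).1 hw).2] at h3
        omega
      by_cases hvS : v ∈ S
      · rw [Finset.sum_eq_single v]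
        · rw [(hP v ((hS v).1 hvS).1 ((hS v).1 hvS).2).1.1, mul_one, sub_self]
        · intro w hw hwv
          rw [h0 w hw hwv.symm, mul_zero]
        · intro h
          exact absurd hvS h
      · have h2 : m.coeff v = 0 := by
          by_contra h3
          apply hvS
          rw [hS]
          refine ⟨h3, ?_⟩
          have := hlt v h3
          push_cast at this
          omega
        rw [h2, zero_sub, neg_eq_zero]
        refine Finset.sum_eq_zero fun w hw => ?_
        rw [h0 w hw (fun h => hvS (by rw [h]; exact hw)), mul_zero]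
    have h2 : m = (m + (-1 : ℤ) • T) + T := by
      rw [neg_smul, one_smul, neg_add_cancel_right]
    rw [h2]
    exact U.add_mem hm' hTU

/-- The characters are the `ℤ`-combinations of the irreducible characters. -/
theorem alg_irr (n : ℕ) (U : AddSubgroup (R n))
    (hU : ∀ (k : ℤ) (μ : Fin n → ℤ) (m : Wt n →₀ ℤ), IsIrr k μ m →
      (AddMonoidAlgebra.ofCoeff m : R n) ∈ U)
    (m : R n) (hm : IsCharacter m.coeff) : m ∈ U := by
  classical
  obtain ⟨N, hN⟩ : ∃ N : ℕ, ∀ w, m.coeff w ≠ 0 → ht w < N := by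
    refine ⟨(∑ w ∈ m.coeff.support, |ht w|).toNat + 1, fun w hw => ?_⟩
    have h1 : |ht w| ≤ ∑ w ∈ m.coeff.support, |ht w| :=
      Finset.single_le_sum (f := fun w => |ht w|) (fun v _ => abs_nonneg _)
        (Finsupp.mem_support_iff.mpr hw)
    have h2 := le_abs_self (ht w)
    have h3 := Int.self_le_toNat (∑ w ∈ m.coeff.support, |ht w|)
    push_cast
    omega
  refine Gen_ind n U (fun w hw => ?_) N m hm hN
  obtain ⟨k, μ⟩ := w
  obtain ⟨m', h1, h2⟩ := exists_isIrr k μ (fun i j hij => hw.2 i j hij) hw.1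
  exact ⟨AddMonoidAlgebra.ofCoeff m', hU k μ m' h1, h1.top, h2⟩

/-- `IsIrr` determines the character. -/
theorem IsIrr.unique {N : ℕ} {k : ℤ} {μ : Fin N → ℤ} {m m' : Wt N →₀ ℤ} (h : IsIrr k μ m)
    (h' : IsIrr k μ m') : m = m' := by
  have h1 := h.2.2.trans h'.2.2.symm
  have h2 := mul_right_cancel₀ alt_one_ne_zero h1
  exact AddMonoidAlgebra.ofCoeff_injective h2

theorem IsIrr.isCharacter {N : ℕ} {k : ℤ} {μ : Fin N → ℤ} {m : Wt N →₀ ℤ} (h : IsIrr k μ m) :
    IsCharacter m := by
  obtain ⟨m', h1, h2⟩ := exists_isIrr k μ h.1 h.2.1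
  rwa [h.unique h1]

end Pool.Agent.EEA520

end
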