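import Pool.Agent.W_eea520_n.K0
import Pool.Agent.W_eea520_n.AlgZ

/-!
# The root system `B_n` (MP_eea520_nt, edge theorem for `GSp(2n)`)
-/

set_option autoImplicit false

namespace Pool.Agent.EEAN

open Filter Topology Pool.Agent.EEA520 Pool.Agent.EEAG1

/-- The positive roots of `B_n`. -/
noncomputable def rtsN (n : ℕ) : List (Fin n → ℤ) :=
  ((Finset.univ : Finset (Fin n)).toList.map fun i => (Pi.single i 1 : Fin n → ℤ)) ++
    (((Finset.univ : Finset (Fin n × Fin n)).filter fun q => q.1 < q.2).toList.map fun q =>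
      (Pi.single q.1 1 - Pi.single q.2 1 : Fin n → ℤ)) ++
    ((Finset.univ : Finset (Fin n × Fin n)).filter fun q => q.1 < q.2).toList.map fun q =>
      (Pi.single q.1 1 + Pi.single q.2 1 : Fin n → ℤ)

/-- The sign of an element of the Weyl group. -/
def sgn {n : ℕ} (g : WG n) : ℤ := (Equiv.Perm.sign g.1 : ℤ) * (-1) ^ g.2.card

/-- The maximum norm. -/
def nrm {n : ℕ} (x : Fin n → ℤ) : ℕ := Finset.univ.sup fun i => (x i).natAbs

/-- The embedding of the weights of `SO(2n+1)`. -/
def emb (n : ℕ) : (Fin n → ℤ) →+ Wt n where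
  toFun x := (0, x)
  map_zero' := rfl
  map_add' _ _ := rfl

end Pool.Agent.EEAN
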