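import Pool.Agent.W_eea520_n.B0

set_option autoImplicit false

namespace Pool.Agent.EEAN

open Filter Topology Pool.Agent.EEA520 Pool.Agent.EEAG1

variable {n : ℕ}

theorem B1a_mon_sum {ι : Type} (s : Finset ι) (w : ι → Wt n) :
    (mon (∑ i ∈ s, w i) : R n) = ∏ i ∈ s, mon (w i) := by
  classical
  induction s using Finset.induction_on with
  | empty => rw [Finset.sum_empty, Finset.prod_empty]; exact mon_zero
  | insert a s ha ih => rw [Finset.sum_insert ha, Finset.prod_insert ha, ← mon_mul, ih]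

theorem B1a_prod (K : ℤ) (a b : Fin n → ℤ) (J : Finset (Fin n)) :
    (mon (K, 0) : R n) * ((∏ i ∈ Finset.univ \ J, mon (0, Pi.single i (a i))) *
      ∏ i ∈ J, mon (0, Pi.single i (b i))) =
      mon (K, fun i => if i ∈ J then b i else a i) := by
  classical
  rw [← B1a_mon_sum, ← B1a_mon_sum, mon_mul, mon_mul]
  congr 1
  refine Prod.ext ?_ ?_
  · simp [Prod.fst_sum]
  · funext j
    simp only [Prod.snd_add, Prod.snd_sum, Pi.add_apply, Finset.sum_apply, Pi.zero_apply]
    rw [zero_add]
    have h1 : ∀ (s : Finset (Fin n)) (c : Fin n → ℤ),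
        (∑ i ∈ s, (Pi.single i (c i) : Fin n → ℤ) j) = if j ∈ s then c j else 0 := by
      intro s c
      exact Finset.sum_pi_single j c s
    rw [h1, h1]
    by_cases hj : j ∈ J
    · simp [hj]
    · simp [hj]

/-- The composition of two elements of the Weyl group. -/
def B1a_mul (g h : WG n) : WG n :=
  (h.1 * g.1, symmDiff g.2 (Finset.univ.filter fun i => g.1 i ∈ h.2))

theorem B1a_act_mul (g h : WG n) (w : Wt n) : act (B1a_mul g h) w = act g (act h w) := by
  rw [act_apply, act_apply g, act_apply h]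
  refine Prod.ext rfl ?_
  funext i
  simp only [B1a_mul, Finset.mem_symmDiff, Finset.mem_filter, Finset.mem_univ, true_and,
    Equiv.Perm.mul_apply]
  by_cases h1 : i ∈ g.2 <;> by_cases h2 : g.1 i ∈ h.2
  · simp [h1, h2]
  · simp [h1, h2]
  · simp [h1, h2]
  · simp [h1, h2]

theorem B1a_pow_card (A : Finset (Fin n)) :
    ((-1 : ℤ)) ^ A.card = ∏ i : Fin n, if i ∈ A then (-1 : ℤ) else 1 := by
  rw [Finset.prod_ite_mem, Finset.univ_inter, Finset.prod_const]

theorem B1a_sgn_mul (g h : WG n) : sgn (B1a_mul g h) = sgn g * sgn h := by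
  have h1 : ((-1 : ℤ)) ^ (symmDiff g.2 (Finset.univ.filter fun i => g.1 i ∈ h.2)).card =
      (-1) ^ g.2.card * (-1) ^ h.2.card := by
    rw [B1a_pow_card, B1a_pow_card, B1a_pow_card,
      ← Equiv.prod_comp g.1 (fun i => if i ∈ h.2 then (-1 : ℤ) else 1), ← Finset.prod_mul_distrib]
    refine Finset.prod_congr rfl fun i _ => ?_
    simp only [Finset.mem_symmDiff, Finset.mem_filter, Finset.mem_univ, true_and]
    by_cases h1 : i ∈ g.2 <;> by_cases h2 : g.1 i ∈ h.2
    · simp [h1, h2]
    · simp [h1, h2]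
    · simp [h1, h2]
    · simp [h1, h2]
  unfold sgn
  have h2 : (B1a_mul g h).2 = symmDiff g.2 (Finset.univ.filter fun i => g.1 i ∈ h.2) := rfl
  have h3 : (B1a_mul g h).1 = h.1 * g.1 := rfl
  rw [h2, h3, h1, Equiv.Perm.sign_mul, Units.val_mul]
  ring

theorem B1a_mul_bijective (g : WG n) : Function.Bijective (B1a_mul g) := by
  refine Finite.injective_iff_bijective.mp ?_
  intro h h' e
  have e1 : h.1 * g.1 = h'.1 * g.1 := congrArg Prod.fst e
  have e2 : symmDiff g.2 (Finset.univ.filter fun i => g.1 i ∈ h.2) =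
      symmDiff g.2 (Finset.univ.filter fun i => g.1 i ∈ h'.2) := congrArg Prod.snd e
  refine Prod.ext (mul_right_cancel e1) ?_
  have e3 := symmDiff_right_injective g.2 e2
  ext j
  have e4 := Finset.ext_iff.mp e3 (g.1.symm j)
  simpa using e4

/-- Leibniz: `alt K M = mon (K, 0) * ∑_σ sign σ ∏_i (mon (0, single (σ i) (M i)) - mon (0, single (σ i) (K - M i)))`
(`Matrix.det_apply'`). Expand the product over the subsets `J` of `Fin n` (`Finset.prod_sub` or
`Finset.prod_add`): the term of `J` is `(-1) ^ |J|` times `mon` of the weight which is `M i` at `σ i` if `i ∉ J` and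
`K - M i` if `i ∈ J`. With `g = (σ⁻¹, J.map σ)`, this is `act g (K, M)`, see `act_apply`:
`act g w = (w.1, fun i => if i ∈ g.2 then w.1 - w.2 (g.1 i) else w.2 (g.1 i))`; and `sign σ⁻¹ = sign σ`. -/
theorem alt_eq_sum (K : ℤ) (M : Fin n → ℤ) :
    alt K M = ∑ g : WG n, sgn g • (mon (act g (K, M)) : R n) := by
  classical
  unfold alt
  rw [← Matrix.det_transpose, Matrix.det_apply', Finset.mul_sum, Fintype.sum_prod_type]
  refine Finset.sum_congr rfl fun τ _ => ?_
  have h1 : (∏ i, (Matrix.of fun i j : Fin n =>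
      (mon (0, Pi.single i (M j)) - mon (0, Pi.single i (K - M j)) : R n)).transpose (τ i) i) =
      ∏ i : Fin n, ((mon (0, Pi.single i (M (τ i))) : R n) - mon (0, Pi.single i (K - M (τ i)))) :=
    Finset.prod_congr rfl fun i _ => rfl
  rw [h1, Finset.prod_sub, Finset.powerset_univ, Finset.mul_sum, Finset.mul_sum]
  refine Finset.sum_congr rfl fun J _ => ?_
  rw [act_apply]
  have h2 := B1a_prod K (fun i => M (τ i)) (fun i => K - M (τ i)) J
  have h3 : (mon (K, fun i => if i ∈ J then K - M (τ i) else M (τ i)) : R n) =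
      mon (K, 0) * ((∏ i ∈ Finset.univ \ J, mon (0, Pi.single i (M (τ i)))) *
      ∏ i ∈ J, mon (0, Pi.single i (K - M (τ i)))) := h2.symm
  show _ = sgn (τ, J) • (mon (K, fun i => if i ∈ J then K - M (τ i) else M (τ i)) : R n)
  rw [h3, sgn, zsmul_eq_mul]
  push_cast
  ring

/-- From `alt_eq_sum`. -/
theorem alt_coeff (K : ℤ) (M : Fin n → ℤ) (u : Wt n) :
    (alt K M).coeff u = ∑ g : WG n, sgn g * if act g (K, M) = u then 1 else 0 := by
  classical
  rw [alt_eq_sum, AddMonoidAlgebra.coeff_sum, Finsupp.finsetSum_apply]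
  refine Finset.sum_congr rfl fun g _ => ?_
  rw [AddMonoidAlgebra.coeff_smul_apply, smul_eq_mul, mon, AddMonoidAlgebra.coeff_single,
    Finsupp.single_apply]

/-- From `alt_eq_sum` (`Finsupp.sum` of a sum; for `f : Wt n → ℝ` too, so it is stated for reals). -/
theorem alt_sum (K : ℤ) (M : Fin n → ℤ) (f : Wt n → ℤ) :
    ((alt K M).coeff.sum fun u z => z * f u) = ∑ g : WG n, sgn g * f (act g (K, M)) := by
  classical
  have h0 : ∀ (x : Wt n →₀ ℤ), (x.sum fun u z => z * f u) =
      (Finsupp.lsum ℤ fun u => (LinearMap.mulRight ℤ (f u) : ℤ →ₗ[ℤ] ℤ)) x := by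
    intro x
    rw [Finsupp.lsum_apply]
    rfl
  rw [h0, alt_eq_sum, AddMonoidAlgebra.coeff_sum, map_sum]
  refine Finset.sum_congr rfl fun g _ => ?_
  rw [AddMonoidAlgebra.coeff_smul, map_smul, smul_eq_mul, ← h0, mon, AddMonoidAlgebra.coeff_single,
    Finsupp.sum_single_index (by ring), one_mul]

/-- The alternating sums are antisymmetric. For `g = (σ, ∅)`: permuting the rows of the determinant; for
`g = (1, {i})`: the row `i` changes the sign and `mon (K, 0)` becomes `mon (K, single i K)`. Or: the Weyl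
group is closed under composition: `act g ∘ act h = act (g h)` for a suitable `g h` (bijection in `h`)
with `sgn (g h) = sgn g * sgn h`; and then `alt_coeff`, `act_injective`. In the second way: for
`g = (σ, I)`, `h = (τ, J)`, `act g (act h w)` at `i` is: `w.2 (τ (σ i))`, reflected if exactly one of
`i ∈ I`, `σ i ∈ J` holds, so `g h = (τ * σ, I ∆ σ⁻¹ J)` (`Equiv.Perm` product `(τ * σ) i = τ (σ i)`), and
`(-1) ^ |I ∆ J'| = (-1) ^ |I| (-1) ^ |J'|`. -/
theorem alt_act (g : WG n) (K : ℤ) (M : Fin n → ℤ) (u : Wt n) :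
    (alt K M).coeff (act g u) = sgn g * (alt K M).coeff u := by
  classical
  rw [alt_coeff, alt_coeff, Finset.mul_sum]
  rw [← (B1a_mul_bijective g).sum_comp fun h => sgn h * if act h (K, M) = act g u then 1 else 0]
  refine Finset.sum_congr rfl fun h _ => ?_
  rw [B1a_sgn_mul, B1a_act_mul]
  have h1 : (act g (act h (K, M)) = act g u) ↔ act h (K, M) = u := (act_injective g).eq_iff
  simp only [h1]
  ring

end Pool.Agent.EEAN
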