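import Pool.Agent.W_eea520_n.B1a

set_option autoImplicit false

namespace Pool.Agent.EEAN

open Filter Topology Pool.Agent.EEA520 Pool.Agent.EEAG1

variable {n : ℕ}

/-- The linear functional `[u] ↦ f u`. -/
noncomputable def B1b_L (f : Wt n → ℤ) : R n →+ ℤ :=
  (Finsupp.liftAddHom fun u => AddMonoidHom.mulRight (f u)).comp
    (AddMonoidAlgebra.coeffAddEquiv : R n ≃+ (Wt n →₀ ℤ)).toAddMonoidHom

theorem B1b_L_apply (f : Wt n → ℤ) (P : R n) :
    B1b_L f P = P.coeff.sum fun u z => z * f u := rfl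

theorem B1b_L_single (f : Wt n → ℤ) (w : Wt n) (z : ℤ) :
    B1b_L f (AddMonoidAlgebra.single w z) = z * f w := by
  rw [B1b_L_apply, AddMonoidAlgebra.coeff_single, Finsupp.sum_single_index (zero_mul _)]

theorem B1b_L_add_fun (f g : Wt n → ℤ) (P : R n) :
    B1b_L (fun u => f u + g u) P = B1b_L f P + B1b_L g P := by
  rw [B1b_L_apply, B1b_L_apply, B1b_L_apply, ← Finsupp.sum_add]
  refine Finsupp.sum_congr fun u _ => ?_
  ring

theorem B1b_L_mul (f : Wt n → ℤ) (P Q : R n) :
    B1b_L f (P * Q) = B1b_L (fun w => B1b_L (fun u => f (w + u)) Q) P := by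
  induction P using AddMonoidAlgebra.induction_linear with
  | zero => rw [zero_mul, map_zero, map_zero]
  | add x y hx hy => rw [add_mul, map_add, map_add, hx, hy]
  | single w z =>
    rw [B1b_L_single]
    induction Q using AddMonoidAlgebra.induction_linear with
    | zero => rw [mul_zero, map_zero, map_zero, mul_zero]
    | add x y hx hy => rw [mul_add, map_add, map_add, hx, hy, mul_add]
    | single v y =>
      rw [AddMonoidAlgebra.single_mul_single, B1b_L_single, B1b_L_single]
      ring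

theorem B1b_sgn (g : WG n) : sgn g * sgn g = 1 := by
  unfold sgn
  rcases Int.units_eq_one_or (Equiv.Perm.sign g.1) with h | h <;>
    rcases neg_one_pow_eq_or ℤ g.2.card with h' | h' <;> rw [h, h'] <;> norm_num

/-- Substitution `u = act g v` in an alternating sum. -/
theorem B1b_subst (g : WG n) (K : ℤ) (M : Fin n → ℤ) (f : Wt n → ℤ)
    (hf : ∀ g w, f (act g w) = f w) :
    B1b_L (fun u => f (u - act g (rho n))) (alt K M) =
      sgn g * B1b_L (fun u => f (u - rho n)) (alt K M) := by
  classical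
  rw [B1b_L_apply, B1b_L_apply, Finsupp.sum, Finsupp.sum, Finset.mul_sum]
  symm
  have hs : sgn g ≠ 0 := by
    intro h
    have := B1b_sgn g
    rw [h] at this
    norm_num at this
  refine Finset.sum_bij (fun v _ => act g v) ?_ ?_ ?_ ?_
  · intro v hv
    rw [Finsupp.mem_support_iff] at hv ⊢
    rw [alt_act]
    exact mul_ne_zero hs hv
  · intro v _ w _ h
    exact act_injective g h
  · intro u hu
    obtain ⟨v, rfl⟩ := act_surjective g u
    refine ⟨v, ?_, rfl⟩
    rw [Finsupp.mem_support_iff] at hu ⊢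
    rw [alt_act] at hu
    exact right_ne_zero_of_mul hu
  · intro v _
    rw [alt_act, ← map_sub, hf]
    ring

theorem B1b_fin {A : Type} [CommRing A] (s c c' P P' V : A) (h1 : s * s = 1) (h2 : c * c' = 1) :
    P * P' * (V * V) = s * (c * P * V) * (s * (c' * P' * V)) := by
  linear_combination (-(c * c' * P * P' * (V * V))) * h1 - (P * P' * (V * V)) * h2

/-- The product over the pairs. -/
theorem B1b_VV (y : Fin n → R n) :
    VV y * VV y = ∏ q ∈ (Finset.univ : Finset (Fin n × Fin n)).filter fun q => q.1 < q.2,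
      (y q.2 - y q.1) ^ 2 := by
  rw [VV_eq, ← Fintype.prod_prod_type' (f := fun i j : Fin n => if i < j then y j - y i else 1),
    ← Finset.prod_mul_distrib, Finset.prod_filter]
  refine Finset.prod_congr rfl fun q _ => ?_
  split_ifs
  · rw [pow_two]
  · rw [mul_one]

theorem B1b_pair {A : Type} [CommRing A] (a a' b b' : A) (h1 : a * a' = 1) (h2 : b * b' = 1) :
    (1 - a * b') * (1 - a' * b) * ((1 - a * b) * (1 - a' * b')) = (b + b' - (a + a')) ^ 2 := by
  have e1 : (1 - a * b') * (1 - a' * b) = 2 - a * b' - a' * b := by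
    linear_combination (b * b') * h1 + h2
  have e2 : (1 - a * b) * (1 - a' * b') = 2 - a * b - a' * b' := by
    linear_combination (b * b') * h1 + h2
  rw [e1, e2]
  linear_combination (a ^ 2 + a' ^ 2 - 2) * h2 + (b ^ 2 + b' ^ 2 - 2) * h1

theorem B1b_emb (γ : Fin n → ℤ) :
    (AddMonoidAlgebra.mapDomainRingHom ℤ (emb n) (AddMonoidAlgebra.single γ 1) : R n) =
      mon (0, γ) := by
  rw [AddMonoidAlgebra.mapDomainRingHom_apply, AddMonoidAlgebra.mapDomain_single]
  rfl

/-- The image of `ddA (rtsN n)` in the group ring `R n` of the weights under `x ↦ (0, x)` is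
`D * D'` with `D = alt 1 (n - j)` and `D' = ∑_g sgn g [- act g ρ]`, the image of `D` under `w ↦ -w`.

Proof. By `alt_one` (in `AlgY.lean`) `D = s * (mon (1, 0) * ∏_i (x_i - 1) * VV y)`, `s = ± 1`,
`x_i = xx i 1`, `y_i = x_i + x_i⁻¹`, `VV y = ∏_{i < j} (y_j - y_i)`. Let `φ : R n →+* R n` be the map
`w ↦ -w` (`actR` in `AlgZ.lean` for `AddEquiv.neg`, with `actR_mon`). Then `φ y_i = y_i`, so
`D * φ D = ∏_i (x_i - 1) (x_i⁻¹ - 1) * ∏_{i < j} (y_j - y_i) ^ 2`, and
`(x_i - 1) (x_i⁻¹ - 1) = (1 - x_i) (1 - x_i⁻¹)`,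
`(y_j - y_i) ^ 2 = (1 - x_i x_j⁻¹) (1 - x_i⁻¹ x_j) (1 - x_i x_j) (1 - x_i⁻¹ x_j⁻¹)` (ring identity modulo
`x_i x_i⁻¹ = 1`; `xx_mul_xx_neg`). The right side is the image of `ddA (rtsN n)` (`List.prod_append`,
`Finset.prod_toList` or `Finset.prod_map_toList`). Finally `φ D = ∑_g sgn g [- act g ρ]` by `alt_eq_sum`. -/
theorem ddA_eq : (AddMonoidAlgebra.mapDomainRingHom ℤ (emb n) (ddA (rtsN n)) : R n) =
    alt 1 (fun j : Fin n => (n : ℤ) - j) *
      ∑ g : WG n, sgn g • (mon (-act g (rho n)) : R n) := by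
  classical
  -- the left side
  have hL : (AddMonoidAlgebra.mapDomainRingHom ℤ (emb n) (ddA (rtsN n)) : R n) =
      (∏ i : Fin n, (xx i 1 - 1) * (xx i (-1) - 1)) * (VV (yR n) * VV (yR n)) := by
    have h1 : ∀ l : List (Fin n → ℤ),
        (AddMonoidAlgebra.mapDomainRingHom ℤ (emb n) (ddA l) : R n) =
          (l.map fun γ => ((1 : R n) - mon (0, γ)) * (1 - mon (0, -γ))).prod := by
      intro l
      unfold ddA
      rw [map_list_prod, List.map_map]
      congr 1
      refine List.map_congr_left fun γ _ => ?_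
      show AddMonoidAlgebra.mapDomainRingHom ℤ (emb n)
        (((1 : AddMonoidAlgebra ℤ (Fin n → ℤ)) - AddMonoidAlgebra.single γ 1) *
          (1 - AddMonoidAlgebra.single (-γ) 1)) = _
      rw [map_mul, map_sub, map_sub, map_one, B1b_emb, B1b_emb]
    rw [h1]
    unfold rtsN
    rw [List.map_append, List.map_append, List.prod_append, List.prod_append, List.map_map,
      List.map_map, List.map_map, Finset.prod_map_toList, Finset.prod_map_toList,
      Finset.prod_map_toList, mul_assoc, ← Finset.prod_mul_distrib, B1b_VV]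
    refine congrArg₂ (fun a b : R n => a * b) ?_ ?_
    · refine Finset.prod_congr rfl fun i _ => ?_
      show ((1 : R n) - mon (0, Pi.single i 1)) * (1 - mon (0, -Pi.single i 1)) = _
      rw [← Pi.single_neg]
      show ((1 : R n) - xx i 1) * (1 - xx i (-1)) = _
      ring
    · refine Finset.prod_congr rfl fun q _ => ?_
      show ((1 : R n) - mon (0, Pi.single q.1 1 - Pi.single q.2 1)) *
          (1 - mon (0, -(Pi.single q.1 1 - Pi.single q.2 1))) *
          (((1 : R n) - mon (0, Pi.single q.1 1 + Pi.single q.2 1)) *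
          (1 - mon (0, -(Pi.single q.1 1 + Pi.single q.2 1)))) = _
      have k : ∀ a b : ℤ, (mon (0, Pi.single q.1 a + Pi.single q.2 b) : R n) =
          xx q.1 a * xx q.2 b := by
        intro a b
        rw [xx, xx, mon_mul, Prod.mk_add_mk, add_zero]
      have k1 : (Pi.single q.1 1 - Pi.single q.2 1 : Fin n → ℤ) =
          Pi.single q.1 1 + Pi.single q.2 (-1) := by
        rw [Pi.single_neg, sub_eq_add_neg]
      have k2 : (-(Pi.single q.1 1 - Pi.single q.2 1) : Fin n → ℤ) =
          Pi.single q.1 (-1) + Pi.single q.2 1 := by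
        rw [Pi.single_neg]
        abel
      have k3 : (-(Pi.single q.1 1 + Pi.single q.2 1) : Fin n → ℤ) =
          Pi.single q.1 (-1) + Pi.single q.2 (-1) := by
        rw [Pi.single_neg, Pi.single_neg]
        abel
      rw [k2, k1, k3, k, k, k, k, B1b_pair _ _ _ _ (xx_mul_xx_neg q.1) (xx_mul_xx_neg q.2)]
      rfl
  -- the right side
  have hneg : ∀ w : Wt n, actR (AddEquiv.neg (Wt n)) (mon w) = (mon (-w) : R n) := by
    intro w
    rw [actR_mon]
    rfl
  have hR : (∑ g : WG n, sgn g • (mon (-act g (rho n)) : R n)) =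
      actR (AddEquiv.neg (Wt n)) (alt 1 (fun j : Fin n => (n : ℤ) - j)) := by
    rw [alt_eq_sum, map_sum]
    refine Finset.sum_congr rfl fun g _ => ?_
    rw [map_zsmul, hneg]
    rfl
  obtain ⟨s, hs⟩ := alt_one (N := n)
  have hx : ∀ (i : Fin n) (a : ℤ), actR (AddEquiv.neg (Wt n)) (xx i a) = xx i (-a) := by
    intro i a
    rw [xx, hneg, xx, Prod.neg_mk, neg_zero, Pi.single_neg]
  have hy : ∀ i : Fin n, actR (AddEquiv.neg (Wt n)) (yR n i) = yR n i := by
    intro i
    unfold yR
    rw [map_add, hx, hx, neg_neg, add_comm]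
  rw [hL, hR, hs, map_mul, map_mul, map_mul, map_intCast, hneg, map_prod, VV_map]
  have h3 : ∀ i : Fin n, actR (AddEquiv.neg (Wt n)) (xx i 1 - 1) = xx i (-1) - 1 := by
    intro i
    rw [map_sub, hx, map_one]
  simp only [h3, hy]
  rw [Finset.prod_mul_distrib]
  have h4 : (mon (1, 0) * mon (-(1, 0)) : R n) = 1 := by
    rw [mon_mul, add_neg_cancel, mon_zero]
  have h5 : (((s : ℤ) : R n)) * ((s : ℤ) : R n) = 1 := by
    rcases Int.units_eq_one_or s with rfl | rfl <;> simp
  exact B1b_fin _ _ _ _ _ _ h5 h4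

/-- Compare the coefficients at `(0, x)` in `ddA_eq` (the coefficient of `D * [v]` at `w` is the coefficient of
`D` at `w - v`; `emb n` is injective). -/
theorem dd_eq (x : Fin n → ℤ) : dd (rtsN n) x =
    ∑ g : WG n, sgn g * (alt 1 (fun j : Fin n => (n : ℤ) - j)).coeff ((0, x) + act g (rho n)) := by
  have hinj : Function.Injective (emb n) := fun a b h => (Prod.mk.inj h).2
  have h1 : dd (rtsN n) x =
      (AddMonoidAlgebra.mapDomainRingHom ℤ (emb n) (ddA (rtsN n)) : R n).coeff (emb n x) :=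
    (Finsupp.mapDomain_apply hinj _ _).symm
  rw [h1, ddA_eq, Finset.mul_sum, AddMonoidAlgebra.coeff_sum, Finsupp.finsetSum_apply]
  refine Finset.sum_congr rfl fun g _ => ?_
  rw [mul_smul_comm, AddMonoidAlgebra.coeff_smul, Finsupp.smul_apply, smul_eq_mul]
  congr 1
  rw [mon, AddMonoidAlgebra.coeff_mul_single_eq_coeff_mul (emb n x + act g (rho n)), mul_one]
  · rfl
  · intro v _
    rw [← sub_eq_add_neg, sub_eq_iff_eq_add]

/-- For every Weyl group invariant `f` and every irreducible character `m`. Let `D = alt 1 (n - j)`. By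
`dd_eq` the inner sum is `∑_x ∑_h sgn h * D.coeff ((0, x) + act h ρ) * f (w + (0, x))`; put
`u' = (0, x) + act h ρ` (all `u'` in the support of `D` have first coordinate `1`, so all of them are of
this form): `∑_h sgn h ∑_{u'} D.coeff u' * f (w + u' - act h ρ)`. So the left side is
`∑_h sgn h ∑_w ∑_{u'} m w * D.coeff u' * f (w + u' - act h ρ) = ∑_h sgn h ∑_u (m * D).coeff u * f (u - act h ρ)`,
and `m * D = alt (k + 1) (μ + n - j) =: B` by `IsIrr`. For fixed `h` substitute `u = act h v` (`act h` is a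
bijection): `B.coeff (act h v) = sgn h * B.coeff v` (`alt_act`) and `f (act h v - act h ρ) = f (v - ρ)`
(`map_sub`, `hf`). As `sgn h ^ 2 = 1`, all the `h` give `∑_v B.coeff v * f (v - ρ) = ordE f k μ`. -/
theorem formula {k : ℤ} {μ : Fin n → ℤ} {m : Wt n →₀ ℤ} (h : IsIrr k μ m) (f : Wt n → ℤ)
    (hf : ∀ g w, f (act g w) = f w) :
    (m.sum fun w z => z * (dd (rtsN n)).sum fun x y => y * f (w + (0, x))) =
      Fintype.card (WG n) * ordE f k μ := by
  have h1 : ∀ w : Wt n, ((dd (rtsN n)).sum fun x y => y * f (w + (0, x))) =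
      B1b_L (fun u => f (w + u))
        (AddMonoidAlgebra.mapDomainRingHom ℤ (emb n) (ddA (rtsN n)) : R n) := by
    intro w
    rw [B1b_L_apply]
    exact (Finsupp.sum_mapDomain_index (f := emb n) (s := dd (rtsN n))
      (h := fun u z => z * f (w + u)) (fun _ => zero_mul _) (fun _ _ _ => add_mul _ _ _)).symm
  have h2 : (m.sum fun w z => z * (dd (rtsN n)).sum fun x y => y * f (w + (0, x))) =
      B1b_L f (AddMonoidAlgebra.ofCoeff m *
        (AddMonoidAlgebra.mapDomainRingHom ℤ (emb n) (ddA (rtsN n)) : R n)) := by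
    rw [B1b_L_mul, B1b_L_apply]
    simp only [h1]
  rw [h2, ddA_eq, ← mul_assoc, h.2.2, Finset.mul_sum, map_sum]
  have h3 : ∀ g : WG n, B1b_L f (alt (k + 1) (fun j : Fin n => μ j + ((n : ℤ) - j)) *
      sgn g • (mon (-act g (rho n)) : R n)) = ordE f k μ := by
    intro g
    rw [mul_smul_comm, map_zsmul, smul_eq_mul, B1b_L_mul]
    have h4 : ∀ w : Wt n, B1b_L (fun u => f (w + u)) (mon (-act g (rho n)) : R n) =
        f (w - act g (rho n)) := by
      intro w
      rw [mon, B1b_L_single, one_mul, sub_eq_add_neg]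
    simp only [h4]
    rw [B1b_subst g _ _ f hf, ← mul_assoc, B1b_sgn, one_mul]
    rfl
  rw [Finset.sum_congr rfl fun g _ => h3 g, Finset.sum_const, Finset.card_univ, nsmul_eq_mul]

end Pool.Agent.EEAN
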