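import Pool.Agent.W_eea520_n.B2a
import Pool.Agent.W_eea520_n.C1

set_option autoImplicit false

namespace Pool.Agent.EEAN

open Filter Topology Pool.Agent.EEA520 Pool.Agent.EEAG1

variable {n : ℕ}

/-- Invariance under the generators implies invariance under `act` (compare `IsCharacter.act` in
`W_eea520_G/D.lean`). -/
theorem isInv_act {f : Wt n → ℤ} (hf : IsInv f) (g : WG n) (w : Wt n) : f (act g w) = f w := by
  classical
  obtain ⟨σ, I⟩ := g
  obtain ⟨k, μ⟩ := w
  rw [act_apply]
  simp only
  induction I using Finset.induction_on with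
  | empty =>
    simp only [Finset.notMem_empty, if_false]
    exact hf.1 σ k μ
  | insert i I hi ih =>
    rw [← ih, ← hf.2 i k (fun j => if j ∈ I then k - μ (σ j) else μ (σ j))]
    congr 2
    funext j
    by_cases hj : j = i
    · subst hj
      rw [Function.update_self]
      simp [hi]
    · rw [Function.update_of_ne hj]
      simp [hj]

/-- For `k = 0` and a function which is zero on all weights: the order is zero. More precisely: only the
values `e u`, `u.1 = k`, matter (all weights in the support of `alt (k + 1) M` have first coordinate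
`k + 1`, and `(u - ρ).1 = k`). -/
theorem ordE_congr {e f : Wt n → ℤ} {k : ℤ} (h : ∀ w : Wt n, w.1 = k → e w = f w)
    (μ : Fin n → ℤ) : ordE e k μ = ordE f k μ := by
  unfold ordE
  rw [alt_sum (k + 1) (fun j : Fin n => μ j + ((n : ℤ) - j)) (fun u => e (u - rho n)),
    alt_sum (k + 1) (fun j : Fin n => μ j + ((n : ℤ) - j)) (fun u => f (u - rho n))]
  refine Finset.sum_congr rfl fun g _ => ?_
  rw [h]
  rw [act_apply]
  simp [rho]

/-- THE SATO-TATE CASE: the orders of all irreducible representations of dimension `> 1` are `0`. By definition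
`ordE (fun w => e (w, t)) k μ = ∑_u (alt (k + 1) (μ + n - j)).coeff u * e (u - ρ, t)`. Suppose that a term is not
zero; let `τ = u - ρ`, `τ.1 = k`, `e (τ, t) ≠ 0`. For every `g`, `e (act g τ, t) = e (τ, t) ≠ 0` (`isInv_act`), so
`e (act g τ - τ, 0) ≠ 0` (`sign_facts`), and `act g τ - τ = (0, x)`, so `x = 0` by `hst`: `act g τ = τ`. With
`g = (1, {i})`: `k - τ.2 i = τ.2 i`, so `2 τ.2 i = k` for all `i`. So `u = ρ + τ = (k + 1, n - j + τ.2 j)`, where
`τ.2 j = k / 2 =: κ` is constant, so `u` is regular dominant, and by `alt_dom` (`M' = n - j + κ`,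
`M = μ + n - j`) the coefficient is zero unless `μ = κ`, which is excluded by `hμ`. -/
theorem ordE_st {e : Wt n × ℝ → ℤ} (he : IsSign e) (hinv : ∀ t, IsInv fun w => e (w, t))
    (hst : ∀ x : Fin n → ℤ, x ≠ 0 → e ((0, x), 0) = 0) {k : ℤ} {μ : Fin n → ℤ} (h1 : Antitone μ)
    (h2 : ∀ i, k ≤ 2 * μ i) (hμ : ¬ ∀ i, 2 * μ i = k) (t : ℝ) :
    ordE (fun w => e (w, t)) k μ = 0 := by
  classical
  unfold ordE Finsupp.sum
  refine Finset.sum_eq_zero fun u _ => ?_
  by_contra hne
  have hcoef : (alt (k + 1) fun j : Fin n => μ j + ((n : ℤ) - j)).coeff u ≠ 0 := left_ne_zero_of_mul hne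
  have hE : e (u - rho n, t) ≠ 0 := right_ne_zero_of_mul hne
  -- the first coordinate
  have hu1 : u.1 = k + 1 := by
    by_contra hu
    apply hcoef
    rw [alt_coeff]
    refine Finset.sum_eq_zero fun g _ => ?_
    rw [if_neg, mul_zero]
    intro hg
    apply hu
    rw [← hg, act_apply]
  obtain ⟨-, -, hsub, -⟩ := sign_facts he hE
  have hτ1 : (u - rho n).1 = k := by
    simp [rho, hu1]
  have hτ : ∀ i, 2 * (u - rho n).2 i = k := by
    intro i
    have h3 := hsub (act (1, {i}) (u - rho n), t)
    have h4 : e (act (1, {i}) (u - rho n), t) = e (u - rho n, t) :=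
      isInv_act (hinv t) (1, {i}) (u - rho n)
    rw [h4] at h3
    have h5 : ((act (1, {i}) (u - rho n), t) - (u - rho n, t) : Wt n × ℝ) =
        ((0, (act (1, {i}) (u - rho n)).2 - (u - rho n).2), 0) := by
      rw [act_apply]
      ext
      · simp
      · simp
      · simp
    rw [h5] at h3
    have h6 : (act (1, {i}) (u - rho n)).2 - (u - rho n).2 = 0 := by
      by_contra h7
      rw [hst _ h7] at h3
      exact mul_ne_zero hE hE h3.symm
    have h8 := congrFun h6 i
    rw [act_apply] at h8
    simp only [Pi.sub_apply, Finset.mem_singleton, if_true, Equiv.Perm.coe_one, id_eq,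
      Pi.zero_apply] at h8
    rw [hτ1] at h8
    linarith
  have hu2 : ∀ j, u.2 j = (u - rho n).2 j + ((n : ℤ) - j) := by
    intro j
    simp [rho]
  have hn : ∀ j : Fin n, (1 : ℤ) ≤ (n : ℤ) - j := by
    intro j
    have := j.isLt
    omega
  have hu : u = (k + 1, u.2) := Prod.ext hu1 rfl
  apply hcoef
  rw [hu, alt_dom]
  · rw [if_neg]
    intro hM
    apply hμ
    intro i
    have h9 := congrFun hM i
    rw [hu2 i] at h9
    have h10 := hτ i
    linarith
  · intro i j hij
    have h11 := h1 hij.le
    have h12 : (i : ℕ) < j := hij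
    simp only
    omega
  · intro i
    have h13 := h2 i
    have h14 := hn i
    linarith
  · intro i j hij
    have h12 : (i : ℕ) < j := hij
    have h15 := hτ i
    have h16 := hτ j
    rw [hu2 i, hu2 j]
    omega
  · intro i
    have h14 := hn i
    have h15 := hτ i
    rw [hu2 i]
    linarith

/-- For `t ≠ 0` and `k = 0` the order is zero, if `e ((0, x), t) ≠ 0` only for `t = 0`. -/
theorem ordE_line {e : Wt n × ℝ → ℤ} (h : ∀ x t, e ((0, x), t) ≠ 0 → t = 0) {t : ℝ} (ht : t ≠ 0)
    (μ : Fin n → ℤ) : ordE (fun w => e (w, t)) 0 μ = 0 := by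
  have h1 : ordE (fun w => e (w, t)) 0 μ = ordE (fun _ : Wt n => 0) 0 μ := by
    refine ordE_congr (fun w hw => ?_) μ
    by_contra hne
    apply ht
    apply h w.2 t
    rwa [show ((0, w.2) : Wt n) = w from Prod.ext hw.symm rfl]
  rw [h1]
  unfold ordE Finsupp.sum
  exact Finset.sum_eq_zero fun u _ => mul_zero _

end Pool.Agent.EEAN
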