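import Pool.Agent.W_eea520_n.E1
import Pool.Agent.W_eea520_n.E2
import Pool.Agent.W_eea520_G.N2

set_option autoImplicit false

namespace Pool.Agent.EEAN

open Filter Topology Pool.Agent.EEA520 Pool.Agent.EEAG1

variable {n : ℕ}

/-- Natural density: `nmean_of_poleOrder` (`W_eea520_G/N2.lean`), `NMean` is `NatMean` by definition up to the
name (`nsum`), `tre π m 0 p = (trc π m p).re` (`tre_eq`, `tcx` is `trc`, and `p ^ 0 = 1`). -/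
theorem natMean_of {π : GSys n} (hπ : Tempered π) {m : Wt n →₀ ℤ} {a : ℤ}
    (h0 : PoleOrder π m (pt 0) a) (h : ∀ t : ℝ, t ≠ 0 → PoleOrder π m (pt t) 0) :
    NatMean (fun p => (trc π m p).re) a := by
  have h1 : NMean (tre π m 0) a := nmean_of_poleOrder hπ h0 h
  have h2 : tre π m 0 = fun p => (trc π m p).re := by
    funext p
    rw [tre_eq, Complex.ofReal_zero, zero_mul, neg_zero, Complex.cpow_zero, mul_one]
    rfl
  rw [h2] at h1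
  exact h1

/-- THE LINE. From `line_e`, `ordE_st`, `ordE_line`, `natMean_of`. -/
theorem lineN (n : ℕ) : ∃ R₀ : ℕ, ∀ R : ℕ, R₀ ≤ R → ∀ π : GSys n, Tempered π →
    (∀ (μ : Fin n → ℤ) (m : Wt n →₀ ℤ), IsIrr 0 μ m → μ ≠ 0 → (∀ i, μ i ≤ R) → PoleOrder π m 1 0) →
    ∀ E : AddSubgroup ℝ, (∀ (k : ℤ) (μ : Fin n → ℤ) (m : Wt n →₀ ℤ), IsIrr k μ m →
      ∀ t ∈ E, MeroAt π m (pt t)) →
    ∃ e : Wt n × ℝ → ℤ, IsSign e ∧ (∀ t, IsInv fun w => e (w, t)) ∧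
      SignType (fun x => e ((0, x), 0)) ∧ (∀ x : Fin n → ℤ, x ≠ 0 → (∀ i, |x i| ≤ R) → e ((0, x), 0) = 0) ∧
      (∀ x t, e ((0, x), t) ≠ 0 → t = 0) ∧
      (∀ (k : ℤ) (μ : Fin n → ℤ) (m : Wt n →₀ ℤ), IsIrr k μ m → ∀ t ∈ E,
        PoleOrder π m (pt t) (ordE (fun w => e (w, t)) k μ)) ∧
      (∀ w t, e (w, t) ≠ 0 →
        DirMean (fun p => (((π p).ev w : ℂ) * ((p : ℕ) : ℂ) ^ (-(t * Complex.I))).re) (e (w, t))) ∧
      ((∀ x : Fin n → ℤ, x ≠ 0 → e ((0, x), 0) = 0) → ∀ (k : ℤ) (μ : Fin n → ℤ) (m : Wt n →₀ ℤ), IsIrr k μ m →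
        (¬ ∀ i, 2 * μ i = k) → ∀ t ∈ E, PoleOrder π m (pt t) 0) ∧
      (E = ⊤ → ∀ (μ : Fin n → ℤ) (m : Wt n →₀ ℤ), IsIrr 0 μ m →
        NatMean (fun p => (trc π m p).re) (ordE (fun w => e (w, 0)) 0 μ)) := by
  obtain ⟨R₀, h⟩ := line_e n
  refine ⟨R₀, fun R hR π hπ hπR E hE => ?_⟩
  obtain ⟨e, h1, h2, h3, h4, h5, -, h7, h8⟩ := h R hR π hπ hπR E hE
  refine ⟨e, h1, h2, h3, h4, h5, h7, h8, ?_, ?_⟩
  · intro hst k μ m hm hμ t ht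
    have h9 := h7 k μ m hm t ht
    rw [ordE_st h1 h2 hst hm.1 hm.2.1 hμ t] at h9
    exact h9
  · intro hE' μ m hm
    have hmem : ∀ t : ℝ, t ∈ E := fun t => by
      rw [hE']
      exact AddSubgroup.mem_top t
    refine natMean_of hπ (h7 0 μ m hm 0 (hmem 0)) fun t ht => ?_
    have h9 := h7 0 μ m hm t (hmem t)
    rw [ordE_line h5 ht μ] at h9
    exact h9

end Pool.Agent.EEAN
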