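import Pool.Agent.W_eea520_n.A3
import Pool.Agent.W_eea520_n.E3
import Pool.Agent.W_eea520_c.RealC

set_option autoImplicit false

namespace Pool.Agent.EEAC

open Filter Topology Pool.Agent.EEA520 Pool.Agent.EEAN Pool.Agent.EEAG1 LSeries

variable {n : ℕ}

/-- Realization on all of `ℂ`, with the orders on the whole line. -/
theorem realizeCt {e : (Fin n → ℤ) → ℤ} (he : SignType e)
    (h : ∀ x : Fin n → ℤ, x ≠ 0 → (∀ i, |x i| ≤ 2 * n - 1) → e x = 0) :
    ∃ π : GSys n, Tempered π ∧ (∀ p, (π p).c ^ 2 * ∏ i, (π p).x i = 1) ∧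
      (∀ m : Wt n →₀ ℤ, IsCharacter m → Continues π m) ∧
      ∀ (μ : Fin n → ℤ) (m : Wt n →₀ ℤ), IsIrr 0 μ m → ∀ t : ℝ,
        PoleOrder π m (pt t) (if t = 0 then ordE (fun w => e w.2) 0 μ else 0) := by
  obtain ⟨π, h1, h2, h3⟩ := realize_all (C := R1C e) (fun F => to_XT (Mes_sign he h F))
    (fun m hm => by
      obtain ⟨a, ha⟩ := R1_int he hm
      exact ⟨a, ha.symm⟩)
  refine ⟨π, h1, h2, fun m hm => ?_, fun μ m hm t => ?_⟩
  · obtain ⟨a, b, H, -, hH, hp⟩ := h3 m hm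
    exact continues_of_form hH hp
  · obtain ⟨a, b, H, ha, hH, hp⟩ := h3 m hm.isCharacter
    have h4 := poleOrder_of_formC hH hp t
    have h6 := R1_int_irr he hm
    rw [h6] at ha
    have h7 : ((Fintype.card (WG n) : ℕ) : ℤ) ≠ 0 := by
      have := card_ne_zero' (n := n)
      exact_mod_cast this
    have h8 := mul_left_cancel₀ h7 ha
    rw [h8, R1_ordE] at h4
    exact h4

end Pool.Agent.EEAC
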