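import Pool.Agent.W_eea520_n.K0

set_option autoImplicit false

namespace Pool.Agent.EEAN

open Filter Topology Pool.Agent.EEA520 Pool.Agent.EEAG1
open scoped InnerProductSpace

/-- Unfold; `ddA [] = 1`, whose coefficients are `if x = 0 then 1 else 0`
(`AddMonoidAlgebra.one_def`, `AddMonoidAlgebra.coeff_single`, `Finsupp.single_apply`). -/
theorem dd_nil {X : Type} [AddCommGroup X] [DecidableEq X] (x : X) :
    dd ([] : List X) x = if x = 0 then 1 else 0 := by
  have h : ddA ([] : List X) = AddMonoidAlgebra.single 0 1 := by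
    rw [ddA, List.map_nil, List.prod_nil]
    exact AddMonoidAlgebra.one_def
  rw [dd, h, AddMonoidAlgebra.coeff_single, Finsupp.single_apply]
  simp only [eq_comm]

/-- `(1 - e_γ) (1 - e_{-γ}) = 2 - e_γ - e_{-γ}` (as `e_γ e_{-γ} = 1`), and the coefficient of `e_γ * f` at
`x` is the coefficient of `f` at `x - γ`. (`AddMonoidAlgebra.single_mul_single`, and for instance
`AddMonoidAlgebra.coeff_single_mul_apply` or a version of it, search with `grep -rn single_mul_apply`.) -/
theorem dd_cons {X : Type} [AddCommGroup X] (γ : X) (l : List X) (x : X) :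
    dd (γ :: l) x = 2 * dd l x - dd l (x - γ) - dd l (x + γ) := by
  have h : ddA (γ :: l) = (2 : ℤ) • ddA l - AddMonoidAlgebra.single γ 1 * ddA l -
      AddMonoidAlgebra.single (-γ) 1 * ddA l := by
    have h1 : (AddMonoidAlgebra.single γ 1 : AddMonoidAlgebra ℤ X) *
        AddMonoidAlgebra.single (-γ) 1 = 1 := by
      rw [AddMonoidAlgebra.single_mul_single, add_neg_cancel, mul_one]
      rfl
    have h2 : ddA (γ :: l) = ((1 : AddMonoidAlgebra ℤ X) - AddMonoidAlgebra.single γ 1) *
        (1 - AddMonoidAlgebra.single (-γ) 1) * ddA l := by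
      rw [ddA, List.map_cons, List.prod_cons]
      rfl
    rw [h2]
    have h3 : ((2 : ℤ) • ddA l) = (2 : AddMonoidAlgebra ℤ X) * ddA l := by
      rw [two_smul, two_mul]
    rw [h3]
    linear_combination ddA l * h1
  rw [dd, dd, h, AddMonoidAlgebra.coeff_sub, AddMonoidAlgebra.coeff_sub,
    AddMonoidAlgebra.coeff_smul, Finsupp.sub_apply, Finsupp.sub_apply, Finsupp.smul_apply,
    AddMonoidAlgebra.coeff_single_mul_apply, AddMonoidAlgebra.coeff_single_mul_apply, one_mul,
    one_mul, neg_neg, smul_eq_mul, neg_add_eq_sub, add_comm γ x]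

end Pool.Agent.EEAN
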