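import Pool.Agent.W_eea520_n.K0

set_option autoImplicit false

namespace Pool.Agent.EEAN

open Filter Topology Pool.Agent.EEA520 Pool.Agent.EEAG1
open scoped InnerProductSpace

/-- Pull back. For the nonnegativity apply `hc.nonneg` to `Finsupp.mapDomain f a` and use
`Finsupp.sum_mapDomain_index` twice and `map_sub`. -/
theorem posDefG_comp {G G' : Type} [AddCommGroup G] [AddCommGroup G'] {c : G → ℝ} (hc : PosDefG c)
    (f : G' →+ G) : PosDefG fun x => c (f x) := by
  classical
  refine ⟨fun k => ?_, fun x => ?_⟩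
  · show c (f (-k)) = c (f k)
    rw [map_neg, hc.symm]
  · have h := hc.nonneg (Finsupp.mapDomain f x)
    have h1 : ∀ (i : G) (a : ℝ), ((Finsupp.mapDomain f x).sum fun j b => a * b * c (i - j)) =
        x.sum fun j b => a * b * c (i - f j) := by
      intro i a
      refine Finsupp.sum_mapDomain_index (fun j => ?_) (fun j b b' => ?_)
      · rw [mul_zero, zero_mul]
      · rw [mul_add, add_mul]
    have h2 : ((Finsupp.mapDomain f x).sum fun i a => (Finsupp.mapDomain f x).sum fun j b =>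
        a * b * c (i - j)) = x.sum fun i a => x.sum fun j b => a * b * c (f i - f j) := by
      have h3 : (fun (i : G) (a : ℝ) => (Finsupp.mapDomain f x).sum fun j b => a * b * c (i - j)) =
          fun i a => x.sum fun j b => a * b * c (i - f j) := by
        funext i a
        exact h1 i a
      rw [h3]
      refine Finsupp.sum_mapDomain_index (fun i => ?_) (fun i a a' => ?_)
      · simp only [zero_mul]
        exact Finset.sum_const_zero
      · simp only [add_mul]
        exact Finset.sum_add_distrib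
    rw [h2] at h
    have h4 : (x.sum fun i a => x.sum fun j b => a * b * c (f (i - j))) =
        x.sum fun i a => x.sum fun j b => a * b * c (f i - f j) := by
      simp only [map_sub]
    rw [h4]
    exact h

/-- By `exists_gnsG hc` (Hilbert space `H`, operators `U`, vector `v` with `⟪U g v, v⟫ = c g`) and the
Cauchy-Schwarz inequality: `|c g| ≤ ‖U g v‖ ‖v‖ = ‖v‖ ^ 2 = c 0`. -/
theorem posDefG_abs_le {G : Type} [AddCommGroup G] {c : G → ℝ} (hc : PosDefG c) (g : G) :
    |c g| ≤ c 0 := by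
  obtain ⟨H, _, _, _, U, v, -, h0, hv⟩ := exists_gnsG hc
  have h1 : c 0 = ‖v‖ ^ 2 := by
    rw [← hv 0, h0, real_inner_self_eq_norm_sq]
  rw [← hv g, h1]
  refine (abs_real_inner_le_norm _ _).trans ?_
  rw [LinearIsometryEquiv.norm_map, sq]

/-- By `exists_gnsG hc`: `⟪U τ v, v⟫ = ε ‖v‖ ^ 2` implies `U τ v = ε • v` (expand `‖U τ v - ε • v‖ ^ 2 =
2 ‖v‖ ^ 2 - 2 ε ⟪U τ v, v⟫ = 0`, `ε ^ 2 = 1`), so `c (x + τ) = ⟪U x (U τ v), v⟫ = ε c x`. -/
theorem posDefG_shift {G : Type} [AddCommGroup G] {c : G → ℝ} (hc : PosDefG c) {τ : G} {ε : ℝ}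
    (hε : ε ^ 2 = 1) (h : c τ = ε * c 0) (x : G) : c (x + τ) = ε * c x := by
  obtain ⟨H, _, _, _, U, v, hadd, h0, hv⟩ := exists_gnsG hc
  have h1 : c 0 = ‖v‖ ^ 2 := by
    rw [← hv 0, h0, real_inner_self_eq_norm_sq]
  have h2 : ‖U τ v - ε • v‖ ^ 2 = 0 := by
    rw [norm_sub_sq_real, real_inner_smul_right, hv τ, h, LinearIsometryEquiv.norm_map, norm_smul,
      mul_pow, Real.norm_eq_abs, sq_abs, hε, h1]
    have h3 : 2 * (ε * (ε * ‖v‖ ^ 2)) = 2 * (ε ^ 2 * ‖v‖ ^ 2) := by ring
    rw [h3, hε]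
    ring
  have h4 : U τ v = ε • v := sub_eq_zero.1 (norm_eq_zero.1 (pow_eq_zero_iff two_ne_zero |>.1 h2))
  rw [← hv (x + τ), ← hv x, hadd, h4, map_smul, real_inner_smul_left]

end Pool.Agent.EEAN
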