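import Pool.Agent.W_eea520_n.K0

set_option autoImplicit false

namespace Pool.Agent.EEAN

open Filter Topology Pool.Agent.EEA520 Pool.Agent.EEAG1
open scoped InnerProductSpace

section

variable {X G : Type} [AddCommGroup X] [AddCommGroup G] {H : Type} [NormedAddCommGroup H]
  [InnerProductSpace ℝ H] {U : G → H ≃ₗᵢ[ℝ] H}

theorem K2a_pair (hU : ∀ a b x, U (a + b) x = U a (U b x)) (v : H) (a c : G) :
    ⟪U a v, U c v⟫_ℝ = ⟪U (a - c) v, v⟫_ℝ := by
  have h1 : U a v = U c (U (a - c) v) := by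
    rw [← hU, add_sub_cancel]
  rw [h1, LinearIsometryEquiv.inner_map_map]

theorem K2a_one (hU : ∀ a b x, U (a + b) x = U a (U b x)) (ι : X →+ G) (γ : X) (b : X → ℝ) {v : H}
    (hv : ∀ x, ⟪U (ι x) v, v⟫_ℝ = 2 * b x - b (x - γ) - b (x + γ)) (y : X) (m' : ℕ) :
    ⟪U (ι y) v, Sm U (ι γ) v m'⟫_ℝ =
      b y - b (y + γ) - b (y - (m' : ℤ) • γ) + b (y + γ - (m' : ℤ) • γ) := by
  induction m' with
  | zero => simp [Sm]
  | succ n ih =>
    have h1 : Sm U (ι γ) v (n + 1) = Sm U (ι γ) v n + U (n • ι γ) v := by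
      rw [Sm, Sm, Finset.sum_range_succ]
    have h2 : ι y - n • ι γ = ι (y - (n : ℤ) • γ) := by
      rw [map_sub, map_zsmul, natCast_zsmul]
    rw [h1, inner_add_right, ih, K2a_pair hU, h2, hv]
    have e1 : y - (n : ℤ) • γ - γ = y - ((n + 1 : ℕ) : ℤ) • γ := by
      push_cast
      module
    have e2 : y - (n : ℤ) • γ + γ = y + γ - (n : ℤ) • γ := by abel
    have e3 : y + γ - ((n + 1 : ℕ) : ℤ) • γ = y - (n : ℤ) • γ := by
      push_cast
      module
    rw [e1, e2, e3]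
    ring

/-- `⟪U_x S_m, S_m'⟫ = b x - b (x + m γ) - b (x - m' γ) + b (x + (m - m') γ)`.
Expand the left side: it is `∑_{j < m} ∑_{i < m'} ⟪U (ι x + j γ) v, U (i γ) v⟫ = ∑_j ∑_i c (x + (j - i) γ)` with
`c y = 2 b y - b (y - γ) - b (y + γ)` (`hv`; use `⟪U a v, U b v⟫ = ⟪U (a - b) v, v⟫`, which follows from `hU` and
`LinearIsometryEquiv.inner_map_map`). The inner sum telescopes:
`∑_{i < m'} c (y - i γ) = (b y - b (y + γ)) - (b (y - m' γ) - b (y - m' γ + γ))`, and then the outer one. Or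
by induction on `m` for fixed `m'` after induction on `m'` for `m = 1`. -/
theorem Sm_inner (hU : ∀ a b x, U (a + b) x = U a (U b x)) (ι : X →+ G) (γ : X) (b : X → ℝ) {v : H}
    (hv : ∀ x, ⟪U (ι x) v, v⟫_ℝ = 2 * b x - b (x - γ) - b (x + γ)) (x : X) (m m' : ℕ) :
    ⟪U (ι x) (Sm U (ι γ) v m), Sm U (ι γ) v m'⟫_ℝ =
      b x - b (x + (m : ℤ) • γ) - b (x - (m' : ℤ) • γ) + b (x + ((m : ℤ) - m') • γ) := by
  induction m with
  | zero =>
    simp [Sm]
    rw [← sub_eq_add_neg, neg_add_cancel]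
  | succ n ih =>
    have h1 : Sm U (ι γ) v (n + 1) = Sm U (ι γ) v n + U (n • ι γ) v := by
      rw [Sm, Sm, Finset.sum_range_succ]
    have h2 : U (ι x) (U (n • ι γ) v) = U (ι (x + (n : ℤ) • γ)) v := by
      rw [← hU, map_add, map_zsmul, natCast_zsmul]
    rw [h1, map_add, inner_add_left, ih, h2, K2a_one hU ι γ b hv]
    have e1 : x + (n : ℤ) • γ + γ = x + ((n + 1 : ℕ) : ℤ) • γ := by
      push_cast
      module
    have e2 : x + (n : ℤ) • γ - (m' : ℤ) • γ = x + ((n : ℤ) - m') • γ := by module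
    have e3 : x + ((n + 1 : ℕ) : ℤ) • γ - (m' : ℤ) • γ = x + (((n + 1 : ℕ) : ℤ) - m') • γ := by
      module
    rw [e1, e2, e3]
    ring

end

end Pool.Agent.EEAN
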