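import Pool.Agent.W_eea520_n.K2a

set_option autoImplicit false

namespace Pool.Agent.EEAN

open Filter Topology Pool.Agent.EEA520 Pool.Agent.EEAG1
open scoped InnerProductSpace

section

variable {X G : Type} [AddCommGroup X] [AddCommGroup G] {H : Type} [NormedAddCommGroup H]
  [InnerProductSpace ℝ H] {U : G → H ≃ₗᵢ[ℝ] H}

theorem K2b_sum_le (b : X →₀ ℤ) (φ : ℕ → X) (hφ : Function.Injective φ) (s : Finset ℕ) :
    ∑ m ∈ s, |((b (φ m) : ℤ) : ℝ)| ≤ b.sum fun _ e => |(e : ℝ)| := by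
  classical
  have h1 : ∑ m ∈ s, |((b (φ m) : ℤ) : ℝ)| = ∑ z ∈ s.image φ, |((b z : ℤ) : ℝ)| :=
    (Finset.sum_image (f := fun z => |((b z : ℤ) : ℝ)|) (g := φ) (s := s)
      fun a _ a' _ h => hφ h).symm
  have h2 : ∑ z ∈ (s.image φ).filter (fun z => z ∈ b.support), |((b z : ℤ) : ℝ)| =
      ∑ z ∈ s.image φ, |((b z : ℤ) : ℝ)| := by
    refine Finset.sum_filter_of_ne fun z _ hz => ?_
    rw [Finsupp.mem_support_iff]
    intro h
    apply hz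
    rw [h]
    simp
  rw [h1, ← h2]
  unfold Finsupp.sum
  exact Finset.sum_le_sum_of_subset_of_nonneg (fun z hz => (Finset.mem_filter.1 hz).2)
    fun z _ _ => abs_nonneg _

theorem K2b_inj {γ : X} (hγ : ∀ j : ℤ, j • γ = 0 → j = 0) (y : X) (a : ℤ) (e : ℤ) (he : e ≠ 0) :
    Function.Injective fun m : ℕ => y + (e * (m : ℤ) + a) • γ := by
  intro m m' h
  have h1 : (e * (m : ℤ) + a) • γ = (e * (m' : ℤ) + a) • γ := add_left_cancel h
  have h2 : (e * ((m : ℤ) - m')) • γ = 0 := by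
    have h3 : e * ((m : ℤ) - m') = (e * (m : ℤ) + a) - (e * (m' : ℤ) + a) := by ring
    rw [h3, sub_smul, h1, sub_self]
  have h4 := hγ _ h2
  rcases mul_eq_zero.1 h4 with h5 | h5
  · exact absurd h5 he
  · have h6 : (m : ℤ) = m' := by linarith
    exact_mod_cast h6

/-- Average `Sm_inner` over `m = 1, …, N` and `m' = 1, …, N'`. As `γ` has infinite order, for every `y` the
points `y + m γ` are different, so `∑_m |b (y + m γ)| ≤ ∑_z |b z| = B` (`b` has finite support). So the three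
error terms are at most `B / N`, `B / N'`, `B / N`. -/
theorem Am_inner (hU : ∀ a b x, U (a + b) x = U a (U b x)) (ι : X →+ G) {γ : X}
    (hγ : ∀ j : ℤ, j • γ = 0 → j = 0) (b : X →₀ ℤ) {v : H}
    (hv : ∀ x, ⟪U (ι x) v, v⟫_ℝ = 2 * b x - b (x - γ) - b (x + γ)) (x : X) {N N' : ℕ} (hN : 0 < N)
    (hN' : 0 < N') :
    |⟪U (ι x) (Am U (ι γ) v N), Am U (ι γ) v N'⟫_ℝ - b x| ≤
      (b.sum fun _ e => |(e : ℝ)|) * (2 / N + 1 / N') := by
  have hN0 : (0 : ℝ) < N := Nat.cast_pos.2 hN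
  have hN0' : (0 : ℝ) < N' := Nat.cast_pos.2 hN'
  obtain ⟨B, hB⟩ : ∃ B, B = b.sum fun _ e => |(e : ℝ)| := ⟨_, rfl⟩
  rw [← hB]
  have h1 : ⟪U (ι x) (Am U (ι γ) v N), Am U (ι γ) v N'⟫_ℝ =
      (N : ℝ)⁻¹ * ((N' : ℝ)⁻¹ * ∑ m ∈ Finset.range N, ∑ m' ∈ Finset.range N',
        ⟪U (ι x) (Sm U (ι γ) v (m + 1)), Sm U (ι γ) v (m' + 1)⟫_ℝ) := by
    unfold Am
    rw [map_smul, map_sum, real_inner_smul_left, real_inner_smul_right, sum_inner]
    congr 2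
    exact Finset.sum_congr rfl fun m _ => inner_sum _ _ _
  obtain ⟨P, hP⟩ : ∃ P : ℝ, P = ∑ m ∈ Finset.range N, ((b (x + ((m + 1 : ℕ) : ℤ) • γ) : ℤ) : ℝ) :=
    ⟨_, rfl⟩
  obtain ⟨Q, hQ⟩ : ∃ Q : ℝ, Q = ∑ m' ∈ Finset.range N', ((b (x - ((m' + 1 : ℕ) : ℤ) • γ) : ℤ) : ℝ) :=
    ⟨_, rfl⟩
  obtain ⟨R, hR⟩ : ∃ R : ℝ, R = ∑ m ∈ Finset.range N, ∑ m' ∈ Finset.range N',
      ((b (x + (((m + 1 : ℕ) : ℤ) - ((m' + 1 : ℕ) : ℤ)) • γ) : ℤ) : ℝ) := ⟨_, rfl⟩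
  have h2 : ∑ m ∈ Finset.range N, ∑ m' ∈ Finset.range N',
      ⟪U (ι x) (Sm U (ι γ) v (m + 1)), Sm U (ι γ) v (m' + 1)⟫_ℝ =
      N * N' * (b x : ℝ) - N' * P - N * Q + R := by
    rw [hP, hQ, hR]
    have h3 : ∀ m m' : ℕ, ⟪U (ι x) (Sm U (ι γ) v (m + 1)), Sm U (ι γ) v (m' + 1)⟫_ℝ =
        (b x : ℝ) - ((b (x + ((m + 1 : ℕ) : ℤ) • γ) : ℤ) : ℝ) -
        ((b (x - ((m' + 1 : ℕ) : ℤ) • γ) : ℤ) : ℝ) +
        ((b (x + (((m + 1 : ℕ) : ℤ) - ((m' + 1 : ℕ) : ℤ)) • γ) : ℤ) : ℝ) := fun m m' =>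
      Sm_inner hU ι γ (fun y => (b y : ℝ)) hv x (m + 1) (m' + 1)
    simp only [h3, Finset.sum_add_distrib, Finset.sum_sub_distrib, Finset.sum_const,
      Finset.card_range, nsmul_eq_mul, Finset.mul_sum]
    ring
  have hPB : |P| ≤ B := by
    rw [hP, hB]
    refine (Finset.abs_sum_le_sum_abs _ _).trans ?_
    have h3 := K2b_sum_le b _ (K2b_inj hγ x 1 1 one_ne_zero) (Finset.range N)
    refine le_trans (le_of_eq (Finset.sum_congr rfl fun m _ => ?_)) h3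
    congr 4
    push_cast
    ring_nf
  have hQB : |Q| ≤ B := by
    rw [hQ, hB]
    refine (Finset.abs_sum_le_sum_abs _ _).trans ?_
    have h3 := K2b_sum_le b _ (K2b_inj hγ x (-1) (-1) (by norm_num)) (Finset.range N')
    refine le_trans (le_of_eq (Finset.sum_congr rfl fun m _ => ?_)) h3
    have h4 : x - ((m + 1 : ℕ) : ℤ) • γ = x + (-1 * (m : ℤ) + -1) • γ := by
      rw [sub_eq_add_neg, ← neg_smul]
      congr 2
      push_cast
      ring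
    rw [h4]
  have hRB : |R| ≤ N' * B := by
    rw [hR, Finset.sum_comm]
    refine (Finset.abs_sum_le_sum_abs _ _).trans ?_
    have h5 : ∀ m' ∈ Finset.range N', |∑ m ∈ Finset.range N,
        ((b (x + (((m + 1 : ℕ) : ℤ) - ((m' + 1 : ℕ) : ℤ)) • γ) : ℤ) : ℝ)| ≤ B := by
      intro m' _
      rw [hB]
      refine (Finset.abs_sum_le_sum_abs _ _).trans ?_
      have h3 := K2b_sum_le b _ (K2b_inj hγ x (-(m' : ℤ)) 1 one_ne_zero) (Finset.range N)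
      refine le_trans (le_of_eq (Finset.sum_congr rfl fun m _ => ?_)) h3
      have h4 : x + (((m + 1 : ℕ) : ℤ) - ((m' + 1 : ℕ) : ℤ)) • γ = x + (1 * (m : ℤ) + -(m' : ℤ)) • γ := by
        congr 2
        push_cast
        ring
      rw [h4]
    refine (Finset.sum_le_sum h5).trans ?_
    rw [Finset.sum_const, Finset.card_range, nsmul_eq_mul]
  rw [h1, h2]
  have h6 : (N : ℝ)⁻¹ * ((N' : ℝ)⁻¹ * (N * N' * (b x : ℝ) - N' * P - N * Q + R)) - b x =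
      (N : ℝ)⁻¹ * (N' : ℝ)⁻¹ * (R - N' * P - N * Q) := by
    field_simp
    ring
  have h7 : B * (2 / N + 1 / N') = (N : ℝ)⁻¹ * (N' : ℝ)⁻¹ * (N' * B + N' * B + N * B) := by
    field_simp
    ring
  rw [h6, h7, abs_mul, abs_of_pos (mul_pos (inv_pos.2 hN0) (inv_pos.2 hN0'))]
  refine mul_le_mul_of_nonneg_left ?_ (mul_pos (inv_pos.2 hN0) (inv_pos.2 hN0')).le
  have h8 : |(N' : ℝ) * P| ≤ N' * B := by
    rw [abs_mul, abs_of_pos hN0']
    exact mul_le_mul_of_nonneg_left hPB hN0'.le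
  have h9 : |(N : ℝ) * Q| ≤ N * B := by
    rw [abs_mul, abs_of_pos hN0]
    exact mul_le_mul_of_nonneg_left hQB hN0.le
  calc |R - N' * P - N * Q| ≤ |R - N' * P| + |N * Q| := abs_sub _ _
    _ ≤ |R| + |N' * P| + |N * Q| := by
      have := abs_sub R (N' * P)
      linarith
    _ ≤ _ := by linarith

end

end Pool.Agent.EEAN
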