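import Pool.Agent.W_eea520_n.K0

set_option autoImplicit false

namespace Pool.Agent.EEAN

open Filter Topology Pool.Agent.EEA520 Pool.Agent.EEAG1
open scoped InnerProductSpace

section

variable {X G : Type} [AddCommGroup X] [AddCommGroup G] {H : Type} [NormedAddCommGroup H]
  [InnerProductSpace ℝ H] {U : G → H ≃ₗᵢ[ℝ] H}

theorem K2c_sum (b : X →₀ ℤ) (f : ℕ → X) (hf : Function.Injective f) (N : ℕ) :
    ∑ m ∈ Finset.range N, |(b (f m) : ℝ)| ≤ b.sum fun _ e => |(e : ℝ)| := by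
  classical
  rw [← Finset.sum_image (f := fun x => |(b x : ℝ)|) (fun a _ c _ h => hf h), Finsupp.sum,
    ← Finset.sum_filter_ne_zero]
  refine Finset.sum_le_sum_of_subset_of_nonneg (fun x hx => ?_) (fun _ _ _ => abs_nonneg _)
  rw [Finsupp.mem_support_iff]
  intro h
  exact (Finset.mem_filter.1 hx).2 (by rw [h]; simp)

/-- `(1 - U_γ) S_m = v - U_{m γ} v`, so `(1 - U_γ) A_N = v - (1 / N) ∑_{m = 1}^N U_{m γ} v`, and the square of
the norm of the last sum divided by `N` is `N⁻² ∑_{m, m'} c ((m - m') γ) ≤ N⁻² * N * (4 B)`, where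
`c y = ⟪U (ι y) v, v⟫ = 2 b y - b (y - γ) - b (y + γ)`, `B = ∑ |b|`: for fixed `m'` the points `(m - m') γ` are
different. -/
theorem Am_sub (hU : ∀ a b x, U (a + b) x = U a (U b x)) (ι : X →+ G) {γ : X}
    (hγ : ∀ j : ℤ, j • γ = 0 → j = 0) (b : X →₀ ℤ) {v : H}
    (hv : ∀ x, ⟪U (ι x) v, v⟫_ℝ = 2 * b x - b (x - γ) - b (x + γ)) {N : ℕ} (hN : 0 < N) :
    ‖Am U (ι γ) v N - U (ι γ) (Am U (ι γ) v N) - v‖ ^ 2 ≤
      4 * (b.sum fun _ e => |(e : ℝ)|) / N := by
  classical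
  have hU0 : ∀ x, U 0 x = x := fun x => by
    have h := hU 0 0 x
    rw [add_zero] at h
    exact ((U 0).injective h).symm
  have hN' : (0 : ℝ) < N := Nat.cast_pos.2 hN
  have hS : ∀ m : ℕ, Sm U (ι γ) v m - U (ι γ) (Sm U (ι γ) v m) = v - U (m • ι γ) v := by
    intro m
    unfold Sm
    rw [map_sum, ← Finset.sum_sub_distrib]
    have h := Finset.sum_range_sub' (fun j : ℕ => U (j • ι γ) v) m
    simp only [zero_smul, hU0] at h
    rw [← h]
    refine Finset.sum_congr rfl fun j _ => ?_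
    rw [← hU, succ_nsmul, add_comm (ι γ)]
  have e1 : Am U (ι γ) v N - U (ι γ) (Am U (ι γ) v N) - v =
      -((N : ℝ)⁻¹ • ∑ m ∈ Finset.range N, U ((m + 1) • ι γ) v) := by
    unfold Am
    rw [map_smul, map_sum, ← smul_sub, ← Finset.sum_sub_distrib,
      Finset.sum_congr rfl fun m _ => hS (m + 1), Finset.sum_sub_distrib, Finset.sum_const,
      Finset.card_range, smul_sub, ← Nat.cast_smul_eq_nsmul ℝ N v, smul_smul,
      inv_mul_cancel₀ hN'.ne', one_smul]
    abel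
  set B : ℝ := b.sum fun _ e => |(e : ℝ)| with hB
  have hinj : ∀ (m' : ℕ) (s : ℤ), Function.Injective fun m : ℕ => ((m : ℤ) - m' + s) • γ := by
    intro m' s a c h
    have h2 : (((a : ℤ) - m' + s) - ((c : ℤ) - m' + s)) • γ = 0 := by
      rw [sub_smul, sub_eq_zero]
      exact h
    have h3 := hγ _ h2
    omega
  have hin : ∀ m m' : ℕ, ⟪U ((m + 1) • ι γ) v, U ((m' + 1) • ι γ) v⟫_ℝ ≤
      2 * |(b (((m : ℤ) - m' + 0) • γ) : ℝ)| + |(b (((m : ℤ) - m' + (-1)) • γ) : ℝ)| +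
        |(b (((m : ℤ) - m' + 1) • γ) : ℝ)| := by
    intro m m'
    have h1 : (m + 1) • ι γ = (m' + 1) • ι γ + ι (((m : ℤ) - m') • γ) := by
      rw [map_zsmul, ← natCast_zsmul, ← natCast_zsmul, ← add_smul]
      congr 1
      push_cast
      ring
    rw [h1, hU, LinearIsometryEquiv.inner_map_map, hv]
    have h2 : (((m : ℤ) - m' + 0) • γ) = ((m : ℤ) - m') • γ := by rw [add_zero]
    have h3 : (((m : ℤ) - m' + (-1)) • γ) = ((m : ℤ) - m') • γ - γ := by
      rw [add_smul, neg_smul, one_smul, sub_eq_add_neg (((m : ℤ) - m') • γ)]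
    have h4 : (((m : ℤ) - m' + 1) • γ) = ((m : ℤ) - m') • γ + γ := by rw [add_smul, one_smul]
    rw [h2, h3, h4]
    have h5 := le_abs_self (b (((m : ℤ) - m') • γ) : ℝ)
    have h6 := neg_abs_le (b (((m : ℤ) - m') • γ - γ) : ℝ)
    have h7 := neg_abs_le (b (((m : ℤ) - m') • γ + γ) : ℝ)
    linarith
  have hsum : ‖∑ m ∈ Finset.range N, U ((m + 1) • ι γ) v‖ ^ 2 ≤ N * (4 * B) := by
    rw [← real_inner_self_eq_norm_sq, inner_sum]
    have h8 : ∀ m' ∈ Finset.range N,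
        ⟪∑ m ∈ Finset.range N, U ((m + 1) • ι γ) v, U ((m' + 1) • ι γ) v⟫_ℝ ≤ 4 * B := by
      intro m' _
      rw [sum_inner]
      refine (Finset.sum_le_sum fun m _ => hin m m').trans ?_
      rw [Finset.sum_add_distrib, Finset.sum_add_distrib, ← Finset.mul_sum]
      have h9 := K2c_sum b _ (hinj m' 0) N
      have h10 := K2c_sum b _ (hinj m' (-1)) N
      have h11 := K2c_sum b _ (hinj m' 1) N
      linarith
    refine (Finset.sum_le_sum h8).trans ?_
    rw [Finset.sum_const, Finset.card_range, nsmul_eq_mul]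
  rw [e1, norm_neg, norm_smul, mul_pow, Real.norm_eq_abs, sq_abs, le_div_iff₀ hN']
  have h12 : ((N : ℝ)⁻¹) ^ 2 * ‖∑ m ∈ Finset.range N, U ((m + 1) • ι γ) v‖ ^ 2 * N ≤
      ((N : ℝ)⁻¹) ^ 2 * (N * (4 * B)) * N := by gcongr
  refine h12.trans (le_of_eq ?_)
  field_simp

end

end Pool.Agent.EEAN
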