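import Pool.Agent.W_eea520_n.K2b
import Pool.Agent.W_eea520_n.K2c

set_option autoImplicit false

namespace Pool.Agent.EEAN

open Filter Topology Pool.Agent.EEA520 Pool.Agent.EEAG1
open scoped InnerProductSpace

/-- Let `A_N = Am U (ι γ) v N`. By `Am_inner` with `x = 0`,
`‖A_N - A_M‖ ^ 2 = ⟪A_N, A_N⟫ - 2 ⟪A_N, A_M⟫ + ⟪A_M, A_M⟫ ≤ C (1 / N + 1 / M)`, so `A_{N+1}` is a Cauchy sequence; let
`w` be the limit. By `Am_sub`, `w - U_γ w = v`. By `Am_inner` with `N = N' → ∞`, `⟪U_x w, w⟫ = b x`. -/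
theorem oneStep {X G : Type} [AddCommGroup X] [AddCommGroup G] {H : Type} [NormedAddCommGroup H]
    [InnerProductSpace ℝ H] [CompleteSpace H] {U : G → H ≃ₗᵢ[ℝ] H}
    (hU : ∀ a b x, U (a + b) x = U a (U b x)) (ι : X →+ G) {γ : X}
    (hγ : ∀ j : ℤ, j • γ = 0 → j = 0) (b : X →₀ ℤ) {v : H}
    (hv : ∀ x, ⟪U (ι x) v, v⟫_ℝ = 2 * b x - b (x - γ) - b (x + γ)) :
    ∃ w : H, w - U (ι γ) w = v ∧ ∀ x, ⟪U (ι x) w, w⟫_ℝ = b x := by
  obtain ⟨B, hB⟩ : ∃ B : ℝ, B = b.sum fun _ e => |(e : ℝ)| := ⟨_, rfl⟩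
  have hB0 : 0 ≤ B := by
    rw [hB]
    exact Finset.sum_nonneg fun _ _ => abs_nonneg _
  have hι0 : ∀ w : H, U (ι 0) w = w := by
    intro w
    rw [map_zero]
    have h := hU 0 0 w
    rw [add_zero] at h
    exact ((U 0).injective h).symm
  obtain ⟨A, hA⟩ : ∃ A : ℕ → H, A = fun N => Am U (ι γ) v (N + 1) := ⟨_, rfl⟩
  have hin : ∀ (x : X) (N N' : ℕ), |⟪U (ι x) (A N), A N'⟫_ℝ - b x| ≤
      B * (2 / ((N : ℝ) + 1) + 1 / ((N' : ℝ) + 1)) := by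
    intro x N N'
    have h := Am_inner hU ι hγ b hv x (Nat.succ_pos N) (Nat.succ_pos N')
    rw [← hB] at h
    push_cast at h
    rw [hA]
    exact h
  have hAin : ∀ N N', |⟪A N, A N'⟫_ℝ - b 0| ≤ B * (2 / ((N : ℝ) + 1) + 1 / ((N' : ℝ) + 1)) := by
    intro N N'
    have h := hin 0 N N'
    rw [hι0] at h
    exact h
  have hd : ∀ N M : ℕ, ‖A N - A M‖ ^ 2 ≤ B * (7 / ((N : ℝ) + 1) + 5 / ((M : ℝ) + 1)) := by
    intro N M
    have h1 := (abs_le.1 (hAin N N)).2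
    have h2 := (abs_le.1 (hAin N M)).1
    have h3 := (abs_le.1 (hAin M M)).2
    rw [norm_sub_sq_real, ← real_inner_self_eq_norm_sq, ← real_inner_self_eq_norm_sq]
    have h4 : B * (7 / ((N : ℝ) + 1) + 5 / ((M : ℝ) + 1)) =
        B * (2 / ((N : ℝ) + 1) + 1 / ((N : ℝ) + 1)) + 2 * (B * (2 / ((N : ℝ) + 1) + 1 / ((M : ℝ) + 1))) +
          B * (2 / ((M : ℝ) + 1) + 1 / ((M : ℝ) + 1)) := by
      field_simp
      ring
    rw [h4]
    linarith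
  have hz : ∀ c : ℝ, Tendsto (fun N : ℕ => c / ((N : ℝ) + 1)) atTop (𝓝 0) := fun c =>
    Tendsto.div_atTop tendsto_const_nhds
      (tendsto_atTop_add_const_right _ _ tendsto_natCast_atTop_atTop)
  have hC : CauchySeq A := by
    refine cauchySeq_of_le_tendsto_0 (fun N => Real.sqrt (B * 12 / ((N : ℝ) + 1)))
      (fun n m N hn hm => ?_) ?_
    · rw [dist_eq_norm]
      refine Real.le_sqrt_of_sq_le ((hd n m).trans ?_)
      have hn' : (N : ℝ) + 1 ≤ (n : ℝ) + 1 := by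
        have : (N : ℝ) ≤ n := Nat.cast_le.2 hn
        linarith
      have hm' : (N : ℝ) + 1 ≤ (m : ℝ) + 1 := by
        have : (N : ℝ) ≤ m := Nat.cast_le.2 hm
        linarith
      have hN0 : (0 : ℝ) < (N : ℝ) + 1 := by positivity
      have h5 : 7 / ((n : ℝ) + 1) ≤ 7 / ((N : ℝ) + 1) := by gcongr
      have h6 : 5 / ((m : ℝ) + 1) ≤ 5 / ((N : ℝ) + 1) := by gcongr
      have h7 : B * 12 / ((N : ℝ) + 1) = B * (7 / ((N : ℝ) + 1) + 5 / ((N : ℝ) + 1)) := by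
        field_simp
        ring
      rw [h7]
      exact mul_le_mul_of_nonneg_left (by linarith) hB0
    · have h8 := (hz (B * 12)).sqrt
      rw [Real.sqrt_zero] at h8
      exact h8
  obtain ⟨w, hw⟩ := cauchySeq_tendsto_of_complete hC
  have hUw : ∀ a : G, Tendsto (fun N => U a (A N)) atTop (𝓝 (U a w)) := fun a =>
    ((U a).continuous.tendsto w).comp hw
  refine ⟨w, ?_, fun x => ?_⟩
  · have h1 : Tendsto (fun N => ‖A N - U (ι γ) (A N) - v‖ ^ 2) atTop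
        (𝓝 (‖w - U (ι γ) w - v‖ ^ 2)) :=
      (((hw.sub (hUw (ι γ))).sub_const v).norm).pow 2
    have h2 : ∀ N : ℕ, ‖A N - U (ι γ) (A N) - v‖ ^ 2 ≤ 4 * B / ((N : ℝ) + 1) := by
      intro N
      have h := Am_sub hU ι hγ b hv (Nat.succ_pos N)
      rw [← hB] at h
      push_cast at h
      rw [hA]
      exact h
    have h3 : ‖w - U (ι γ) w - v‖ ^ 2 ≤ 0 := le_of_tendsto_of_tendsto' h1 (hz (4 * B)) h2
    have h4 : ‖w - U (ι γ) w - v‖ = 0 := by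
      have h5 := sq_nonneg ‖w - U (ι γ) w - v‖
      exact pow_eq_zero_iff (two_ne_zero) |>.1 (le_antisymm h3 h5)
    exact sub_eq_zero.1 (norm_eq_zero.1 h4)
  · have h1 : Tendsto (fun N => |⟪U (ι x) (A N), A N⟫_ℝ - b x|) atTop
        (𝓝 |⟪U (ι x) w, w⟫_ℝ - b x|) :=
      (((hUw (ι x)).inner hw).sub_const _).abs
    have h2 : ∀ N : ℕ, |⟪U (ι x) (A N), A N⟫_ℝ - b x| ≤ 3 * B / ((N : ℝ) + 1) := by
      intro N
      refine (hin x N N).trans (le_of_eq ?_)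
      field_simp
      ring
    have h3 : |⟪U (ι x) w, w⟫_ℝ - b x| ≤ 0 := le_of_tendsto_of_tendsto' h1 (hz (3 * B)) h2
    exact sub_eq_zero.1 (abs_eq_zero.1 (le_antisymm h3 (abs_nonneg _)))

end Pool.Agent.EEAN
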