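import Pool.Agent.W_eea520_n.K0

set_option autoImplicit false

namespace Pool.Agent.EEAN

open Filter Topology Pool.Agent.EEA520 Pool.Agent.EEAG1
open scoped InnerProductSpace

section

variable {X G : Type} [AddCommGroup X] [DecidableEq X] [AddCommGroup G] {H : Type} [NormedAddCommGroup H]
  [InnerProductSpace ℝ H] {U : G → H ≃ₗᵢ[ℝ] H}

omit [DecidableEq X] [AddCommGroup X] in
theorem K3a_zero (hU : ∀ a b x, U (a + b) x = U a (U b x)) (x : H) : U 0 x = x := by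
  have h := hU 0 0 x
  rw [add_zero] at h
  exact ((U 0).injective h).symm

theorem K3a_orth (hU : ∀ a b x, U (a + b) x = U a (U b x)) (ι : X →+ G) {ξ : H}
    (hξ : ∀ x, ⟪U (ι x) ξ, ξ⟫_ℝ = if x = 0 then 1 else 0) :
    Orthonormal ℝ fun x : X => U (ι x) ξ := by
  rw [orthonormal_iff_ite]
  intro x y
  have h1 : U (ι x) ξ = U (ι y) (U (ι (x - y)) ξ) := by
    rw [← hU, ← map_add, add_sub_cancel]
  rw [h1, LinearIsometryEquiv.inner_map_map, hξ]
  by_cases hxy : x = y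
  · rw [if_pos hxy, if_pos (sub_eq_zero.2 hxy)]
  · rw [if_neg hxy, if_neg (sub_ne_zero.2 hxy)]

/-- Bessel: the vectors `U (ι x) ξ`, `x ∈ X`, are orthonormal, and
`⟪U (ι x + g) ξ, ξ⟫ = ⟪U g ξ, U (ι (-x)) ξ⟫`, so for every finite set `S`,
`∑_{x ∈ S} ⟪U (ι x + g) ξ, ξ⟫ ^ 2 ≤ ‖U g ξ‖ ^ 2 = 1` (`Orthonormal.sum_inner_products_le`; compare
`RLb_bessel` in `W_eea520_G/B.lean`). -/
theorem bessel_orbit (hU : ∀ a b x, U (a + b) x = U a (U b x)) (ι : X →+ G) {ξ : H}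
    (hξ : ∀ x, ⟪U (ι x) ξ, ξ⟫_ℝ = if x = 0 then 1 else 0) (g : G) (S : Finset X) :
    ∑ x ∈ S, ⟪U (ι x + g) ξ, ξ⟫_ℝ ^ 2 ≤ 1 := by
  have horth := K3a_orth hU ι hξ
  have h1 := (horth.comp _ neg_injective).sum_inner_products_le (U g ξ) (s := S)
  have h2 : ‖U g ξ‖ ^ 2 = 1 := by
    rw [LinearIsometryEquiv.norm_map, ← real_inner_self_eq_norm_sq]
    have h3 := hξ 0
    rw [map_zero, K3a_zero hU, if_pos rfl] at h3
    exact h3
  rw [h2] at h1
  refine le_trans (le_of_eq (Finset.sum_congr rfl fun x _ => ?_)) h1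
  show _ = ‖⟪U (ι (-x)) ξ, U g ξ⟫_ℝ‖ ^ 2
  rw [Real.norm_eq_abs, sq_abs, hU]
  have h4 : U (ι x) (U (ι (-x)) ξ) = ξ := by
    rw [← hU, ← map_add, add_neg_cancel, map_zero, K3a_zero hU]
  have h5 : ⟪U (ι x) (U g ξ), ξ⟫_ℝ = ⟪U g ξ, U (ι (-x)) ξ⟫_ℝ := by
    have h6 := LinearIsometryEquiv.inner_map_map (U (ι x)) (U g ξ) (U (ι (-x)) ξ)
    rw [h4] at h6
    exact h6
  rw [h5, real_inner_comm]

/-- From `bessel_orbit` (see `RLb_tendsto` in `W_eea520_G/B.lean`). -/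
theorem tendsto_orbit (hU : ∀ a b x, U (a + b) x = U a (U b x)) (ι : X →+ G) {ξ : H}
    (hξ : ∀ x, ⟪U (ι x) ξ, ξ⟫_ℝ = if x = 0 then 1 else 0) (g : G) :
    Tendsto (fun x => ⟪U (ι x + g) ξ, ξ⟫_ℝ) cofinite (𝓝 0) := by
  have hs : Summable fun x : X => ⟪U (ι x + g) ξ, ξ⟫_ℝ ^ 2 :=
    summable_of_sum_le (fun k => sq_nonneg _) (bessel_orbit hU ι hξ g)
  have h1 := hs.tendsto_cofinite_zero
  have h2 := (Real.continuous_sqrt.tendsto 0).comp h1
  rw [Real.sqrt_zero] at h2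
  rw [tendsto_zero_iff_abs_tendsto_zero]
  refine h2.congr fun k => ?_
  exact Real.sqrt_sq_eq_abs _

end

/-- Integrality goes up: apply `int_of_second_diff` (`W_eea520_G/B.lean`) to `r k = f (x + k γ)`, `k ∈ ℤ`; the
map `k ↦ x + k γ` is injective as `γ` has infinite order, so it tends to infinity
(`Function.Injective.tendsto_cofinite`). -/
theorem int_up {X : Type} [AddCommGroup X] {γ : X} (hγ : ∀ j : ℤ, j • γ = 0 → j = 0) {f : X → ℝ} (h0 : Tendsto f cofinite (𝓝 0))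
    (h : ∀ x, ∃ n : ℤ, 2 * f x - f (x - γ) - f (x + γ) = n) (x : X) : ∃ n : ℤ, f x = n := by
  have hinj : Function.Injective fun k : ℤ => x + k • γ := fun k l hkl => by
    have h1 : k • γ = l • γ := add_left_cancel hkl
    have h2 := hγ (k - l) (by rw [sub_smul, h1, sub_self])
    omega
  have h1 := int_of_second_diff (r := fun k : ℤ => f (x + k • γ)) (h0.comp hinj.tendsto_cofinite)
    (fun k => by
      obtain ⟨n, hn⟩ := h (x + k • γ)
      refine ⟨n, ?_⟩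
      rw [← hn]
      have e1 : x + (k + 1) • γ = x + k • γ + γ := by
        rw [add_smul, one_smul, add_assoc]
      have e2 : x + (k - 1) • γ = x + k • γ - γ := by
        rw [sub_smul, one_smul, add_sub_assoc]
      rw [e1, e2]
      ring) 0
  obtain ⟨n, hn⟩ := h1
  refine ⟨n, ?_⟩
  rw [← hn]
  show f x = f (x + (0 : ℤ) • γ)
  rw [zero_smul, add_zero]

end Pool.Agent.EEAN
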