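import Pool.Agent.W_eea520_n.K3a
import Pool.Agent.W_eea520_n.K2d
import Pool.Agent.W_eea520_n.K1a

set_option autoImplicit false

namespace Pool.Agent.EEAN

open Filter Topology Pool.Agent.EEA520 Pool.Agent.EEAG1
open scoped InnerProductSpace

theorem K3b_expand {X G : Type} [AddCommGroup X] [AddCommGroup G] {H : Type}
    [NormedAddCommGroup H] [InnerProductSpace ℝ H] {U : G → H ≃ₗᵢ[ℝ] H}
    (hU : ∀ a b x, U (a + b) x = U a (U b x)) (ι : X →+ G) (γ : X) {v w : H}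
    (hw : w - U (ι γ) w = v) (g : G) (x : X) :
    ⟪U (ι x + g) v, v⟫_ℝ = 2 * ⟪U (ι x + g) w, w⟫_ℝ - ⟪U (ι (x - γ) + g) w, w⟫_ℝ -
      ⟪U (ι (x + γ) + g) w, w⟫_ℝ := by
  have h1 : U (ι x + g) (U (ι γ) w) = U (ι (x + γ) + g) w := by
    rw [← hU]
    congr 2
    rw [map_add]
    abel
  have h2 : U (ι x + g) w = U (ι γ) (U (ι (x - γ) + g) w) := by
    rw [← hU]
    congr 2
    rw [map_sub]
    abel
  have h3 : U (ι (x + γ) + g) w = U (ι γ) (U (ι x + g) w) := by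
    rw [← hU]
    congr 2
    rw [map_add]
    abel
  have e1 : ⟪U (ι x + g) w, U (ι γ) w⟫_ℝ = ⟪U (ι (x - γ) + g) w, w⟫_ℝ := by
    rw [h2, LinearIsometryEquiv.inner_map_map]
  have e2 : ⟪U (ι (x + γ) + g) w, U (ι γ) w⟫_ℝ = ⟪U (ι x + g) w, w⟫_ℝ := by
    rw [h3, LinearIsometryEquiv.inner_map_map]
  rw [← hw, map_sub, h1, inner_sub_left, inner_sub_right, inner_sub_right, e1, e2]
  ring

/-- Induction on `l`, generalizing `v`. For `l = []` take `ξ = v` (`dd_nil`, `tendsto_orbit`). For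
`γ :: l`: `dd_cons` and `oneStep` with `b = dd l` give `w` with `w - U_γ w = v` and `⟪U (ι x) w, w⟫ = dd l x`; the
induction hypothesis for `w` gives `ξ`. We have
`⟪U (ι x + g) v, v⟫ = 2 f x - f (x - γ) - f (x + γ)` with `f x = ⟪U (ι x + g) w, w⟫` (expand
`v = w - U_γ w`). So: (1) clear; (2) `U g ξ = ε ξ` implies `U g w = ε w`, so `U g v = ε v`, as `U g` and
`U_γ` commute; (3) differences of functions which tend to zero along `cofinite` (the translations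
are injective); (4) `int_up` for `f`, then the induction hypothesis; (5) `f = 0` by the induction
hypothesis. -/
theorem tower {X G : Type} [AddCommGroup X] [DecidableEq X] [AddCommGroup G] {H : Type}
    [NormedAddCommGroup H] [InnerProductSpace ℝ H] [CompleteSpace H] {U : G → H ≃ₗᵢ[ℝ] H}
    (hU : ∀ a b x, U (a + b) x = U a (U b x)) (ι : X →+ G) (l : List X)
    (hl : ∀ γ ∈ l, ∀ j : ℤ, j • γ = 0 → j = 0) {v : H}
    (hv : ∀ x, ⟪U (ι x) v, v⟫_ℝ = dd l x) :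
    ∃ ξ : H, (∀ x, ⟪U (ι x) ξ, ξ⟫_ℝ = if x = 0 then 1 else 0) ∧
      (∀ (g : G) (ε : ℝ), U g ξ = ε • ξ → U g v = ε • v) ∧
      ∀ g : G, Tendsto (fun x => ⟪U (ι x + g) v, v⟫_ℝ) cofinite (𝓝 0) ∧
        ((∀ x, ∃ n : ℤ, ⟪U (ι x + g) v, v⟫_ℝ = n) → ∀ x, ∃ n : ℤ, ⟪U (ι x + g) ξ, ξ⟫_ℝ = n) ∧
        ((∀ x, ⟪U (ι x + g) ξ, ξ⟫_ℝ = 0) → ∀ x, ⟪U (ι x + g) v, v⟫_ℝ = 0) := by
  induction l generalizing v with
  | nil =>
    have hξ : ∀ x, ⟪U (ι x) v, v⟫_ℝ = if x = 0 then 1 else 0 := by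
      intro x
      rw [hv x, dd_nil]
      split_ifs
      · exact Int.cast_one
      · exact Int.cast_zero
    exact ⟨v, hξ, fun _ _ h => h, fun g => ⟨tendsto_orbit hU ι hξ g, fun h => h, fun h => h⟩⟩
  | cons γ l ih =>
    have hγ := hl γ List.mem_cons_self
    obtain ⟨w, hw, hwd⟩ := oneStep hU ι hγ (dd l) (v := v) (fun x => by
      rw [hv x, dd_cons]
      push_cast
      ring)
    obtain ⟨ξ, h1, h2, h3⟩ := ih (fun δ hδ => hl δ (List.mem_cons_of_mem _ hδ)) hwd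
    refine ⟨ξ, h1, fun g ε hg => ?_, fun g => ?_⟩
    · have h4 := h2 g ε hg
      have h5 : U g (U (ι γ) w) = U (ι γ) (U g w) := by
        rw [← hU, ← hU, add_comm]
      rw [← hw, map_sub, h5, h4, map_smul, smul_sub]
    · obtain ⟨t1, t2, t3⟩ := h3 g
      have hex := K3b_expand hU ι γ hw g
      have tm : Tendsto (fun x => ⟪U (ι (x - γ) + g) w, w⟫_ℝ) cofinite (𝓝 0) :=
        t1.comp (sub_left_injective (b := γ)).tendsto_cofinite
      have tp : Tendsto (fun x => ⟪U (ι (x + γ) + g) w, w⟫_ℝ) cofinite (𝓝 0) :=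
        t1.comp (add_left_injective γ).tendsto_cofinite
      refine ⟨?_, fun hi => ?_, fun hz x => ?_⟩
      · have h4 := ((t1.const_mul 2).sub tm).sub tp
        rw [mul_zero, sub_zero, sub_zero] at h4
        exact h4.congr fun x => (hex x).symm
      · refine t2 (int_up hγ t1 fun x => ?_)
        obtain ⟨n, hn⟩ := hi x
        exact ⟨n, by rw [← hn, hex x]⟩
      · rw [hex x, t3 hz, t3 hz, t3 hz]
        ring

end Pool.Agent.EEAN
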