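import Pool.Agent.W_eea520_n.K3b

set_option autoImplicit false

namespace Pool.Agent.EEAN

open Filter Topology Pool.Agent.EEA520 Pool.Agent.EEAG1
open scoped InnerProductSpace

/-- Take `ξ` from `tower`. The numbers `φ x = ⟪U (ι x + g) ξ, ξ⟫` are integers with `∑ φ ^ 2 ≤ 1`
(`bessel_orbit`, and `‖ξ‖ ^ 2 = 1` by `x = 0`). If all are `0`, the first case holds. Otherwise there is `x` with
`φ x = ε = ± 1`, and then `U (ι x + g) ξ = ε ξ` (`eq_smul_of_inner` in `W_eea520_G/B.lean`), so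
`U (ι x + g) v = ε v`. -/
theorem lemmaK {X G : Type} [AddCommGroup X] [AddCommGroup G] {H : Type}
    [NormedAddCommGroup H] [InnerProductSpace ℝ H] [CompleteSpace H] {U : G → H ≃ₗᵢ[ℝ] H}
    (hU : ∀ a b x, U (a + b) x = U a (U b x)) (ι : X →+ G) (l : List X)
    (hl : ∀ γ ∈ l, ∀ j : ℤ, j • γ = 0 → j = 0) {v : H}
    (hv : ∀ x, ⟪U (ι x) v, v⟫_ℝ = dd l x) {g : G}
    (hint : ∀ x, ∃ n : ℤ, ⟪U (ι x + g) v, v⟫_ℝ = n) :
    (∀ x, ⟪U (ι x + g) v, v⟫_ℝ = 0) ∨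
      ∃ (x : X) (ε : ℝ), (ε = 1 ∨ ε = -1) ∧ U (ι x + g) v = ε • v := by
  classical
  obtain ⟨ξ, h0, h1, h2⟩ := tower hU ι l hl hv
  obtain ⟨-, hI, hZ⟩ := h2 g
  have hI' := hI hint
  by_cases hall : ∀ x, ⟪U (ι x + g) ξ, ξ⟫_ℝ = 0
  · exact Or.inl (hZ hall)
  right
  obtain ⟨x, hx⟩ := not_forall.1 hall
  obtain ⟨n, hn⟩ := hI' x
  have hb := bessel_orbit hU ι h0 g {x}
  rw [Finset.sum_singleton, hn] at hb
  have hn0 : n ≠ 0 := by
    rintro rfl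
    exact hx (by rw [hn, Int.cast_zero])
  have hn1 : n ^ 2 ≤ 1 := by exact_mod_cast hb
  have hn2 : n = 1 ∨ n = -1 := by
    have h3 : n ≤ 1 := by nlinarith
    have h4 : -1 ≤ n := by nlinarith
    omega
  have hξ : ‖ξ‖ ^ 2 = 1 := by
    rw [← real_inner_self_eq_norm_sq]
    have h3 := h0 0
    rw [map_zero, K3a_zero hU, if_pos rfl] at h3
    exact h3
  refine ⟨x, (n : ℝ), ?_, h1 _ _ (eq_smul_of_inner ?_ hξ ?_ hn)⟩
  · rcases hn2 with rfl | rfl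
    · exact Or.inl Int.cast_one
    · exact Or.inr (by rw [Int.cast_neg, Int.cast_one])
  · rw [LinearIsometryEquiv.norm_map]
    exact hξ
  · rcases hn2 with rfl | rfl <;> norm_num

end Pool.Agent.EEAN
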