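import Pool.Agent.W_eea520_n.K3c
import Pool.Agent.W_eea520_n.K1b
import Pool.Agent.W_eea520_n.K1c

set_option autoImplicit false

namespace Pool.Agent.EEAN

open Filter Topology Pool.Agent.EEA520 Pool.Agent.EEAG1
open scoped InnerProductSpace

/-- Compactness. Suppose that it is false: then for every `k : ℕ` there are `G_k`, `ι_k`, `c_k`, `g_k` with the
properties for `R = k`, but `c_k g_k ≠ 0` and for no `x` with `nrm x ≤ k`, `c_k (ι_k x + g_k) = ± c_k 0`
(`choose`; the group structure is part of the data, use `Σ`-free `choose G inst ι c h`). Let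
`C k (x, j) = c_k (ι_k x + j • g_k)` on `X × ℤ`; it is positive definite (`posDefG_comp` with the
homomorphism `(x, j) ↦ ι_k x + j • g_k`), and `|C k z| ≤ c_k 0 = dd l 0` for `k ≥ nrm 0`
(`posDefG_abs_le`). Let `V = Filter.hyperfilter ℕ` (all cofinite sets are in it: `∀ᶠ k in V, k ≥ m`,
`Filter.hyperfilter_le_atTop` or `hyperfilter_le_cofinite`), and `C` the limit (`exists_limit`,
`posDefG_limit`). Then `C (x, 0) = dd l x` (it is eventually equal to it), `C (x, 1)` is an integer
(`int_limit`), `C (0, 1) ≠ 0` (by `int_limit` almost all `c_k g_k` are equal to it). `exists_gnsG` for `C` and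
`lemmaK` for `ι x = (x, 0)`, `g = (0, 1)` (`AddMonoidHom.inl X ℤ`) give `x` and `ε` with
`U (x, 1) v = ε v`, so `C (x, 1) = ε C 0`. By `int_limit` almost all `C k (x, 1)` are equal to `C (x, 1)` and
`C k 0 = C 0`, so for some `k ≥ nrm x`, `c_k (ι_k x + g_k) = ε c_k 0`, a contradiction. -/
theorem localK {X : Type} [AddCommGroup X] (nrm : X → ℕ) (l : List X)
    (hl : ∀ γ ∈ l, ∀ j : ℤ, j • γ = 0 → j = 0) :
    ∃ R : ℕ, ∀ (G : Type) [AddCommGroup G] (ι : X →+ G) (c : G → ℝ), PosDefG c →
      (∀ x, nrm x ≤ R → c (ι x) = dd l x) → ∀ g, (∀ x, nrm x ≤ R → ∃ n : ℤ, c (ι x + g) = n) →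
        c g = 0 ∨ ∃ x, nrm x ≤ R ∧ (c (ι x + g) = c 0 ∨ c (ι x + g) = -c 0) := by
  by_contra hcon
  push Not at hcon
  choose G inst ι c hc h1 g h2 h3 h4 using hcon
  have hge : ∀ m : ℕ, ∀ᶠ k in (Filter.hyperfilter ℕ : Filter ℕ), m ≤ k := fun m =>
    Nat.hyperfilter_le_atTop (Filter.eventually_ge_atTop m)
  have hpos : ∀ k, PosDefG fun z : X × ℤ => c k (ι k z.1 + z.2 • g k) := by
    intro k
    have := posDefG_comp (hc k) ((ι k).coprod (zmultiplesHom (G k) (g k)))
    simpa using this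
  have hbd : ∀ z : X × ℤ, ∀ᶠ k in (Filter.hyperfilter ℕ : Filter ℕ),
      |c k (ι k z.1 + z.2 • g k)| ≤ (dd l 0 : ℝ) := by
    intro z
    filter_upwards [hge (nrm 0)] with k hk
    have h := posDefG_abs_le (hc k) (ι k z.1 + z.2 • g k)
    have h0 := h1 k 0 hk
    rw [map_zero] at h0
    rwa [h0] at h
  obtain ⟨C, hC⟩ := exists_limit (Filter.hyperfilter ℕ)
    (fun k (z : X × ℤ) => c k (ι k z.1 + z.2 • g k)) _ hbd
  have hCpos : PosDefG C := posDefG_limit (Filter.hyperfilter ℕ)
    (Filter.Eventually.of_forall hpos) hC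
  -- values
  have hC0 : ∀ x, C (x, 0) = dd l x := by
    intro x
    refine tendsto_nhds_unique (hC (x, 0)) ?_
    refine tendsto_const_nhds.congr' ?_
    filter_upwards [hge (nrm x)] with k hk
    simp only [zero_smul, add_zero]
    exact (h1 k x hk).symm
  have hC1 : ∀ x, (∃ n : ℤ, C (x, 1) = n) ∧
      ∀ᶠ k in (Filter.hyperfilter ℕ : Filter ℕ), c k (ι k x + g k) = C (x, 1) := by
    intro x
    have := int_limit (Filter.hyperfilter ℕ) (c := fun k => c k (ι k x + g k)) (d := C (x, 1)) ?_ ?_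
    · exact this
    · filter_upwards [hge (nrm x)] with k hk
      exact h2 k x hk
    · have := hC (x, 1)
      simpa using this
  have hCne : C (0, 1) ≠ 0 := by
    obtain ⟨k, hk⟩ := (hC1 0).2.exists
    rw [map_zero, zero_add] at hk
    rw [← hk]
    exact h3 k
  have hC00 : ∀ᶠ k in (Filter.hyperfilter ℕ : Filter ℕ), c k 0 = C 0 := by
    filter_upwards [hge (nrm 0)] with k hk
    have h0 := h1 k 0 hk
    rw [map_zero] at h0
    rw [h0]
    exact (hC0 0).symm
  obtain ⟨H, _, _, _, U, v, hU, -, hUv⟩ := exists_gnsG hCpos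
  have hk := lemmaK hU (AddMonoidHom.inl X ℤ) l hl (v := v)
    (fun x => by rw [hUv]; exact hC0 x) (g := ((0, 1) : X × ℤ))
    (fun x => by
      rw [hUv]
      simpa using (hC1 x).1)
  rcases hk with hk | ⟨x, ε, hε, hx⟩
  · apply hCne
    have := hk 0
    rw [hUv] at this
    simpa using this
  · have hCx : C (x, 1) = ε * C 0 := by
      have h := hUv (AddMonoidHom.inl X ℤ x + (0, 1))
      rw [hx, inner_smul_left] at h
      have hv : ⟪v, v⟫_ℝ = C 0 := by
        have h0 := hUv 0
        rw [← h0]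
        have : U 0 v = v := by
          have h00 := hU 0 0 v
          rw [add_zero] at h00
          exact ((U 0).injective h00).symm
        rw [this]
      rw [hv] at h
      simpa using h.symm
    obtain ⟨k, hk1, hk2, hk3⟩ := ((hge (nrm x)).and ((hC1 x).2.and hC00)).exists
    have h5 := h4 k x hk1
    rw [hk2, hk3, hCx] at h5
    rcases hε with rfl | rfl
    · exact h5.1 (one_mul _)
    · exact h5.2 (by ring)

end Pool.Agent.EEAN
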