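import Pool.Agent.W_eea520_n.B2b
import Pool.Agent.W_eea520_n.E2

set_option autoImplicit false

namespace Pool.Agent.EEAN

open Filter Topology Pool.Agent.EEA520 Pool.Agent.EEAG1

variable {n : ℕ}

/-- The points of the compact torus with trivial central character. -/
def CT (t : Torus n) : Prop :=
  ‖(t.c : ℂ)‖ = 1 ∧ (∀ i, ‖(t.x i : ℂ)‖ = 1) ∧ t.c ^ 2 * ∏ i, t.x i = 1

/-- The extension of `e` to all weights: the mean value of the weight `w` over the points `(c, t)`. -/
noncomputable def R1f (e : (Fin n → ℤ) → ℤ) (w : Wt n) : ℤ :=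
  if Even w.1 then e (fun i => w.2 i - w.1 / 2) else 0

/-- The mean value of the weight `w` over the points `(c, t)` with the weights `|D(t)|^2`. -/
noncomputable def R1C (e : (Fin n → ℤ) → ℤ) (w : Wt n) : ℤ :=
  (dd (rtsN n)).sum fun x z => z * R1f e (w + (0, x))

theorem R1c0_perm (σ : Equiv.Perm (Fin n)) (P : Fin n → Prop) : (∀ i, P (σ i)) ↔ ∀ i, P i :=
  ⟨fun h i => by simpa using h (σ.symm i), fun h i => h _⟩

theorem R1c0_upd (P : ℤ → Prop) (hP : ∀ z, P (-z) ↔ P z) (i : Fin n) (x : Fin n → ℤ) :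
    (∀ j, P (Function.update x i (-(x i)) j)) ↔ ∀ j, P (x j) := by
  refine forall_congr' fun j => ?_
  by_cases hj : j = i
  · subst hj
    rw [Function.update_self]
    exact hP _
  · rw [Function.update_of_ne hj]

theorem R1c0_dvd {N : ℕ} {x : Fin n → ℤ} (h : ∀ i, (N : ℤ) ∣ x i) (i j : Fin n) :
    (2 * N : ℤ) ∣ Function.update x i (-(x i)) j - x j := by
  by_cases hj : j = i
  · subst hj
    rw [Function.update_self]
    obtain ⟨c, hc⟩ := h j
    exact ⟨-c, by rw [hc]; ring⟩
  · rw [Function.update_of_ne hj, sub_self]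
    exact dvd_zero _

theorem R1c0_A (N : ℕ) (η : ℤ) :
    (∀ (σ : Equiv.Perm (Fin n)) (x : Fin n → ℤ), fA N η (x ∘ σ) = fA N η x) ∧
      ∀ (i : Fin n) (x : Fin n → ℤ), fA N η (Function.update x i (-(x i))) = fA N η x := by
  constructor
  · intro σ x
    unfold fA
    have h1 : (∀ i, (N : ℤ) ∣ (x ∘ σ) i) ↔ ∀ i, (N : ℤ) ∣ x i := R1c0_perm σ fun i => (N : ℤ) ∣ x i
    have h2 : ∑ i, (x ∘ σ) i = ∑ i, x i := Equiv.sum_comp σ x
    rw [h2]
    exact if_congr h1 rfl rfl
  · intro i x
    unfold fA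
    have h1 : (∀ j, (N : ℤ) ∣ Function.update x i (-(x i)) j) ↔ ∀ j, (N : ℤ) ∣ x j :=
      R1c0_upd (fun z => (N : ℤ) ∣ z) (fun z => dvd_neg) i x
    by_cases h : ∀ j, (N : ℤ) ∣ x j
    · rw [if_pos (h1.2 h), if_pos h]
      refine if_congr ?_ rfl rfl
      have h2 : (2 * N : ℤ) ∣ (∑ j, Function.update x i (-(x i)) j) - ∑ j, x j := by
        rw [← Finset.sum_sub_distrib]
        exact Finset.dvd_sum fun j _ => R1c0_dvd h i j
      constructor
      · intro h3
        have h4 := dvd_sub h3 h2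
        rwa [sub_sub_cancel] at h4
      · intro h3
        have h4 := dvd_add h2 h3
        rwa [sub_add_cancel] at h4
    · rw [if_neg (fun h3 => h (h1.1 h3)), if_neg h]

theorem R1c0_R (N : ℕ) (η : ℤ) :
    (∀ (σ : Equiv.Perm (Fin n)) (x : Fin n → ℤ), fR N η (x ∘ σ) = fR N η x) ∧
      ∀ (i : Fin n) (x : Fin n → ℤ), fR N η (Function.update x i (-(x i))) = fR N η x := by
  constructor
  · intro σ x
    unfold fR
    have h1 : (∀ i, (N : ℤ) ∣ (x ∘ σ) i) ↔ ∀ i, (N : ℤ) ∣ x i := R1c0_perm σ fun i => (N : ℤ) ∣ x i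
    have h2 : (∀ i, (2 * N : ℤ) ∣ (x ∘ σ) i) ↔ ∀ i, (2 * N : ℤ) ∣ x i :=
      R1c0_perm σ fun i => (2 * N : ℤ) ∣ x i
    have h3 : (∀ i j, (2 * N : ℤ) ∣ (x ∘ σ) i - (x ∘ σ) j) ↔ ∀ i j, (2 * N : ℤ) ∣ x i - x j := by
      refine Iff.trans ?_ (R1c0_perm σ fun i => ∀ j, (2 * N : ℤ) ∣ x i - x j)
      exact forall_congr' fun i => R1c0_perm σ fun j => (2 * N : ℤ) ∣ x (σ i) - x j
    refine if_congr (and_congr h1 h3) (if_congr h2 rfl rfl) rfl
  · intro i x
    unfold fR
    have h1 : (∀ j, (N : ℤ) ∣ Function.update x i (-(x i)) j) ↔ ∀ j, (N : ℤ) ∣ x j :=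
      R1c0_upd (fun z => (N : ℤ) ∣ z) (fun z => dvd_neg) i x
    have h2 : (∀ j, (2 * N : ℤ) ∣ Function.update x i (-(x i)) j) ↔ ∀ j, (2 * N : ℤ) ∣ x j :=
      R1c0_upd (fun z => (2 * N : ℤ) ∣ z) (fun z => dvd_neg) i x
    by_cases h : ∀ j, (N : ℤ) ∣ x j
    · have h3 : (∀ a b, (2 * N : ℤ) ∣ Function.update x i (-(x i)) a -
          Function.update x i (-(x i)) b) ↔ ∀ a b, (2 * N : ℤ) ∣ x a - x b := by
        refine forall_congr' fun a => forall_congr' fun b => ?_
        have ha := R1c0_dvd h i a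
        have hb := R1c0_dvd h i b
        constructor
        · intro h4
          have h5 := dvd_add (dvd_sub h4 ha) hb
          have h6 : Function.update x i (-(x i)) a - Function.update x i (-(x i)) b -
              (Function.update x i (-(x i)) a - x a) + (Function.update x i (-(x i)) b - x b) =
              x a - x b := by ring
          rwa [h6] at h5
        · intro h4
          have h5 := dvd_sub (dvd_add h4 ha) hb
          have h6 : x a - x b + (Function.update x i (-(x i)) a - x a) -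
              (Function.update x i (-(x i)) b - x b) =
              Function.update x i (-(x i)) a - Function.update x i (-(x i)) b := by ring
          rwa [h6] at h5
      exact if_congr (and_congr h1 h3) (if_congr h2 rfl rfl) rfl
    · rw [if_neg (fun h3 => h (h1.1 h3.1)), if_neg (fun h3 => h h3.1)]

/-- The function `e` of every type is invariant under permutations and changes of signs. -/
theorem R1_sign_inv {e : (Fin n → ℤ) → ℤ} (he : SignType e) :
    (∀ (σ : Equiv.Perm (Fin n)) (x : Fin n → ℤ), e (x ∘ σ) = e x) ∧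
      ∀ (i : Fin n) (x : Fin n → ℤ), e (Function.update x i (-(x i))) = e x := by
  rcases he with rfl | ⟨N, -, ⟨η, -, rfl⟩ | ⟨η, -, rfl⟩⟩
  · constructor
    · intro σ x
      unfold fST
      refine if_congr ?_ rfl rfl
      rw [funext_iff, funext_iff]
      exact R1c0_perm σ fun i => x i = 0
    · intro i x
      unfold fST
      refine if_congr ?_ rfl rfl
      rw [funext_iff, funext_iff]
      exact R1c0_upd (fun z => z = 0) (fun z => neg_eq_zero) i x
  · exact R1c0_A N η
  · exact R1c0_R N η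

theorem R1_abs {e : (Fin n → ℤ) → ℤ} (he : SignType e) (x : Fin n → ℤ) : |e x| ≤ 1 := by
  rcases he with rfl | ⟨N, -, ⟨η, hη, rfl⟩ | ⟨η, hη, rfl⟩⟩
  · unfold fST
    split_ifs <;> norm_num
  · unfold fA
    have h : |η| ≤ 1 := by rcases hη with rfl | rfl | rfl <;> norm_num
    split_ifs
    · norm_num
    · exact h
    · norm_num
  · unfold fR
    have h : |η| ≤ 1 := by rcases hη with rfl | rfl <;> norm_num
    split_ifs
    · norm_num
    · exact h
    · norm_num

theorem R1_e_zero {e : (Fin n → ℤ) → ℤ} (he : SignType e) : e 0 = 1 := by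
  rcases he with rfl | ⟨N, -, ⟨η, -, rfl⟩ | ⟨η, -, rfl⟩⟩
  · exact if_pos rfl
  · unfold fA
    have h1 : ∀ i : Fin n, (N : ℤ) ∣ (0 : Fin n → ℤ) i := fun i => dvd_zero _
    rw [if_pos h1, if_pos]
    rw [show (∑ i : Fin n, (0 : Fin n → ℤ) i) = 0 from Finset.sum_eq_zero fun i _ => rfl]
    exact dvd_zero _
  · unfold fR
    have h1 : ∀ i : Fin n, (N : ℤ) ∣ (0 : Fin n → ℤ) i := fun i => dvd_zero _
    have h2 : ∀ i : Fin n, (2 * N : ℤ) ∣ (0 : Fin n → ℤ) i := fun i => dvd_zero _
    rw [if_pos ⟨h1, fun i j => dvd_sub (h2 i) (h2 j)⟩, if_pos h2]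

/-- From `R1_sign_inv`. -/
theorem R1f_isInv {e : (Fin n → ℤ) → ℤ} (he : SignType e) : IsInv (R1f e) := by
  obtain ⟨h1, h2⟩ := R1_sign_inv he
  constructor
  · intro σ k μ
    unfold R1f
    refine if_congr Iff.rfl ?_ rfl
    exact h1 σ fun i => μ i - k / 2
  · intro i k μ
    unfold R1f
    simp only
    by_cases hk : Even k
    · rw [if_pos hk, if_pos hk, ← h2 i fun j => μ j - k / 2]
      congr 1
      funext j
      by_cases hj : j = i
      · subst hj
        rw [Function.update_self, Function.update_self]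
        obtain ⟨c, hc⟩ := hk
        omega
      · rw [Function.update_of_ne hj, Function.update_of_ne hj]
    · rw [if_neg hk, if_neg hk]

/-- From `isInv_act` and `dd_act` (`w + (0, x) = act g (w' + (0, x'))`; the sum over `x` can be written as a finite sum over
any finite set of `x`, stable under the Weyl group). -/
theorem R1C_act {e : (Fin n → ℤ) → ℤ} (he : SignType e) (g : WG n) (w : Wt n) :
    R1C e (act g w) = R1C e w := by
  have hz : ∀ x : Fin n → ℤ, ((0, (act g (0, x)).2) : Wt n) = act g (0, x) := fun x => rfl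
  unfold R1C Finsupp.sum
  symm
  refine Finset.sum_bij (fun x _ => (act g (0, x)).2) (fun x hx => ?_) (fun x _ y _ hxy => ?_)
    (fun y hy => ?_) fun x _ => ?_
  · rw [Finsupp.mem_support_iff] at hx ⊢
    rw [dd_act]
    exact hx
  · have h1 : act g (0, x) = act g (0, y) := by
      rw [← hz x, ← hz y]
      exact congrArg (Prod.mk 0) hxy
    exact congrArg Prod.snd (act_injective g h1)
  · obtain ⟨v, hv⟩ := act_surjective g ((0, y) : Wt n)
    have h1 : v.1 = 0 := by
      have h2 := congrArg Prod.fst hv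
      rw [act_apply] at h2
      exact h2
    have h3 : ((0, v.2) : Wt n) = v := Prod.ext h1.symm rfl
    have h4 : (act g (0, v.2)).2 = y := by rw [h3, hv]
    refine ⟨v.2, ?_, h4⟩
    rw [Finsupp.mem_support_iff] at hy ⊢
    rw [← dd_act g, h4]
    exact hy
  · rw [dd_act]
    show _ * R1f e (w + (0, x)) = _ * R1f e (act g w + (0, (act g (0, x)).2))
    rw [hz, ← map_add, isInv_act (R1f_isInv he)]

end Pool.Agent.EEAN
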