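import Pool.Agent.W_eea520_n.R1_a2
import Pool.Agent.W_eea520_n.R1_c0

set_option autoImplicit false

namespace Pool.Agent.EEAN

open Filter Topology Pool.Agent.EEA520 Pool.Agent.EEAG1

variable {n : ℕ}

/-- The support of Weyl's density. -/
theorem R1c_supp {x : Fin n → ℤ} (hx : dd (rtsN n) x ≠ 0) (i : Fin n) : |x i| ≤ 2 * n - 1 := by
  classical
  rw [dd_eq] at hx
  obtain ⟨g, -, hg⟩ := Finset.exists_ne_zero_of_sum_ne_zero hx
  have h1 := right_ne_zero_of_mul hg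
  rw [alt_coeff] at h1
  obtain ⟨h, -, hh⟩ := Finset.exists_ne_zero_of_sum_ne_zero h1
  have h2 : act h ((1 : ℤ), fun j : Fin n => (n : ℤ) - j) = (0, x) + act g (rho n) := by
    by_contra hne
    rw [if_neg hne, mul_zero] at hh
    exact hh rfl
  have h3 := congrFun (congrArg Prod.snd h2) i
  rw [act_apply, act_apply] at h3
  simp only [rho, Prod.snd_add, Pi.add_apply] at h3
  have b1 : ((h.1 i : Fin n) : ℕ) < n := (h.1 i).2
  have b2 : ((g.1 i : Fin n) : ℕ) < n := (g.1 i).2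
  rw [abs_le]
  split_ifs at h3 <;> constructor <;> omega

/-- The total mass. -/
theorem R1c_mass {e : (Fin n → ℤ) → ℤ} (he : SignType e)
    (h : ∀ x : Fin n → ℤ, x ≠ 0 → (∀ i, |x i| ≤ 2 * n - 1) → e x = 0) :
    ((dd (rtsN n)).sum fun y z => z * e y) = Fintype.card (WG n) := by
  classical
  have h1 : ((dd (rtsN n)).sum fun y z => z * e y) = dd (rtsN n) 0 * e 0 := by
    unfold Finsupp.sum
    refine Finset.sum_eq_single 0 ?_ ?_
    · intro y hy hy0
      dsimp only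
      rw [h y hy0 fun i => R1c_supp (Finsupp.mem_support_iff.1 hy) i, mul_zero]
    · intro h0
      dsimp only
      rw [Finsupp.notMem_support_iff.1 h0, zero_mul]
  rw [h1, R1_e_zero he, dd_zero, mul_one]

/-- Units from numbers of absolute value one. -/
noncomputable def R1u (z : ℂ) : ℂˣ := if h : z = 0 then 1 else Units.mk0 z h

theorem R1u_val {z : ℂ} (hz : ‖z‖ = 1) : ((R1u z : ℂˣ) : ℂ) = z := by
  have h : z ≠ 0 := by
    rintro rfl
    simp at hz
  rw [R1u, dif_neg h, Units.val_mk0]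

/-- A point of the torus over a point of the torus of `SO(2n+1)`. -/
theorem R1c_point {t : Fin n → ℂ} (ht : ∀ i, ‖t i‖ = 1) : ∃ P Q : Torus n, CT P ∧ CT Q ∧
    ∀ v : Wt n, (P.ev v : ℂ) + (Q.ev v : ℂ) =
      2 * if Even v.1 then evp t (fun i => v.2 i - v.1 / 2) else 0 := by
  classical
  have ht0 : ∀ i, t i ≠ 0 := by
    intro i h0
    have := ht i
    rw [h0, norm_zero] at this
    exact zero_ne_one this
  have hP : ‖∏ i, t i‖ = 1 := by
    rw [norm_prod]
    exact Finset.prod_eq_one fun i _ => ht i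
  have hP0 : ∏ i, t i ≠ 0 := Finset.prod_ne_zero_iff.2 fun i _ => ht0 i
  obtain ⟨c, hc⟩ := IsAlgClosed.exists_pow_nat_eq ((∏ i, t i)⁻¹) (n := 2) (by norm_num)
  have hcn : ‖c‖ = 1 := by
    have h1 : ‖c‖ ^ 2 = 1 := by rw [← norm_pow, hc, norm_inv, hP, inv_one]
    exact (pow_eq_one_iff_of_nonneg (norm_nonneg _) (by norm_num)).1 h1
  have hc0 : c ≠ 0 := by
    rintro rfl
    rw [norm_zero] at hcn
    exact zero_ne_one hcn
  have hCT : ∀ d : ℂ, ‖d‖ = 1 → d ^ 2 = (∏ i, t i)⁻¹ → CT (⟨R1u d, fun i => R1u (t i)⟩ : Torus n) := by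
    intro d hd hd2
    refine ⟨?_, fun i => ?_, ?_⟩
    · show ‖((R1u d : ℂˣ) : ℂ)‖ = 1
      rw [R1u_val hd, hd]
    · show ‖((R1u (t i) : ℂˣ) : ℂ)‖ = 1
      rw [R1u_val (ht i), ht i]
    · show (R1u d) ^ 2 * ∏ i, R1u (t i) = 1
      apply Units.ext
      rw [Units.val_mul, Units.val_pow_eq_pow_val, Units.coe_prod, R1u_val hd, hd2]
      have : ∏ i, ((R1u (t i) : ℂˣ) : ℂ) = ∏ i, t i :=
        Finset.prod_congr rfl fun i _ => R1u_val (ht i)
      rw [this, inv_mul_cancel₀ hP0, Units.val_one]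
  refine ⟨⟨R1u c, fun i => R1u (t i)⟩, ⟨R1u (-c), fun i => R1u (t i)⟩, hCT c hcn hc,
    hCT (-c) (by rw [norm_neg, hcn]) (by rw [neg_sq, hc]), fun v => ?_⟩
  have hev : ∀ d : ℂ, ‖d‖ = 1 → ((Torus.ev (⟨R1u d, fun i => R1u (t i)⟩ : Torus n) v : ℂˣ) : ℂ) =
      d ^ v.1 * ∏ i, t i ^ v.2 i := by
    intro d hd
    unfold Torus.ev
    rw [Units.val_mul, Units.val_zpow_eq_zpow_val, Units.coe_prod]
    show ((R1u d : ℂˣ) : ℂ) ^ v.1 * ∏ i, ((R1u (t i) ^ v.2 i : ℂˣ) : ℂ) = _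
    rw [R1u_val hd]
    congr 1
    refine Finset.prod_congr rfl fun i _ => ?_
    rw [Units.val_zpow_eq_zpow_val, R1u_val (ht i)]
  rw [hev c hcn, hev (-c) (by rw [norm_neg, hcn])]
  split_ifs with hv
  · obtain ⟨j, hj⟩ := hv
    have e1 : v.1 / 2 = j := by omega
    have e2 : c ^ v.1 = (∏ i, t i) ^ (-j) := by
      have : v.1 = 2 * j := by omega
      rw [this, zpow_mul, zpow_ofNat, hc, inv_zpow, zpow_neg]
    have e3 : (-c) ^ v.1 = c ^ v.1 := Even.neg_zpow ⟨j, hj⟩ c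
    rw [e3, e2, e1]
    unfold evp
    have e4 : (∏ i, t i) ^ (-j) * ∏ i, t i ^ v.2 i = ∏ i, t i ^ (v.2 i - j) := by
      rw [← Finset.prod_zpow, ← Finset.prod_mul_distrib]
      refine Finset.prod_congr rfl fun i _ => ?_
      rw [← zpow_add₀ (ht0 i)]
      congr 1
      ring
    rw [e4]
    ring
  · rw [Int.not_even_iff_odd] at hv
    rw [Odd.neg_zpow hv]
    ring

theorem R1c_C (e : (Fin n → ℤ) → ℤ) (v : Wt n) : R1C e v = if Even v.1 then
    ((dd (rtsN n)).sum fun y z => z * e ((fun i => v.2 i - v.1 / 2) + y)) else 0 := by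
  unfold R1C
  split_ifs with hv
  · refine Finsupp.sum_congr fun y _ => ?_
    unfold R1f
    simp only [Prod.fst_add, add_zero, Prod.snd_add, Pi.add_apply]
    rw [if_pos hv]
    congr 2
    funext i
    simp only [Pi.add_apply]
    ring
  · unfold Finsupp.sum
    refine Finset.sum_eq_zero fun y _ => ?_
    unfold R1f
    simp only [Prod.fst_add, add_zero]
    rw [if_neg hv, mul_zero]

theorem R1c_mul {t : Fin n → ℂ} (ht : ∀ i, ‖t i‖ = 1) (x y : Fin n → ℤ) :
    evp t (x + y) = evp t x * evp t y := by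
  unfold evp
  rw [← Finset.prod_mul_distrib]
  refine Finset.prod_congr rfl fun i _ => ?_
  rw [Pi.add_apply, zpow_add₀]
  intro h0
  have := ht i
  rw [h0, norm_zero] at this
  exact zero_ne_one this

/-- Correlations. -/
theorem R1c_cor {e : (Fin n → ℤ) → ℤ} {S : Finset (Fin n → ℂ)} {F : Finset (Fin n → ℤ)}
    (hSn : ∀ t ∈ S, ∀ i, ‖t i‖ = 1) (hS : ∀ x ∈ F, ∑ t ∈ S, evp t x = S.card * e x)
    {r : (Fin n → ℂ) → ℝ}
    (hr : ∀ t ∈ S, ((dd (rtsN n)).sum fun x z => (z : ℂ) * evp t x) = r t) {x : Fin n → ℤ}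
    (hx : ∀ y ∈ (dd (rtsN n)).support, x + y ∈ F) :
    ∑ t ∈ S, (r t : ℂ) * evp t x =
      S.card * (((dd (rtsN n)).sum fun y z => z * e (x + y) : ℤ) : ℂ) := by
  have h1 : ∑ t ∈ S, (r t : ℂ) * evp t x =
      ∑ t ∈ S, ∑ y ∈ (dd (rtsN n)).support, ((dd (rtsN n) y : ℤ) : ℂ) * evp t (x + y) := by
    refine Finset.sum_congr rfl fun t ht => ?_
    rw [← hr t ht]
    unfold Finsupp.sum
    rw [Finset.sum_mul]
    refine Finset.sum_congr rfl fun y _ => ?_
    rw [R1c_mul (hSn t ht)]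
    ring
  rw [h1, Finset.sum_comm]
  unfold Finsupp.sum
  push_cast
  rw [Finset.mul_sum]
  refine Finset.sum_congr rfl fun y hy => ?_
  rw [← Finset.mul_sum, hS _ (hx y hy)]
  ring

/-- The averaging argument. Let `x_w = w.2 - w.1 / 2`. -/
theorem R1_avg {e : (Fin n → ℤ) → ℤ} (he : SignType e)
    (h : ∀ x : Fin n → ℤ, x ≠ 0 → (∀ i, |x i| ≤ 2 * n - 1) → e x = 0) (s : Finset (Wt n))
    (b : Wt n → ℝ) :
    ∃ t : Torus n, CT t ∧
      ∑ w ∈ s, b w * (∑ g : WG n, (t.ev (act g w) : ℂ).re - (R1C e w : ℝ)) ≤ 0 := by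
  classical
  by_contra hcon
  push Not at hcon
  set D := dd (rtsN n) with hD
  obtain ⟨S, hSne, hSn, hS⟩ := exists_points he
    (((s ×ˢ (Finset.univ : Finset (WG n))) ×ˢ D.support).image
      (fun q => (fun i => (act q.1.2 q.1.1).2 i - (act q.1.2 q.1.1).1 / 2) + q.2) ∪ D.support)
  have hd : ∀ t : Fin n → ℂ, ∃ r : ℝ, t ∈ S →
      0 ≤ r ∧ (D.sum fun x z => (z : ℂ) * evp t x) = r := by
    intro t
    by_cases ht : t ∈ S
    · obtain ⟨r, hr, hr'⟩ := density_nonneg (rtsN n) (hSn t ht)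
      exact ⟨r, fun _ => ⟨hr, hr'⟩⟩
    · exact ⟨0, fun h => absurd h ht⟩
  choose r hr using hd
  have hpt : ∀ t : Fin n → ℂ, ∃ P Q : Torus n, t ∈ S → CT P ∧ CT Q ∧
      ∀ v : Wt n, (P.ev v : ℂ) + (Q.ev v : ℂ) =
        2 * if Even v.1 then evp t (fun i => v.2 i - v.1 / 2) else 0 := by
    intro t
    by_cases ht : t ∈ S
    · obtain ⟨P, Q, hPQ⟩ := R1c_point (hSn t ht)
      exact ⟨P, Q, fun _ => hPQ⟩
    · exact ⟨⟨1, fun _ => 1⟩, ⟨1, fun _ => 1⟩, fun h => absurd h ht⟩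
  choose P Q hPQ using hpt
  -- the total mass
  have hmass : ∑ t ∈ S, r t = S.card * Fintype.card (WG n) := by
    have h1 := R1c_cor (e := e) (x := 0) hSn hS (fun t ht => (hr t ht).2) (fun y hy => by
      rw [zero_add]
      exact Finset.mem_union_right _ hy)
    have h2 : ∀ t, evp t (0 : Fin n → ℤ) = 1 := by
      intro t
      unfold evp
      simp
    simp only [h2, mul_one, zero_add] at h1
    rw [R1c_mass he h] at h1
    exact_mod_cast h1
  have hSc : (0 : ℝ) < S.card := by exact_mod_cast Finset.card_pos.2 hSne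
  have hWc : (0 : ℝ) < Fintype.card (WG n) := by exact_mod_cast Fintype.card_pos
  -- one weight
  have hone : ∀ w ∈ s, ∀ g : WG n,
      ∑ t ∈ S, r t * (((P t).ev (act g w) : ℂ).re + ((Q t).ev (act g w) : ℂ).re) =
        2 * (S.card * (R1C e w : ℝ)) := by
    intro w hw g
    have h1 : ∀ t ∈ S, ((r t * (((P t).ev (act g w) : ℂ).re + ((Q t).ev (act g w) : ℂ).re) : ℝ)) =
        ((r t : ℂ) * (2 * if Even (act g w).1 then
          evp t (fun i => (act g w).2 i - (act g w).1 / 2) else 0)).re := by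
      intro t ht
      rw [← (hPQ t ht).2.2 (act g w), Complex.re_ofReal_mul, Complex.add_re]
    rw [Finset.sum_congr rfl h1, ← Complex.re_sum, ← R1C_act he g w, R1c_C]
    by_cases hv : Even (act g w).1
    · simp only [if_pos hv]
      have h2 := R1c_cor (e := e) (x := fun i => (act g w).2 i - (act g w).1 / 2) hSn hS
        (fun t ht => (hr t ht).2) (fun y hy => Finset.mem_union_left _ (Finset.mem_image.2
          ⟨((w, g), y), Finset.mem_product.2 ⟨Finset.mem_product.2 ⟨hw, Finset.mem_univ _⟩, hy⟩,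
            rfl⟩))
      have h3 : ∑ t ∈ S, (r t : ℂ) * (2 * evp t (fun i => (act g w).2 i - (act g w).1 / 2)) =
          2 * ∑ t ∈ S, (r t : ℂ) * evp t (fun i => (act g w).2 i - (act g w).1 / 2) := by
        rw [Finset.mul_sum]
        exact Finset.sum_congr rfl fun t _ => by ring
      rw [h3, h2]
      have h4 : ∀ z : ℤ, (2 : ℂ) * ((S.card : ℂ) * (z : ℂ)) = ((2 * (S.card * (z : ℝ)) : ℝ) : ℂ) :=
        fun z => by push_cast; rfl
      rw [h4, Complex.ofReal_re]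
    · simp only [if_neg hv]
      simp
  -- the sum is zero
  have hzero : ∑ t ∈ S, r t *
      ((∑ w ∈ s, b w * (∑ g : WG n, ((P t).ev (act g w) : ℂ).re - (R1C e w : ℝ))) +
        ∑ w ∈ s, b w * (∑ g : WG n, ((Q t).ev (act g w) : ℂ).re - (R1C e w : ℝ))) = 0 := by
    have h1 : ∀ t ∈ S, r t *
      ((∑ w ∈ s, b w * (∑ g : WG n, ((P t).ev (act g w) : ℂ).re - (R1C e w : ℝ))) +
        ∑ w ∈ s, b w * (∑ g : WG n, ((Q t).ev (act g w) : ℂ).re - (R1C e w : ℝ))) =
        ∑ w ∈ s, b w * ((∑ g : WG n,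
          r t * (((P t).ev (act g w) : ℂ).re + ((Q t).ev (act g w) : ℂ).re)) -
            r t * (2 * (R1C e w : ℝ))) := by
      intro t _
      rw [← Finset.sum_add_distrib, Finset.mul_sum]
      refine Finset.sum_congr rfl fun w _ => ?_
      rw [← Finset.mul_sum, Finset.sum_add_distrib]
      ring
    rw [Finset.sum_congr rfl h1, Finset.sum_comm]
    refine Finset.sum_eq_zero fun w hw => ?_
    rw [← Finset.mul_sum, Finset.sum_sub_distrib, Finset.sum_comm,
      Finset.sum_congr rfl fun g _ => hone w hw g, Finset.sum_const, Finset.card_univ,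
      nsmul_eq_mul, ← Finset.sum_mul, hmass]
    ring
  -- positivity
  have hpos : 0 < ∑ t ∈ S, r t *
      ((∑ w ∈ s, b w * (∑ g : WG n, ((P t).ev (act g w) : ℂ).re - (R1C e w : ℝ))) +
        ∑ w ∈ s, b w * (∑ g : WG n, ((Q t).ev (act g w) : ℂ).re - (R1C e w : ℝ))) := by
    have hG : ∀ t ∈ S, 0 <
      ((∑ w ∈ s, b w * (∑ g : WG n, ((P t).ev (act g w) : ℂ).re - (R1C e w : ℝ))) +
        ∑ w ∈ s, b w * (∑ g : WG n, ((Q t).ev (act g w) : ℂ).re - (R1C e w : ℝ))) :=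
      fun t ht => add_pos (hcon _ (hPQ t ht).1) (hcon _ (hPQ t ht).2.1)
    have hex : ∃ t ∈ S, 0 < r t := by
      by_contra hno
      push Not at hno
      have : ∑ t ∈ S, r t ≤ 0 := Finset.sum_nonpos hno
      rw [hmass] at this
      exact absurd this (not_le.2 (mul_pos hSc hWc))
    obtain ⟨t₀, ht₀, hr₀⟩ := hex
    exact Finset.sum_pos' (fun t ht => mul_nonneg (hr t ht).1 (hG t ht).le)
      ⟨t₀, ht₀, mul_pos hr₀ (hG t₀ ht₀)⟩
  exact absurd hzero hpos.ne'

end Pool.Agent.EEAN
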