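import Pool.Agent.W_eea520_n.R1_c0

set_option autoImplicit false

namespace Pool.Agent.EEAN

open Filter Topology Pool.Agent.EEA520 Pool.Agent.EEAG1

variable {n : ℕ}

/-- For irreducible characters. By `formula` for `R1f e` (`isInv_act`, `R1f_isInv`). -/
theorem R1_int_irr {e : (Fin n → ℤ) → ℤ} (he : SignType e) {k : ℤ} {μ : Fin n → ℤ} {m : Wt n →₀ ℤ}
    (h : IsIrr k μ m) :
    (m.sum fun w z => z * R1C e w) = Fintype.card (WG n) * ordE (R1f e) k μ := by
  exact formula h (R1f e) (fun g w => isInv_act (R1f_isInv he) g w)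

/-- For all characters: `alg_irr` (`AlgZ.lean`) for the subgroup of the `m` with
`card ∣ ∑_w m w * R1C e w` (additive in `m`: `Finsupp.sum_add_index'`), with `R1_int_irr`. -/
theorem R1_int {e : (Fin n → ℤ) → ℤ} (he : SignType e) {m : Wt n →₀ ℤ} (hm : IsCharacter m) :
    ∃ a : ℤ, (m.sum fun w z => z * R1C e w) = Fintype.card (WG n) * a := by
  let U : AddSubgroup (R n) :=
    { carrier := {f | ∃ a : ℤ, (f.coeff.sum fun w z => z * R1C e w) = Fintype.card (WG n) * a}
      zero_mem' := ⟨0, by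
        have h0 : (0 : R n).coeff = 0 := rfl
        rw [h0, Finsupp.sum_zero_index, mul_zero]⟩
      add_mem' := by
        rintro f g ⟨a, ha⟩ ⟨b, hb⟩
        refine ⟨a + b, ?_⟩
        have h0 : (f + g).coeff = f.coeff + g.coeff := rfl
        rw [h0, Finsupp.sum_add_index' (fun _ => zero_mul _) (fun _ _ _ => add_mul _ _ _), ha, hb,
          mul_add]
      neg_mem' := by
        rintro f ⟨a, ha⟩
        refine ⟨-a, ?_⟩
        have h0 : (-f).coeff = -f.coeff := rfl
        rw [h0, Finsupp.sum_neg_index (fun _ => zero_mul _), mul_neg, ← ha, Finsupp.sum,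
          Finsupp.sum, ← Finset.sum_neg_distrib]
        refine Finset.sum_congr rfl fun w _ => ?_
        rw [neg_mul] }
  have h1 : (AddMonoidAlgebra.ofCoeff m : R n) ∈ U := by
    refine alg_irr n U (fun k μ m' h' => ⟨ordE (R1f e) k μ, R1_int_irr he h'⟩) _ hm
  exact h1

/-- `ordE_congr` (`E2.lean`): only the weights with `w.1 = 0` matter. -/
theorem R1_ordE (e : (Fin n → ℤ) → ℤ) (μ : Fin n → ℤ) :
    ordE (R1f e) 0 μ = ordE (fun w => e w.2) 0 μ := by
  refine ordE_congr (fun w hw => ?_) μ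
  unfold R1f
  rw [hw, if_pos Even.zero]
  congr 1
  funext i
  simp

theorem R1d_inv {t : Torus n} (ht : CT t) (w : Wt n) :
    t.ev (act ((1, Finset.univ) : WG n) w) = (t.ev w)⁻¹ := by
  have h1 : act ((1, Finset.univ) : WG n) w = (w.1, fun i => w.1 - w.2 i) := by
    rw [act_apply]
    refine Prod.ext rfl ?_
    funext i
    simp
  rw [h1]
  unfold Torus.ev
  simp only [zpow_sub, Finset.prod_mul_distrib, mul_inv, Finset.prod_inv_distrib,
    Finset.prod_zpow]
  have h2 : (∏ i, t.x i) = (t.c ^ 2)⁻¹ := (eq_inv_of_mul_eq_one_right ht.2.2)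
  rw [h2, ← mul_assoc]
  congr 1
  rw [inv_zpow, ← div_eq_mul_inv, div_eq_iff_eq_mul, inv_mul_eq_div, eq_div_iff_mul_eq', pow_two,
    mul_zpow]

theorem R1d_norm {t : Torus n} (ht : CT t) (w : Wt n) : ‖(t.ev w : ℂ)‖ = 1 := by
  unfold Torus.ev
  rw [Units.val_mul, norm_mul, Units.val_zpow_eq_zpow_val, _root_.norm_zpow, ht.1, one_zpow, one_mul,
    Units.coe_prod, norm_prod]
  refine Finset.prod_eq_one fun i _ => ?_
  rw [Units.val_zpow_eq_zpow_val, _root_.norm_zpow, ht.2.1 i, one_zpow]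

theorem R1d_im {t : Torus n} (ht : CT t) (w : Wt n) :
    (t.ev (act ((1, Finset.univ) : WG n) w) : ℂ).im = -(t.ev w : ℂ).im := by
  rw [R1d_inv ht, Units.val_inv_eq_inv_val, Complex.inv_eq_conj (R1d_norm ht w), Complex.conj_im]

/-- The trace of a character at a point of the compact torus with trivial central character. It is real: apply the
Weyl group element `(1, univ)`, `(k, μ) ↦ (k, k - μ)`; `ev (k, k - μ) = (ev (k, μ))⁻¹` as `c ^ 2 ∏ x_i = 1`, the complex
conjugate. And `∑_w m w * Re ev w = ∑_w m w * Re ev (act g w)` for all `g` (see `sum_act` in `W_eea520_G/D.lean`). -/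
theorem R1_trace {t : Torus n} (ht : CT t) {m : Wt n →₀ ℤ} (hm : IsCharacter m) :
    (m.sum fun w z => (z : ℂ) * (t.ev w : ℂ)) =
      (((m.sum fun w z => (z : ℝ) * ∑ g : WG n, (t.ev (act g w) : ℂ).re) /
        Fintype.card (WG n) : ℝ) : ℂ) := by
  have hre : (m.sum fun w z => (z : ℂ) * (t.ev w : ℂ)).re =
      m.sum fun w z => (z : ℝ) * (t.ev w : ℂ).re := by
    unfold Finsupp.sum
    rw [Complex.re_sum]
    refine Finset.sum_congr rfl fun w _ => ?_
    show ((m w : ℂ) * (t.ev w : ℂ)).re = (m w : ℝ) * (t.ev w : ℂ).re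
    rw [← Complex.ofReal_intCast, Complex.re_ofReal_mul]
  have him : (m.sum fun w z => (z : ℂ) * (t.ev w : ℂ)).im =
      m.sum fun w z => (z : ℝ) * (t.ev w : ℂ).im := by
    unfold Finsupp.sum
    rw [Complex.im_sum]
    refine Finset.sum_congr rfl fun w _ => ?_
    show ((m w : ℂ) * (t.ev w : ℂ)).im = (m w : ℝ) * (t.ev w : ℂ).im
    rw [← Complex.ofReal_intCast, Complex.im_ofReal_mul]
  have him0 : (m.sum fun w z => (z : ℝ) * (t.ev w : ℂ).im) = 0 := by
    have h1 := sum_act hm ((1, Finset.univ) : WG n) fun w => (t.ev w : ℂ).im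
    simp only [R1d_im ht] at h1
    have h2 : (m.sum fun w z => (z : ℝ) * -(t.ev w : ℂ).im) =
        -(m.sum fun w z => (z : ℝ) * (t.ev w : ℂ).im) := by
      unfold Finsupp.sum
      rw [← Finset.sum_neg_distrib]
      refine Finset.sum_congr rfl fun w _ => ?_
      exact mul_neg _ _
    rw [h2] at h1
    linarith
  have hc : (Fintype.card (WG n) : ℝ) ≠ 0 := by
    have : 0 < Fintype.card (WG n) := Fintype.card_pos
    exact_mod_cast this.ne'
  have hs : (m.sum fun w z => (z : ℝ) * ∑ g : WG n, (t.ev (act g w) : ℂ).re) =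
      Fintype.card (WG n) * m.sum fun w z => (z : ℝ) * (t.ev w : ℂ).re := by
    simp only [Finset.mul_sum]
    rw [Finsupp.sum_finsetSum_comm]
    rw [Finset.sum_congr rfl fun g _ => sum_act hm g fun w => (t.ev w : ℂ).re]
    rw [Finset.sum_const, Finset.card_univ, nsmul_eq_mul]
  rw [hs, mul_div_cancel_left₀ _ hc]
  refine Complex.ext ?_ ?_
  · rw [hre, Complex.ofReal_re]
  · rw [him, him0, Complex.ofReal_im]

end Pool.Agent.EEAN
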