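import Pool.Agent.W_eea520_G.S1
import Pool.Agent.W_eea520_n.Defs

set_option autoImplicit false

namespace Pool.Agent.EEAN

open Filter Topology Pool.Agent.EEA520 Pool.Agent.EEAG1

variable {n : ℕ}

/-- The sequence of points as a system: `π p` is the `j`-th point, if `p` is the prime number with the index `j`. -/
noncomputable def R1sys (θ : ℕ → Torus n) : GSys n := fun p => θ (Nat.count Nat.Prime (p : ℕ))

/-- Sums over the primes. -/
theorem R1e_sum_primes (G : ℕ → ℂ) (N : ℕ) :
    ∑ k ∈ Finset.range N, (if k.Prime then G (Nat.count Nat.Prime k) else 0) =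
      ∑ i ∈ Finset.range (Nat.count Nat.Prime N), G i := by
  induction N with
  | zero => simp
  | succ N ih =>
    rw [Finset.sum_range_succ, ih, Nat.count_succ]
    split_ifs with h
    · rw [Finset.sum_range_succ]
    · simp

/-- The partial sums. -/
theorem R1e_partial_sums {G : ℕ → ℂ} {C : ℝ} (hC0 : 0 ≤ C)
    (hC : ∀ n : ℕ, ‖∑ i ∈ Finset.range n, G i‖ ≤ C * Real.sqrt n) (N : ℕ) :
    ‖∑ k ∈ Finset.Icc 1 N, (if k.Prime then G (Nat.count Nat.Prime k) else 0)‖ ≤
      C * Real.sqrt N := by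
  have h1 : ∑ k ∈ Finset.Icc 1 N, (if k.Prime then G (Nat.count Nat.Prime k) else 0) =
      ∑ i ∈ Finset.range (Nat.count Nat.Prime (N + 1)), G i := by
    rw [← R1e_sum_primes G (N + 1), Finset.range_eq_Ico,
      Finset.sum_eq_sum_Ico_succ_bot (by omega), if_neg Nat.not_prime_zero, zero_add]
    refine Finset.sum_congr ?_ fun k _ => rfl
    ext k
    rw [Finset.mem_Icc, Finset.mem_Ico]
    omega
  rw [h1]
  refine (hC _).trans (mul_le_mul_of_nonneg_left (Real.sqrt_le_sqrt ?_) hC0)
  have h2 : ∀ N, Nat.count Nat.Prime (N + 1) ≤ N := by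
    intro N
    induction N with
    | zero => simp [Nat.count_succ, Nat.not_prime_zero]
    | succ N ih =>
      rw [Nat.count_succ]
      split_ifs <;> omega
  exact_mod_cast h2 N

theorem R1e_chn (θ : ℕ → Torus n) (m : Wt n →₀ ℤ) {k : ℕ} (hk : k.Prime) :
    chn (R1sys θ) m k =
      m.sum fun w z => (z : ℂ) * ((θ (Nat.count Nat.Prime k)).ev w : ℂ) := by
  rw [chn, dif_pos hk]
  rfl

/-- The Euler products. Compare the proof of `Pool.Agent.EEA520.realize` in `W_eea520_G/S1.lean`:
`fm k = chn π m k - a * chn π (single 0 1) k` is `∑_w m w * ev w - a` at the primes and `0` at the other numbers, so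
the partial sums are `O (√N)` (`sum_primes` for the real part and for the imaginary part or rather directly for complex
numbers; `Nat.count Nat.Prime (N + 1) ≤ N`), and `dir_ext`, `hol_diff`, `factor_hasProd`, `zeta_eq`. -/
theorem R1_euler {θ : ℕ → Torus n} (hθ : Tempered (R1sys θ)) (m : Wt n →₀ ℤ) (a : ℤ) {C : ℝ}
    (hC : ∀ N : ℕ, ‖∑ j ∈ Finset.range N, ((m.sum fun w z => (z : ℂ) * ((θ j).ev w : ℂ)) - a)‖ ≤
      C * Real.sqrt N) :
    ∃ H : ℂ → ℂ, DifferentiableOn ℂ H {s | 1 / 2 < s.re} ∧ ∀ s : ℂ, 1 < s.re →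
      HasProd (fun p : Pr => (R1sys θ p).factor m (((p : ℕ) : ℂ) ^ (-s)))
        (riemannZeta s ^ a * Complex.exp (H s)) := by
  have hC0 : 0 ≤ C := by
    have h := (norm_nonneg _).trans (hC 1)
    simpa using h
  set fm : ℕ → ℂ := fun k => chn (R1sys θ) m k - a * chn (R1sys θ) (Finsupp.single 0 1) k with hfm
  have hre : ∀ k, fm k = if k.Prime then
      ((m.sum fun w z => (z : ℂ) * ((θ (Nat.count Nat.Prime k)).ev w : ℂ)) - a) else 0 := by
    intro k
    rw [hfm]
    dsimp only
    rw [chn_one]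
    by_cases hk : k.Prime
    · rw [R1e_chn θ m hk, if_pos hk, if_pos hk, mul_one]
    · rw [chn, dif_neg hk, if_neg hk, if_neg hk, mul_zero, sub_zero]
  have hpart : ∀ N : ℕ, ‖∑ k ∈ Finset.Icc 1 N, fm k‖ ≤ C * Real.sqrt N := by
    intro N
    simp only [hre]
    exact R1e_partial_sums (G := fun j => (m.sum fun w z => (z : ℂ) * ((θ j).ev w : ℂ)) - a)
      hC0 hC N
  have hB : ∀ k, ‖fm k‖ ≤ mnorm m + |(a : ℝ)| * mnorm (Finsupp.single (0 : Wt n) (1 : ℤ)) := by
    intro k
    refine (norm_sub_le _ _).trans (add_le_add (chn_le hθ m k) ?_)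
    rw [norm_mul, Complex.norm_intCast]
    exact mul_le_mul_of_nonneg_left (chn_le hθ _ k) (abs_nonneg _)
  obtain ⟨H, hH1, hH2⟩ := dir_ext hB hpart
  refine ⟨fun s => H s + hol (R1sys θ) m s - a * hol (R1sys θ) (Finsupp.single 0 1) s, ?_, ?_⟩
  · exact (hH1.add (hol_diff hθ m)).sub ((hol_diff hθ _).const_mul _)
  · intro s hs
    have h1 := factor_hasProd hθ m hs
    have h2 : LSeries (chn (R1sys θ) m) s =
        LSeries fm s + a * LSeries (chn (R1sys θ) (Finsupp.single 0 1)) s := by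
      have h3 : LSeriesSummable fm s :=
        LSeriesSummable_of_bounded_of_one_lt_re (fun k _ => hB k) hs
      have h4 := (chn_summable hθ (Finsupp.single 0 1) hs).smul (a : ℂ)
      rw [← LSeries_smul, ← LSeries_add h3 h4]
      congr 1
      funext k
      simp only [hfm, Pi.add_apply, Pi.smul_apply, smul_eq_mul, sub_add_cancel]
    have h5 : riemannZeta s ^ a * Complex.exp (H s + hol (R1sys θ) m s -
        a * hol (R1sys θ) (Finsupp.single 0 1) s) =
        Complex.exp (LSeries (chn (R1sys θ) m) s + hol (R1sys θ) m s) := by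
      rw [zeta_eq hθ hs, ← Complex.exp_int_mul, ← Complex.exp_add, h2, hH2 s hs]
      congr 1
      ring
    rw [h5]
    exact h1

/-- Meromorphy of `ζ ^ a * exp H` (`zeta_mero`). -/
theorem R1_mero {H : ℂ → ℂ} (hH : DifferentiableOn ℂ H {s | 1 / 2 < s.re}) (a : ℤ) :
    MeromorphicOn (fun s => riemannZeta s ^ a * Complex.exp (H s)) {s | 1 / 2 < s.re} := by
  intro s hs
  have hopen : IsOpen {s : ℂ | 1 / 2 < s.re} := isOpen_lt continuous_const Complex.continuous_re
  have hHa : AnalyticAt ℂ H s := hH.analyticAt (hopen.mem_nhds hs)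
  have hE : AnalyticAt ℂ (fun s => Complex.exp (H s)) s := hHa.cexp
  exact ((zeta_mero s).zpow a).mul hE.meromorphicAt

end Pool.Agent.EEAN
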