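import Pool.Agent.W_eea520_n.R1_b
import Pool.Agent.W_eea520_n.R1_c
import Pool.Agent.W_eea520_n.R1_d
import Pool.Agent.W_eea520_n.R1_e

set_option autoImplicit false

namespace Pool.Agent.EEAN

open Filter Topology Pool.Agent.EEA520 Pool.Agent.EEAG1

variable {n : ℕ}

theorem R1_norm_ev {t : Torus n} (ht : CT t) (w : Wt n) : ‖(t.ev w : ℂ)‖ = 1 := by
  unfold Torus.ev
  rw [Units.val_mul, Units.val_zpow_eq_zpow_val, Units.coe_prod, norm_mul, _root_.norm_zpow, ht.1, one_zpow,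
    one_mul, norm_prod]
  refine Finset.prod_eq_one fun i _ => ?_
  rw [Units.val_zpow_eq_zpow_val, _root_.norm_zpow, ht.2.1 i, one_zpow]

theorem R1_C_le {e : (Fin n → ℤ) → ℤ} (he : SignType e) (w : Wt n) :
    |(R1C e w : ℝ)| ≤ ∑ y ∈ (dd (rtsN n)).support, |((dd (rtsN n) y : ℤ) : ℝ)| := by
  unfold R1C Finsupp.sum
  push_cast
  refine (Finset.abs_sum_le_sum_abs _ _).trans (Finset.sum_le_sum fun y _ => ?_)
  rw [abs_mul]
  refine mul_le_of_le_one_right (abs_nonneg _) ?_
  unfold R1f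
  split_ifs
  · exact_mod_cast R1_abs he _
  · simp

/-- The sequence of points. -/
theorem R1_seq {e : (Fin n → ℤ) → ℤ} (he : SignType e)
    (h : ∀ x : Fin n → ℤ, x ≠ 0 → (∀ i, |x i| ≤ 2 * n - 1) → e x = 0) :
    ∃ θ : ℕ → Torus n, (∀ j, CT (θ j)) ∧ ∀ w : Wt n, ∃ C : ℝ, ∀ N : ℕ,
      |∑ j ∈ Finset.range N, (∑ g : WG n, ((θ j).ev (act g w) : ℂ).re - (R1C e w : ℝ))| ≤
        C * Real.sqrt N := by
  classical
  obtain ⟨hden⟩ := nonempty_denumerable (Wt n)
  have E : Wt n ≃ ℕ := Denumerable.eqv (Wt n)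
  set B : ℝ := Fintype.card (WG n) +
    ∑ y ∈ (dd (rtsN n)).support, |((dd (rtsN n) y : ℤ) : ℝ)| with hBdef
  have hB : 0 < B := by
    have h1 : (0 : ℝ) < Fintype.card (WG n) := by exact_mod_cast Fintype.card_pos
    have h2 : 0 ≤ ∑ y ∈ (dd (rtsN n)).support, |((dd (rtsN n) y : ℤ) : ℝ)| :=
      Finset.sum_nonneg fun y _ => abs_nonneg _
    linarith
  have hF : ∀ (k : ℕ) (x : {t : Torus n // CT t}),
      |∑ g : WG n, (x.1.ev (act g (E.symm k)) : ℂ).re - (R1C e (E.symm k) : ℝ)| ≤ B := by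
    intro k x
    refine (abs_sub _ _).trans (add_le_add ?_ (R1_C_le he _))
    refine (Finset.abs_sum_le_sum_abs _ _).trans ?_
    refine (Finset.sum_le_card_nsmul _ _ 1 fun g _ => ?_).trans ?_
    · exact (Complex.abs_re_le_norm _).trans (R1_norm_ev x.2 _).le
    · rw [Finset.card_univ, nsmul_eq_mul, mul_one]
  obtain ⟨θ, hθ⟩ := R1_greedy hB hF (fun b N => by
    obtain ⟨t, ht, ht'⟩ := R1_avg he h ((Finset.range N).map E.symm.toEmbedding) (fun w => b (E w))
    refine ⟨⟨t, ht⟩, ?_⟩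
    rw [Finset.sum_map] at ht'
    simpa using ht')
  refine ⟨fun j => (θ j).1, fun j => (θ j).2, fun w => ?_⟩
  obtain ⟨C, hC⟩ := hθ (E w)
  refine ⟨C, fun N => ?_⟩
  have := hC N
  simpa using this

/-- (D) REALIZATION, compare `Pool.Agent.EEA520.occurs_exp` (`W_eea520_G/S4.lean`) and the modules
`W_eea520_h70/Sh*.lean`, `W_eea520_G/S1.lean` for `n = 1`. Let `c x = ∑_y dd y * e (x + y)`,
`y` in the support of `dd (rtsN n)`; `c 0 = dd 0 = card (WG n)` by `h`. (a) For all real `b_w`, `w` in a finite set of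
weights, there is a point `(c, t)` of the compact torus with `c ^ 2 * ∏ t_i = 1` and
`∑_w b_w (∑_g Re ((c, t) ^ (act g w)) - C w) ≤ 0`, where `C w = c (w.2 - w.1 / 2)` if `w.1` is even and `0` if `w.1` is
odd: the average of the left side over the `t ∈ S` (`exists_points`) with the weights
`density_nonneg`, and over both square roots `c`, is `0`. (b) the greedy algorithm (`greedy`) gives a
sequence of points with `|∑_{i < N} (∑_g Re ((c_i, t_i) ^ (act g w)) - C w)| ≤ C_w √N` for all weights `w`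
(countably many). (c) `π p` is the `j`-th point, if `p` is the prime number with the index `j`. For a
character `m` the trace of `m` at `π p` is real, and its partial sums are
`a * (number of primes) + O (√N)`, `card * a = ∑_w m w * C w`, `a` is an integer: for irreducible `m` by `formula`,
so for all characters by `alg_irr`. (d) So the Euler product is `ζ ^ a * exp H` (`dir_ext`, `chn`, `hol_diff`). The
orders: `poleOrder_of_form`, and `a = ordE (fun w => e w.2) 0 μ` by `formula`. -/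
theorem realizeN (hn : 1 ≤ n) {e : (Fin n → ℤ) → ℤ} (he : SignType e)
    (h : ∀ x : Fin n → ℤ, x ≠ 0 → (∀ i, |x i| ≤ 2 * n - 1) → e x = 0) :
    ∃ π : GSys n, Tempered π ∧ (∀ p, (π p).c ^ 2 * ∏ i, (π p).x i = 1) ∧
      (∀ m : Wt n →₀ ℤ, IsCharacter m → ∃ g : ℂ → ℂ, MeromorphicOn g {s | 1 / 2 < s.re} ∧
        ∀ s : ℂ, 1 < s.re → HasProd (fun p : Pr => (π p).factor m (((p : ℕ) : ℂ) ^ (-s))) (g s)) ∧
      ∀ (μ : Fin n → ℤ) (m : Wt n →₀ ℤ), IsIrr 0 μ m →
        PoleOrder π m 1 (ordE (fun w => e w.2) 0 μ) := by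
  classical
  obtain ⟨θ, hθ, hsum⟩ := R1_seq he h
  have hT : Tempered (R1sys θ) := fun p => ⟨(hθ _).1, (hθ _).2.1⟩
  have hW : (0 : ℝ) < Fintype.card (WG n) := by exact_mod_cast Fintype.card_pos
  have key : ∀ m : Wt n →₀ ℤ, IsCharacter m → ∀ a : ℤ,
      (m.sum fun w z => z * R1C e w) = Fintype.card (WG n) * a →
      ∃ H : ℂ → ℂ, DifferentiableOn ℂ H {s | 1 / 2 < s.re} ∧ ∀ s : ℂ, 1 < s.re →
        HasProd (fun p : Pr => (R1sys θ p).factor m (((p : ℕ) : ℂ) ^ (-s)))
          (riemannZeta s ^ a * Complex.exp (H s)) := by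
    intro m hm a ha
    choose C hC using hsum
    refine R1_euler (C := (∑ w ∈ m.support, |(m w : ℝ)| * |C w|) / Fintype.card (WG n)) hT m a
      fun N => ?_
    have h1 : ∀ j, (m.sum fun w z => (z : ℂ) * ((θ j).ev w : ℂ)) - a =
        (((∑ w ∈ m.support, (m w : ℝ) * (∑ g : WG n, ((θ j).ev (act g w) : ℂ).re -
          (R1C e w : ℝ))) / Fintype.card (WG n) : ℝ) : ℂ) := by
      intro j
      rw [R1_trace (hθ j) hm, ← Complex.ofReal_intCast a, ← Complex.ofReal_sub]
      congr 1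
      have h2 : ((Fintype.card (WG n) : ℝ)) * a = ∑ w ∈ m.support, (m w : ℝ) * (R1C e w : ℝ) := by
        have h3 : (((m.sum fun w z => z * R1C e w : ℤ)) : ℝ) =
            ((Fintype.card (WG n) * a : ℤ) : ℝ) := by rw [ha]
        unfold Finsupp.sum at h3
        push_cast at h3
        exact h3.symm
      have h4 : (a : ℝ) = (∑ w ∈ m.support, (m w : ℝ) * (R1C e w : ℝ)) / Fintype.card (WG n) := by
        rw [← h2, mul_div_cancel_left₀ _ hW.ne']
      rw [h4, ← sub_div]
      congr 1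
      unfold Finsupp.sum
      rw [← Finset.sum_sub_distrib]
      exact Finset.sum_congr rfl fun w _ => by ring
    rw [Finset.sum_congr rfl fun j _ => h1 j, ← Complex.ofReal_sum, Complex.norm_real,
      Real.norm_eq_abs, ← Finset.sum_div, abs_div, abs_of_pos hW, div_mul_eq_mul_div]
    refine div_le_div_of_nonneg_right ?_ hW.le
    rw [Finset.sum_comm, Finset.sum_mul]
    refine (Finset.abs_sum_le_sum_abs _ _).trans (Finset.sum_le_sum fun w _ => ?_)
    rw [← Finset.mul_sum, abs_mul, mul_assoc]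
    exact mul_le_mul_of_nonneg_left ((hC w N).trans
      (mul_le_mul_of_nonneg_right (le_abs_self _) (Real.sqrt_nonneg _))) (abs_nonneg _)
  refine ⟨R1sys θ, hT, fun p => (hθ _).2.2, fun m hm => ?_, fun μ m hm => ?_⟩
  · obtain ⟨a, ha⟩ := R1_int he hm
    obtain ⟨H, hH, hp⟩ := key m hm a ha
    exact ⟨_, R1_mero hH a, hp⟩
  · obtain ⟨H, hH, hp⟩ := key m hm.isCharacter _ (R1_int_irr he hm)
    have h1 := poleOrder_of_form hH hp 0
    rw [if_pos rfl, R1_ordE] at h1
    have h2 : pt 0 = 1 := by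
      unfold pt
      simp
    rw [h2] at h1
    exact h1

end Pool.Agent.EEAN
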