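import Pool.Agent.W_eea520_n.B2b

set_option autoImplicit false

namespace Pool.Agent.EEAN

open Filter Topology Pool.Agent.EEA520 Pool.Agent.EEAG1

variable {n : ℕ}

/-- Evaluation of a weight `x` of `SO(2n+1)` at a point `t` of the compact torus. -/
noncomputable def evp (t : Fin n → ℂ) (x : Fin n → ℤ) : ℂ := ∏ i, t i ^ x i

/-- The roots of `z ^ N = η`, `η = ± 1`. Let `ζ = exp (2 π I / N)` (a primitive root, `Complex.isPrimitiveRoot_exp`),
`w = 1` if `η = 1` and `w = exp (π I / N)` if `η = -1`, `Z` the image of `j ↦ w * ζ ^ j`, `j < N`. The sum is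
`w ^ k ∑_j (ζ ^ k) ^ j` (geometric sum; `ζ ^ k = 1` if and only if `N ∣ k`, and else `(ζ ^ k) ^ N = 1`). -/
theorem R1_roots {N : ℕ} (hN : 1 ≤ N) {η : ℤ} (hη : η = 1 ∨ η = -1) :
    ∃ Z : Finset ℂ, Z.card = N ∧ (∀ z ∈ Z, z ^ N = η ∧ ‖z‖ = 1) ∧
      ∀ k : ℤ, ∑ z ∈ Z, z ^ k = if (N : ℤ) ∣ k then (N : ℂ) * (η : ℂ) ^ (k / N) else 0 := by
  classical
  have hN0 : N ≠ 0 := by omega
  obtain ⟨w, hw⟩ := IsAlgClosed.exists_pow_nat_eq (η : ℂ) (show 0 < N by omega)
  have hζ := Complex.isPrimitiveRoot_exp N hN0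
  obtain ⟨ζ, hζ'⟩ : ∃ ζ : ℂ, ζ = Complex.exp (2 * Real.pi * Complex.I / N) := ⟨_, rfl⟩
  rw [← hζ'] at hζ
  have hη1 : ‖(η : ℂ)‖ = 1 := by
    rcases hη with rfl | rfl <;> simp
  have hη0 : (η : ℂ) ≠ 0 := by
    intro h
    rw [h, norm_zero] at hη1
    norm_num at hη1
  have hw0 : w ≠ 0 := by
    rintro rfl
    rw [zero_pow hN0] at hw
    exact hη0 hw.symm
  have hζ0 : ζ ≠ 0 := hζ.ne_zero hN0
  have hinj : Set.InjOn (fun j : ℕ => w * ζ ^ j) (Finset.range N : Set ℕ) := by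
    intro i hi j hj h
    have h1 : ζ ^ i = ζ ^ j := mul_left_cancel₀ hw0 h
    exact hζ.pow_inj (Finset.mem_range.1 hi) (Finset.mem_range.1 hj) h1
  refine ⟨(Finset.range N).image fun j => w * ζ ^ j, ?_, ?_, ?_⟩
  · rw [Finset.card_image_of_injOn hinj, Finset.card_range]
  · intro z hz
    obtain ⟨j, _, rfl⟩ := Finset.mem_image.1 hz
    have h1 : (w * ζ ^ j) ^ N = η := by
      rw [mul_pow, hw, ← pow_mul, mul_comm j N, pow_mul, hζ.pow_eq_one, one_pow, mul_one]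
    refine ⟨h1, ?_⟩
    have h2 : ‖w * ζ ^ j‖ ^ N = 1 := by
      rw [← norm_pow, h1, hη1]
    exact (pow_eq_one_iff_of_nonneg (norm_nonneg _) hN0).1 h2
  · intro k
    rw [Finset.sum_image hinj]
    have h1 : ∀ j : ℕ, (w * ζ ^ j) ^ k = w ^ k * (ζ ^ k) ^ j := by
      intro j
      rw [mul_zpow, ← zpow_natCast, ← zpow_natCast, ← zpow_mul, ← zpow_mul, mul_comm k]
    rw [Finset.sum_congr rfl fun j _ => h1 j, ← Finset.mul_sum]
    split_ifs with hk
    · rw [(hζ.zpow_eq_one_iff_dvd k).2 hk]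
      simp only [one_pow, Finset.sum_const, Finset.card_range, nsmul_eq_mul, mul_one]
      obtain ⟨d, rfl⟩ := hk
      have hN' : (N : ℤ) ≠ 0 := by exact_mod_cast hN0
      rw [Int.mul_ediv_cancel_left _ hN', zpow_mul, zpow_natCast, hw, mul_comm]
    · have h2 : ζ ^ k ≠ 1 := fun h => hk ((hζ.zpow_eq_one_iff_dvd k).1 h)
      have h3 : (ζ ^ k) ^ N = 1 := by
        rw [← zpow_natCast, ← zpow_mul, mul_comm, zpow_mul, zpow_natCast, hζ.pow_eq_one, one_zpow]
      rw [geom_sum_eq h2, h3, sub_self, zero_div, mul_zero]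

/-- The sum over a product set. -/
theorem R1a_sum (Z : Finset ℂ) (x : Fin n → ℤ) :
    ∑ t ∈ Fintype.piFinset (fun _ : Fin n => Z), evp t x = ∏ i, ∑ z ∈ Z, z ^ x i := by
  rw [Finset.prod_univ_sum]
  rfl

theorem R1a_card {S : Finset (Fin n → ℂ)} : (S.card : ℂ) = ∑ t ∈ S, evp t 0 := by
  simp [evp]

theorem R1a_prod {N : ℕ} (hN : 1 ≤ N) {η : ℤ} (hη : η = 1 ∨ η = -1) (x : Fin n → ℤ) :
    (∏ i, if (N : ℤ) ∣ x i then (N : ℂ) * (η : ℂ) ^ (x i / N) else 0) =
      (N : ℂ) ^ n * (fA N η x : ℤ) := by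
  by_cases h : ∀ i, (N : ℤ) ∣ x i
  · have h1 : (∏ i, if (N : ℤ) ∣ x i then (N : ℂ) * (η : ℂ) ^ (x i / N) else 0) =
        ∏ i, (N : ℂ) * (η : ℂ) ^ (x i / N) := Finset.prod_congr rfl fun i _ => if_pos (h i)
    have hη0 : (η : ℂ) ≠ 0 := by
      rcases hη with rfl | rfl <;> simp
    have h2 : (∏ i, (η : ℂ) ^ (x i / N)) = (η : ℂ) ^ (∑ i, x i / N) := by
      induction (Finset.univ : Finset (Fin n)) using Finset.induction_on with
      | empty => simp
      | insert a s ha ih => rw [Finset.prod_insert ha, Finset.sum_insert ha, ih, zpow_add₀ hη0]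
    rw [h1, Finset.prod_mul_distrib, Finset.prod_const, Finset.card_univ, Fintype.card_fin, h2]
    congr 1
    unfold fA
    rw [if_pos h]
    have h3 : ∑ i, x i = N * ∑ i, x i / N := by
      rw [Finset.mul_sum]
      exact Finset.sum_congr rfl fun i _ => (Int.mul_ediv_cancel' (h i)).symm
    have hN' : (N : ℤ) ≠ 0 := by
      have : N ≠ 0 := by omega
      exact_mod_cast this
    have h4 : (2 * N : ℤ) ∣ ∑ i, x i ↔ Even (∑ i, x i / N) := by
      rw [h3, mul_comm (2 : ℤ), even_iff_two_dvd]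
      exact Int.mul_dvd_mul_iff_left hN'
    split_ifs with h5
    · rcases hη with rfl | rfl
      · simp
      · have h6 : Even (∑ i, x i / N) := h4.1 h5
        push_cast
        exact h6.neg_one_zpow
    · rcases hη with rfl | rfl
      · simp
      · have h6 : Odd (∑ i, x i / N) := Int.not_even_iff_odd.1 fun h7 => h5 (h4.2 h7)
        push_cast
        exact h6.neg_one_zpow
  · unfold fA
    rw [if_neg h]
    push Not at h
    obtain ⟨i, hi⟩ := h
    rw [Finset.prod_eq_zero (Finset.mem_univ i) (if_neg hi)]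
    simp

/-- The points of type `fA N η`, `η = ± 1`. -/
theorem R1a_pointsA {N : ℕ} (hN : 1 ≤ N) {η : ℤ} (hη : η = 1 ∨ η = -1) :
    ∃ S : Finset (Fin n → ℂ), S.card = N ^ n ∧ (∀ t ∈ S, ∀ i, ‖t i‖ = 1 ∧ t i ^ N = η) ∧
      ∀ x, ∑ t ∈ S, evp t x = (N : ℂ) ^ n * (fA N η x : ℤ) := by
  classical
  obtain ⟨Z, hZ1, hZ2, hZ3⟩ := R1_roots hN hη
  refine ⟨Fintype.piFinset fun _ => Z, ?_, ?_, ?_⟩
  · rw [Fintype.card_piFinset_const, hZ1]
  · intro t ht i
    have h1 := hZ2 (t i) (Fintype.mem_piFinset.1 ht i)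
    exact ⟨h1.2, h1.1⟩
  · intro x
    rw [R1a_sum, ← R1a_prod hN hη]
    exact Finset.prod_congr rfl fun i _ => hZ3 (x i)

theorem R1a_zero {N : ℕ} (η : ℤ) (x : Fin n → ℤ) (hx : x = 0) : fA N η x = 1 := by
  subst hx
  simp [fA]

theorem R1a_half {N : ℕ} (x : Fin n → ℤ) : fA N 1 x + fA N (-1) x = 2 * fA N 0 x := by
  unfold fA
  split_ifs <;> norm_num

/-- Two types with the same points. -/
theorem R1a_of {S : Finset (Fin n → ℂ)} {c : ℂ} (hc : c ≠ 0) {e : (Fin n → ℤ) → ℤ}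
    (he0 : e 0 = 1) (h : ∀ x, ∑ t ∈ S, evp t x = c * e x) :
    S.Nonempty ∧ ∀ x, ∑ t ∈ S, evp t x = S.card * e x := by
  have h1 : (S.card : ℂ) = c := by
    rw [R1a_card, h, he0]
    simp
  refine ⟨?_, fun x => by rw [h, h1]⟩
  rw [← Finset.card_pos]
  have h2 : S.card ≠ 0 := by
    intro h3
    rw [h3] at h1
    exact hc (by rw [← h1]; simp)
  omega

theorem R1a_evp_add (t : Fin n → ℂ) (ht : ∀ i, t i ≠ 0) (x : Fin n → ℤ) (N : ℕ) :
    evp t x * ∏ i, t i ^ N = evp t (fun i => x i + N) := by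
  unfold evp
  rw [← Finset.prod_mul_distrib]
  refine Finset.prod_congr rfl fun i _ => ?_
  rw [zpow_add₀ (ht i), zpow_natCast]

/-- The indicator functions. -/
theorem R1a_fR {N : ℕ} (hN : 1 ≤ N) (hn : n ≠ 0) (η : ℤ) (x : Fin n → ℤ) :
    fA (2 * N) 1 x + η * fA (2 * N) 1 (fun i => x i + N) = fR N η x := by
  have hN' : (0 : ℤ) < N := by exact_mod_cast hN
  have i0 : Fin n := ⟨0, Nat.pos_of_ne_zero hn⟩
  have hA : ∀ y : Fin n → ℤ, fA (2 * N) 1 y = if ∀ i, (2 * N : ℤ) ∣ y i then 1 else 0 := by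
    intro y
    unfold fA
    push_cast
    split_ifs <;> rfl
  rw [hA, hA]
  have hnd : ¬ (2 * N : ℤ) ∣ N := by
    intro h
    have h1 := Int.le_of_dvd hN' h
    omega
  have h12 : (∀ i, (2 * N : ℤ) ∣ x i) → ¬ ∀ i, (2 * N : ℤ) ∣ x i + N := by
    intro h1 h2
    exact hnd ((dvd_add_right (h1 i0)).1 (h2 i0))
  have hR : fR N η x = if ∀ i, (2 * N : ℤ) ∣ x i then 1 else
      if ∀ i, (2 * N : ℤ) ∣ x i + N then η else 0 := by
    unfold fR
    have hNN : (N : ℤ) ∣ 2 * N := Dvd.intro_left 2 rfl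
    by_cases h1 : ∀ i, (2 * N : ℤ) ∣ x i
    · rw [if_pos ⟨fun i => hNN.trans (h1 i), fun i j => dvd_sub (h1 i) (h1 j)⟩, if_pos h1, if_pos h1]
    · by_cases h2 : ∀ i, (2 * N : ℤ) ∣ x i + N
      · have h6 : (∀ i, (N : ℤ) ∣ x i) ∧ ∀ i j, (2 * N : ℤ) ∣ x i - x j := by
          refine ⟨fun i => ?_, fun i j => ?_⟩
          · exact (dvd_add_left (dvd_refl (N : ℤ))).1 (hNN.trans (h2 i))
          · have h3 := dvd_sub (h2 i) (h2 j)
            rw [add_sub_add_right_eq_sub] at h3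
            exact h3
        simp only [if_neg h1, if_pos h2, if_pos h6]
      · suffices h6 : ¬ ((∀ i, (N : ℤ) ∣ x i) ∧ ∀ i j, (2 * N : ℤ) ∣ x i - x j) by
          simp only [if_neg h1, if_neg h2, if_neg h6]
        rintro ⟨h3, h4⟩
        obtain ⟨c, hc⟩ := h3 i0
        rcases Int.even_or_odd' c with ⟨d, hd | hd⟩
        · apply h1
          intro i
          have h5 : (2 * N : ℤ) ∣ x i0 := ⟨d, by rw [hc, hd]; ring⟩
          have h6 := dvd_add (h4 i i0) h5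
          rw [sub_add_cancel] at h6
          exact h6
        · apply h2
          intro i
          have h5 : (2 * N : ℤ) ∣ x i0 + N := ⟨d + 1, by rw [hc, hd]; ring⟩
          have h6 := dvd_add (h4 i i0) h5
          have h7 : x i - x i0 + (x i0 + N) = x i + N := by ring
          rw [h7] at h6
          exact h6
  rw [hR]
  by_cases h1 : ∀ i, (2 * N : ℤ) ∣ x i
  · rw [if_pos h1, if_pos h1, if_neg (h12 h1)]
    ring
  · rw [if_neg h1, if_neg h1]
    split_ifs <;> ring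

/-- The points of type `fR N η`. -/
theorem R1a_pointsR {N : ℕ} (hN : 1 ≤ N) (hn : n ≠ 0) {η : ℤ} (hη : η = 1 ∨ η = -1) :
    ∃ S : Finset (Fin n → ℂ), (∀ t ∈ S, ∀ i, ‖t i‖ = 1) ∧
      ∀ x, ∑ t ∈ S, evp t x = ((2 * N : ℕ) : ℂ) ^ n / 2 * (fR N η x : ℤ) := by
  classical
  obtain ⟨S, _, hS2, hS3⟩ := R1a_pointsA (n := n) (N := 2 * N) (by omega) (η := 1) (Or.inl rfl)
  refine ⟨S.filter fun t => ∏ i, t i ^ N = (η : ℂ), ?_, ?_⟩
  · intro t ht i
    exact (hS2 t (Finset.mem_filter.1 ht).1 i).1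
  · intro x
    rw [Finset.sum_filter]
    have h1 : ∀ t ∈ S, (if ∏ i, t i ^ N = (η : ℂ) then evp t x else 0) =
        (evp t x + η * evp t (fun i => x i + N)) / 2 := by
      intro t ht
      have ht0 : ∀ i, t i ≠ 0 := by
        intro i h
        have h2 := (hS2 t ht i).1
        rw [h, norm_zero] at h2
        norm_num at h2
      rw [← R1a_evp_add t ht0]
      have h3 : (∏ i, t i ^ N) ^ 2 = 1 := by
        rw [← Finset.prod_pow]
        refine Finset.prod_eq_one fun i _ => ?_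
        rw [← pow_mul, mul_comm N 2, (hS2 t ht i).2]
        simp
      rcases eq_or_eq_neg_of_sq_eq_sq _ (1 : ℂ) (by rw [h3, one_pow]) with h4 | h4 <;>
        rcases hη with rfl | rfl <;> rw [h4] <;> norm_num
    rw [Finset.sum_congr rfl h1, ← Finset.sum_div, Finset.sum_add_distrib, ← Finset.mul_sum, hS3,
      hS3, ← R1a_fR hN hn]
    push_cast
    ring

/-- Points. For `fA N η`, `η = ± 1`: all `t` with `t i ^ N = η` for all `i` (`Fintype.piFinset`,
`Finset.prod_univ_sum`, `R1_roots`). For `fA N 0`: all `t` with `t i ^ N = 1` for all `i`, and all `t` with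
`t i ^ N = -1` for all `i` (disjoint if `n ≠ 0`; if `n = 0`, then `e x = 1` for all `x` for all types). For
`fR N η`: all `t` with `t i ^ (2 N) = 1`, `∏ t i ^ N = η`: the indicator function of `∏ t i ^ N = η` is
`(1 + η ∏ t i ^ N) / 2` on the `t` with `t i ^ (2 N) = 1`; the sum is `((2 N) ^ n / 2) * ([2 N ∣ x i for all i] +
η [2 N ∣ x i + N for all i])`. For `fST`: the points of `fA N 1` for `N` larger than all the `|x i|`,
`x ∈ F` (then `fA N 1 x = fST x` for `x ∈ F`). -/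
theorem exists_points {e : (Fin n → ℤ) → ℤ} (he : SignType e) (F : Finset (Fin n → ℤ)) :
    ∃ S : Finset (Fin n → ℂ), S.Nonempty ∧ (∀ t ∈ S, ∀ i, ‖t i‖ = 1) ∧
      ∀ x ∈ F, ∑ t ∈ S, evp t x = S.card * e x := by
  classical
  by_cases hn : n = 0
  · subst hn
    have hall : ∀ x : Fin 0 → ℤ, e x = 1 := by
      intro x
      rcases he with rfl | ⟨N, _, ⟨η, _, rfl⟩ | ⟨η, _, rfl⟩⟩
      · unfold fST
        rw [if_pos (Subsingleton.elim _ _)]
      · exact R1a_zero η x (Subsingleton.elim _ _)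
      · unfold fR
        rw [if_pos ⟨fun i => i.elim0, fun i => i.elim0⟩, if_pos fun i => i.elim0]
    refine ⟨{default}, Finset.singleton_nonempty _, fun t _ i => i.elim0, fun x _ => ?_⟩
    rw [Finset.sum_singleton, hall, Finset.card_singleton]
    simp [evp]
  rcases he with rfl | ⟨N, hN, ⟨η, hη, rfl⟩ | ⟨η, hη, rfl⟩⟩
  · -- the type `fST`
    obtain ⟨N, hN⟩ : ∃ N : ℕ, ∀ x ∈ F, ∀ i, |x i| < N := by
      refine ⟨F.sum (fun x => ∑ i, (x i).natAbs) + 1, fun x hx i => ?_⟩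
      have h1 : (x i).natAbs ≤ ∑ i, (x i).natAbs :=
        Finset.single_le_sum (f := fun i => (x i).natAbs) (fun _ _ => Nat.zero_le _)
          (Finset.mem_univ i)
      have h2 : ∑ i, (x i).natAbs ≤ F.sum (fun x => ∑ i, (x i).natAbs) :=
        Finset.single_le_sum (f := fun x : Fin n → ℤ => ∑ i, (x i).natAbs)
          (fun _ _ => Nat.zero_le _) hx
      rw [Int.abs_eq_natAbs]
      push_cast
      have h3 : (((x i).natAbs : ℕ) : ℤ) ≤ ((F.sum (fun x => ∑ i, (x i).natAbs) : ℕ) : ℤ) := by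
        exact_mod_cast h1.trans h2
      push_cast at h3
      linarith
    have hN1 : 1 ≤ N + 1 := by omega
    obtain ⟨S, _, hS2, hS3⟩ := R1a_pointsA (n := n) hN1 (η := 1) (Or.inl rfl)
    obtain ⟨h1, h2⟩ := R1a_of (S := S) (c := ((N + 1 : ℕ) : ℂ) ^ n)
      (pow_ne_zero _ (by exact_mod_cast (by omega : N + 1 ≠ 0))) (e := fA (N + 1) 1)
      (R1a_zero 1 0 rfl) hS3
    refine ⟨S, h1, fun t ht i => (hS2 t ht i).1, fun x hx => ?_⟩
    rw [h2]
    congr 2
    unfold fA fST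
    by_cases hx0 : x = 0
    · subst hx0
      simp
    · rw [if_neg hx0, if_neg]
      intro h3
      apply hx0
      funext i
      have h4 := hN x hx i
      have h5 : |x i| < ((N + 1 : ℕ) : ℤ) := by
        push_cast
        linarith
      exact Int.eq_zero_of_abs_lt_dvd (h3 i) h5
  · -- the type `fA`
    have hc0 : ((N : ℕ) : ℂ) ^ n ≠ 0 := pow_ne_zero _ (by exact_mod_cast (by omega : N ≠ 0))
    rcases hη with hη | hη | rfl
    · obtain ⟨S, _, hS2, hS3⟩ := R1a_pointsA (n := n) hN (η := η) (Or.inl hη)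
      obtain ⟨h1, h2⟩ := R1a_of hc0 (R1a_zero η 0 rfl) hS3
      exact ⟨S, h1, fun t ht i => (hS2 t ht i).1, fun x _ => h2 x⟩
    · obtain ⟨S, _, hS2, hS3⟩ := R1a_pointsA (n := n) hN (η := η) (Or.inr hη)
      obtain ⟨h1, h2⟩ := R1a_of hc0 (R1a_zero η 0 rfl) hS3
      exact ⟨S, h1, fun t ht i => (hS2 t ht i).1, fun x _ => h2 x⟩
    · obtain ⟨S, _, hS2, hS3⟩ := R1a_pointsA (n := n) hN (η := 1) (Or.inl rfl)
      obtain ⟨T, _, hT2, hT3⟩ := R1a_pointsA (n := n) hN (η := -1) (Or.inr rfl)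
      have hd : Disjoint S T := by
        rw [Finset.disjoint_left]
        intro t ht ht'
        have i0 : Fin n := ⟨0, Nat.pos_of_ne_zero hn⟩
        have h1 := (hS2 t ht i0).2
        rw [(hT2 t ht' i0).2] at h1
        norm_num at h1
      have h3 : ∀ x, ∑ t ∈ S ∪ T, evp t x = 2 * ((N : ℕ) : ℂ) ^ n * (fA N 0 x : ℤ) := by
        intro x
        rw [Finset.sum_union hd, hS3, hT3, ← mul_add, ← Int.cast_add, R1a_half]
        push_cast
        ring
      obtain ⟨h1, h2⟩ := R1a_of (mul_ne_zero two_ne_zero hc0) (R1a_zero 0 0 rfl) h3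
      refine ⟨S ∪ T, h1, fun t ht i => ?_, fun x _ => h2 x⟩
      rcases Finset.mem_union.1 ht with h | h
      · exact (hS2 t h i).1
      · exact (hT2 t h i).1
  · -- the type `fR`
    obtain ⟨S, hS2, hS3⟩ := R1a_pointsR (n := n) hN hn hη
    have hc0 : ((2 * N : ℕ) : ℂ) ^ n / 2 ≠ 0 :=
      div_ne_zero (pow_ne_zero _ (by exact_mod_cast (by omega : 2 * N ≠ 0))) two_ne_zero
    have h0 : fR N η (0 : Fin n → ℤ) = 1 := by
      simp [fR]
    obtain ⟨h1, h2⟩ := R1a_of hc0 h0 hS3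
    exact ⟨S, h1, hS2, fun x _ => h2 x⟩

end Pool.Agent.EEAN
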