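import Pool.Agent.W_eea520_n.R1_a

set_option autoImplicit false

namespace Pool.Agent.EEAN

open Filter Topology Pool.Agent.EEA520 Pool.Agent.EEAG1

variable {n : ℕ}

theorem R1a2_ne {t : Fin n → ℂ} (ht : ∀ i, ‖t i‖ = 1) (i : Fin n) : t i ≠ 0 := by
  intro h0
  have h1 := ht i
  rw [h0, norm_zero] at h1
  exact zero_ne_one h1

theorem R1a2_add {t : Fin n → ℂ} (ht : ∀ i, ‖t i‖ = 1) (x y : Fin n → ℤ) :
    evp t (x + y) = evp t x * evp t y := by
  unfold evp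
  rw [← Finset.prod_mul_distrib]
  refine Finset.prod_congr rfl fun i _ => ?_
  rw [Pi.add_apply, zpow_add₀ (R1a2_ne ht i)]

theorem R1a2_zero (t : Fin n → ℂ) : evp t 0 = 1 := by
  unfold evp
  exact Finset.prod_eq_one fun i _ => zpow_zero _

theorem R1a2_neg {t : Fin n → ℂ} (ht : ∀ i, ‖t i‖ = 1) (x : Fin n → ℤ) :
    evp t (-x) = (starRingEnd ℂ) (evp t x) := by
  unfold evp
  rw [map_prod]
  refine Finset.prod_congr rfl fun i _ => ?_
  rw [Pi.neg_apply, zpow_neg, map_zpow₀, ← Complex.inv_eq_conj (ht i), inv_zpow]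

/-- Evaluation at `t` as a ring homomorphism. -/
noncomputable def R1a2_hom (t : Fin n → ℂ) (ht : ∀ i, ‖t i‖ = 1) :
    AddMonoidAlgebra ℤ (Fin n → ℤ) →ₐ[ℤ] ℂ :=
  AddMonoidAlgebra.lift ℤ ℂ (Fin n → ℤ)
    { toFun := fun x => evp t x.toAdd
      map_one' := R1a2_zero t
      map_mul' := fun x y => R1a2_add ht x.toAdd y.toAdd }

theorem R1a2_hom_apply (t : Fin n → ℂ) (ht : ∀ i, ‖t i‖ = 1)
    (a : AddMonoidAlgebra ℤ (Fin n → ℤ)) :
    R1a2_hom t ht a = a.coeff.sum fun x z => (z : ℂ) * evp t x := by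
  unfold R1a2_hom
  rw [AddMonoidAlgebra.lift_apply']
  rfl

theorem R1a2_hom_single (t : Fin n → ℂ) (ht : ∀ i, ‖t i‖ = 1) (x : Fin n → ℤ) :
    R1a2_hom t ht (AddMonoidAlgebra.single x 1) = evp t x := by
  unfold R1a2_hom
  rw [AddMonoidAlgebra.lift_single, one_smul]
  rfl

theorem R1a2_ddA (t : Fin n → ℂ) (ht : ∀ i, ‖t i‖ = 1) (l : List (Fin n → ℤ)) :
    ∃ r : ℝ, 0 ≤ r ∧ R1a2_hom t ht (ddA l) = r := by
  induction l with
  | nil =>
    refine ⟨1, zero_le_one, ?_⟩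
    unfold ddA
    rw [List.map_nil, List.prod_nil, map_one, Complex.ofReal_one]
  | cons γ l ih =>
    obtain ⟨r, hr, h⟩ := ih
    unfold ddA at h ⊢
    refine ⟨Complex.normSq (1 - evp t γ) * r, mul_nonneg (Complex.normSq_nonneg _) hr, ?_⟩
    rw [List.map_cons, List.prod_cons, map_mul, h, map_mul, map_sub, map_sub, map_one,
      R1a2_hom_single, R1a2_hom_single, R1a2_neg ht, Complex.ofReal_mul, ← Complex.mul_conj,
      map_sub, map_one]

/-- Weyl's density is not negative: it is `∏ |1 - t ^ γ| ^ 2`. Evaluate `ddA l` by the ring homomorphism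
`AddMonoidAlgebra ℤ (Fin n → ℤ) → ℂ` with `single x 1 ↦ evp t x` (`AddMonoidAlgebra.lift`), or induction on `l`;
`evp t (-γ)` is the complex conjugate of `evp t γ`. -/
theorem density_nonneg (l : List (Fin n → ℤ)) {t : Fin n → ℂ} (ht : ∀ i, ‖t i‖ = 1) :
    ∃ r : ℝ, 0 ≤ r ∧ ((dd l).sum fun x z => (z : ℂ) * evp t x) = r := by
  obtain ⟨r, hr, h⟩ := R1a2_ddA t ht l
  refine ⟨r, hr, ?_⟩
  rw [← h, R1a2_hom_apply]
  rfl

end Pool.Agent.EEAN
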