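import Pool.Agent.W_eea520_G.S1

set_option autoImplicit false

namespace Pool.Agent.EEAN

open Filter Topology Pool.Agent.EEA520 Pool.Agent.EEAG1

theorem R1b_equiv : Nonempty (ℝ ≃ (ℕ → ℝ) × ℕ) := by
  rw [← Cardinal.eq, Cardinal.mk_prod, Cardinal.lift_id, Cardinal.lift_id, Cardinal.mk_real,
    Cardinal.mk_nat, ← Cardinal.power_def, Cardinal.mk_real, Cardinal.mk_nat,
    Cardinal.continuum_power_aleph0, Cardinal.continuum_mul_aleph0]

/-- The greedy algorithm, for an arbitrary set `α` of arguments and an arbitrary bound `B`: apply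
`Pool.Agent.EEA520.greedy` (`W_eea520_G/S1.lean`) to `(4 / B) * F`, with the choices of arguments
parametrised by the real numbers. -/
theorem R1_greedy {α : Type} {F : ℕ → α → ℝ} {B : ℝ} (hB : 0 < B) (hF : ∀ k x, |F k x| ≤ B)
    (h : ∀ (b : ℕ → ℝ) (n : ℕ), ∃ x, ∑ k ∈ Finset.range n, b k * F k x ≤ 0) :
    ∃ θ : ℕ → α, ∀ k, ∃ C : ℝ, ∀ n : ℕ,
      |∑ i ∈ Finset.range n, F k (θ i)| ≤ C * Real.sqrt n := by
  choose sel hsel using h
  obtain ⟨e⟩ := R1b_equiv
  obtain ⟨θ, hθ⟩ := greedy (F := fun k x => 4 / B * F k (sel (e x).1 (e x).2))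
    (fun k x => by
      rw [abs_mul, abs_of_pos (div_pos four_pos hB)]
      calc 4 / B * |F k (sel (e x).1 (e x).2)| ≤ 4 / B * B :=
            mul_le_mul_of_nonneg_left (hF _ _) (div_pos four_pos hB).le
        _ = 4 := div_mul_cancel₀ _ hB.ne')
    (fun b n => ⟨e.symm (b, n), by
      have h1 := hsel b n
      have h2 : ∑ k ∈ Finset.range n, b k * (4 / B * F k (sel (e (e.symm (b, n))).1
          (e (e.symm (b, n))).2)) = 4 / B * ∑ k ∈ Finset.range n, b k * F k (sel b n) := by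
        rw [Finset.mul_sum]
        refine Finset.sum_congr rfl fun k _ => ?_
        rw [e.apply_symm_apply]
        ring
      rw [h2]
      exact mul_nonpos_of_nonneg_of_nonpos (div_pos four_pos hB).le h1⟩)
  refine ⟨fun i => sel (e (θ i)).1 (e (θ i)).2, fun k => ?_⟩
  obtain ⟨C, hC⟩ := hθ k
  refine ⟨B / 4 * C, fun n => ?_⟩
  have h1 := hC n
  rw [← Finset.mul_sum, abs_mul, abs_of_pos (div_pos four_pos hB)] at h1
  have h2 := mul_le_mul_of_nonneg_left h1 (div_pos hB four_pos).le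
  have h3 : B / 4 * (4 / B * |∑ i ∈ Finset.range n, F k (sel (e (θ i)).1 (e (θ i)).2)|) =
      |∑ i ∈ Finset.range n, F k (sel (e (θ i)).1 (e (θ i)).2)| := by
    field_simp
  rw [h3] at h2
  linarith

end Pool.Agent.EEAN
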